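import Mathlib

/-!
# Rank one perturbations: definitions and module statements

Each `X_Stmt : Prop` below is the exact statement of a module. A module file proves
`theorem X : X_Stmt`. Modules take the statements of earlier modules as hypotheses.
-/

set_option autoImplicit false

open MeasureTheory Metric Set

namespace Pool.Agent.RankOne

/-- the `∂̄` derivative of a real differentiable function -/
noncomputable def dbar (Φ : ℂ → ℂ) (z : ℂ) : ℂ :=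
  (1 / 2 : ℂ) * (fderiv ℝ Φ z 1 + Complex.I * fderiv ℝ Φ z Complex.I)

/-- `F(z) = 1 + ∫ c / (φ - z) dm` -/
noncomputable def FF {X : Type*} [MeasurableSpace X] (m : Measure X) (c φ : X → ℂ) (z : ℂ) : ℂ :=
  1 + ∫ x, c x / (φ x - z) ∂m

/-- bounded measurable functions -/
def BM {X : Type*} [MeasurableSpace X] (b : X → ℂ) : Prop :=
  Measurable b ∧ ∃ C : ℝ, ∀ x, ‖b x‖ ≤ C

/-- Standing data: a finite measure, a unimodular measurable `c` and a bounded measurable `φ`. -/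
structure Data {X : Type*} [MeasurableSpace X] (m : Measure X) (c φ : X → ℂ) : Prop where
  fin : IsFiniteMeasure m
  cmeas : Measurable c
  cnorm : ∀ x, ‖c x‖ = 1
  phi : BM φ

/-! ### Module A -/

/-- A1: kernel bound; `ρ / max ρ s = min 1 (ρ / s)`. -/
def A1_Stmt : Prop := ∀ (w a : ℂ) (ρ : ℝ), 0 < ρ →
  IntegrableOn (fun z : ℂ => ‖w - z‖⁻¹) (closedBall a ρ) ∧
  (∫ z in closedBall a ρ, ‖w - z‖⁻¹) ≤ 3 * Real.pi * ρ ∧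
  (∫ z in closedBall a ρ, ‖w - z‖⁻¹) ≤ 6 * Real.pi * ρ * (ρ / max ρ ‖w - a‖)

/-- A2: local integrability of `F` with bounds. -/
def A2_Stmt.{u} : Prop := ∀ (X : Type u) [MeasurableSpace X] (m : Measure X) (c φ : X → ℂ),
  Data m c φ → AEStronglyMeasurable (FF m c φ) (volume : Measure ℂ) ∧
  ∀ (a : ℂ) (ρ : ℝ), 0 < ρ → IntegrableOn (FF m c φ) (closedBall a ρ) ∧
  (∫ z in closedBall a ρ, ‖FF m c φ z‖) ≤
    Real.pi * ρ ^ 2 + 6 * Real.pi * ρ * ∫ x, ρ / max ρ ‖φ x - a‖ ∂m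

/-- A3: Cauchy-Pompeiu and its consequence for `F`. -/
def A3_Stmt.{u} : Prop := ∀ (Φ : ℂ → ℂ), ContDiff ℝ 1 Φ → HasCompactSupport Φ →
  (∫ z, dbar Φ z) = 0 ∧ (∀ w : ℂ, (∫ z, dbar Φ z / (w - z)) = Real.pi * Φ w) ∧
  ∀ (X : Type u) [MeasurableSpace X] (m : Measure X) (c φ : X → ℂ), Data m c φ →
    Integrable (fun z => FF m c φ z * dbar Φ z) ∧
    (∫ z, FF m c φ z * dbar Φ z) = Real.pi * ∫ x, c x * Φ (φ x) ∂m

/-- A4: Fubini pairing. -/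
def A4_Stmt.{u} : Prop := ∀ (X : Type u) [MeasurableSpace X] (m : Measure X) (c φ : X → ℂ),
  Data m c φ → ∀ (lam : ℂ) (r : ℝ), 0 < r → ∀ G : ℂ → ℂ, BM G →
    BM (fun w : ℂ => ∫ z in closedBall lam r, G z / (w - z)) ∧
    (∀ M : ℝ, (∀ z, ‖G z‖ ≤ M) → ∀ w : ℂ,
      ‖∫ z in closedBall lam r, G z / (w - z)‖ ≤ 3 * Real.pi * r * M) ∧
    (∫ x, c x * (∫ z in closedBall lam r, G z / (φ x - z)) ∂m) =
      ∫ z in closedBall lam r, G z * (FF m c φ z - 1)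

/-! ### Module B : the root function -/

/-- explicit form of `√((z - lam)(z - y))` near infinity -/
noncomputable def gext (lam y z : ℂ) : ℂ := (z - lam) * (1 - (y - lam) / (z - lam)) ^ (1 / 2 : ℂ)

/-- B1: `√((z-lam)(z-y))` analytic outside `O`. -/
def B1_Stmt : Prop := ∀ (O : Set ℂ) (lam y : ℂ) (ρ : ℝ), 0 < ρ → O ⊆ ball lam ρ → lam ∈ O →
  Relation.ReflTransGen (fun a b : ℂ => segment ℝ a b ⊆ O) lam y →
  ∃ g : ℂ → ℂ, (∀ z, z ∉ O → AnalyticAt ℂ g z ∧ g z ^ 2 = (z - lam) * (z - y)) ∧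
    ∀ z, ρ ≤ ‖z - lam‖ → g z = gext lam y z

/-- B2: the leading coefficient is nonzero for `y` close to `lam`. -/
def B2_Stmt : Prop := ∀ (χ : ℂ → ℂ) (lam : ℂ) (ρ : ℝ), 0 < ρ → ContDiff ℝ 1 χ →
  HasCompactSupport χ → (∀ z ∈ ball lam ρ, χ z = 1) →
  ∃ δ > 0, δ ≤ ρ ∧ ∀ y : ℂ, y ≠ lam → ‖y - lam‖ < δ →
    BM (fun z => gext lam y z * dbar χ z) ∧ (∫ z, gext lam y z * dbar χ z) ≠ 0

/-! ### Module C : entire functions -/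

/-- C1: area of the set where an analytic function is small (Jensen). -/
def C1_Stmt : Prop := ∀ (p : ℂ → ℂ), Differentiable ℂ p → ∀ (a : ℂ) (ρ t τ M θ : ℝ), 0 < ρ →
  0 < τ → τ < t → t ≤ ‖p a‖ → (∀ z ∈ closedBall a ρ, ‖p z‖ ≤ M) → τ < M →
  Real.log (M / t) ≤ θ * Real.log (M / τ) →
  volume.real {z ∈ closedBall a ρ | ‖p z‖ < τ} ≤ θ * (Real.pi * ρ ^ 2)

/-- C2: chains in superlevel sets are unbounded. -/
def C2_Stmt : Prop := ∀ (p : ℂ → ℂ), Differentiable ℂ p → ∀ (x : ℂ) (t : ℝ), t < ‖p x‖ →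
  ∀ ε > 0, ∀ R₀ : ℝ, ∃ (N : ℕ) (y : ℕ → ℂ), y 0 = x ∧ (∀ i ≤ N, t < ‖p (y i)‖) ∧
    (∀ i < N, ‖y (i + 1) - y i‖ < ε) ∧ R₀ ≤ ‖y N‖

/-! ### Module E : the local lemma -/

/-- E: if `p F` is small in `L¹` and `‖p‖ ≥ τ` off a small set, then `F` is small in `L¹`. -/
def E_Stmt.{u} : Prop := ∀ (X : Type u) [MeasurableSpace X] (m : Measure X) (c φ : X → ℂ),
  Data m c φ → ∀ (p : ℂ → ℂ), Continuous p → ∀ (a : ℂ) (ρ τ : ℝ), 0 < ρ → 0 < τ →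
  volume.real {z ∈ closedBall a ρ | ‖p z‖ < τ} ≤ (1 / 6) * (Real.pi * ρ ^ 2) →
  (∫ z in closedBall a ρ, ‖p z * FF m c φ z‖) ≤ 1 →
  (∫ z in closedBall a ρ, ‖FF m c φ z‖) ≤
    2 / τ + 40 * Real.pi * ρ * ∫ x, (2 * ρ / max (2 * ρ) ‖φ x - a‖) ^ 3 ∂m

/-! ### Module F : exploration -/

noncomputable def tt (k : ℕ) : ℝ := 2 ^ (64 * k ^ 3)
noncomputable def hh (k : ℕ) : ℝ := (1 / 2) ^ (8 * k ^ 3)
noncomputable def kap (n : ℕ) : ℝ := (1 / 2) ^ n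

/-- good points of level `k` -/
def Good (p : ℂ → ℂ) (k : ℕ) (a : ℂ) : Prop :=
  tt k < ‖p a‖ ∧ ∀ z ∈ closedBall a (16 * hh k), ‖p z‖ ≤ tt (k + 1)

/-- `W_κ(s) = min(1, 2κ/s)` for `s ≥ κ/4`, and `0` otherwise -/
noncomputable def Wt (κ s : ℝ) : ℝ := if κ / 4 ≤ s then 2 * κ / max (2 * κ) s else 0

/-- A stage: its level `k`, its first point, the list of its further points (which are good),
and the exponent of `κ = 2^{-n}`. -/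
structure Stage where
  k : ℕ
  first : ℂ
  rest : List ℂ
  n : ℕ

/-- all points of a stage, in order -/
def Stage.pts (s : Stage) : List ℂ := s.first :: s.rest

/-- the radius `κ` of a stage -/
noncomputable def Stage.kp (s : Stage) : ℝ := kap s.n

structure StageOK {X : Type*} [MeasurableSpace X] (m : Measure X) (φ : X → ℂ) (p : ℂ → ℂ)
    (lam : ℂ) (R : ℝ) (s : Stage) : Prop where
  good : ∀ a ∈ s.rest, Good p s.k a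
  chain : List.IsChain (fun a b : ℂ => ‖a - b‖ < hh s.k) s.pts
  rng1 : s.k ^ 3 ≤ s.n
  rng2 : s.n < (s.k + 1) ^ 3
  inball : ∀ a ∈ s.pts, ‖a - lam‖ ≤ 2 * R
  pig : (∫ x, Wt s.kp (infDist (φ x) {a | a ∈ s.pts}) ∂m) ≤
    8 * m.real univ / ((s.k + 1 : ℝ) ^ 3 - (s.k : ℝ) ^ 3)

/-- A branch (latest stage first) which starts at `z₀` with level `k₀`. -/
def Branch {X : Type*} [MeasurableSpace X] (m : Measure X) (φ : X → ℂ) (p : ℂ → ℂ)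
    (lam : ℂ) (R : ℝ) (z₀ : ℂ) (k₀ : ℕ) : List Stage → Prop
  | [] => False
  | [s] => StageOK m φ p lam R s ∧ s.k = k₀ ∧ s.first = z₀
  | s :: s' :: L => StageOK m φ p lam R s ∧ s'.k < s.k ∧
      (∃ a ∈ s'.pts, ‖s.first - a‖ ≤ s'.kp) ∧
      (∀ s'' ∈ s' :: L, ∀ a ∈ s.pts, ∀ b ∈ s''.pts, 3 / 4 * s''.kp ≤ ‖a - b‖) ∧
      Branch m φ p lam R z₀ k₀ (s' :: L)

/-- F: existence of a branch which reaches distance `R` from `lam`. -/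
def F_Stmt.{u} : Prop := ∀ (X : Type u) [MeasurableSpace X] (m : Measure X) (φ : X → ℂ),
  IsFiniteMeasure m → Measurable φ → ∀ (p : ℂ → ℂ), Differentiable ℂ p →
  ∀ (lam z₀ : ℂ) (R : ℝ) (k₀ : ℕ), 0 < R → 4 ≤ k₀ → kap k₀ ≤ R / 4 → ‖z₀ - lam‖ < R →
  tt k₀ < ‖p z₀‖ →
  ∃ (s : Stage) (L : List Stage), Branch m φ p lam R z₀ k₀ (s :: L) ∧
    ∃ b ∈ s.pts, R ≤ ‖b - lam‖

/-! ### Module R : duality, representation, blow-up -/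

/-- D: `L¹`-`L^∞` duality for a functional defined on a vector space of functions. -/
def D_Stmt.{u, v, w} : Prop := ∀ (Y₁ : Type u) [MeasurableSpace Y₁] (μ₁ : Measure Y₁)
  (Y₂ : Type v) [MeasurableSpace Y₂] (μ₂ : Measure Y₂), IsFiniteMeasure μ₁ → IsFiniteMeasure μ₂ →
  ∀ (W : Type w) [AddCommGroup W] [Module ℂ W] (J₁ : W →ₗ[ℂ] (Y₁ → ℂ)) (J₂ : W →ₗ[ℂ] (Y₂ → ℂ)),
  (∀ q, Integrable (J₁ q) μ₁) → (∀ q, Integrable (J₂ q) μ₂) →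
  ∀ (ℓ : W →ₗ[ℂ] ℂ) (M : ℝ), 0 ≤ M →
  (∀ q, ‖ℓ q‖ ≤ M * ((∫ y, ‖J₁ q y‖ ∂μ₁) + ∫ y, ‖J₂ q y‖ ∂μ₂)) →
  ∃ (η₁ : Y₁ → ℂ) (η₂ : Y₂ → ℂ), Measurable η₁ ∧ Measurable η₂ ∧ (∀ y, ‖η₁ y‖ ≤ 2 * M) ∧
    (∀ y, ‖η₂ y‖ ≤ 2 * M) ∧
    ∀ q, ℓ q = (∫ y, η₁ y * J₁ q y ∂μ₁) + ∫ y, η₂ y * J₂ q y ∂μ₂

/-- `V` is the map `b ↦ b(N) u` on bounded measurable functions, `T = N + v ⊗ u`. -/
structure Model {X : Type*} [MeasurableSpace X] (m : Measure X) (c φ : X → ℂ)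
    {E : Type*} [NormedAddCommGroup E] [NormedSpace ℂ E] (T : E →L[ℂ] E)
    (V : (X → ℂ) → E) : Prop where
  add : ∀ b₁ b₂, BM b₁ → BM b₂ → V (b₁ + b₂) = V b₁ + V b₂
  smul : ∀ (a : ℂ) b, BM b → V (a • b) = a • V b
  bdd : ∃ C : ℝ, ∀ b, Measurable b → ∀ M : ℝ, (∀ x, ‖b x‖ ≤ M) → ‖V b‖ ≤ C * M
  inter : ∀ b, BM b → T (V b) = V (φ * b) + (∫ x, b x * c x ∂m) • V 1
  inj : ∀ b, BM b → V b = 0 → b =ᵐ[m] 0

/-- `f ∈ X_T(K)` -/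
def LocVec {E : Type*} [NormedAddCommGroup E] [NormedSpace ℂ E] (T : E →L[ℂ] E) (K : Set ℂ)
    (f : E) : Prop :=
  ∃ Rf : ℂ → E, DifferentiableOn ℂ Rf Kᶜ ∧ ∀ ζ ∈ Kᶜ, T (Rf ζ) - ζ • Rf ζ = f

/-- no eigenvalues -/
def NoEig {E : Type*} [NormedAddCommGroup E] [NormedSpace ℂ E] (T : E →L[ℂ] E) : Prop :=
  ∀ (ζ : ℂ) (f : E), T f = ζ • f → f = 0

/-- R1: representation. -/
def R1_Stmt.{u, v} : Prop := ∀ (X : Type u) [MeasurableSpace X] (m : Measure X) (c φ : X → ℂ),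
  Data m c φ → ∀ (E : Type v) [NormedAddCommGroup E] [NormedSpace ℂ E] (T : E →L[ℂ] E)
  (V : (X → ℂ) → E), Model m c φ T V → ∀ (lam : ℂ) (r : ℝ), 0 < r →
  ∀ (η : X → ℂ) (G : ℂ → ℂ), BM η → BM G → (∀ x, φ x ∉ closedBall lam r → η x = 0) →
  (∀ q : Polynomial ℂ, (∫ x, η x * q.eval (φ x) * c x ∂m) +
    (∫ z in closedBall lam r, q.eval z * FF m c φ z * G z) = 0) →
  LocVec T (closedBall lam r)
    (V (fun x => η x + ∫ z in closedBall lam r, G z / (φ x - z))) ∧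
  (NoEig T → (∃ ζ ∉ closedBall lam r, (∫ z in closedBall lam r, G z / (ζ - z)) ≠ 0) →
    V (fun x => η x + ∫ z in closedBall lam r, G z / (φ x - z)) ≠ 0)

/-- R2: blow-up. -/
def R2_Stmt.{u, v} : Prop := ∀ (X : Type u) [MeasurableSpace X] (m : Measure X) (c φ : X → ℂ),
  Data m c φ → ∀ (E : Type v) [NormedAddCommGroup E] [NormedSpace ℂ E] (T : E →L[ℂ] E)
  (V : (X → ℂ) → E), Model m c φ T V → ∀ (lam : ℂ) (r : ℝ), 0 < r →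
  (∀ f, LocVec T (closedBall lam r) f → f = 0) →
  ∀ (z₁ : ℂ) (M : ℝ), 0 ≤ M → (∀ ε > 0, 0 < m.real (φ ⁻¹' ball z₁ ε)) →
  (∀ q : Polynomial ℂ, ‖q.eval z₁‖ ≤ M * ((∫ x in φ ⁻¹' closedBall lam r, ‖q.eval (φ x)‖ ∂m) +
    ∫ z in closedBall lam r, ‖q.eval z * FF m c φ z‖)) →
  1 ≤ (2 + 6 * Real.pi * r) * M * m.real (φ ⁻¹' {z₁})

/-! ### Module T : chain test -/

/-- T: the limit inequality. -/
def T_Stmt.{u} : Prop := ∀ (X : Type u) [MeasurableSpace X] (m : Measure X) (c φ : X → ℂ),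
  Data m c φ → ∀ (lam : ℂ) (r : ℝ), 0 < r → ∀ χ : ℂ → ℂ, ContDiff ℝ 1 χ →
  (∀ z, ‖χ z‖ ≤ 1) → (∀ z ∈ ball lam (r / 4), χ z = 1) → (∀ z ∉ closedBall lam (r / 2), χ z = 0) →
  ∀ R : ℝ, 0 < R → R ≤ r / 64 →
  (∀ (k₀ : ℕ) (δ : ℝ), 0 < δ → ∃ (z₀ : ℂ) (p : Polynomial ℂ), ‖z₀ - lam‖ < δ ∧
    tt k₀ < ‖p.eval z₀‖ ∧ (∫ z in closedBall lam r, ‖p.eval z * FF m c φ z‖) ≤ 1) →
  ∃ (β : ℂ) (C : ℝ), R ≤ ‖β - lam‖ ∧ ‖β - lam‖ ≤ 2 * R ∧ 0 ≤ C ∧ ∀ q : Polynomial ℂ,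
    ‖∫ z, FF m c φ z * (gext lam β z * dbar χ z) * q.eval z‖ ≤
      C * ∫ x in φ ⁻¹' closedBall lam r, ‖q.eval (φ x)‖ ∂m

/-! ### Main proposition -/

def Main_Stmt.{u, v} : Prop := ∀ (X : Type u) [MeasurableSpace X] (m : Measure X) (c φ : X → ℂ),
  Data m c φ → ∀ (E : Type v) [NormedAddCommGroup E] [NormedSpace ℂ E] (T : E →L[ℂ] E)
  (V : (X → ℂ) → E), Model m c φ T V → NoEig T → ∀ (lam : ℂ) (r : ℝ), 0 < r →
  (∀ δ > 0, ∃ z₁ : ℂ, z₁ ≠ lam ∧ ‖z₁ - lam‖ < δ ∧ ∀ ε > 0, 0 < m.real (φ ⁻¹' ball z₁ ε)) →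
  ∃ f, f ≠ 0 ∧ LocVec T (closedBall lam r) f

end Pool.Agent.RankOne
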