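import Pool.Agent.Lib_helper15.RankOne.Defs
import Pool.Agent.Lib_helper15.Basic

/-!
# Rank one perturbations: functional calculi and final statements
-/

set_option autoImplicit false

open MeasureTheory Metric Set

namespace Pool.Agent.RankOne

open Pool.Agent.Lib_helper15 (HasNontrivialHyperinvariantSubspace)

/-- A bounded, weakly countably additive functional calculus: a unital homomorphism `Θ` of the
algebra of bounded measurable functions on `X` into the bounded operators on `E`, bounded for the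
sup norm, such that each `b ↦ ℓ (Θ b x)` is integration against a complex measure `c m`. -/
structure Calculus {X : Type*} [MeasurableSpace X] {E : Type*} [NormedAddCommGroup E]
    [NormedSpace ℂ E] (Θ : (X → ℂ) → (E →L[ℂ] E)) : Prop where
  one : Θ 1 = 1
  add : ∀ b₁ b₂, BM b₁ → BM b₂ → Θ (b₁ + b₂) = Θ b₁ + Θ b₂
  smul : ∀ (a : ℂ) b, BM b → Θ (a • b) = a • Θ b
  mul : ∀ b₁ b₂, BM b₁ → BM b₂ → Θ (b₁ * b₂) = Θ b₁ * Θ b₂
  bdd : ∃ C : ℝ, ∀ b, Measurable b → ∀ M : ℝ, (∀ x, ‖b x‖ ≤ M) → ‖Θ b‖ ≤ C * M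
  meas : ∀ (x : E) (ℓ : StrongDual ℂ E), ∃ (m : Measure X) (c : X → ℂ), IsFiniteMeasure m ∧
    Measurable c ∧ (∀ y, ‖c y‖ = 1) ∧ ∀ b, BM b → ℓ (Θ b x) = ∫ y, b y * c y ∂m

/-- the dual operator `ℓ ↦ ℓ ∘ T` -/
noncomputable def dualOp {E : Type*} [NormedAddCommGroup E] [NormedSpace ℂ E] (T : E →L[ℂ] E) :
    StrongDual ℂ E →L[ℂ] StrongDual ℂ E :=
  (ContinuousLinearMap.compL ℂ E E ℂ).flip T

/-- N: bounded Borel functional calculus of a normal operator. -/
def N_Stmt.{u} : Prop := ∀ (H : Type u) [NormedAddCommGroup H] [InnerProductSpace ℂ H]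
  [CompleteSpace H] (N : H →L[ℂ] H), IsStarNormal N →
  ∃ Θ : (spectrum ℂ N → ℂ) → (H →L[ℂ] H), Calculus Θ ∧ Θ (fun z => (z : ℂ)) = N

/-- Final theorem for calculi. -/
def Final_Stmt.{u, v} : Prop := ∀ (X : Type u) [MeasurableSpace X] (E : Type v)
  [NormedAddCommGroup E] [NormedSpace ℂ E] [CompleteSpace E] (Θ : (X → ℂ) → (E →L[ℂ] E)),
  Calculus Θ → ∀ (φ : X → ℂ), BM φ → ∀ (u : E) (v : StrongDual ℂ E),
  (∀ a : ℂ, Θ φ + v.smulRight u ≠ a • ContinuousLinearMap.id ℂ E) →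
  HasNontrivialHyperinvariantSubspace (Θ φ + v.smulRight u)

end Pool.Agent.RankOne
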