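import Pool.Agent.Lib_helper15.RankOne.Defs2

/-!
# Scalar type operators
-/

set_option autoImplicit false

open MeasureTheory Metric Set

namespace Pool.Agent.RankOne

/-- A countably additive spectral measure on the Borel sets of `ℂ`: `P(ℂ) = 1`,
`P(A ∩ B) = P(A) P(B)`, and `A ↦ ℓ (P(A) x)` is countably additive for all `x` and `ℓ`. -/
structure IsSpectralMeasure {E : Type*} [NormedAddCommGroup E] [NormedSpace ℂ E]
    (P : Set ℂ → (E →L[ℂ] E)) : Prop where
  univ : P Set.univ = 1
  inter : ∀ A B : Set ℂ, MeasurableSet A → MeasurableSet B → P (A ∩ B) = P A * P B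
  sigma : ∀ A : ℕ → Set ℂ, (∀ n, MeasurableSet (A n)) → Pairwise (Function.onFun Disjoint A) →
    ∀ (x : E) (ℓ : StrongDual ℂ E), HasSum (fun n => ℓ (P (A n) x)) (ℓ (P (⋃ n, A n) x))

/-- `N` is of scalar type: it is in the norm closed linear span of the values of a countably
additive spectral measure (equivalently `N = ∫ φ dP` with `φ` bounded). -/
def IsScalarType {E : Type*} [NormedAddCommGroup E] [NormedSpace ℂ E] (N : E →L[ℂ] E) : Prop :=
  ∃ P : Set ℂ → (E →L[ℂ] E), IsSpectralMeasure P ∧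
    N ∈ closure (Submodule.span ℂ {S : E →L[ℂ] E | ∃ A : Set ℂ, MeasurableSet A ∧ S = P A} :
      Set (E →L[ℂ] E))

/-- J: a scalar type operator has a functional calculus. -/
def J_Stmt.{u} : Prop := ∀ (E : Type u) [NormedAddCommGroup E] [NormedSpace ℂ E]
  [CompleteSpace E] (N : E →L[ℂ] E), IsScalarType N →
  ∃ Θ : (ℂ → ℂ) → (E →L[ℂ] E), Calculus Θ ∧ ∃ φ : ℂ → ℂ, BM φ ∧ Θ φ = N

/-- J2: normal operators are of scalar type. -/
def J2_Stmt.{u} : Prop := ∀ (H : Type u) [NormedAddCommGroup H] [InnerProductSpace ℂ H]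
  [CompleteSpace H] (N : H →L[ℂ] H), IsStarNormal N → IsScalarType N

end Pool.Agent.RankOne
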