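import Pool.Agent.Lib_helper15.RankOne.Defs

/-!
# Rank one perturbations: statements of the parts of module T (chain test)
-/

set_option autoImplicit false

open MeasureTheory Metric Set

namespace Pool.Agent.RankOne

/-- T1: smooth cut-off which vanishes on a list of discs. -/
def T1_Stmt : Prop := ∃ Cb : ℝ, 0 < Cb ∧ ∀ Ds : List (ℂ × ℝ), (∀ D ∈ Ds, 0 < D.2) →
  ∃ ψ : ℂ → ℂ, ContDiff ℝ 1 ψ ∧ (∀ z, ‖ψ z‖ ≤ 1) ∧ (∀ D ∈ Ds, ∀ z ∈ ball D.1 D.2, ψ z = 0) ∧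
    (∀ z, (∀ D ∈ Ds, z ∉ closedBall D.1 (2 * D.2)) → ψ z = 1) ∧
    ∀ z, ‖dbar ψ z‖ ≤
      (Ds.map (fun D => (closedBall D.1 (2 * D.2)).indicator (fun _ => Cb / D.2) z)).sum

/-- T2: packing. -/
def T2_Stmt : Prop := ∃ Cp : ℝ, 0 < Cp ∧ ∀ (h : ℝ), 0 < h → ∀ N : Finset ℂ,
  (∀ a ∈ N, ∀ b ∈ N, a ≠ b → h ≤ ‖a - b‖) →
  (∀ w : ℂ, ∑ a ∈ N, (32 * h / max (32 * h) ‖w - a‖) ^ 3 ≤ Cp) ∧
  (∀ (c : ℂ) (ρ : ℝ), h ≤ ρ → (∀ a ∈ N, ‖a - c‖ ≤ ρ) → (N.card : ℝ) * h ^ 2 ≤ 9 * ρ ^ 2)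

/-- T3: maximal separated subsets. -/
def T3_Stmt : Prop := ∀ (h : ℝ), 0 < h → ∀ A : List ℂ, ∃ N : Finset ℂ, (∀ a ∈ N, a ∈ A) ∧
  (∀ a ∈ N, ∀ b ∈ N, a ≠ b → h ≤ ‖a - b‖) ∧ ∀ a ∈ A, ∃ b ∈ N, ‖a - b‖ < h

/-- hop discs of a branch: centre the first point of a stage, radius `4κ` of the parent stage -/
noncomputable def hopDiscs : List Stage → List (ℂ × ℝ)
  | [] => []
  | [_] => []
  | s :: s' :: L => (s.first, 4 * s'.kp) :: hopDiscs (s' :: L)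

/-- T4: sums along a branch; each point is near at most one stage. -/
def T4_Stmt.{u} : Prop := ∀ (X : Type u) [MeasurableSpace X] (m : Measure X) (φ : X → ℂ)
  (p : ℂ → ℂ) (lam : ℂ) (R : ℝ) (z₀ : ℂ) (k₀ : ℕ) (L : List Stage),
  Branch m φ p lam R z₀ k₀ L →
  (∀ f : ℕ → ℝ, (∀ k, 0 ≤ f k) → ∀ S : ℝ, (∀ n, ∑ k ∈ Finset.range n, f (k₀ + k) ≤ S) →
    (L.map (fun s => f s.k)).sum ≤ S) ∧
  (∀ w : ℂ, (L.map (fun s => if infDist w {a | a ∈ s.pts} < s.kp / 4 then (1 : ℝ) else 0)).sum ≤ 1)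

/-- T5: the polygon of a branch. -/
def T5_Stmt.{u} : Prop := ∀ (X : Type u) [MeasurableSpace X] (m : Measure X) (φ : X → ℂ)
  (p : ℂ → ℂ) (lam : ℂ) (R : ℝ) (z₀ : ℂ) (k₀ : ℕ) (s : Stage) (L : List Stage),
  Branch m φ p lam R z₀ k₀ (s :: L) → ∀ O : Set ℂ, ball z₀ (hh k₀) ⊆ O → segment ℝ lam z₀ ⊆ O →
  (∀ s' ∈ s :: L, ∀ a ∈ s'.rest, ball a (hh s'.k) ⊆ O) →
  (∀ D ∈ hopDiscs (s :: L), ball D.1 D.2 ⊆ O) →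
  ∀ b ∈ s.pts, Relation.ReflTransGen (fun a b : ℂ => segment ℝ a b ⊆ O) lam b

/-- T6: cost of one disc `(ω, ρ)` against a Lipschitz function `q`; `V = m(X)`. -/
def T6_Stmt.{u} : Prop := ∀ (X : Type u) [MeasurableSpace X] (m : Measure X) (c φ : X → ℂ),
  Data m c φ → ∀ (ω : ℂ) (ρ : ℝ), 0 < ρ → ∀ (q : ℂ → ℂ), Continuous q → ∀ S : ℝ,
  (∀ z ∈ closedBall ω (2 * ρ), ‖q z‖ ≤ S) →
  (1 / ρ) * (∫ z in closedBall ω (2 * ρ), ‖FF m c φ z‖ * ‖q z‖) ≤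
    4 * Real.pi * ρ * S + 12 * Real.pi * ∫ x, S * (2 * ρ / max (2 * ρ) ‖φ x - ω‖) ∂m

end Pool.Agent.RankOne
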