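import Pool.Agent.Lib_helper15.RankOne.DefsT

/-!
# Numerical facts on the levels
-/

set_option autoImplicit false

open MeasureTheory Metric Set

namespace Pool.Agent.RankOne

theorem hh_pos (k : ℕ) : 0 < hh k := by unfold hh; positivity
theorem tt_pos (k : ℕ) : 0 < tt k := by unfold tt; positivity
theorem kap_pos (n : ℕ) : 0 < kap n := by unfold kap; positivity
theorem kap_anti {a b : ℕ} (h : a ≤ b) : kap b ≤ kap a := by
  unfold kap
  exact pow_le_pow_of_le_one (by norm_num) (by norm_num) h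

theorem Stage.kp_pos (s : Stage) : 0 < s.kp := kap_pos _

/-- the summable error scale -/
noncomputable def ff (k : ℕ) : ℝ := 1 / ((k : ℝ) * (k + 1))

theorem ff_nonneg (k : ℕ) : 0 ≤ ff k := by unfold ff; positivity

theorem cube_succ_le {k : ℕ} (hk : 4 ≤ k) : (k + 1) ^ 3 ≤ 2 * k ^ 3 := by
  obtain ⟨j, rfl⟩ := Nat.exists_eq_add_of_le hk
  nlinarith [sq_nonneg j, Nat.zero_le j, Nat.zero_le (j ^ 3)]

theorem kap_le_ff {k n : ℕ} (hk : 1 ≤ k) (hn : 2 * k ≤ n) : kap n ≤ ff k := by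
  have h1 : (k : ℝ) ≤ 2 ^ k := by exact_mod_cast (Nat.lt_two_pow_self (n := k)).le
  have h2 : (k : ℝ) + 1 ≤ 2 ^ k := by exact_mod_cast (Nat.lt_two_pow_self (n := k))
  have h3 : (k : ℝ) * (k + 1) ≤ 2 ^ (2 * k) := by
    rw [two_mul, pow_add]
    exact mul_le_mul h1 h2 (by positivity) (by positivity)
  have hk' : (0 : ℝ) < k := by exact_mod_cast hk
  calc kap n ≤ kap (2 * k) := kap_anti hn
    _ = 1 / 2 ^ (2 * k) := by unfold kap; rw [one_div_pow]
    _ ≤ ff k := by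
        unfold ff
        exact one_div_le_one_div_of_le (by positivity) h3

theorem two_mul_le_cube {k : ℕ} (hk : 2 ≤ k) : 2 * k ≤ k ^ 3 := by
  obtain ⟨j, rfl⟩ := Nat.exists_eq_add_of_le hk
  nlinarith [sq_nonneg j, Nat.zero_le j, Nat.zero_le (j ^ 3)]

theorem kp_le_ff {X : Type*} [MeasurableSpace X] {m : Measure X} {φ : X → ℂ} {p : ℂ → ℂ}
    {lam : ℂ} {R : ℝ} {s : Stage} (hs : StageOK m φ p lam R s) (hk : 4 ≤ s.k) :
    s.kp ≤ ff s.k :=
  kap_le_ff (by omega) ((two_mul_le_cube (by omega)).trans hs.rng1)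

theorem hh_eq_kap (k : ℕ) : hh k = kap (8 * k ^ 3) := rfl

theorem hh_le_ff {k : ℕ} (hk : 4 ≤ k) : hh k ≤ ff k := by
  rw [hh_eq_kap]
  apply kap_le_ff (by omega)
  have := two_mul_le_cube (k := k) (by omega)
  omega

theorem diff_cube_ff {k : ℕ} (hk : 1 ≤ k) : 1 / ((k + 1 : ℝ) ^ 3 - (k : ℝ) ^ 3) ≤ ff k := by
  unfold ff
  have hk' : (1 : ℝ) ≤ k := by exact_mod_cast hk
  apply one_div_le_one_div_of_le (by positivity)
  nlinarith

/-- `h / κ³ ≤ ff k` -/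
theorem hh_div_kp_cube {X : Type*} [MeasurableSpace X] {m : Measure X} {φ : X → ℂ} {p : ℂ → ℂ}
    {lam : ℂ} {R : ℝ} {s : Stage} (hs : StageOK m φ p lam R s) (hk : 4 ≤ s.k) :
    hh s.k / s.kp ^ 3 ≤ ff s.k := by
  have h1 : s.n ≤ 2 * s.k ^ 3 := by have := cube_succ_le hk; have := hs.rng2; omega
  have h2 : kap (2 * s.k ^ 3) ≤ s.kp := kap_anti h1
  have h3 : hh s.k / s.kp ^ 3 ≤ hh s.k / kap (2 * s.k ^ 3) ^ 3 := by
    have := hh_pos s.k
    have := kap_pos (2 * s.k ^ 3)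
    gcongr
  refine h3.trans ?_
  have h4 : hh s.k / kap (2 * s.k ^ 3) ^ 3 = kap (2 * s.k ^ 3) := by
    rw [hh_eq_kap]
    unfold kap
    rw [div_eq_iff (by positivity), ← pow_mul, ← pow_add]
    congr 1
    ring
  rw [h4]
  apply kap_le_ff (by omega)
  have := two_mul_le_cube (k := s.k) (by omega)
  omega

/-- `1 / (τ h³) ≤ ff k` with `τ = 2^{32 k³}` -/
theorem tau_hh_cube {k : ℕ} (hk : 4 ≤ k) : 1 / (2 ^ (32 * k ^ 3) * hh k ^ 3) ≤ ff k := by
  have h4 : (1 : ℝ) / (2 ^ (32 * k ^ 3) * hh k ^ 3) = kap (8 * k ^ 3) := by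
    unfold hh kap
    rw [one_div, inv_eq_iff_eq_inv, one_div_pow, one_div_pow, one_div, one_div, inv_inv,
      mul_inv_eq_iff_eq_mul₀ (by positivity), ← pow_mul, ← pow_add]
    congr 1
    ring
  rw [h4]
  apply kap_le_ff (by omega)
  have := two_mul_le_cube (k := k) (by omega)
  omega

/-- Telescoping. -/
theorem sum_ff_le {k₀ : ℕ} (hk : 1 ≤ k₀) (n : ℕ) :
    ∑ k ∈ Finset.range n, ff (k₀ + k) ≤ 1 / k₀ := by
  have key : ∀ n : ℕ, ∑ k ∈ Finset.range n, ff (k₀ + k) = 1 / (k₀ : ℝ) - 1 / ((k₀ : ℝ) + n) := by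
    intro n
    have hk' : (0 : ℝ) < k₀ := by exact_mod_cast hk
    induction n with
    | zero => simp
    | succ n ih =>
      rw [Finset.sum_range_succ, ih]
      unfold ff
      push_cast
      have : (0 : ℝ) < (k₀ : ℝ) + n := by positivity
      have : (0 : ℝ) < (k₀ : ℝ) + n + 1 := by positivity
      field_simp
      ring
  rw [key]
  have : (0 : ℝ) ≤ 1 / ((k₀ : ℝ) + n) := by positivity
  linarith

/-- the logarithmic condition of C1 with `θ = 1/6` -/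
theorem log_level {k : ℕ} (hk : 40 ≤ k) :
    Real.log (tt (k + 1) / tt k) ≤ (1 / 6) * Real.log (tt (k + 1) / 2 ^ (32 * k ^ 3)) := by
  have hl : 0 < Real.log 2 := Real.log_pos (by norm_num)
  rw [Real.log_div (tt_pos _).ne' (tt_pos _).ne', Real.log_div (tt_pos _).ne' (by positivity)]
  unfold tt
  rw [Real.log_pow, Real.log_pow, Real.log_pow]
  push_cast
  have hk' : (40 : ℝ) ≤ k := by exact_mod_cast hk
  have h1 : 64 * ((k : ℝ) + 1) ^ 3 - 64 * (k : ℝ) ^ 3 ≤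
      (1 / 6) * (64 * ((k : ℝ) + 1) ^ 3 - 32 * (k : ℝ) ^ 3) := by
    nlinarith [mul_nonneg (sub_nonneg.mpr hk') (sub_nonneg.mpr hk'), sq_nonneg ((k : ℝ) - 40),
      mul_nonneg (mul_nonneg (sub_nonneg.mpr hk') (sub_nonneg.mpr hk')) (sub_nonneg.mpr hk')]
  nlinarith

end Pool.Agent.RankOne
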