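import Pool.Agent.Lib_helper15.RankOne.DefsT
import Pool.Agent.Lib_helper15.RankOne.Levels

/-!
# Rank one perturbations: statements of the cost estimates
-/

set_option autoImplicit false

open MeasureTheory Metric Set

namespace Pool.Agent.RankOne

/-- cost of a disc `(ω, ρ)` -/
noncomputable def cost {X : Type*} [MeasurableSpace X] (m : Measure X) (c φ : X → ℂ) (q : ℂ → ℂ)
    (D : ℂ × ℝ) : ℝ :=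
  (1 / D.2) * ∫ z in closedBall D.1 (2 * D.2), ‖FF m c φ z‖ * ‖q z‖

/-- indicator of `dist(w, pts) < κ/4` -/
noncomputable def nearF (s : Stage) (w : ℂ) : ℝ :=
  if infDist w {a | a ∈ s.pts} < s.kp / 4 then 1 else 0

/-- `q` is bounded by `Q` and Lipschitz with constant `Lq` on the disc -/
structure QB (q : ℂ → ℂ) (lam : ℂ) (r Q Lq : ℝ) : Prop where
  cont : Continuous q
  Q0 : 0 ≤ Q
  L0 : 0 ≤ Lq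
  bd : ∀ z ∈ closedBall lam r, ‖q z‖ ≤ Q
  lip : ∀ z ∈ closedBall lam r, ∀ w ∈ closedBall lam r, ‖q z - q w‖ ≤ Lq * ‖z - w‖

/-- H: cost of a hop disc. -/
def H_Stmt.{u} : Prop := ∀ (X : Type u) [MeasurableSpace X] (m : Measure X) (c φ : X → ℂ),
  Data m c φ → ∀ (p : ℂ → ℂ) (lam : ℂ) (r R : ℝ), 0 < R → R ≤ r / 64 →
  ∀ (s : Stage), StageOK m φ p lam R s → 4 ≤ s.k → s.kp ≤ R / 4 →
  ∀ ω : ℂ, (∃ a ∈ s.pts, ‖ω - a‖ ≤ s.kp) → ∀ (q : ℂ → ℂ) (Q Lq : ℝ), QB q lam r Q Lq →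
  cost m c φ q (ω, 4 * s.kp) ≤ 12 * Real.pi * (∫ x, nearF s (φ x) * ‖q (φ x)‖ ∂m) +
    (Q + Lq) * (16 * Real.pi + 960 * Real.pi * m.real univ) * ff s.k

/-- P: total cost of the net discs of a stage. `p F` has integral at most `1`. -/
def P_Stmt.{u} : Prop := ∃ C : ℝ, 0 < C ∧ ∀ (X : Type u) [MeasurableSpace X] (m : Measure X)
  (c φ : X → ℂ), Data m c φ → ∀ (p : ℂ → ℂ), Differentiable ℂ p → ∀ (lam : ℂ) (r R : ℝ),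
  0 < R → R ≤ r / 64 → r ≤ 1 → (∫ z in closedBall lam r, ‖p z * FF m c φ z‖) ≤ 1 →
  ∀ (s : Stage), StageOK m φ p lam R s → 40 ≤ s.k → s.kp ≤ R / 4 →
  ∀ N : Finset ℂ, (∀ a ∈ N, a ∈ s.rest) → (∀ a ∈ N, ∀ b ∈ N, a ≠ b → hh s.k ≤ ‖a - b‖) →
  ∀ (q : ℂ → ℂ) (Q Lq : ℝ), QB q lam r Q Lq →
  ∑ a ∈ N, cost m c φ q (a, 2 * hh s.k) ≤ C * (∫ x, nearF s (φ x) * ‖q (φ x)‖ ∂m) +
    C * (Q + Lq) * (1 + m.real univ) * ff s.k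

/-- U: cost of a small disc around a point `ω` of `closedBall lam (r/4)`. -/
def U_Stmt.{u} : Prop := ∀ (X : Type u) [MeasurableSpace X] (m : Measure X) (c φ : X → ℂ),
  Data m c φ → ∀ (lam : ℂ) (r : ℝ), 0 < r →
  ∀ (ω : ℂ) (ρ : ℝ), 0 < ρ → ρ ≤ r / 8 → ‖ω - lam‖ ≤ r / 4 →
  ∀ (q : ℂ → ℂ) (Q Lq : ℝ), QB q lam r Q Lq →
  cost m c φ q (ω, ρ) ≤ 12 * Real.pi * (∫ x in φ ⁻¹' closedBall lam r, ‖q (φ x)‖ ∂m) +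
    200 * Real.pi * (Q + r * Lq + Lq) * (1 + m.real univ) * (1 + 1 / r) * ρ

/-- Z: the chain test for one polynomial and one branch. -/
def Z_Stmt.{u} : Prop := ∃ C : ℝ, 0 < C ∧ ∀ (X : Type u) [MeasurableSpace X] (m : Measure X)
  (c φ : X → ℂ), Data m c φ → ∀ (p : ℂ → ℂ), Differentiable ℂ p → ∀ (lam : ℂ) (r R : ℝ),
  0 < R → R ≤ r / 64 → r ≤ 1 → (∫ z in closedBall lam r, ‖p z * FF m c φ z‖) ≤ 1 →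
  ∀ (χ : ℂ → ℂ), ContDiff ℝ 1 χ → (∀ z, ‖χ z‖ ≤ 1) → (∀ z ∈ ball lam (r / 4), χ z = 1) →
  (∀ z ∉ closedBall lam (r / 2), χ z = 0) →
  ∀ (z₀ : ℂ) (k₀ : ℕ), 40 ≤ k₀ → kap k₀ ≤ R / 4 → ∀ (s : Stage) (L : List Stage),
  Branch m φ p lam R z₀ k₀ (s :: L) → ∀ b ∈ s.pts, ∀ (β : ℂ) (ρ₀ ρ₁ : ℝ), 0 < ρ₀ → ρ₀ ≤ r / 64 →
  0 < ρ₁ → ρ₁ ≤ r / 64 → ‖z₀ - lam‖ + hh k₀ ≤ ρ₀ → ‖b - β‖ < ρ₁ → ‖β - lam‖ ≤ 2 * R →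
  ∀ (q : ℂ → ℂ), Differentiable ℂ q → ∀ (Q Lq : ℝ), QB q lam r Q Lq →
  ‖∫ z, FF m c φ z * (gext lam β z * dbar χ z) * q z‖ ≤
    C * (∫ x in φ ⁻¹' closedBall lam r, ‖q (φ x)‖ ∂m) +
    C * (Q + Lq) * (1 + m.real univ) * (1 + 1 / r) * (ρ₀ + ρ₁ + 1 / k₀)

/-- TT: the limit inequality (this is `T_Stmt` for `r ≤ 1`; `T_Stmt` itself is not needed). -/
def TT_Stmt.{u} : Prop := ∀ (X : Type u) [MeasurableSpace X] (m : Measure X) (c φ : X → ℂ),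
  Data m c φ → ∀ (lam : ℂ) (r : ℝ), 0 < r → r ≤ 1 → ∀ χ : ℂ → ℂ, ContDiff ℝ 1 χ →
  (∀ z, ‖χ z‖ ≤ 1) → (∀ z ∈ ball lam (r / 4), χ z = 1) → (∀ z ∉ closedBall lam (r / 2), χ z = 0) →
  ∀ R : ℝ, 0 < R → R ≤ r / 64 →
  (∀ (k₀ : ℕ) (δ : ℝ), 0 < δ → ∃ (z₀ : ℂ) (p : Polynomial ℂ), ‖z₀ - lam‖ < δ ∧
    tt k₀ < ‖p.eval z₀‖ ∧ (∫ z in closedBall lam r, ‖p.eval z * FF m c φ z‖) ≤ 1) →
  ∃ (β : ℂ) (C : ℝ), R ≤ ‖β - lam‖ ∧ ‖β - lam‖ ≤ 2 * R ∧ 0 ≤ C ∧ ∀ q : Polynomial ℂ,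
    ‖∫ z, FF m c φ z * (gext lam β z * dbar χ z) * q.eval z‖ ≤
      C * ∫ x in φ ⁻¹' closedBall lam r, ‖q.eval (φ x)‖ ∂m

end Pool.Agent.RankOne
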