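import Pool.Agent.Lib_helper15.RankOne.Defs

/-!
# Module B: the root function along a polygon
-/

set_option autoImplicit false

open MeasureTheory Metric Set

namespace Pool.Agent.RankOne

/-- the quotient of differences is in the slit plane off the segment -/
lemma quot_mem_slitPlane {x y z : ℂ} (hz : z ∉ segment ℝ x y) :
    (z - y) / (z - x) ∈ Complex.slitPlane := by
  by_contra hcon
  apply hz
  have hzx : z - x ≠ 0 := by
    intro h
    apply hz
    rw [sub_eq_zero.1 h]
    exact left_mem_segment ℝ x y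
  rw [Complex.mem_slitPlane_iff] at hcon
  push Not at hcon
  obtain ⟨h1, h2⟩ := hcon
  set q : ℂ := (z - y) / (z - x) with hq
  have hqr : q = ((q.re : ℝ) : ℂ) := by
    apply Complex.ext
    · simp
    · simp [h2]
  set s : ℝ := -q.re with hs
  have hs0 : 0 ≤ s := by rw [hs]; linarith
  have hmul : z - y = q * (z - x) := by
    rw [hq]
    field_simp
  have hqs : q = -(s : ℂ) := by
    rw [hqr, hs]
    push_cast
    ring
  rw [segment_eq_image]
  refine ⟨1 / (1 + s), ⟨by positivity, ?_⟩, ?_⟩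
  · rw [div_le_one (by positivity)]
    linarith
  · have h1s : (1 + (s : ℂ)) ≠ 0 := by
      have : (0 : ℝ) < 1 + s := by positivity
      exact_mod_cast this.ne'
    simp only [Complex.real_smul]
    push_cast
    rw [hqs] at hmul
    field_simp
    linear_combination -hmul

/-- the principal root of a quotient of numbers in the right half plane -/
lemma root_quot {w w' : ℂ} (hw : 0 < w.re) (hw' : 0 < w'.re) :
    w ^ (1 / 2 : ℂ) * (w' / w) ^ (1 / 2 : ℂ) = w' ^ (1 / 2 : ℂ) := by
  have h0 : w ≠ 0 := by rintro rfl; simp at hw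
  have h0' : w' ≠ 0 := by rintro rfl; simp at hw'
  have hq0 : w' / w ≠ 0 := div_ne_zero h0' h0
  have ha : |w.arg| < Real.pi / 2 := Complex.abs_arg_lt_pi_div_two_iff.2 (Or.inl hw)
  have ha' : |w'.arg| < Real.pi / 2 := Complex.abs_arg_lt_pi_div_two_iff.2 (Or.inl hw')
  rw [abs_lt] at ha ha'
  have hne : w.arg ≠ Real.pi := by
    have := Real.pi_pos
    linarith [ha.2]
  have hlog : Complex.log (w' / w) = Complex.log w' - Complex.log w := by
    have hinv : Complex.log w⁻¹ = -Complex.log w := Complex.log_inv w hne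
    have harg : w⁻¹.arg = -w.arg := by
      rw [Complex.arg_inv]
      simp [hne]
    rw [div_eq_mul_inv, sub_eq_add_neg, ← hinv]
    refine (Complex.log_mul_eq_add_log_iff h0' (inv_ne_zero h0)).2 ?_
    rw [harg]
    constructor <;> linarith [ha.1, ha.2, ha'.1, ha'.2]
  rw [Complex.cpow_def_of_ne_zero h0, Complex.cpow_def_of_ne_zero hq0,
    Complex.cpow_def_of_ne_zero h0', ← Complex.exp_add, hlog]
  congr 1
  ring

lemma sq_root (w : ℂ) : (w ^ (1 / 2 : ℂ)) ^ 2 = w := by
  simp

lemma one_sub_re_pos {lam y z : ℂ} {ρ : ℝ} (hy : ‖y - lam‖ < ρ) (hz : ρ ≤ ‖z - lam‖) :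
    0 < (1 - (y - lam) / (z - lam)).re := by
  have hρ : 0 < ρ := lt_of_le_of_lt (norm_nonneg _) hy
  have hz0 : 0 < ‖z - lam‖ := lt_of_lt_of_le hρ hz
  have h1 : ‖(y - lam) / (z - lam)‖ < 1 := by
    rw [norm_div, div_lt_one hz0]
    linarith
  have h2 := Complex.re_le_norm ((y - lam) / (z - lam))
  simp only [Complex.sub_re, Complex.one_re]
  linarith

theorem B1 : B1_Stmt := by
  intro O lam y ρ hρ hO hlam hchain
  have key : y ∈ O ∧ ∃ g : ℂ → ℂ, (∀ z, z ∉ O → AnalyticAt ℂ g z ∧
      g z ^ 2 = (z - lam) * (z - y)) ∧ ∀ z, ρ ≤ ‖z - lam‖ → g z = gext lam y z := by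
    induction hchain with
    | refl =>
      refine ⟨hlam, fun z => z - lam, ?_, ?_⟩
      · intro z hz
        refine ⟨by fun_prop, by ring⟩
      · intro z hz
        unfold gext
        simp
    | tail hab hbc ih =>
      rename_i a b
      obtain ⟨haO, g, hg1, hg2⟩ := ih
      have hbO : b ∈ O := hbc (right_mem_segment ℝ a b)
      refine ⟨hbO, fun z => g z * ((z - b) / (z - a)) ^ (1 / 2 : ℂ), ?_, ?_⟩
      · intro z hz
        have hza : z - a ≠ 0 := by
          intro h
          rw [sub_eq_zero.1 h] at hz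
          exact hz haO
        have hzseg : z ∉ segment ℝ a b := fun h => hz (hbc h)
        obtain ⟨h1, h2⟩ := hg1 z hz
        refine ⟨?_, ?_⟩
        · refine h1.mul ?_
          refine AnalyticAt.cpow ?_ analyticAt_const (quot_mem_slitPlane hzseg)
          exact (analyticAt_id.sub analyticAt_const).div (analyticAt_id.sub analyticAt_const) hza
        · rw [mul_pow, h2, sq_root]
          field_simp
      · intro z hz
        have hwa : 0 < (1 - (a - lam) / (z - lam)).re :=
          one_sub_re_pos (by simpa [dist_eq_norm] using hO haO) hz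
        have hwb : 0 < (1 - (b - lam) / (z - lam)).re :=
          one_sub_re_pos (by simpa [dist_eq_norm] using hO hbO) hz
        have hzl : z - lam ≠ 0 := by
          intro h
          rw [h, norm_zero] at hz
          linarith
        have e1 : 1 - (a - lam) / (z - lam) = (z - a) / (z - lam) := by
          field_simp
          ring
        have e2 : 1 - (b - lam) / (z - lam) = (z - b) / (z - lam) := by
          field_simp
          ring
        have hza : z - a ≠ 0 := by
          intro h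
          rw [e1, h, zero_div] at hwa
          simp at hwa
        have e3 : (z - b) / (z - a) = (1 - (b - lam) / (z - lam)) / (1 - (a - lam) / (z - lam)) := by
          rw [e1, e2]
          field_simp
        change g z * ((z - b) / (z - a)) ^ (1 / 2 : ℂ) = gext lam b z
        rw [hg2 z hz]
        unfold gext
        rw [e3, mul_assoc, root_quot hwa hwb]
  exact key.2

/-- the principal root has nonnegative real part -/
lemma root_re_nonneg (w : ℂ) : 0 ≤ (w ^ (1 / 2 : ℂ)).re := by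
  by_cases h0 : w = 0
  · rw [h0]
    simp
  rw [Complex.cpow_def_of_ne_zero h0, Complex.exp_re]
  refine mul_nonneg (Real.exp_pos _).le ?_
  have h1 : (Complex.log w * (1 / 2)).im = w.arg / 2 := by
    simp [Complex.mul_im, Complex.log_im]
    ring
  rw [h1]
  refine Real.cos_nonneg_of_mem_Icc ⟨?_, ?_⟩
  · have := Complex.neg_pi_lt_arg w
    linarith
  · have := Complex.arg_le_pi w
    linarith

/-- second order expansion of the root -/
lemma root_expand {x : ℂ} (hx : ‖x‖ ≤ 1 / 2) :
    ‖(1 - x) ^ (1 / 2 : ℂ) - (1 - x / 2 - x ^ 2 / 8)‖ ≤ ‖x‖ ^ 3 := by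
  set s : ℂ := (1 - x) ^ (1 / 2 : ℂ) with hs
  set p : ℂ := 1 - x / 2 - x ^ 2 / 8 with hp
  have hs2 : s ^ 2 = 1 - x := sq_root _
  have hid : (s - p) * (s + p) = -(x ^ 3 * (1 / 8 + x / 64)) := by
    have : (s - p) * (s + p) = s ^ 2 - p ^ 2 := by ring
    rw [this, hs2, hp]
    ring
  have hre : 1 / 2 ≤ (s + p).re := by
    have h1 : 0 ≤ s.re := root_re_nonneg _
    have h2 : (x / 2).re ≤ 1 / 4 := by
      refine (Complex.re_le_norm _).trans ?_
      rw [norm_div]
      norm_num
      linarith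
    have h3 : (x ^ 2 / 8).re ≤ 1 / 32 := by
      refine (Complex.re_le_norm _).trans ?_
      rw [norm_div, norm_pow]
      norm_num
      nlinarith [norm_nonneg x]
    rw [hp]
    simp only [Complex.add_re, Complex.sub_re, Complex.one_re]
    linarith
  have hn : 1 / 2 ≤ ‖s + p‖ := hre.trans (Complex.re_le_norm _)
  have h1 : ‖s - p‖ * ‖s + p‖ = ‖x‖ ^ 3 * ‖1 / 8 + x / 64‖ := by
    rw [← norm_mul, hid, norm_neg, norm_mul, norm_pow]
  have h2 : ‖(1 / 8 + x / 64 : ℂ)‖ ≤ 1 / 2 := by
    refine (norm_add_le _ _).trans ?_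
    rw [norm_div, norm_div]
    norm_num
    linarith
  have h3 : ‖s - p‖ * (1 / 2) ≤ ‖x‖ ^ 3 * (1 / 2) :=
    calc ‖s - p‖ * (1 / 2) ≤ ‖s - p‖ * ‖s + p‖ := mul_le_mul_of_nonneg_left hn (norm_nonneg _)
      _ = ‖x‖ ^ 3 * ‖1 / 8 + x / 64‖ := h1
      _ ≤ ‖x‖ ^ 3 * (1 / 2) := mul_le_mul_of_nonneg_left h2 (by positivity)
  linarith

lemma continuous_dbar {χ : ℂ → ℂ} (hχ : ContDiff ℝ 1 χ) : Continuous (dbar χ) := by
  unfold dbar
  have h := hχ.continuous_fderiv one_ne_zero
  fun_prop

lemma hasCompactSupport_dbar {χ : ℂ → ℂ} (hc : HasCompactSupport χ) :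
    HasCompactSupport (dbar χ) := by
  refine HasCompactSupport.of_support_subset_isCompact hc ?_
  intro z hz
  by_contra hcon
  apply hz
  have : fderiv ℝ χ z = 0 := by
    have := (support_fderiv_subset ℝ (f := χ))
    by_contra h
    exact hcon (this h)
  unfold dbar
  rw [this]
  simp

lemma dbar_eq_zero_of_eventually {χ : ℂ → ℂ} {z : ℂ} (a : ℂ) (h : ∀ᶠ w in nhds z, χ w = a) :
    dbar χ z = 0 := by
  have h1 : fderiv ℝ χ z = 0 := by
    have : χ =ᶠ[nhds z] fun _ => a := h
    rw [this.fderiv_eq]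
    simp
  unfold dbar
  rw [h1]
  simp

/-- `∂̄((z - lam) χ) = (z - lam) ∂̄ χ` -/
lemma dbar_mul_sub {χ : ℂ → ℂ} (hχ : ContDiff ℝ 1 χ) (lam z : ℂ) :
    dbar (fun z => (z - lam) * χ z) z = (z - lam) * dbar χ z := by
  have h1 : HasFDerivAt χ (fderiv ℝ χ z) z :=
    ((hχ.differentiable one_ne_zero) z).hasFDerivAt
  have h2 : HasFDerivAt (fun z : ℂ => z - lam) (ContinuousLinearMap.id ℝ ℂ) z :=
    (hasFDerivAt_id z).sub_const lam
  have h3 := h2.mul h1
  have h4 : fderiv ℝ (fun z => (z - lam) * χ z) z =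
      (z - lam) • fderiv ℝ χ z + χ z • ContinuousLinearMap.id ℝ ℂ := h3.fderiv
  unfold dbar
  rw [h4]
  simp only [add_apply, smul_apply, ContinuousLinearMap.id_apply, smul_eq_mul]
  linear_combination (1 / 2 : ℂ) * χ z * Complex.I_mul_I

universe u

theorem B2 (hA3 : A3_Stmt.{u}) : B2_Stmt := by
  intro χ lam ρ hρ hχ hc hone
  obtain ⟨i1, i2, -⟩ := hA3 χ hχ hc
  have hc' : HasCompactSupport (fun z => (z - lam) * χ z) := hc.mul_left
  have hχ' : ContDiff ℝ 1 (fun z : ℂ => (z - lam) * χ z) :=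
    (contDiff_id.sub contDiff_const).mul hχ
  obtain ⟨i3, -, -⟩ := hA3 _ hχ' hc'
  have hcd := continuous_dbar hχ
  have hcs := hasCompactSupport_dbar hc
  have hint : Integrable (dbar χ) := hcd.integrable_of_hasCompactSupport hcs
  have hzero : ∀ z ∈ ball lam ρ, dbar χ z = 0 := by
    intro z hz
    refine dbar_eq_zero_of_eventually 1 ?_
    filter_upwards [isOpen_ball.mem_nhds hz] with w hw
    exact hone w hw
  set D : ℝ := ∫ z, ‖dbar χ z‖ with hD
  have hD0 : 0 ≤ D := integral_nonneg fun _ => norm_nonneg _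
  set δ : ℝ := min (ρ / 2) (ρ ^ 2 / (8 * (D + 1))) with hδ
  have hδ0 : 0 < δ := by positivity
  refine ⟨δ, hδ0, (min_le_left _ _).trans (by linarith), ?_⟩
  intro y hy hyδ
  set h : ℂ := y - lam with hh
  have hh0 : h ≠ 0 := sub_ne_zero.2 hy
  have hhρ : ‖h‖ ≤ ρ / 2 := hyδ.le.trans (min_le_left _ _)
  have hx : ∀ z, ρ ≤ ‖z - lam‖ → ‖h / (z - lam)‖ ≤ 1 / 2 := by
    intro z hz
    rw [norm_div, div_le_iff₀ (lt_of_lt_of_le hρ hz)]
    linarith
  -- bound for gext
  have hgb : ∀ z, ρ ≤ ‖z - lam‖ → ‖gext lam y z‖ ≤ 2 * ‖z - lam‖ := by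
    intro z hz
    have h1 := hx z hz
    have h2 := sq_root (1 - h / (z - lam))
    have h3 : ‖(1 - h / (z - lam)) ^ (1 / 2 : ℂ)‖ ^ 2 ≤ 2 ^ 2 := by
      rw [← norm_pow, h2]
      refine (norm_sub_le _ _).trans ?_
      rw [norm_one]
      linarith
    have h4 : ‖(1 - h / (z - lam)) ^ (1 / 2 : ℂ)‖ ≤ 2 :=
      (pow_le_pow_iff_left₀ (norm_nonneg _) (by norm_num) two_ne_zero).1 h3
    unfold gext
    rw [norm_mul, mul_comm]
    exact mul_le_mul_of_nonneg_right h4 (norm_nonneg _)
  have hmeasg : Measurable (gext lam y) := by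
    unfold gext
    fun_prop
  have hprodz : ∀ z, ρ ≤ ‖z - lam‖ ∨ dbar χ z = 0 := by
    intro z
    by_cases hz : ρ ≤ ‖z - lam‖
    · exact Or.inl hz
    · right
      apply hzero
      rw [mem_ball, dist_eq_norm]
      exact not_le.1 hz
  obtain ⟨C, hC⟩ : ∃ C, ∀ z, ‖(z - lam) * dbar χ z‖ ≤ C := by
    have hc2 : HasCompactSupport fun z => (z - lam) * dbar χ z := hcs.mul_left
    exact ((continuous_id.sub continuous_const).mul hcd).bounded_above_of_compact_support hc2
  have hBM : BM (fun z => gext lam y z * dbar χ z) := by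
    refine ⟨hmeasg.mul hcd.measurable, 2 * C, ?_⟩
    intro z
    change ‖gext lam y z * dbar χ z‖ ≤ 2 * C
    rcases hprodz z with hz | hz
    · rw [norm_mul]
      have h1 := hgb z hz
      have h2 := hC z
      rw [norm_mul] at h2
      calc ‖gext lam y z‖ * ‖dbar χ z‖ ≤ 2 * ‖z - lam‖ * ‖dbar χ z‖ :=
            mul_le_mul_of_nonneg_right h1 (norm_nonneg _)
        _ = 2 * (‖z - lam‖ * ‖dbar χ z‖) := by ring
        _ ≤ 2 * C := by linarith
    · rw [hz, mul_zero, norm_zero]
      have := (norm_nonneg _).trans (hC z)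
      linarith
  refine ⟨hBM, ?_⟩
  -- the polynomial part
  have hint1 : Integrable (fun z => (z - lam) * dbar χ z) := by
    refine Continuous.integrable_of_hasCompactSupport ?_ hcs.mul_left
    exact (continuous_id.sub continuous_const).mul hcd
  have hint2 : Integrable (fun z => dbar χ z / (lam - z)) := by
    have : (fun z => dbar χ z / (lam - z)) = fun z => (lam - z)⁻¹ * dbar χ z := by
      funext z
      ring
    rw [this]
    refine Integrable.mono' (hint.norm.const_mul ρ⁻¹) ?_ ?_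
    · refine Measurable.aestronglyMeasurable ?_
      exact (measurable_const.sub measurable_id).inv.mul hcd.measurable
    · refine Filter.Eventually.of_forall fun z => ?_
      rcases hprodz z with hz | hz
      · rw [norm_mul, norm_inv]
        refine mul_le_mul_of_nonneg_right ?_ (norm_nonneg _)
        rw [norm_sub_rev]
        exact inv_anti₀ hρ hz
      · rw [hz]
        simp
  have hP : ∫ z, ((z - lam) * dbar χ z - h / 2 * dbar χ z + h ^ 2 / 8 * (dbar χ z / (lam - z))) =
      h ^ 2 / 8 * Real.pi := by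
    have hsub : Integrable (fun z => (z - lam) * dbar χ z - h / 2 * dbar χ z) :=
      hint1.sub (hint.const_mul _)
    rw [integral_add hsub (hint2.const_mul _),
      integral_sub hint1 (hint.const_mul _), integral_const_mul, integral_const_mul, i1, i2 lam,
      hone lam (mem_ball_self hρ)]
    have : ∫ z, (z - lam) * dbar χ z = 0 := by
      rw [← i3]
      refine integral_congr_ae (Filter.Eventually.of_forall fun z => ?_)
      exact (dbar_mul_sub hχ lam z).symm
    rw [this]
    ring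
  have hPint : Integrable (fun z => (z - lam) * dbar χ z - h / 2 * dbar χ z +
      h ^ 2 / 8 * (dbar χ z / (lam - z))) :=
    (hint1.sub (hint.const_mul _)).add (hint2.const_mul _)
  have hGint : Integrable (fun z => gext lam y z * dbar χ z) := by
    refine Integrable.mono' (hint1.norm.const_mul 2) hBM.1.aestronglyMeasurable ?_
    refine Filter.Eventually.of_forall fun z => ?_
    rcases hprodz z with hz | hz
    · rw [norm_mul, norm_mul]
      calc ‖gext lam y z‖ * ‖dbar χ z‖ ≤ 2 * ‖z - lam‖ * ‖dbar χ z‖ :=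
            mul_le_mul_of_nonneg_right (hgb z hz) (norm_nonneg _)
        _ = 2 * (‖z - lam‖ * ‖dbar χ z‖) := by ring
    · rw [hz]
      simp
  have hdiff : ‖(∫ z, gext lam y z * dbar χ z) - h ^ 2 / 8 * Real.pi‖ ≤
      ‖h‖ ^ 3 * (ρ ^ 2)⁻¹ * D := by
    rw [← hP, ← integral_sub hGint hPint]
    refine (norm_integral_le_integral_norm _).trans ?_
    rw [hD, ← integral_const_mul]
    refine integral_mono (hGint.sub hPint).norm (hint.norm.const_mul _) ?_
    intro z
    simp only
    rcases hprodz z with hz | hz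
    · have hz0 : 0 < ‖z - lam‖ := lt_of_lt_of_le hρ hz
      have hzl : z - lam ≠ 0 := norm_pos_iff.1 hz0
      have hzl' : lam - z ≠ 0 := by
        rw [← neg_sub]
        exact neg_ne_zero.2 hzl
      have e1 : gext lam y z * dbar χ z - ((z - lam) * dbar χ z - h / 2 * dbar χ z +
          h ^ 2 / 8 * (dbar χ z / (lam - z))) =
          (z - lam) * dbar χ z * ((1 - h / (z - lam)) ^ (1 / 2 : ℂ) -
            (1 - h / (z - lam) / 2 - (h / (z - lam)) ^ 2 / 8)) := by
        unfold gext
        have e2 : dbar χ z / (lam - z) = -(dbar χ z / (z - lam)) := by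
          rw [← neg_sub z lam, div_neg]
        rw [e2]
        field_simp
        ring
      rw [e1, norm_mul, norm_mul]
      have h1 := root_expand (hx z hz)
      calc ‖z - lam‖ * ‖dbar χ z‖ * ‖(1 - h / (z - lam)) ^ (1 / 2 : ℂ) -
            (1 - h / (z - lam) / 2 - (h / (z - lam)) ^ 2 / 8)‖
          ≤ ‖z - lam‖ * ‖dbar χ z‖ * ‖h / (z - lam)‖ ^ 3 :=
            mul_le_mul_of_nonneg_left h1 (by positivity)
        _ = ‖h‖ ^ 3 * (‖z - lam‖ ^ 2)⁻¹ * ‖dbar χ z‖ := by
            rw [norm_div]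
            field_simp
        _ ≤ ‖h‖ ^ 3 * (ρ ^ 2)⁻¹ * ‖dbar χ z‖ := by
            refine mul_le_mul_of_nonneg_right (mul_le_mul_of_nonneg_left ?_ (by positivity))
              (norm_nonneg _)
            exact inv_anti₀ (by positivity) (pow_le_pow_left₀ hρ.le hz 2)
    · rw [hz]
      simp
  intro hcon
  rw [hcon, zero_sub, norm_neg, norm_mul, norm_div, norm_pow] at hdiff
  have hh1 : 0 < ‖h‖ := norm_pos_iff.2 hh0
  have hpi : ‖(Real.pi : ℂ)‖ = Real.pi := by
    rw [Complex.norm_real, Real.norm_of_nonneg Real.pi_pos.le]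
  rw [hpi] at hdiff
  have h8 : ‖(8 : ℂ)‖ = 8 := by norm_num
  rw [h8] at hdiff
  have hhδ : ‖h‖ ≤ ρ ^ 2 / (8 * (D + 1)) := hyδ.le.trans (min_le_right _ _)
  have h3 : ‖h‖ * (8 * (D + 1)) ≤ ρ ^ 2 := by
    rwa [le_div_iff₀ (by positivity)] at hhδ
  have h4 : ‖h‖ ^ 3 * (ρ ^ 2)⁻¹ * D ≤ ‖h‖ ^ 2 / 8 := by
    have e : ‖h‖ ^ 3 * (ρ ^ 2)⁻¹ * D = ‖h‖ ^ 3 * D / ρ ^ 2 := by
      field_simp
    rw [e, div_le_iff₀ (by positivity)]
    have h7 : ‖h‖ * (8 * D) ≤ ρ ^ 2 := by nlinarith
    calc ‖h‖ ^ 3 * D = ‖h‖ ^ 2 / 8 * (‖h‖ * (8 * D)) := by ring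
      _ ≤ ‖h‖ ^ 2 / 8 * ρ ^ 2 := mul_le_mul_of_nonneg_left h7 (by positivity)
  have h5 : ‖h‖ ^ 2 / 8 * Real.pi > ‖h‖ ^ 2 / 8 := by
    have := Real.pi_gt_three
    have h6 : 0 < ‖h‖ ^ 2 / 8 := by positivity
    nlinarith
  linarith

end Pool.Agent.RankOne
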