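import Pool.Agent.Lib_helper15.RankOne.Defs
import Pool.Agent.Lib_helper93.RankOne.Jensen
import Pool.Agent.Lib_helper93.RankOne.Chains

/-!
# Module C: the area lemma (Jensen) and chains in superlevel sets
-/

set_option autoImplicit false

open MeasureTheory Metric Set

namespace Pool.Agent.RankOne

theorem C1 : C1_Stmt := by
  intro p hp a ρ t τ M θ hρ hτ hτt hta hM hτM hlog
  have hpa : AnalyticOnNhd ℂ p (closedBall a ρ) := fun z _ => hp.analyticAt z
  have h1 := RankOneC.area_bad hρ hpa hτ hτt hta hM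
  have hLpos : 0 < Real.log (M / τ) := Real.log_pos (by rwa [lt_div_iff₀ hτ, one_mul])
  have h2 : Real.log (M / t) / Real.log (M / τ) ≤ θ := by rwa [div_le_iff₀ hLpos]
  have h3 : volume.real {z ∈ closedBall a ρ | ‖p z‖ < τ}
      ≤ volume.real {z : ℂ | z ∈ ball a ρ ∧ ‖p z‖ < τ} := by
    have hsub : {z ∈ closedBall a ρ | ‖p z‖ < τ} ⊆ {z : ℂ | z ∈ ball a ρ ∧ ‖p z‖ < τ} ∪ sphere a ρ := by
      rintro z ⟨hz1, hz2⟩
      rcases (mem_closedBall.1 hz1).lt_or_eq with h | h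
      · exact Or.inl ⟨h, hz2⟩
      · exact Or.inr h
    have hfin : volume {z : ℂ | z ∈ ball a ρ ∧ ‖p z‖ < τ} ≠ ⊤ :=
      ((measure_mono (fun z h => h.1)).trans_lt (measure_ball_lt_top (x := a) (r := ρ))).ne
    have hs : volume (sphere a ρ) = 0 := Measure.addHaar_sphere _ _ _
    unfold Measure.real
    apply ENNReal.toReal_mono hfin
    calc volume {z ∈ closedBall a ρ | ‖p z‖ < τ}
        ≤ volume ({z : ℂ | z ∈ ball a ρ ∧ ‖p z‖ < τ} ∪ sphere a ρ) := measure_mono hsub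
      _ ≤ volume {z : ℂ | z ∈ ball a ρ ∧ ‖p z‖ < τ} + volume (sphere a ρ) := measure_union_le _ _
      _ = volume {z : ℂ | z ∈ ball a ρ ∧ ‖p z‖ < τ} := by rw [hs, add_zero]
  calc volume.real {z ∈ closedBall a ρ | ‖p z‖ < τ}
      ≤ volume.real {z : ℂ | z ∈ ball a ρ ∧ ‖p z‖ < τ} := h3
    _ ≤ Real.log (M / t) / Real.log (M / τ) * (Real.pi * ρ ^ 2) := h1
    _ ≤ θ * (Real.pi * ρ ^ 2) := by
      apply mul_le_mul_of_nonneg_right h2
      positivity

theorem C2 : C2_Stmt := by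
  intro p hp x t ht ε hε R₀
  obtain ⟨n, z, h0, h1, h2, h3⟩ := RankOneC.exists_chain hp ht hε 0 R₀
  refine ⟨n, z, h0, h2, fun i hi => ?_, ?_⟩
  · have := h1 i hi
    rwa [dist_comm, dist_eq_norm] at this
  · rw [dist_zero_right] at h3
    exact h3.le

end Pool.Agent.RankOne
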