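import Pool.Agent.Lib_helper15.RankOne.Defs

/-!
# Module D: `L¹`-`L^∞` duality for a functional defined on a vector space of functions
-/

set_option autoImplicit false

open MeasureTheory Metric Set Filter Topology
open scoped ENNReal InnerProductSpace ComplexConjugate

namespace Pool.Agent.RankOne

/-- The dual of `L¹` of a finite measure. -/
theorem dual_L1 {α : Type*} [MeasurableSpace α] (μ : Measure α) [IsFiniteMeasure μ]
    (Λ : Lp ℂ 1 μ →L[ℂ] ℂ) (M : ℝ) (hM : ‖Λ‖ ≤ M) :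
    ∃ η : α → ℂ, Measurable η ∧ (∀ y, ‖η y‖ ≤ M) ∧
      ∀ (f : α → ℂ) (hf : MemLp f 1 μ), Λ (hf.toLp f) = ∫ y, η y * f y ∂μ := by
  have hM0 : 0 ≤ M := (norm_nonneg _).trans hM
  -- the inclusion L² → L¹
  have hmem : ∀ f : Lp ℂ 2 μ, MemLp (f : α → ℂ) 1 μ := fun f =>
    (Lp.memLp f).mono_exponent (by norm_num)
  let ι₀ : Lp ℂ 2 μ →ₗ[ℂ] Lp ℂ 1 μ :=
    { toFun := fun f => (hmem f).toLp f
      map_add' := by
        intro f g
        rw [← MemLp.toLp_add (hmem f) (hmem g)]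
        exact MemLp.toLp_congr _ _ (Lp.coeFn_add f g)
      map_smul' := by
        intro c f
        rw [RingHom.id_apply, ← MemLp.toLp_const_smul c (hmem f)]
        exact MemLp.toLp_congr _ _ (Lp.coeFn_smul c f) }
  obtain ⟨C, hC⟩ : ∃ C : ℝ, ∀ f, ‖ι₀ f‖ ≤ C * ‖f‖ := by
    refine ⟨(μ univ ^ (1 / (1 : ℝ≥0∞).toReal - 1 / (2 : ℝ≥0∞).toReal)).toReal, fun f => ?_⟩
    have h1 : eLpNorm (f : α → ℂ) 1 μ ≤ eLpNorm (f : α → ℂ) 2 μ *
        μ univ ^ (1 / (1 : ℝ≥0∞).toReal - 1 / (2 : ℝ≥0∞).toReal) :=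
      eLpNorm_le_eLpNorm_mul_rpow_measure_univ (by norm_num) (Lp.memLp f).1
    have h2 : ‖ι₀ f‖ = (eLpNorm (f : α → ℂ) 1 μ).toReal := Lp.norm_toLp _ (hmem f)
    rw [h2, Lp.norm_def, mul_comm, ← ENNReal.toReal_mul]
    refine ENNReal.toReal_mono ?_ h1
    refine ENNReal.mul_ne_top (Lp.memLp f).2.ne ?_
    refine ENNReal.rpow_ne_top_of_nonneg (by norm_num) (measure_ne_top _ _)
  let Λ₂ : Lp ℂ 2 μ →L[ℂ] ℂ := Λ.comp (ι₀.mkContinuous C hC)
  let g : Lp ℂ 2 μ := (InnerProductSpace.toDual ℂ (Lp ℂ 2 μ)).symm Λ₂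
  have hg : ∀ f, ⟪g, f⟫_ℂ = Λ₂ f := fun f => InnerProductSpace.toDual_symm_apply
  -- representation on L²
  have hrep : ∀ (f : α → ℂ) (hf : MemLp f 2 μ) (hf1 : MemLp f 1 μ),
      Λ (hf1.toLp f) = ∫ y, conj (g y) * f y ∂μ := by
    intro f hf hf1
    have h1 := hg (hf.toLp f)
    have h2 : Λ₂ (hf.toLp f) = Λ (hf1.toLp f) := by
      change Λ ((hmem (hf.toLp f)).toLp _) = _
      congr 1
      exact MemLp.toLp_congr _ _ hf.coeFn_toLp
    rw [← h2, ← h1, L2.inner_def]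
    refine integral_congr_ae ?_
    filter_upwards [hf.coeFn_toLp] with y hy
    rw [hy, RCLike.inner_apply, mul_comm]
  have hg1 : Integrable g μ := memLp_one_iff_integrable.1 (hmem g)
  have hgm : AEStronglyMeasurable g μ := (Lp.memLp g).1
  -- bound
  have hbound : ∀ᵐ y ∂μ, ‖g y‖ ≤ M := by
    have := ae_le_of_forall_setIntegral_le (μ := μ) (f := fun y => ‖g y‖) (g := fun _ => M)
      hg1.norm (integrable_const M) ?_
    · exact this
    intro s hs _
    -- test function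
    set t : α → ℂ := s.indicator fun y => g y / (‖g y‖ : ℂ) with ht
    have htm : AEStronglyMeasurable t μ := by
      refine AEStronglyMeasurable.indicator ?_ hs
      exact (hgm.aemeasurable.div
        (Complex.continuous_ofReal.comp_aestronglyMeasurable hgm.norm).aemeasurable).aestronglyMeasurable
    have htb : ∀ y, ‖t y‖ ≤ 1 := by
      intro y
      rw [ht]
      by_cases hy : y ∈ s
      · rw [indicator_of_mem hy, norm_div, Complex.norm_real, norm_norm]
        exact div_self_le_one _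
      · rw [indicator_of_notMem hy, norm_zero]; exact zero_le_one
    have ht2 : MemLp t 2 μ := MemLp.of_bound htm 1 (Eventually.of_forall htb)
    have ht1 : MemLp t 1 μ := MemLp.of_bound htm 1 (Eventually.of_forall htb)
    have h3 := hrep t ht2 ht1
    have h4 : ∫ y, conj (g y) * t y ∂μ = ((∫ y in s, ‖g y‖ ∂μ : ℝ) : ℂ) := by
      rw [← integral_indicator hs, ← integral_complex_ofReal]
      congr 1
      funext y
      rw [ht]
      by_cases hy : y ∈ s
      · rw [indicator_of_mem hy, indicator_of_mem hy]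
        rcases eq_or_ne (g y) 0 with h0 | h0
        · simp [h0]
        · have h5 : (‖g y‖ : ℂ) ≠ 0 := by
            exact_mod_cast (norm_ne_zero_iff.2 h0)
          rw [mul_div_assoc', div_eq_iff h5, ← Complex.normSq_eq_conj_mul_self,
            Complex.normSq_eq_norm_sq]
          push_cast; ring
      · rw [indicator_of_notMem hy, indicator_of_notMem hy]; simp
    rw [h4] at h3
    have h6 : ‖Λ (ht1.toLp t)‖ ≤ M * ∫ y, ‖t y‖ ∂μ := by
      refine (Λ.le_opNorm _).trans ?_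
      have h7 : ‖ht1.toLp t‖ = ∫ y, ‖t y‖ ∂μ := by
        rw [Lp.norm_toLp, eLpNorm_one_eq_lintegral_enorm,
          integral_norm_eq_lintegral_enorm htm]
      rw [h7]
      have : 0 ≤ ∫ y, ‖t y‖ ∂μ := integral_nonneg fun _ => norm_nonneg _
      gcongr
    rw [h3, Complex.norm_real, Real.norm_of_nonneg (integral_nonneg fun _ => norm_nonneg _)] at h6
    refine h6.trans ?_
    rw [← integral_indicator hs, ← integral_const_mul]
    refine integral_mono_of_nonneg (Eventually.of_forall fun y => by positivity) ?_ ?_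
    · exact (integrable_const M).indicator hs
    · refine Eventually.of_forall fun y => ?_
      simp only
      by_cases hy : y ∈ s
      · rw [indicator_of_mem hy]
        have := htb y
        nlinarith
      · rw [indicator_of_notMem hy, ht, indicator_of_notMem hy]; simp
  -- a measurable bounded representative
  obtain ⟨η₀, hη₀m, hη₀⟩ : ∃ η₀ : α → ℂ, Measurable η₀ ∧ (fun y => conj (g y)) =ᵐ[μ] η₀ := by
    have h1 : AEStronglyMeasurable (fun y => conj (g y)) μ :=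
      Complex.continuous_conj.comp_aestronglyMeasurable hgm
    exact ⟨h1.aemeasurable.mk _, h1.aemeasurable.measurable_mk, h1.aemeasurable.ae_eq_mk⟩
  set A : Set α := {y | ‖η₀ y‖ ≤ M} with hA
  have hAm : MeasurableSet A := measurableSet_le hη₀m.norm measurable_const
  set η : α → ℂ := A.indicator η₀ with hη
  have hηm : Measurable η := hη₀m.indicator hAm
  have hηb : ∀ y, ‖η y‖ ≤ M := by
    intro y
    rw [hη]
    by_cases hy : y ∈ A
    · rw [indicator_of_mem hy]; exact hy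
    · rw [indicator_of_notMem hy, norm_zero]; exact hM0
  have hηae : (fun y => conj (g y)) =ᵐ[μ] η := by
    filter_upwards [hη₀, hbound] with y h1 h2
    have hy : y ∈ A := by
      rw [hA, mem_ofPred_eq, ← h1, RCLike.norm_conj]; exact h2
    rw [hη, indicator_of_mem hy, h1]
  refine ⟨η, hηm, hηb, ?_⟩
  -- the functional of η
  have hint : ∀ f : Lp ℂ 1 μ, Integrable (fun y => η y * f y) μ := fun f =>
    (memLp_one_iff_integrable.1 (Lp.memLp f)).bdd_mul hηm.aestronglyMeasurable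
      (Eventually.of_forall hηb)
  let Λ₃ : Lp ℂ 1 μ →L[ℂ] ℂ := LinearMap.mkContinuous
    { toFun := fun f => ∫ y, η y * f y ∂μ
      map_add' := by
        intro f h
        rw [← integral_add (hint f) (hint h)]
        refine integral_congr_ae ?_
        filter_upwards [Lp.coeFn_add f h] with y hy
        rw [hy, Pi.add_apply, mul_add]
      map_smul' := by
        intro c f
        rw [RingHom.id_apply, smul_eq_mul, ← integral_const_mul]
        refine integral_congr_ae ?_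
        filter_upwards [Lp.coeFn_smul c f] with y hy
        rw [hy, Pi.smul_apply, smul_eq_mul]; ring }
    M (by
      intro f
      have h7 : ‖f‖ = ∫ y, ‖f y‖ ∂μ := L1.norm_eq_integral_norm f
      change ‖∫ y, η y * f y ∂μ‖ ≤ M * ‖f‖
      rw [h7, ← integral_const_mul]
      refine (norm_integral_le_integral_norm _).trans ?_
      refine integral_mono (hint f).norm ?_ ?_
      · exact ((memLp_one_iff_integrable.1 (Lp.memLp f)).norm).const_mul M
      · intro y
        simp only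
        rw [norm_mul]
        have := hηb y
        gcongr)
  have hΛ : (Λ : Lp ℂ 1 μ → ℂ) = Λ₃ := by
    have hd := Lp.simpleFunc.denseRange (E := ℂ) (μ := μ) (p := 1) (by norm_num)
    refine hd.equalizer Λ.continuous Λ₃.continuous ?_
    funext s
    have h1 := Lp.simpleFunc.toSimpleFunc_eq_toFun s
    set φ := Lp.simpleFunc.toSimpleFunc s with hφ
    have hφ2 : MemLp φ 2 μ := SimpleFunc.memLp_of_isFiniteMeasure φ 2 μ
    have hφ1 : MemLp φ 1 μ := SimpleFunc.memLp_of_isFiniteMeasure φ 1 μ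
    have h2 : (s : Lp ℂ 1 μ) = hφ1.toLp φ := by
      apply Lp.ext
      exact h1.symm.trans hφ1.coeFn_toLp.symm
    change Λ (s : Lp ℂ 1 μ) = ∫ y, η y * (s : Lp ℂ 1 μ) y ∂μ
    rw [h2, hrep φ hφ2 hφ1]
    refine integral_congr_ae ?_
    filter_upwards [hηae, hφ1.coeFn_toLp] with y h3 h4
    rw [h4, ← h3]
  intro f hf
  rw [hΛ]
  change ∫ y, η y * (hf.toLp f) y ∂μ = _
  refine integral_congr_ae ?_
  filter_upwards [hf.coeFn_toLp] with y hy
  rw [hy]

/-- MODULE D -/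
theorem D.{u, v, w} : D_Stmt.{u, v, w} := by
  intro Y₁ _ μ₁ Y₂ _ μ₂ hμ₁ hμ₂ W _ _ J₁ J₂ hJ₁ hJ₂ ℓ M hM hℓ
  have h1 : ∀ q, MemLp (J₁ q) 1 μ₁ := fun q => memLp_one_iff_integrable.2 (hJ₁ q)
  have h2 : ∀ q, MemLp (J₂ q) 1 μ₂ := fun q => memLp_one_iff_integrable.2 (hJ₂ q)
  let A₁ : W →ₗ[ℂ] Lp ℂ 1 μ₁ :=
    { toFun := fun q => (h1 q).toLp _
      map_add' := by
        intro f g
        rw [← MemLp.toLp_add (h1 f) (h1 g)]
        exact MemLp.toLp_congr _ _ (Eventually.of_forall fun y => by rw [map_add])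
      map_smul' := by
        intro c f
        rw [RingHom.id_apply, ← MemLp.toLp_const_smul c (h1 f)]
        exact MemLp.toLp_congr _ _ (Eventually.of_forall fun y => by rw [map_smul]) }
  let A₂ : W →ₗ[ℂ] Lp ℂ 1 μ₂ :=
    { toFun := fun q => (h2 q).toLp _
      map_add' := by
        intro f g
        rw [← MemLp.toLp_add (h2 f) (h2 g)]
        exact MemLp.toLp_congr _ _ (Eventually.of_forall fun y => by rw [map_add])
      map_smul' := by
        intro c f
        rw [RingHom.id_apply, ← MemLp.toLp_const_smul c (h2 f)]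
        exact MemLp.toLp_congr _ _ (Eventually.of_forall fun y => by rw [map_smul]) }
  let A : W →ₗ[ℂ] (Lp ℂ 1 μ₁ × Lp ℂ 1 μ₂) := A₁.prod A₂
  have hn1 : ∀ q, ‖A₁ q‖ = ∫ y, ‖J₁ q y‖ ∂μ₁ := by
    intro q
    change ‖(h1 q).toLp _‖ = _
    rw [Lp.norm_toLp, eLpNorm_one_eq_lintegral_enorm, integral_norm_eq_lintegral_enorm (h1 q).1]
  have hn2 : ∀ q, ‖A₂ q‖ = ∫ y, ‖J₂ q y‖ ∂μ₂ := by
    intro q
    change ‖(h2 q).toLp _‖ = _
    rw [Lp.norm_toLp, eLpNorm_one_eq_lintegral_enorm, integral_norm_eq_lintegral_enorm (h2 q).1]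
  have hbd : ∀ q, ‖ℓ q‖ ≤ 2 * M * ‖A q‖ := by
    intro q
    have h3 := hℓ q
    rw [← hn1, ← hn2] at h3
    have h4 : ‖A₁ q‖ ≤ ‖A q‖ := norm_fst_le (A q)
    have h5 : ‖A₂ q‖ ≤ ‖A q‖ := norm_snd_le (A q)
    calc ‖ℓ q‖ ≤ M * (‖A₁ q‖ + ‖A₂ q‖) := h3
      _ ≤ M * (‖A q‖ + ‖A q‖) := by gcongr
      _ = 2 * M * ‖A q‖ := by ring
  have hker : LinearMap.ker A ≤ LinearMap.ker ℓ := by
    intro q hq
    rw [LinearMap.mem_ker] at hq ⊢
    have := hbd q
    rw [hq, norm_zero, mul_zero] at this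
    exact norm_le_zero_iff.1 this
  let f₀ : LinearMap.range A →ₗ[ℂ] ℂ :=
    ((LinearMap.ker A).liftQ ℓ hker).comp (A.quotKerEquivRange.symm : _ →ₗ[ℂ] _)
  have hf₀ : ∀ q, f₀ ⟨A q, LinearMap.mem_range_self A q⟩ = ℓ q := by
    intro q
    have h3 := LinearMap.quotKerEquivRange_symm_apply_image A q (LinearMap.mem_range_self A q)
    change ((LinearMap.ker A).liftQ ℓ hker)
      (A.quotKerEquivRange.symm ⟨A q, LinearMap.mem_range_self A q⟩) = ℓ q
    rw [h3]
    simp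
  let f : StrongDual ℂ (LinearMap.range A) := f₀.mkContinuous (2 * M) (by
    rintro ⟨_, q, rfl⟩
    rw [hf₀]
    exact hbd q)
  have hfn : ‖f‖ ≤ 2 * M := LinearMap.mkContinuous_norm_le _ (by positivity) _
  obtain ⟨g, hg, hgn⟩ := exists_extension_norm_eq (LinearMap.range A) f
  have hgA : ∀ q, g (A q) = ℓ q := by
    intro q
    have := hg ⟨A q, LinearMap.mem_range_self A q⟩
    rw [this]
    exact hf₀ q
  let Λ₁ : Lp ℂ 1 μ₁ →L[ℂ] ℂ := g.comp (ContinuousLinearMap.inl ℂ _ _)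
  let Λ₂ : Lp ℂ 1 μ₂ →L[ℂ] ℂ := g.comp (ContinuousLinearMap.inr ℂ _ _)
  have hΛ₁ : ‖Λ₁‖ ≤ 2 * M := by
    refine ContinuousLinearMap.opNorm_le_bound _ (by positivity) fun x => ?_
    change ‖g (x, 0)‖ ≤ _
    refine (g.le_opNorm _).trans ?_
    rw [hgn]
    have h3 : ‖((x, 0) : Lp ℂ 1 μ₁ × Lp ℂ 1 μ₂)‖ = ‖x‖ := by simp [Prod.norm_def]
    rw [h3]
    gcongr
  have hΛ₂ : ‖Λ₂‖ ≤ 2 * M := by
    refine ContinuousLinearMap.opNorm_le_bound _ (by positivity) fun x => ?_
    change ‖g (0, x)‖ ≤ _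
    refine (g.le_opNorm _).trans ?_
    rw [hgn]
    have h3 : ‖((0, x) : Lp ℂ 1 μ₁ × Lp ℂ 1 μ₂)‖ = ‖x‖ := by simp [Prod.norm_def]
    rw [h3]
    gcongr
  obtain ⟨η₁, hη₁m, hη₁b, hη₁⟩ := dual_L1 μ₁ Λ₁ (2 * M) hΛ₁
  obtain ⟨η₂, hη₂m, hη₂b, hη₂⟩ := dual_L1 μ₂ Λ₂ (2 * M) hΛ₂
  refine ⟨η₁, η₂, hη₁m, hη₂m, hη₁b, hη₂b, fun q => ?_⟩
  rw [← hη₁ _ (h1 q), ← hη₂ _ (h2 q), ← hgA q]
  change g (A q) = g (A₁ q, 0) + g (0, A₂ q)
  rw [← map_add]
  congr 1
  change (A₁ q, A₂ q) = _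
  simp

end Pool.Agent.RankOne
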