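import Pool.Agent.Lib_helper15.RankOne.Defs
import Pool.Agent.Lib_helper93.RankOne.Lin

/-!
# Module E: the local lemma
-/

set_option autoImplicit false

open MeasureTheory Metric Set

namespace Pool.Agent.RankOne

universe u

theorem E_kernel_integrable (hA1 : A1_Stmt) {X : Type u} [MeasurableSpace X] (m : Measure X)
    [IsFiniteMeasure m] {φ : X → ℂ} (hφ : Measurable φ) (a : ℂ) {ρ : ℝ} (hρ : 0 < ρ) :
    Integrable (fun q : X × ℂ => ‖φ q.1 - q.2‖⁻¹) (m.prod (volume.restrict (closedBall a ρ))) := by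
  have hm : Measurable (fun q : X × ℂ => ‖φ q.1 - q.2‖⁻¹) :=
    (((hφ.comp measurable_fst).sub measurable_snd).norm).inv
  have : IsFiniteMeasure (volume.restrict (closedBall a ρ) : Measure ℂ) :=
    ⟨by rw [Measure.restrict_apply_univ]; exact measure_closedBall_lt_top⟩
  rw [integrable_prod_iff hm.aestronglyMeasurable]
  refine ⟨Filter.Eventually.of_forall fun x => (hA1 (φ x) a ρ hρ).1, ?_⟩
  apply Integrable.of_bound (C := 3 * Real.pi * ρ)
  · exact (hm.norm.stronglyMeasurable.integral_prod_right).aestronglyMeasurable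
  · filter_upwards with x
    have h1 : ∫ y in closedBall a ρ, ‖‖φ x - y‖⁻¹‖ = ∫ y in closedBall a ρ, ‖φ x - y‖⁻¹ := by
      congr 1; ext y; rw [norm_inv, norm_norm]
    rw [h1, Real.norm_of_nonneg (integral_nonneg fun y => by positivity)]
    exact (hA1 (φ x) a ρ hρ).2.1

theorem E (hA1 : A1_Stmt) (hA2 : A2_Stmt.{u}) : E_Stmt.{u} := by
  intro X _ m c φ hd p hp a ρ τ hρ hτ hZ hpF
  have := hd.fin
  have hφm : Measurable φ := hd.phi.1
  have hcm : Measurable c := hd.cmeas
  have hπ := Real.pi_pos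
  set K := closedBall a ρ with hK
  have hKm : MeasurableSet K := isClosed_closedBall.measurableSet
  have hKfin : volume K ≠ ⊤ := measure_closedBall_lt_top.ne
  have : IsFiniteMeasure (volume.restrict K : Measure ℂ) :=
    ⟨by rw [Measure.restrict_apply_univ]; exact measure_closedBall_lt_top⟩
  have hKvol : volume.real K = Real.pi * ρ ^ 2 := RankOneC.vol_closedBall a hρ.le
  set w : X → ℝ := fun x => (2 * ρ / max (2 * ρ) ‖φ x - a‖) ^ 3 with hw
  have hw0 : ∀ x, 0 ≤ w x := fun x => by simp only [hw]; positivity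
  have hw1 : ∀ x, w x ≤ 1 := fun x => by
    simp only [hw]
    apply pow_le_one₀ (by positivity)
    rw [div_le_one (by positivity)]
    exact le_max_left _ _
  have hwm : Measurable w := by
    simp only [hw]
    exact (measurable_const.div (measurable_const.max (hφm.sub measurable_const).norm)).pow_const 3
  have hwi : Integrable w m := by
    apply Integrable.of_bound hwm.aestronglyMeasurable 1
    filter_upwards with x
    rw [Real.norm_of_nonneg (hw0 x)]
    exact hw1 x
  set m3 : ℝ := ∫ x, w x ∂m with hm3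
  set N : Set X := {x | ‖φ x - a‖ ≤ 2 * ρ} with hN
  have hNm : MeasurableSet N := measurableSet_le (hφm.sub measurable_const).norm measurable_const
  have hwN : ∀ x ∈ N, w x = 1 := fun x hx => by
    simp only [hw]
    rw [max_eq_left (by exact hx), div_self (by positivity), one_pow]
  have hsplit : m3 = m.real N + ∫ x in Nᶜ, w x ∂m := by
    rw [hm3, ← integral_add_compl hNm hwi]
    congr 1
    rw [setIntegral_congr_fun hNm hwN, setIntegral_const, smul_eq_mul, mul_one]
  have hmN0 : 0 ≤ m.real N := measureReal_nonneg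
  set mF : ℝ := ∫ x in Nᶜ, w x ∂m with hmF
  have hmF0 : 0 ≤ mF := integral_nonneg hw0
  -- the kernel
  have hkX := E_kernel_integrable hA1 m hφm a hρ
  have hkN := E_kernel_integrable hA1 (m.restrict N) hφm a hρ
  have hae : ∀ᵐ z ∂(volume.restrict K), Integrable (fun x => ‖φ x - z‖⁻¹) m := hkX.prod_left_ae
  set near : ℂ → ℝ := fun z => ∫ x in N, ‖φ x - z‖⁻¹ ∂m with hnear
  have hnear_int : IntegrableOn near K := hkN.integral_prod_right
  have hnear_le : ∫ z in K, near z ≤ 3 * Real.pi * ρ * m.real N := by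
    have e : ∫ z in K, near z = ∫ x in N, (∫ z in K, ‖φ x - z‖⁻¹) ∂m := by
      simp only [hnear]
      rw [integral_integral_swap]
      exact hkN.swap
    rw [e]
    have h1 : ∫ x in N, (∫ z in K, ‖φ x - z‖⁻¹) ∂m ≤ ∫ x in N, (3 * Real.pi * ρ) ∂m := by
      apply integral_mono_of_nonneg
      · filter_upwards with x
        exact integral_nonneg fun z => by positivity
      · exact integrable_const _
      · filter_upwards with x
        exact (hA1 (φ x) a ρ hρ).2.1
    rw [setIntegral_const, smul_eq_mul] at h1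
    linarith
  -- the linear function
  set A : ℂ := 1 + ∫ x in Nᶜ, c x / (φ x - a) ∂m with hA
  set B : ℂ := ∫ x in Nᶜ, c x / (φ x - a) ^ 2 ∂m with hB
  set L : ℂ → ℂ := fun z => A + B * (z - a) with hL
  have hLc : Continuous L := by simp only [hL]; fun_prop
  have hLint : IntegrableOn L K := hLc.continuousOn.integrableOn_compact (isCompact_closedBall a ρ)
  have hFint : IntegrableOn (FF m c φ) K := ((hA2 X m c φ hd).2 a ρ hρ).1
  have hi1 : IntegrableOn (fun x => c x / (φ x - a)) Nᶜ m := by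
    apply Integrable.of_bound (hcm.div (hφm.sub measurable_const)).aestronglyMeasurable (1 / (2 * ρ))
    filter_upwards [ae_restrict_mem hNm.compl] with x hx
    have hx' : 2 * ρ < ‖φ x - a‖ := not_le.1 hx
    show ‖c x / (φ x - a)‖ ≤ 1 / (2 * ρ)
    rw [norm_div, hd.cnorm]
    gcongr
  have hi2 : IntegrableOn (fun x => c x / (φ x - a) ^ 2) Nᶜ m := by
    apply Integrable.of_bound (hcm.div ((hφm.sub measurable_const).pow_const 2)).aestronglyMeasurable
      (1 / (2 * ρ) ^ 2)
    filter_upwards [ae_restrict_mem hNm.compl] with x hx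
    have hx' : 2 * ρ < ‖φ x - a‖ := not_le.1 hx
    show ‖c x / (φ x - a) ^ 2‖ ≤ 1 / (2 * ρ) ^ 2
    rw [norm_div, hd.cnorm, norm_pow]
    gcongr
  have hdiff : ∀ᵐ z ∂(volume.restrict K), ‖FF m c φ z - L z‖ ≤ near z + 1 / (4 * ρ) * mF := by
    filter_upwards [hae, ae_restrict_mem hKm] with z hz hzK
    have hzK' : ‖z - a‖ ≤ ρ := by rwa [hK, mem_closedBall, dist_eq_norm] at hzK
    have hcz : Integrable (fun x => c x / (φ x - z)) m := by
      refine hz.mono (hcm.div (hφm.sub measurable_const)).aestronglyMeasurable ?_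
      filter_upwards with x
      rw [norm_div, hd.cnorm, norm_inv, norm_norm, one_div]
    have e1 : FF m c φ z - L z = (∫ x in N, c x / (φ x - z) ∂m) +
        ∫ x in Nᶜ, c x * (1 / (φ x - z) - 1 / (φ x - a) - (z - a) / (φ x - a) ^ 2) ∂m := by
      have e2 : ∫ x in Nᶜ, c x * (1 / (φ x - z) - 1 / (φ x - a) - (z - a) / (φ x - a) ^ 2) ∂m
          = (∫ x in Nᶜ, c x / (φ x - z) ∂m) - (∫ x in Nᶜ, c x / (φ x - a) ∂m)
            - (z - a) * ∫ x in Nᶜ, c x / (φ x - a) ^ 2 ∂m := by
        have hczN : IntegrableOn (fun x => c x / (φ x - z)) Nᶜ m := hcz.integrableOn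
        have hi3 : IntegrableOn (fun x => (z - a) * (c x / (φ x - a) ^ 2)) Nᶜ m :=
          hi2.const_mul (z - a)
        have hi4 : IntegrableOn (fun x => c x / (φ x - z) - c x / (φ x - a)) Nᶜ m :=
          hczN.sub hi1
        rw [← integral_const_mul, ← integral_sub hczN hi1, ← integral_sub hi4 hi3]
        congr 1
        ext x
        ring
      rw [e2]
      simp only [FF, hL, hA, hB]
      rw [← integral_add_compl hNm hcz]
      ring
    rw [e1]
    refine (norm_add_le _ _).trans (add_le_add ?_ ?_)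
    · refine (norm_integral_le_integral_norm _).trans (le_of_eq ?_)
      simp only [hnear]
      congr 1
      ext x
      rw [norm_div, hd.cnorm, one_div]
    · rw [hmF, ← integral_const_mul]
      refine (norm_integral_le_integral_norm _).trans ?_
      apply integral_mono_of_nonneg
      · filter_upwards with x
        exact norm_nonneg _
      · exact (hwi.integrableOn).const_mul _
      · filter_upwards [ae_restrict_mem hNm.compl] with x hx
        have hx' : 2 * ρ < ‖φ x - a‖ := not_le.1 hx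
        rw [norm_mul, hd.cnorm, one_mul]
        exact RankOneC.far_kernel (φ x) z a hρ hzK' hx'
  have hDint : IntegrableOn (fun z => ‖FF m c φ z - L z‖) K := (hFint.sub hLint).norm
  have hD : ∫ z in K, ‖FF m c φ z - L z‖ ≤ 3 * Real.pi * ρ * m3 := by
    calc ∫ z in K, ‖FF m c φ z - L z‖ ≤ ∫ z in K, (near z + 1 / (4 * ρ) * mF) := by
          apply integral_mono_ae hDint (hnear_int.add (integrable_const _)) hdiff
      _ = (∫ z in K, near z) + Real.pi * ρ ^ 2 * (1 / (4 * ρ) * mF) := by
          have hci : IntegrableOn (fun _ : ℂ => 1 / (4 * ρ) * mF) K := integrable_const _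
          rw [integral_add hnear_int hci, setIntegral_const, smul_eq_mul, hKvol]
      _ ≤ 3 * Real.pi * ρ * m.real N + Real.pi * ρ ^ 2 * (1 / (4 * ρ) * mF) := by
          linarith
      _ = 3 * Real.pi * ρ * m.real N + Real.pi * ρ * mF / 4 := by
          field_simp
      _ ≤ 3 * Real.pi * ρ * m3 := by
          rw [hsplit]
          have : 0 ≤ Real.pi * ρ * mF := by positivity
          nlinarith
  have hm30 : 0 ≤ m3 := integral_nonneg hw0
  -- the set where `p` is small
  set Z : Set ℂ := {z ∈ K | ‖p z‖ < τ} with hZdef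
  have hZm : MeasurableSet Z := hKm.inter (measurableSet_lt hp.norm.measurable measurable_const)
  have hZK : Z ⊆ K := fun z hz => hz.1
  have hZfin : volume Z ≠ ⊤ := ((measure_mono hZK).trans_lt measure_closedBall_lt_top).ne
  have hLn : IntegrableOn (fun z => ‖L z‖) K := hLint.norm
  have hFn : IntegrableOn (fun z => ‖FF m c φ z‖) K := hFint.norm
  set I : ℝ := ∫ z in K, ‖L z‖ with hI
  have hlin : Real.pi * ρ ^ 2 * (‖A‖ + ρ * ‖B‖) ≤ 3 * I := RankOneC.lin_lower A B a hρ
  have hZL : ∫ z in Z, ‖L z‖ ≤ I / 2 := by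
    have h1 : ∫ z in Z, ‖L z‖ ≤ ∫ z in Z, (‖A‖ + ρ * ‖B‖) := by
      apply setIntegral_mono_on (hLn.mono_set hZK) (integrableOn_const hZfin) hZm
      intro z hz
      have hz' : ‖z - a‖ ≤ ρ := by
        have := hZK hz
        rwa [hK, mem_closedBall, dist_eq_norm] at this
      calc ‖L z‖ ≤ ‖A‖ + ‖B * (z - a)‖ := norm_add_le _ _
        _ ≤ ‖A‖ + ρ * ‖B‖ := by
          rw [norm_mul, mul_comm ρ]
          gcongr
    rw [setIntegral_const, smul_eq_mul] at h1
    have h2 : volume.real Z * (‖A‖ + ρ * ‖B‖) ≤ (1 / 6) * (Real.pi * ρ ^ 2) * (‖A‖ + ρ * ‖B‖) := by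
      apply mul_le_mul_of_nonneg_right hZ
      positivity
    linarith
  have hpFi : IntegrableOn (fun z => ‖p z * FF m c φ z‖) K := by
    apply Integrable.norm
    obtain ⟨C, hC⟩ := (isCompact_closedBall a ρ).exists_bound_of_continuousOn hp.continuousOn
    refine hFint.bdd_mul (c := C) hp.aestronglyMeasurable ?_
    filter_upwards [ae_restrict_mem hKm] with z hz
    exact hC z hz
  have hKZ : ∫ z in K \ Z, ‖FF m c φ z‖ ≤ 1 / τ := by
    have hKZm : MeasurableSet (K \ Z) := hKm.diff hZm
    have h1 : ∫ z in K \ Z, ‖FF m c φ z‖ ≤ ∫ z in K \ Z, τ⁻¹ * ‖p z * FF m c φ z‖ := by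
      apply setIntegral_mono_on (hFn.mono_set sdiff_subset)
        ((hpFi.mono_set sdiff_subset).const_mul _) hKZm
      intro z hz
      have h3 : τ ≤ ‖p z‖ := by
        by_contra h
        exact hz.2 ⟨hz.1, not_le.1 h⟩
      rw [norm_mul]
      calc ‖FF m c φ z‖ = τ⁻¹ * (τ * ‖FF m c φ z‖) := by
            rw [← mul_assoc, inv_mul_cancel₀ hτ.ne', one_mul]
        _ ≤ τ⁻¹ * (‖p z‖ * ‖FF m c φ z‖) := by gcongr
    have h2 : ∫ z in K \ Z, τ⁻¹ * ‖p z * FF m c φ z‖ ≤ ∫ z in K, τ⁻¹ * ‖p z * FF m c φ z‖ := by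
      apply setIntegral_mono_set (hpFi.const_mul _)
      · filter_upwards with z
        simp only [Pi.zero_apply]
        positivity
      · exact sdiff_subset.eventuallyLE
    simp only [integral_const_mul] at h1 h2
    have h3 : τ⁻¹ * ∫ z in K, ‖p z * FF m c φ z‖ ≤ τ⁻¹ * 1 := by gcongr
    rw [one_div]
    linarith
  have hI2 : I = (∫ z in K \ Z, ‖L z‖) + ∫ z in Z, ‖L z‖ := by
    rw [hI]
    have := setIntegral_union (μ := (volume : Measure ℂ)) (f := fun z => ‖L z‖) (s := K \ Z) (t := Z)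
      disjoint_sdiff_left hZm (hLn.mono_set sdiff_subset) (hLn.mono_set hZK)
    rw [sdiff_union_of_subset hZK] at this
    exact this
  have hLKZ : ∫ z in K \ Z, ‖L z‖ ≤ 1 / τ + 3 * Real.pi * ρ * m3 := by
    have h1 : ∫ z in K \ Z, ‖L z‖ ≤ ∫ z in K \ Z, (‖FF m c φ z‖ + ‖FF m c φ z - L z‖) := by
      apply setIntegral_mono (hLn.mono_set sdiff_subset)
        ((hFn.mono_set sdiff_subset).add (hDint.mono_set sdiff_subset))
      intro z
      have : L z = FF m c φ z - (FF m c φ z - L z) := by ring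
      calc ‖L z‖ = ‖FF m c φ z - (FF m c φ z - L z)‖ := by rw [← this]
        _ ≤ _ := norm_sub_le _ _
    have h2 : ∫ z in K \ Z, (‖FF m c φ z‖ + ‖FF m c φ z - L z‖)
        = (∫ z in K \ Z, ‖FF m c φ z‖) + ∫ z in K \ Z, ‖FF m c φ z - L z‖ :=
      integral_add (hFn.mono_set sdiff_subset) (hDint.mono_set sdiff_subset)
    have h3 : ∫ z in K \ Z, ‖FF m c φ z - L z‖ ≤ ∫ z in K, ‖FF m c φ z - L z‖ := by
      apply setIntegral_mono_set hDint
      · filter_upwards with z
        simp only [Pi.zero_apply]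
        positivity
      · exact sdiff_subset.eventuallyLE
    linarith
  have hIle : I ≤ 2 * (1 / τ + 3 * Real.pi * ρ * m3) := by linarith
  have hFle : ∫ z in K, ‖FF m c φ z‖ ≤ I + ∫ z in K, ‖FF m c φ z - L z‖ := by
    rw [hI, ← integral_add hLn hDint]
    apply setIntegral_mono hFn (hLn.add hDint)
    intro z
    have : FF m c φ z = L z + (FF m c φ z - L z) := by ring
    calc ‖FF m c φ z‖ = ‖L z + (FF m c φ z - L z)‖ := by rw [← this]
      _ ≤ _ := norm_add_le _ _
  have hfin : 0 ≤ Real.pi * ρ * m3 := by positivity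
  calc ∫ z in K, ‖FF m c φ z‖ ≤ 2 * (1 / τ + 3 * Real.pi * ρ * m3) + 3 * Real.pi * ρ * m3 := by
        linarith
    _ = 2 / τ + 9 * (Real.pi * ρ * m3) := by ring
    _ ≤ 2 / τ + 40 * Real.pi * ρ * m3 := by linarith

end Pool.Agent.RankOne
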