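import Pool.Agent.Lib_helper15.RankOne.ModS

/-!
# Module I: final assembly

`Final_Stmt` from `R1_Stmt` and `Main_Stmt`.
-/

set_option autoImplicit false

open MeasureTheory Metric Set Filter Topology

namespace Pool.Agent.RankOne

universe u₀ v₀

open Pool.Agent.Lib_helper15

/-! ### Bounded measurable functions -/

section BM
variable {X : Type*} [MeasurableSpace X]

theorem BM.const (a : ℂ) : BM (fun _ : X => a) := ⟨measurable_const, ‖a‖, fun _ => le_rfl⟩

theorem BM.one : BM (1 : X → ℂ) := BM.const 1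

theorem BM.zero : BM (0 : X → ℂ) := BM.const 0

theorem BM.add {b₁ b₂ : X → ℂ} (h₁ : BM b₁) (h₂ : BM b₂) : BM (b₁ + b₂) := by
  obtain ⟨m₁, C₁, hC₁⟩ := h₁
  obtain ⟨m₂, C₂, hC₂⟩ := h₂
  exact ⟨m₁.add m₂, C₁ + C₂, fun x => (norm_add_le _ _).trans (add_le_add (hC₁ x) (hC₂ x))⟩

theorem BM.mul {b₁ b₂ : X → ℂ} (h₁ : BM b₁) (h₂ : BM b₂) : BM (b₁ * b₂) := by
  obtain ⟨m₁, C₁, hC₁⟩ := h₁
  obtain ⟨m₂, C₂, hC₂⟩ := h₂
  refine ⟨m₁.mul m₂, C₁ * C₂, fun x => ?_⟩
  rw [Pi.mul_apply, norm_mul]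
  exact mul_le_mul (hC₁ x) (hC₂ x) (norm_nonneg _) ((norm_nonneg _).trans (hC₁ x))

theorem BM.smul (a : ℂ) {b : X → ℂ} (h : BM b) : BM (a • b) := by
  have := (BM.const a).mul h
  exact this

theorem BM.neg {b : X → ℂ} (h : BM b) : BM (-b) := by
  have := BM.smul (-1) h
  simpa using this

theorem BM.sub {b₁ b₂ : X → ℂ} (h₁ : BM b₁) (h₂ : BM b₂) : BM (b₁ - b₂) := by
  rw [sub_eq_add_neg]
  exact h₁.add h₂.neg

theorem BM.star {b : X → ℂ} (h : BM b) : BM (fun x => (starRingEnd ℂ) (b x)) := by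
  obtain ⟨m₁, C₁, hC₁⟩ := h
  exact ⟨Complex.continuous_conj.measurable.comp m₁, C₁, fun x => by
    rw [RCLike.norm_conj]; exact hC₁ x⟩

/-- the indicator of `{φ ∈ A}` -/
noncomputable def ind (φ : X → ℂ) (A : Set ℂ) : X → ℂ := (φ ⁻¹' A).indicator 1

omit [MeasurableSpace X] in
theorem ind_mem {φ : X → ℂ} {A : Set ℂ} {x : X} (h : φ x ∈ A) : ind φ A x = 1 :=
  indicator_of_mem (s := φ ⁻¹' A) h 1

omit [MeasurableSpace X] in
theorem ind_notMem {φ : X → ℂ} {A : Set ℂ} {x : X} (h : φ x ∉ A) : ind φ A x = 0 :=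
  indicator_of_notMem (s := φ ⁻¹' A) h 1

theorem BM.ind {φ : X → ℂ} (hφ : BM φ) {A : Set ℂ} (hA : MeasurableSet A) : BM (ind φ A) := by
  refine ⟨measurable_one.indicator (hφ.1 hA), 1, fun x => ?_⟩
  by_cases h : φ x ∈ A
  · rw [ind_mem h, norm_one]
  · rw [ind_notMem h, norm_zero]; exact zero_le_one

end BM

/-! ### The algebraic part of a calculus -/

/-- A bounded unital homomorphism from bounded measurable functions into operators. -/
structure Side {X : Type*} [MeasurableSpace X] {F : Type*} [NormedAddCommGroup F]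
    [NormedSpace ℂ F] (Θ : (X → ℂ) → (F →L[ℂ] F)) : Prop where
  one : Θ 1 = 1
  add : ∀ b₁ b₂, BM b₁ → BM b₂ → Θ (b₁ + b₂) = Θ b₁ + Θ b₂
  smul : ∀ (a : ℂ) b, BM b → Θ (a • b) = a • Θ b
  mul : ∀ b₁ b₂, BM b₁ → BM b₂ → Θ (b₁ * b₂) = Θ b₁ * Θ b₂
  bdd : ∃ C : ℝ, ∀ b, Measurable b → ∀ M : ℝ, (∀ x, ‖b x‖ ≤ M) → ‖Θ b‖ ≤ C * M

section side
variable {X : Type*} [MeasurableSpace X] {F : Type*} [NormedAddCommGroup F] [NormedSpace ℂ F]
variable {Θ : (X → ℂ) → (F →L[ℂ] F)} {φ : X → ℂ}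

theorem Calculus.side (h : Calculus Θ) : Side Θ := ⟨h.one, h.add, h.smul, h.mul, h.bdd⟩

theorem Side.one_apply (h : Side Θ) (x : F) : Θ 1 x = x := by rw [h.one]; rfl

theorem Side.add_apply (h : Side Θ) {b₁ b₂ : X → ℂ} (h₁ : BM b₁) (h₂ : BM b₂) (x : F) :
    Θ (b₁ + b₂) x = Θ b₁ x + Θ b₂ x := by rw [h.add _ _ h₁ h₂]; rfl

theorem Side.smul_apply (h : Side Θ) (a : ℂ) {b : X → ℂ} (hb : BM b) (x : F) :
    Θ (a • b) x = a • Θ b x := by rw [h.smul _ _ hb]; rfl

theorem Side.mul_apply (h : Side Θ) {b₁ b₂ : X → ℂ} (h₁ : BM b₁) (h₂ : BM b₂) (x : F) :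
    Θ (b₁ * b₂) x = Θ b₁ (Θ b₂ x) := by rw [h.mul _ _ h₁ h₂]; rfl

theorem Side.neg (h : Side Θ) {b : X → ℂ} (hb : BM b) : Θ (-b) = - Θ b := by
  have := h.smul (-1) b hb
  simpa using this

theorem Side.sub (h : Side Θ) {b₁ b₂ : X → ℂ} (h₁ : BM b₁) (h₂ : BM b₂) :
    Θ (b₁ - b₂) = Θ b₁ - Θ b₂ := by
  rw [sub_eq_add_neg, h.add _ _ h₁ h₂.neg, h.neg h₂, sub_eq_add_neg]

theorem Side.const (h : Side Θ) (a : ℂ) : Θ (fun _ => a) = a • ContinuousLinearMap.id ℂ F := by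
  have h1 : (fun _ : X => a) = a • (1 : X → ℂ) := by
    funext x; simp
  rw [h1, h.smul a 1 BM.one, h.one]
  rfl

/-- the dual side -/
theorem Side.dual (h : Side Θ) : Side (fun b => dualOp (Θ b)) where
  one := by
    ext ℓ x
    simp [h.one]
  add b₁ b₂ h₁ h₂ := by
    ext ℓ x
    simp [h.add _ _ h₁ h₂]
  smul a b hb := by
    ext ℓ x
    simp [h.smul _ _ hb]
  mul b₁ b₂ h₁ h₂ := by
    ext ℓ x
    change dualOp (Θ (b₁ * b₂)) ℓ x = dualOp (Θ b₁) (dualOp (Θ b₂) ℓ) x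
    rw [dualOp_apply, dualOp_apply, dualOp_apply, mul_comm b₁ b₂, h.mul_apply h₂ h₁]
  bdd := by
    obtain ⟨C, hC⟩ := h.bdd
    refine ⟨C, fun b hb M hM => ?_⟩
    refine le_trans ?_ (hC b hb M hM)
    refine ContinuousLinearMap.opNorm_le_bound _ (norm_nonneg _) fun ℓ => ?_
    refine ContinuousLinearMap.opNorm_le_bound _ (by positivity) fun x => ?_
    rw [dualOp_apply]
    calc ‖ℓ (Θ b x)‖ ≤ ‖ℓ‖ * (‖Θ b‖ * ‖x‖) :=
          (ℓ.le_opNorm _).trans (by gcongr; exact (Θ b).le_opNorm x)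
      _ = ‖Θ b‖ * ‖ℓ‖ * ‖x‖ := by ring

/-- the perturbed operator -/
noncomputable def TT (Θ : (X → ℂ) → (F →L[ℂ] F)) (φ : X → ℂ) (u : F) (v : StrongDual ℂ F) :
    F →L[ℂ] F := Θ φ + v.smulRight u

omit [MeasurableSpace X] in
theorem TT_apply (u : F) (v : StrongDual ℂ F) (x : F) : TT Θ φ u v x = Θ φ x + v x • u := by
  simp [TT]

omit [MeasurableSpace X] in
theorem dualOp_TT (u : F) (v : StrongDual ℂ F) :
    dualOp (TT Θ φ u v) = TT (fun b => dualOp (Θ b)) φ v (ContinuousLinearMap.apply ℂ ℂ u) := by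
  ext ℓ x
  simp [TT_apply, mul_comm]

/-- a measure representing `b ↦ v (Θ b u)` -/
structure Rep {X : Type*} [MeasurableSpace X] {F : Type*} [NormedAddCommGroup F]
    [NormedSpace ℂ F] (Θ : (X → ℂ) → (F →L[ℂ] F)) (φ : X → ℂ) (u : F) (v : StrongDual ℂ F)
    (m : Measure X) (c : X → ℂ) : Prop where
  side : Side Θ
  data : Data m c φ
  rep : ∀ b, BM b → v (Θ b u) = ∫ x, b x * c x ∂m

variable {u : F} {v : StrongDual ℂ F} {m : Measure X} {c : X → ℂ}

theorem Rep.dual (h : Rep Θ φ u v m c) :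
    Rep (fun b => dualOp (Θ b)) φ v (ContinuousLinearMap.apply ℂ ℂ u) m c where
  side := h.side.dual
  data := h.data
  rep b hb := by
    rw [← h.rep b hb]
    simp

theorem Rep.bmc (h : Rep Θ φ u v m c) : BM c := ⟨h.data.cmeas, 1, fun x => (h.data.cnorm x).le⟩

/-- functions orthogonal to everything are null -/
theorem Rep.ae_zero (h : Rep Θ φ u v m c) {b : X → ℂ} (hb : BM b)
    (h0 : ∀ b' : X → ℂ, BM b' → ∫ x, (b' * b) x * c x ∂m = 0) : b =ᵐ[m] 0 := by
  have := h.data.fin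
  have h1 := h0 _ (hb.mul h.bmc).star
  have h2 : ∀ x, (((fun x => (starRingEnd ℂ) ((b * c) x)) * b) x) * c x = ((‖b x‖ ^ 2 : ℝ) : ℂ) := by
    intro x
    have hc : (starRingEnd ℂ) (c x) * c x = 1 := by
      rw [← Complex.normSq_eq_conj_mul_self, Complex.normSq_eq_norm_sq, h.data.cnorm x]; simp
    have hbb : (starRingEnd ℂ) (b x) * b x = ((‖b x‖ ^ 2 : ℝ) : ℂ) := by
      rw [← Complex.normSq_eq_conj_mul_self, Complex.normSq_eq_norm_sq]
    calc (((fun x => (starRingEnd ℂ) ((b * c) x)) * b) x) * c x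
        = ((starRingEnd ℂ) (b x) * b x) * ((starRingEnd ℂ) (c x) * c x) := by
          simp only [Pi.mul_apply, map_mul]; ring
      _ = _ := by rw [hc, hbb, mul_one]
  simp_rw [h2] at h1
  rw [integral_complex_ofReal] at h1
  have h3 : ∫ x, ‖b x‖ ^ 2 ∂m = 0 := by exact_mod_cast h1
  obtain ⟨hbm, C, hC⟩ := hb
  have hint : Integrable (fun x => ‖b x‖ ^ 2) m := by
    refine Integrable.of_bound (hbm.norm.pow_const 2).aestronglyMeasurable (C ^ 2)
      (Eventually.of_forall fun x => ?_)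
    rw [norm_pow, norm_norm]
    exact pow_le_pow_left₀ (norm_nonneg _) (hC x) 2
  rw [integral_eq_zero_iff_of_nonneg (fun x => by positivity) hint] at h3
  filter_upwards [h3] with x hx
  have : ‖b x‖ ^ 2 = 0 := hx
  have : ‖b x‖ = 0 := by simpa using this
  simpa using this

/-- the model of the perturbed operator -/
theorem Rep.model (h : Rep Θ φ u v m c) : Model m c φ (TT Θ φ u v) (fun b => Θ b u) where
  add b₁ b₂ h₁ h₂ := h.side.add_apply h₁ h₂ u
  smul a b hb := h.side.smul_apply a hb u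
  bdd := by
    obtain ⟨C, hC⟩ := h.side.bdd
    refine ⟨C * ‖u‖, fun b hb M hM => ?_⟩
    calc ‖Θ b u‖ ≤ ‖Θ b‖ * ‖u‖ := (Θ b).le_opNorm u
      _ ≤ (C * M) * ‖u‖ := by gcongr; exact hC b hb M hM
      _ = _ := by ring
  inter b hb := by
    rw [TT_apply, h.side.mul_apply h.data.phi hb, h.rep b hb, h.side.one_apply]
  inj b hb h0 := by
    refine h.ae_zero hb fun b' hb' => ?_
    rw [← h.rep _ (hb'.mul hb), h.side.mul_apply hb' hb, h0, map_zero, map_zero]

/-! ### Local vectors in `{x | ∀ b, v (Θ b x) = 0}` -/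

/-- `ζ` is a local point of `T`: there are nonzero local vectors in all discs around `ζ`. -/
def LocPt (T : F →L[ℂ] F) (ζ : ℂ) : Prop :=
  ∀ r > 0, ∃ f, f ≠ 0 ∧ LocVec T (closedBall ζ r) f

theorem hns_of_locPt {E : Type*} [NormedAddCommGroup E] [NormedSpace ℂ E] {T : E →L[ℂ] E}
    {ζ₁ ζ₂ : ℂ} (hne : ζ₁ ≠ ζ₂) (h₁ : LocPt T ζ₁) (h₂ : LocPt (dualOp T) ζ₂) :
    HasNontrivialHyperinvariantSubspace T := by
  have hpos : 0 < ‖ζ₁ - ζ₂‖ := norm_pos_iff.2 (sub_ne_zero.2 hne)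
  obtain ⟨f, hf0, hf⟩ := h₁ (‖ζ₁ - ζ₂‖ / 3) (by positivity)
  obtain ⟨g, hg0, hg⟩ := h₂ (‖ζ₁ - ζ₂‖ / 3) (by positivity)
  refine hns_of_locVec (isCompact_closedBall _ _) (isCompact_closedBall _ _) ?_ hf0 hf hg0 hg
  refine closedBall_disjoint_closedBall ?_
  rw [dist_eq_norm]
  linarith

/-- `Θ(1_{φ ∈ K}) x` is a local vector if `v (Θ b x) = 0` for all `b`. -/
theorem locVec_proj {X : Type u₀} [MeasurableSpace X] {F : Type v₀} [NormedAddCommGroup F]
    [NormedSpace ℂ F] {Θ : (X → ℂ) → (F →L[ℂ] F)} {φ : X → ℂ} (hR1 : R1_Stmt.{u₀, v₀}) (hΘ : Side Θ)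
    (hφ : BM φ) (u : F) (v : StrongDual ℂ F) {x : F} (hxv : ∀ b, BM b → v (Θ b x) = 0) (ζ : ℂ)
    {r : ℝ} (hr : 0 < r) :
    LocVec (TT Θ φ u v) (closedBall ζ r) (Θ (ind φ (closedBall ζ r)) x) := by
  have hdata : Data (0 : Measure X) (fun _ => 1) φ :=
    ⟨inferInstance, measurable_const, fun _ => by simp, hφ⟩
  have hmod : Model (0 : Measure X) (fun _ => 1) φ (TT Θ φ u v) (fun b => Θ b x) :=
    { add := fun b₁ b₂ h₁ h₂ => hΘ.add_apply h₁ h₂ x
      smul := fun a b hb => hΘ.smul_apply a hb x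
      bdd := by
        obtain ⟨C, hC⟩ := hΘ.bdd
        refine ⟨C * ‖x‖, fun b hb M hM => ?_⟩
        calc ‖Θ b x‖ ≤ ‖Θ b‖ * ‖x‖ := (Θ b).le_opNorm x
          _ ≤ (C * M) * ‖x‖ := by gcongr; exact hC b hb M hM
          _ = _ := by ring
      inter := fun b hb => by
        rw [TT_apply, hΘ.mul_apply hφ hb, hxv b hb]
        simp
      inj := fun b hb h0 => by
        rw [ae_zero]; exact Filter.eventually_bot }
  have h := (hR1 X 0 (fun _ => 1) φ hdata F (TT Θ φ u v) (fun b => Θ b x) hmod ζ r hr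
    (ind φ (closedBall ζ r)) 0 (hφ.ind isClosed_closedBall.measurableSet) BM.zero
    (fun y hy => ind_notMem hy) (fun q => by simp)).1
  simpa using h

/-- Under `v (Θ b x) = 0` for all `b` there is a local point different from a given one. -/
theorem exists_locPt {X : Type u₀} [MeasurableSpace X] {F : Type v₀} [NormedAddCommGroup F]
    [NormedSpace ℂ F] {Θ : (X → ℂ) → (F →L[ℂ] F)} {φ : X → ℂ} (hR1 : R1_Stmt.{u₀, v₀}) (hΘ : Side Θ)
    (hφ : BM φ) (u : F) (v : StrongDual ℂ F) (hne : NoEig (TT Θ φ u v)) {x : F} (hx : x ≠ 0)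
    (hxv : ∀ b, BM b → v (Θ b x) = 0) (ζ₀ : ℂ) : ∃ ζ, ζ ≠ ζ₀ ∧ LocPt (TT Θ φ u v) ζ := by
  by_contra hcon
  push Not at hcon
  apply hx
  -- null sets
  have hnull : ∀ ζ, ζ ≠ ζ₀ → ∃ r > 0, Θ (ind φ (closedBall ζ r)) x = 0 := by
    intro ζ hζ
    have h1 := hcon ζ hζ
    unfold LocPt at h1
    push Not at h1
    obtain ⟨r, hr, h2⟩ := h1
    refine ⟨r, hr, ?_⟩
    by_contra h3
    exact h2 _ h3 (locVec_proj hR1 hΘ hφ u v hxv ζ hr)
  obtain ⟨C₀, hC₀⟩ := hφ.2
  obtain ⟨C, hC⟩ := hΘ.bdd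
  -- the compact set
  have hcomp : ∀ ε > 0, ∃ B : Set ℂ, MeasurableSet B ∧ closedBall 0 C₀ \ ball ζ₀ ε ⊆ B ∧
      ∀ b, BM b → Θ (b * ind φ B) x = 0 := by
    intro ε hε
    have hK : IsCompact (closedBall (0 : ℂ) C₀ \ ball ζ₀ ε) :=
      (isCompact_closedBall 0 C₀).diff isOpen_ball
    refine hK.induction_on (p := fun s => ∃ B : Set ℂ, MeasurableSet B ∧ s ⊆ B ∧
      ∀ b, BM b → Θ (b * ind φ B) x = 0) ?_ ?_ ?_ ?_
    · refine ⟨∅, MeasurableSet.empty, subset_rfl, fun b hb => ?_⟩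
      have : b * ind φ ∅ = (0 : ℂ) • b := by
        funext y
        simp [ind]
      rw [this, hΘ.smul_apply 0 hb, zero_smul]
    · rintro s t hst ⟨B, h1, h2, h3⟩
      exact ⟨B, h1, hst.trans h2, h3⟩
    · rintro s t ⟨B₁, h1, h2, h3⟩ ⟨B₂, h4, h5, h6⟩
      refine ⟨B₁ ∪ B₂, h1.union h4, union_subset_union h2 h5, fun b hb => ?_⟩
      have e : b * ind φ (B₁ ∪ B₂) = b * ind φ B₁ + (b - b * ind φ B₁) * ind φ B₂ := by
        funext y
        simp only [Pi.mul_apply, Pi.add_apply, Pi.sub_apply]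
        by_cases hy1 : φ y ∈ B₁
        · rw [ind_mem hy1, ind_mem (show φ y ∈ B₁ ∪ B₂ from Or.inl hy1)]; ring
        · by_cases hy2 : φ y ∈ B₂
          · rw [ind_notMem hy1, ind_mem hy2, ind_mem (show φ y ∈ B₁ ∪ B₂ from Or.inr hy2)]; ring
          · rw [ind_notMem hy1, ind_notMem hy2,
              ind_notMem (show φ y ∉ B₁ ∪ B₂ from fun h => h.elim hy1 hy2)]; ring
      have hb1 : BM (b * ind φ B₁) := hb.mul (hφ.ind h1)
      rw [e, hΘ.add_apply hb1 ((hb.sub hb1).mul (hφ.ind h4)), h3 b hb, h6 _ (hb.sub hb1), add_zero]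
    · intro ζ hζ
      have hζ0 : ζ ≠ ζ₀ := by
        rintro rfl
        exact hζ.2 (mem_ball_self hε)
      obtain ⟨r, hr, h1⟩ := hnull ζ hζ0
      refine ⟨closedBall ζ r, mem_nhdsWithin_of_mem_nhds (closedBall_mem_nhds ζ hr),
        closedBall ζ r, isClosed_closedBall.measurableSet, subset_rfl, fun b hb => ?_⟩
      rw [hΘ.mul_apply hb (hφ.ind isClosed_closedBall.measurableSet), h1, map_zero]
  -- `Θ φ x = ζ₀ x`
  have hC0 : 0 ≤ C := by
    have := hC 0 measurable_zero 1 (fun y => by simp)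
    have h2 := norm_nonneg (Θ 0)
    linarith
  have heig : ∀ ε > 0, ‖Θ φ x - ζ₀ • x‖ ≤ C * ε * ‖x‖ := by
    intro ε hε
    obtain ⟨B, hB, hB1, hB2⟩ := hcomp ε hε
    set b₀ : X → ℂ := φ - fun _ => ζ₀ with hb₀
    have hbm : BM b₀ := hφ.sub (BM.const ζ₀)
    have e1 : Θ φ x - ζ₀ • x = Θ b₀ x := by
      rw [hb₀, hΘ.sub hφ (BM.const ζ₀), hΘ.const]
      rfl
    have e2 : b₀ = b₀ * ind φ B + b₀ * ind φ Bᶜ := by
      funext y
      simp only [Pi.mul_apply, Pi.add_apply]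
      by_cases hy : φ y ∈ B
      · rw [ind_mem hy, ind_notMem (show φ y ∉ Bᶜ from fun h => h hy)]; ring
      · rw [ind_notMem hy, ind_mem (show φ y ∈ Bᶜ from hy)]; ring
    have hb2 : BM (b₀ * ind φ Bᶜ) := hbm.mul (hφ.ind hB.compl)
    have e3 : Θ b₀ x = Θ (b₀ * ind φ Bᶜ) x := by
      nth_rewrite 1 [e2]
      rw [hΘ.add_apply (hbm.mul (hφ.ind hB)) hb2, hB2 _ hbm, zero_add]
    rw [e1, e3]
    refine ((Θ (b₀ * ind φ Bᶜ)).le_opNorm x).trans ?_
    gcongr
    refine hC _ hb2.1 ε fun y => ?_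
    rw [Pi.mul_apply, norm_mul]
    by_cases hy : φ y ∈ B
    · rw [ind_notMem (show φ y ∉ Bᶜ from fun h => h hy), norm_zero, mul_zero]; exact hε.le
    · rw [ind_mem (show φ y ∈ Bᶜ from hy), norm_one, mul_one]
      by_contra hlt
      apply hy
      apply hB1
      refine ⟨?_, ?_⟩
      · rw [mem_closedBall, dist_zero_right]; exact hC₀ y
      · rw [mem_ball, dist_eq_norm]
        have : ‖φ y - ζ₀‖ = ‖b₀ y‖ := by simp [hb₀]
        rw [this]
        linarith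
  have hzero : ‖Θ φ x - ζ₀ • x‖ = 0 := by
    refine le_antisymm ?_ (norm_nonneg _)
    refine le_of_forall_pos_le_add fun δ hδ => ?_
    have hp : 0 < C * ‖x‖ + 1 := by positivity
    have := heig (δ / (C * ‖x‖ + 1)) (by positivity)
    refine this.trans ?_
    rw [zero_add, show C * (δ / (C * ‖x‖ + 1)) * ‖x‖ = δ * ((C * ‖x‖) / (C * ‖x‖ + 1)) by ring]
    have h2 : (C * ‖x‖) / (C * ‖x‖ + 1) ≤ 1 := by
      rw [div_le_one hp]; linarith
    nlinarith
  apply hne ζ₀ x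
  rw [TT_apply]
  have h1 : v x = 0 := by
    have := hxv 1 BM.one
    rwa [hΘ.one_apply] at this
  rw [h1, zero_smul, add_zero]
  exact sub_eq_zero.1 (norm_eq_zero.1 hzero)

end side

/-! ### The support -/

/-- support points of `φ_* m` -/
def SP {X : Type*} [MeasurableSpace X] (m : Measure X) (φ : X → ℂ) (z : ℂ) : Prop :=
  ∀ ε > 0, 0 < m.real (φ ⁻¹' ball z ε)

/-- accumulation points of the support -/
def Acc {X : Type*} [MeasurableSpace X] (m : Measure X) (φ : X → ℂ) (lam : ℂ) : Prop :=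
  ∀ δ > 0, ∃ z₁ : ℂ, z₁ ≠ lam ∧ ‖z₁ - lam‖ < δ ∧ SP m φ z₁

theorem finite_off {X : Type*} [MeasurableSpace X] {m : Measure X} [IsFiniteMeasure m] {φ : X → ℂ}
    (hφ : Measurable φ) {K : Set ℂ} (hK : IsCompact K) (h : ∀ z ∈ K, ¬ Acc m φ z) :
    ∃ Λ : Finset ℂ, m (φ ⁻¹' (K \ Λ)) = 0 := by
  classical
  refine hK.induction_on (p := fun s => ∃ Λ : Finset ℂ, m (φ ⁻¹' (s \ Λ)) = 0) ?_ ?_ ?_ ?_
  · exact ⟨∅, by simp⟩
  · rintro s t hst ⟨Λ, hΛ⟩
    exact ⟨Λ, measure_mono_null (preimage_mono (sdiff_subset_sdiff_left hst)) hΛ⟩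
  · rintro s t ⟨Λ₁, h1⟩ ⟨Λ₂, h2⟩
    refine ⟨Λ₁ ∪ Λ₂, measure_mono_null ?_ (measure_union_null h1 h2)⟩
    rintro x ⟨hx | hx, hx2⟩
    · left
      refine ⟨hx, fun h => hx2 ?_⟩
      simp only [Finset.coe_union]
      exact Or.inl h
    · right
      refine ⟨hx, fun h => hx2 ?_⟩
      simp only [Finset.coe_union]
      exact Or.inr h
  · intro z hz
    have h1 := h z hz
    unfold Acc at h1
    push Not at h1
    obtain ⟨δ, hδ, h2⟩ := h1
    refine ⟨ball z δ, mem_nhdsWithin_of_mem_nhds (ball_mem_nhds z hδ), {z}, ?_⟩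
    have hms : MeasurableSet (ball z δ \ (({z} : Finset ℂ) : Set ℂ)) := by
      rw [Finset.coe_singleton]
      exact measurableSet_ball.diff (measurableSet_singleton z)
    rw [← Measure.map_apply hφ hms]
    refine measure_null_of_locally_null _ fun w hw => ?_
    have hwz : w ≠ z := fun h => hw.2 (by simp [h])
    have h3 : ¬ SP m φ w := h2 w hwz (by
      have := hw.1
      rwa [mem_ball, dist_eq_norm] at this)
    unfold SP at h3
    push Not at h3
    obtain ⟨ε, hε, h4⟩ := h3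
    refine ⟨ball w ε, mem_nhdsWithin_of_mem_nhds (ball_mem_nhds w hε), ?_⟩
    rw [Measure.map_apply hφ measurableSet_ball]
    have h5 : m.real (φ ⁻¹' ball w ε) = 0 := le_antisymm h4 measureReal_nonneg
    rwa [measureReal_eq_zero_iff] at h5

section poly
variable {X : Type u₀} [MeasurableSpace X] {F : Type v₀} [NormedAddCommGroup F] [NormedSpace ℂ F]
variable {Θ : (X → ℂ) → (F →L[ℂ] F)} {φ : X → ℂ} {u : F} {v : StrongDual ℂ F} {m : Measure X}
  {c : X → ℂ}

theorem BM.poly (hφ : BM φ) (p : Polynomial ℂ) : BM (fun y => p.eval (φ y)) := by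
  obtain ⟨h1, C, hC⟩ := hφ
  refine ⟨p.continuous.measurable.comp h1, ?_⟩
  obtain ⟨D, hD⟩ := (isCompact_closedBall (0 : ℂ) C).exists_bound_of_continuousOn
    p.continuous.continuousOn
  exact ⟨D, fun x => hD _ (by rw [mem_closedBall, dist_zero_right]; exact hC x)⟩

theorem exists_in_Ev (h : Rep Θ φ u v m c) (hne : NoEig (TT Θ φ u v)) (hu : u ≠ 0)
    (hacc : ∀ z, ¬ Acc m φ z) : ∃ x, x ≠ 0 ∧ ∀ b, BM b → v (Θ b x) = 0 := by
  have hfin := h.data.fin
  have hφ := h.data.phi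
  have hΘ := h.side
  obtain ⟨C₀, hC₀⟩ := hφ.2
  obtain ⟨Λ, hΛ⟩ := finite_off (m := m) hφ.1 (isCompact_closedBall (0 : ℂ) C₀)
    (fun z _ => hacc z)
  set P : Polynomial ℂ := ∏ z ∈ Λ, (Polynomial.X - Polynomial.C z) with hP
  have hPm : P.Monic := Polynomial.monic_prod_of_monic _ _ fun z _ => Polynomial.monic_X_sub_C z
  set b₀ : X → ℂ := fun y => P.eval (φ y) with hb₀
  have hbm : BM b₀ := hφ.poly P
  have hb0 : ∀ᵐ y ∂m, b₀ y = 0 := by
    have h1 : ∀ᵐ y ∂m, y ∉ φ ⁻¹' (closedBall (0 : ℂ) C₀ \ Λ) := measure_eq_zero_iff_ae_notMem.1 hΛ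
    filter_upwards [h1] with y hy
    have hyΛ : φ y ∈ Λ := by
      by_contra hc
      exact hy ⟨by rw [mem_closedBall, dist_zero_right]; exact hC₀ y, hc⟩
    rw [hb₀]
    simp only [hP, Polynomial.eval_prod]
    exact Finset.prod_eq_zero hyΛ (by simp)
  by_cases hx : Θ b₀ u = 0
  swap
  · refine ⟨Θ b₀ u, hx, fun b hb => ?_⟩
    rw [← hΘ.mul_apply hb hbm, h.rep _ (hb.mul hbm)]
    rw [integral_eq_zero_of_ae]
    filter_upwards [hb0] with y hy
    rw [Pi.mul_apply, hy]; simp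
  -- finite dimensional invariant subspace
  exfalso
  let L : Polynomial ℂ →ₗ[ℂ] F :=
    { toFun := fun p => Θ (fun y => p.eval (φ y)) u
      map_add' := by
        intro p q
        rw [← hΘ.add_apply (hφ.poly p) (hφ.poly q)]
        congr 2
        funext y
        simp
      map_smul' := by
        intro a p
        rw [RingHom.id_apply, ← hΘ.smul_apply a (hφ.poly p)]
        congr 2
        funext y
        simp }
  set W : Submodule ℂ F := Submodule.map L (Polynomial.degreeLT ℂ P.natDegree) with hW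
  have hfd : FiniteDimensional ℂ (Polynomial.degreeLT ℂ P.natDegree) :=
    (Polynomial.degreeLTEquiv ℂ P.natDegree).symm.finiteDimensional
  have hWfd : FiniteDimensional ℂ W := by
    rw [hW]; infer_instance
  have hLW : ∀ p, L p ∈ W := by
    intro p
    have e : L p = L (p %ₘ P) := by
      have h1 := Polynomial.modByMonic_add_div p P
      have h2 : L (P * (p /ₘ P)) = 0 := by
        change Θ (fun y => (P * (p /ₘ P)).eval (φ y)) u = 0
        have h3 : (fun y => (P * (p /ₘ P)).eval (φ y)) =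
            (fun y => (p /ₘ P).eval (φ y)) * b₀ := by
          funext y
          simp [hb₀, mul_comm]
        rw [h3, hΘ.mul_apply (hφ.poly _) hbm, hx, map_zero]
      nth_rewrite 1 [← h1]
      rw [map_add, h2, add_zero]
    rw [e]
    refine Submodule.mem_map_of_mem ?_
    rw [Polynomial.mem_degreeLT, ← Polynomial.degree_eq_natDegree hPm.ne_zero]
    exact Polynomial.degree_modByMonic_lt p hPm
  have hL1 : L 1 = u := by
    change Θ (fun y => (1 : Polynomial ℂ).eval (φ y)) u = u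
    have : (fun y => (1 : Polynomial ℂ).eval (φ y)) = (1 : X → ℂ) := by
      funext y; simp
    rw [this, hΘ.one_apply]
  have hTW : ∀ x ∈ W, TT Θ φ u v x ∈ W := by
    rintro x ⟨p, -, rfl⟩
    rw [TT_apply]
    refine W.add_mem ?_ (W.smul_mem _ (hL1 ▸ hLW 1))
    have : Θ φ (L p) = L (Polynomial.X * p) := by
      change Θ φ (Θ (fun y => p.eval (φ y)) u) = Θ (fun y => (Polynomial.X * p).eval (φ y)) u
      rw [← hΘ.mul_apply hφ (hφ.poly p)]
      congr 2
      funext y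
      simp
    rw [this]
    exact hLW _
  let TW : W →ₗ[ℂ] W := (TT Θ φ u v : F →ₗ[ℂ] F).restrict hTW
  have huW : u ∈ W := hL1 ▸ hLW 1
  have : Nontrivial W := ⟨⟨⟨u, huW⟩, 0, fun h0 => hu (by simpa using congrArg Subtype.val h0)⟩⟩
  obtain ⟨μ, hμ⟩ := Module.End.exists_eigenvalue TW
  obtain ⟨w, hw⟩ := hμ.exists_hasEigenvector
  have h1 : TT Θ φ u v (w : F) = μ • (w : F) := by
    have := congrArg Subtype.val hw.apply_eq_smul
    simpa [TW] using this
  have h2 := hne μ w h1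
  exact hw.2 (Subtype.ext h2)

/-! ### The compact case -/

theorem isCompact_rankOne (v : StrongDual ℂ F) (e : F) : IsCompactOperator (v.smulRight e) := by
  have h1 : IsCompactOperator v := isCompactOperator_of_locallyCompactSpace_dom v
  have h2 : IsCompactOperator (ContinuousLinearMap.toSpanSingleton ℂ e ∘ v) :=
    h1.clm_comp (ContinuousLinearMap.toSpanSingleton ℂ e)
  have h3 : (v.smulRight e : F → F) = ContinuousLinearMap.toSpanSingleton ℂ e ∘ v := by
    funext x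
    simp
  rw [h3]
  exact h2

theorem compact_case [CompleteSpace F] (h : Rep Θ φ u v m c) (hne : NoEig (TT Θ φ u v))
    (hEv : ∀ x, (∀ b, BM b → v (Θ b x) = 0) → x = 0)
    (hFu : ∀ y : StrongDual ℂ F, (∀ b, BM b → y (Θ b u) = 0) → y = 0) (lam : ℂ)
    (hacc : ∀ z, z ≠ lam → ¬ Acc m φ z) :
    IsCompactOperator (TT Θ φ u v - lam • ContinuousLinearMap.id ℂ F : F →L[ℂ] F) := by
  classical
  have hfin := h.data.fin
  have hφ := h.data.phi
  have hΘ := h.side
  obtain ⟨C₀, hC₀⟩ := hφ.2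
  obtain ⟨C, hC⟩ := hΘ.bdd
  -- null functions are `Θ`-null
  have hnull : ∀ b, BM b → b =ᵐ[m] 0 → Θ b = 0 := by
    intro b hb hb0
    have h1 : ∀ b'', BM b'' → Θ b (Θ b'' u) = 0 := by
      intro b'' hb''
      apply hEv
      intro b' hb'
      rw [← hΘ.mul_apply hb hb'', ← hΘ.mul_apply hb' (hb.mul hb''), h.rep _ (hb'.mul (hb.mul hb''))]
      rw [integral_eq_zero_of_ae]
      filter_upwards [hb0] with y hy
      simp [hy]
    ext x
    change Θ b x = 0
    refine (SeparatingDual.eq_zero_iff_forall_dual_eq_zero (R := ℂ) (Θ b x)).2 fun y => ?_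
    have h2 : y.comp (Θ b) = 0 := by
      apply hFu
      intro b'' hb''
      rw [ContinuousLinearMap.comp_apply, h1 b'' hb'', map_zero]
    exact congrArg (fun A : F →L[ℂ] ℂ => A x) h2
  -- the projections on the eigenspaces of `Θ φ` are compact
  have hproj : ∀ z : ℂ, IsCompactOperator (Θ (ind φ {z})) := by
    intro z
    have hbm : BM (ind φ {z}) := hφ.ind (measurableSet_singleton z)
    have heig : ∀ x, Θ φ (Θ (ind φ {z}) x) = z • Θ (ind φ {z}) x := by
      intro x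
      rw [← hΘ.mul_apply hφ hbm, ← hΘ.smul_apply z hbm]
      congr 2
      funext y
      rw [Pi.mul_apply, Pi.smul_apply, smul_eq_mul]
      by_cases hy : φ y ∈ ({z} : Set ℂ)
      · rw [mem_singleton_iff.1 hy]
      · rw [ind_notMem hy]; ring
    have hinj : ∀ x, Θ (ind φ {z}) x = x → v x = 0 → x = 0 := by
      intro x hx hvx
      apply hne z x
      rw [TT_apply, hvx, zero_smul, add_zero]
      have := heig x
      rwa [hx] at this
    have hidem : ∀ x, Θ (ind φ {z}) (Θ (ind φ {z}) x) = Θ (ind φ {z}) x := by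
      intro x
      rw [← hΘ.mul_apply hbm hbm]
      congr 2
      funext y
      rw [Pi.mul_apply]
      by_cases hy : φ y ∈ ({z} : Set ℂ)
      · rw [ind_mem hy]; ring
      · rw [ind_notMem hy]; ring
    by_cases hz : Θ (ind φ {z}) = 0
    · rw [hz]; exact isCompactOperator_zero
    obtain ⟨x₀, hx₀⟩ : ∃ x₀, Θ (ind φ {z}) x₀ ≠ 0 := by
      by_contra hcon
      push Not at hcon
      exact hz (by ext x; simp [hcon x])
    set e := Θ (ind φ {z}) x₀ with he
    have hve : v e ≠ 0 := fun h0 => hx₀ (hinj e (hidem x₀) h0)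
    have hform : Θ (ind φ {z}) =
        (((v e)⁻¹ • (v.comp (Θ (ind φ {z}))) : StrongDual ℂ F)).smulRight e := by
      ext x
      have h1 : Θ (ind φ {z}) x - (v (Θ (ind φ {z}) x) / v e) • e = 0 := by
        apply hinj
        · rw [map_sub, map_smul, hidem, he, hidem]
        · rw [map_sub, map_smul, smul_eq_mul, div_mul_cancel₀ _ hve, sub_self]
      rw [sub_eq_zero.1 h1]
      simp [div_eq_inv_mul]
    rw [hform]
    exact isCompact_rankOne _ _
  -- finite combinations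
  have hcomb : ∀ (Λ : Finset ℂ) (a : ℂ → ℂ), BM (∑ z ∈ Λ, a z • ind φ {z}) ∧
      IsCompactOperator (Θ (∑ z ∈ Λ, a z • ind φ {z})) := by
    intro Λ a
    induction Λ using Finset.induction_on with
    | empty =>
      refine ⟨by simpa using BM.zero, ?_⟩
      have : Θ (∑ z ∈ (∅ : Finset ℂ), a z • ind φ {z}) = 0 := by
        rw [Finset.sum_empty]
        exact hnull 0 BM.zero (ae_eq_refl _)
      rw [this]
      exact isCompactOperator_zero
    | insert z Λ hz ih =>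
      have hb1 : BM (a z • ind φ {z}) := (hφ.ind (measurableSet_singleton z)).smul _
      rw [Finset.sum_insert hz]
      refine ⟨hb1.add ih.1, ?_⟩
      rw [hΘ.add _ _ hb1 ih.1, hΘ.smul _ _ (hφ.ind (measurableSet_singleton z))]
      exact ((hproj z).smul (a z)).add ih.2
  -- the approximations
  set b₀ : X → ℂ := φ - fun _ => lam with hb₀
  have hbm : BM b₀ := hφ.sub (BM.const lam)
  have happ : ∀ ε > 0, IsCompactOperator (Θ (b₀ * ind φ (ball lam ε)ᶜ)) := by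
    intro ε hε
    have hK : IsCompact (closedBall (0 : ℂ) C₀ \ ball lam ε) :=
      (isCompact_closedBall 0 C₀).diff isOpen_ball
    obtain ⟨Λ, hΛ⟩ := finite_off (m := m) hφ.1 hK (fun z hz => hacc z (by
      rintro rfl
      exact hz.2 (mem_ball_self hε)))
    obtain ⟨h1, h2⟩ := hcomb Λ (fun z => if z ∈ ball lam ε then 0 else z - lam)
    set b₁ : X → ℂ := ∑ z ∈ Λ, (if z ∈ ball lam ε then (0 : ℂ) else z - lam) • ind φ {z} with hb₁
    have hbm2 : BM (b₀ * ind φ (ball lam ε)ᶜ) := hbm.mul (hφ.ind measurableSet_ball.compl)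
    have hae : b₀ * ind φ (ball lam ε)ᶜ - b₁ =ᵐ[m] 0 := by
      have h3 : ∀ᵐ y ∂m, y ∉ φ ⁻¹' ((closedBall (0 : ℂ) C₀ \ ball lam ε) \ Λ) :=
        measure_eq_zero_iff_ae_notMem.1 hΛ
      filter_upwards [h3] with y hy
      have hval : ∀ z, ind φ {z} y = if φ y = z then 1 else 0 := by
        intro z
        by_cases hyz : φ y = z
        · rw [if_pos hyz, ind_mem (show φ y ∈ ({z} : Set ℂ) from hyz)]
        · rw [if_neg hyz, ind_notMem (show φ y ∉ ({z} : Set ℂ) from hyz)]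
      have hb1y : b₁ y = if φ y ∈ Λ then (if φ y ∈ ball lam ε then (0 : ℂ) else φ y - lam) else 0 := by
        rw [hb₁, Finset.sum_apply]
        simp only [Pi.smul_apply, smul_eq_mul, hval, mul_ite, mul_one, mul_zero]
        rw [Finset.sum_ite_eq]
      rw [Pi.sub_apply, Pi.mul_apply, hb1y]
      by_cases hyb : φ y ∈ ball lam ε
      · rw [ind_notMem (show φ y ∉ (ball lam ε)ᶜ from fun h => h hyb)]
        simp [hyb]
      · rw [ind_mem (show φ y ∈ (ball lam ε)ᶜ from hyb)]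
        have hyΛ : φ y ∈ Λ := by
          by_contra hc
          exact hy ⟨⟨by rw [mem_closedBall, dist_zero_right]; exact hC₀ y, hyb⟩, hc⟩
        rw [if_pos hyΛ, if_neg hyb]
        simp [hb₀]
    have h4 := hnull _ (hbm2.sub h1) hae
    rw [hΘ.sub hbm2 h1, sub_eq_zero] at h4
    rw [h4]
    exact h2
  have hcompact : IsCompactOperator (Θ b₀) := by
    have hlim : Tendsto (fun n : ℕ => Θ (b₀ * ind φ (ball lam (1 / ((n : ℝ) + 1)))ᶜ)) atTop
        (𝓝 (Θ b₀)) := by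
      rw [tendsto_iff_norm_sub_tendsto_zero]
      have hz : Tendsto (fun n : ℕ => C * (1 / ((n : ℝ) + 1))) atTop (𝓝 (C * 0)) :=
        tendsto_one_div_add_atTop_nhds_zero_nat.const_mul C
      rw [mul_zero] at hz
      refine squeeze_zero (fun _ => norm_nonneg _) (fun n => ?_) hz
      have hε : (0 : ℝ) < 1 / ((n : ℝ) + 1) := by positivity
      have hbm2 : BM (b₀ * ind φ (ball lam (1 / ((n : ℝ) + 1)))ᶜ) :=
        hbm.mul (hφ.ind measurableSet_ball.compl)
      rw [← hΘ.sub hbm2 hbm]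
      refine hC _ (hbm2.sub hbm).1 _ fun y => ?_
      rw [Pi.sub_apply, Pi.mul_apply]
      by_cases hyb : φ y ∈ ball lam (1 / ((n : ℝ) + 1))
      · rw [ind_notMem (show φ y ∉ (ball lam (1 / ((n : ℝ) + 1)))ᶜ from fun h => h hyb), mul_zero,
          zero_sub, norm_neg]
        rw [mem_ball, dist_eq_norm] at hyb
        exact hyb.le
      · rw [ind_mem (show φ y ∈ (ball lam (1 / ((n : ℝ) + 1)))ᶜ from hyb), mul_one, sub_self,
          norm_zero]
        exact hε.le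
    exact isCompactOperator_of_tendsto hlim (Eventually.of_forall fun n => happ _ (by positivity))
  have e : (TT Θ φ u v - lam • ContinuousLinearMap.id ℂ F : F →L[ℂ] F) =
      Θ b₀ + v.smulRight u := by
    rw [hb₀, hΘ.sub hφ (BM.const lam), hΘ.const]
    unfold TT
    abel
  rw [e]
  exact hcompact.add (isCompact_rankOne v u)

/-! ### Final assembly -/

/-- the core theorem -/
theorem final_core [CompleteSpace F] (hR1 : R1_Stmt.{u₀, v₀}) (hMain : Main_Stmt.{u₀, v₀})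
    (h : Rep Θ φ u v m c) (hT : ∀ a : ℂ, TT Θ φ u v ≠ a • ContinuousLinearMap.id ℂ F) :
    HasNontrivialHyperinvariantSubspace (TT Θ φ u v) := by
  by_contra hn
  have hφ := h.data.phi
  have hne : NoEig (TT Θ φ u v) := by
    intro ζ f hf
    by_contra hf0
    exact hn (hns_of_eigenvector hT hf0 hf)
  have hne' : NoEig (dualOp (TT Θ φ u v)) := by
    intro ζ g hg
    by_contra hg0
    exact hn (hns_of_dual_eigenvector hT hg0 hg)
  have hd := h.dual
  have hne'' := hne'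
  rw [dualOp_TT] at hne''
  -- local points from the main proposition
  have hacc1 : ∀ z, Acc m φ z → LocPt (TT Θ φ u v) z := fun z hz r hr =>
    hMain X m c φ h.data F _ _ h.model hne z r hr hz
  have hacc2 : ∀ z, Acc m φ z → LocPt (dualOp (TT Θ φ u v)) z := fun z hz r hr => by
    rw [dualOp_TT]
    exact hMain X m c φ h.data (StrongDual ℂ F) _ _ hd.model hne'' z r hr hz
  -- local points from `E_v`, `F_u`
  have hloc1 : ∀ x, x ≠ 0 → (∀ b, BM b → v (Θ b x) = 0) → ∀ ζ₀, ∃ ζ, ζ ≠ ζ₀ ∧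
      LocPt (TT Θ φ u v) ζ := fun x hx hxv ζ₀ =>
    exists_locPt hR1 h.side hφ u v hne hx hxv ζ₀
  have hloc2 : ∀ y : StrongDual ℂ F, y ≠ 0 → (∀ b, BM b → y (Θ b u) = 0) → ∀ ζ₀, ∃ ζ, ζ ≠ ζ₀ ∧
      LocPt (dualOp (TT Θ φ u v)) ζ := fun y hy hyu ζ₀ => by
    rw [dualOp_TT]
    refine exists_locPt hR1 hd.side hφ v _ hne'' hy (fun b hb => ?_) ζ₀
    simpa using hyu b hb
  -- a nonzero vector and functional
  obtain ⟨x₀, hx₀⟩ : ∃ x₀ : F, x₀ ≠ 0 := by
    by_contra hcon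
    push Not at hcon
    exact hT 0 (by ext x; rw [hcon x]; simp)
  by_cases huv : u = 0 ∨ v = 0
  · -- `T = Θ φ`
    have hv0 : ∀ x b, BM b → v (Θ b x) • u = 0 := by
      intro x b _
      rcases huv with h0 | h0
      · rw [h0, smul_zero]
      · rw [h0]; simp
    have e1 : TT Θ φ u v = TT Θ φ 0 0 := by
      ext x
      rw [TT_apply, TT_apply]
      have := hv0 x 1 BM.one
      rw [h.side.one_apply] at this
      rw [this]; simp
    have hneA : NoEig (TT Θ φ 0 0) := e1 ▸ hne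
    have hneB : NoEig (dualOp (TT Θ φ 0 0)) := e1 ▸ hne'
    rw [dualOp_TT] at hneB
    obtain ⟨ζ₁, -, h1⟩ := exists_locPt hR1 h.side hφ 0 0 hneA hx₀ (fun b _ => by simp) 0
    obtain ⟨g, -, hg⟩ := exists_dual_vector ℂ x₀ (norm_ne_zero_iff.2 hx₀)
    have hg0 : g ≠ 0 := by
      rintro rfl
      simp at hg
      exact hx₀ (by simpa using hg.symm)
    obtain ⟨ζ₂, h3, h2⟩ := exists_locPt hR1 hd.side hφ 0 _ hneB hg0 (fun b _ => by simp) ζ₁
    rw [← dualOp_TT] at h2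
    rw [← e1] at h1 h2
    exact hn (hns_of_locPt h3.symm h1 h2)
  push Not at huv
  obtain ⟨hu, hv⟩ := huv
  by_cases hex : ∃ z, Acc m φ z
  · obtain ⟨lam, hlam⟩ := hex
    by_cases h2 : ∃ z, z ≠ lam ∧ Acc m φ z
    · obtain ⟨z, hz, hz2⟩ := h2
      exact hn (hns_of_locPt hz.symm (hacc1 lam hlam) (hacc2 z hz2))
    push Not at h2
    by_cases h3 : ∃ x, x ≠ 0 ∧ ∀ b, BM b → v (Θ b x) = 0
    · obtain ⟨x, hx, hxv⟩ := h3
      obtain ⟨ζ, hζ, hζ2⟩ := hloc1 x hx hxv lam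
      exact hn (hns_of_locPt hζ hζ2 (hacc2 lam hlam))
    by_cases h4 : ∃ y : StrongDual ℂ F, y ≠ 0 ∧ ∀ b, BM b → y (Θ b u) = 0
    · obtain ⟨y, hy, hyu⟩ := h4
      obtain ⟨ζ, hζ, hζ2⟩ := hloc2 y hy hyu lam
      exact hn (hns_of_locPt hζ.symm (hacc1 lam hlam) hζ2)
    push Not at h3 h4
    refine hn (hns_of_compact hT lam (compact_case h hne ?_ ?_ lam h2))
    · intro x hx
      by_contra hx0
      obtain ⟨b, hb, hb2⟩ := h3 x hx0
      exact hb2 (hx b hb)
    · intro y hy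
      by_contra hy0
      obtain ⟨b, hb, hb2⟩ := h4 y hy0
      exact hb2 (hy b hb)
  · push Not at hex
    obtain ⟨x, hx, hxv⟩ := exists_in_Ev h hne hu hex
    obtain ⟨y, hy, hyu⟩ := exists_in_Ev hd hne'' hv hex
    obtain ⟨ζ₁, -, h1⟩ := hloc1 x hx hxv 0
    obtain ⟨ζ₂, h3, h2⟩ := hloc2 y hy (fun b hb => by simpa using hyu b hb) ζ₁
    exact hn (hns_of_locPt h3.symm h1 h2)

end poly

/-- MODULE I -/
theorem final_of_main (hR1 : R1_Stmt.{u₀, v₀}) (hMain : Main_Stmt.{u₀, v₀}) : Final_Stmt.{u₀, v₀} := by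
  intro X _ E _ _ _ Θ hΘ φ hφ u v hT
  obtain ⟨m, c, hm, hc, hc1, hrep⟩ := hΘ.meas u v
  exact final_core hR1 hMain ⟨hΘ.side, ⟨hm, hc, hc1, hφ⟩, hrep⟩ hT

end Pool.Agent.RankOne
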