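import Pool.Agent.Lib_helper15.RankOne.Defs
import Pool.Agent.Lib_helper15.RankOne.DefsT2

/-!
# Main proposition: nonzero local vectors at accumulation points of the support
-/

set_option autoImplicit false

open MeasureTheory Metric Set Filter Topology

namespace Pool.Agent.RankOne

universe u v

theorem LocVec.mono {E : Type*} [NormedAddCommGroup E] [NormedSpace ℂ E] {T : E →L[ℂ] E}
    {K K' : Set ℂ} (h : K ⊆ K') {f : E} (hf : LocVec T K f) : LocVec T K' f := by
  obtain ⟨Rf, h1, h2⟩ := hf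
  exact ⟨Rf, h1.mono (compl_subset_compl.2 h), fun ζ hζ => h2 ζ (compl_subset_compl.2 h hζ)⟩

/-- small atoms close to `lam` -/
theorem exists_small_atoms {X : Type*} [MeasurableSpace X] (m : Measure X) [IsFiniteMeasure m]
    {φ : X → ℂ} (hφ : Measurable φ) (lam : ℂ) {ε : ℝ} (hε : 0 < ε) :
    ∃ δ > 0, ∀ z : ℂ, z ≠ lam → ‖z - lam‖ < δ → m.real (φ ⁻¹' {z}) < ε := by
  set S : ℕ → Set X := fun n => φ ⁻¹' (ball lam (1 / (n + 1 : ℝ)) \ {lam}) with hS
  have hSm : ∀ n, MeasurableSet (S n) := fun n =>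
    hφ (measurableSet_ball.diff (measurableSet_singleton lam))
  have hanti : Antitone S := by
    intro a b hab
    apply preimage_mono
    apply sdiff_subset_sdiff_left
    apply ball_subset_ball
    have : (a : ℝ) ≤ b := by exact_mod_cast hab
    gcongr
  have hemp : ⋂ n, S n = ∅ := by
    ext x
    simp only [mem_iInter, mem_empty_iff_false, iff_false, not_forall]
    by_cases hx : φ x = lam
    · exact ⟨0, fun h => h.2 hx⟩
    · have hpos : 0 < dist (φ x) lam := dist_pos.2 hx
      obtain ⟨n, hn⟩ := exists_nat_one_div_lt hpos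
      refine ⟨n, fun h => ?_⟩
      have := h.1
      rw [mem_ball] at this
      linarith
  have ht := tendsto_measure_iInter_atTop (μ := m) (fun n => (hSm n).nullMeasurableSet) hanti
    ⟨0, measure_ne_top m _⟩
  rw [hemp, measure_empty] at ht
  have hev : ∀ᶠ n in atTop, m (S n) < ENNReal.ofReal ε :=
    (tendsto_order.1 ht).2 _ (ENNReal.ofReal_pos.2 hε)
  obtain ⟨n, hn⟩ := hev.exists
  refine ⟨1 / (n + 1 : ℝ), by positivity, fun z hz hzn => ?_⟩
  have hsub : φ ⁻¹' {z} ⊆ S n := by
    apply preimage_mono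
    rintro w rfl
    exact ⟨by rwa [mem_ball, dist_eq_norm], hz⟩
  have h1 : m (φ ⁻¹' {z}) < ENNReal.ofReal ε := (measure_mono hsub).trans_lt hn
  have h2 := (ENNReal.toReal_lt_toReal (measure_ne_top m _) ENNReal.ofReal_ne_top).2 h1
  rwa [ENNReal.toReal_ofReal hε.le] at h2

theorem exists_cauchy_ne_zero {G : ℂ → ℂ} {lam : ℂ} {r : ℝ} (hr : 0 < r)
    (hG : IntegrableOn G (closedBall lam r)) (hne : (∫ z in closedBall lam r, G z) ≠ 0) :
    ∃ ζ ∉ closedBall lam r, (∫ z in closedBall lam r, G z / (ζ - z)) ≠ 0 := by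
  set K := closedBall lam r with hK
  set a := ‖∫ z in K, G z‖ with ha
  have ha0 : 0 < a := norm_pos_iff.2 hne
  set I := ∫ z in K, ‖G z‖ with hI
  have hI0 : 0 ≤ I := integral_nonneg fun z => norm_nonneg _
  set t : ℝ := r + (I * r + 1) / a with ht
  have htr : r < t := by
    have : 0 < (I * r + 1) / a := by positivity
    linarith
  have ht0 : 0 < t := hr.trans htr
  have hζ : lam + (t : ℂ) ∉ K := by
    rw [hK, mem_closedBall, dist_eq_norm, add_sub_cancel_left, Complex.norm_real,
      Real.norm_of_nonneg ht0.le]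
    exact not_le.2 htr
  refine ⟨lam + t, hζ, fun h0 => ?_⟩
  have hden : ∀ z ∈ K, t - r ≤ ‖lam + (t : ℂ) - z‖ := by
    intro z hz
    have h1 : ‖z - lam‖ ≤ r := by rwa [hK, mem_closedBall, dist_eq_norm] at hz
    have h2 : ‖(t : ℂ)‖ ≤ ‖lam + (t : ℂ) - z‖ + ‖z - lam‖ := by
      have := norm_add_le (lam + (t : ℂ) - z) (z - lam)
      have e : lam + (t : ℂ) - z + (z - lam) = t := by ring
      rwa [e] at this
    rw [Complex.norm_real, Real.norm_of_nonneg ht0.le] at h2
    linarith
  have hkey : ∫ z in K, G z = ∫ z in K, G z * ((lam - z) / (lam + t - z)) := by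
    have hKm : MeasurableSet K := isClosed_closedBall.measurableSet
    have hcont : ContinuousOn (fun z : ℂ => (lam + (t : ℂ) - z)⁻¹) K := by
      apply ContinuousOn.inv₀ (by fun_prop)
      intro z hz h
      have := hden z hz
      rw [h, norm_zero] at this
      linarith
    have hi1 : IntegrableOn (fun z => G z / (lam + (t : ℂ) - z)) K := by
      simp_rw [div_eq_mul_inv]
      exact hG.mul_continuousOn hcont (isCompact_closedBall lam r)
    have hi2 : IntegrableOn (fun z => (t : ℂ) * (G z / (lam + (t : ℂ) - z))) K := hi1.const_mul _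
    have e1 : ∫ z in K, (t : ℂ) * (G z / (lam + (t : ℂ) - z)) = 0 := by
      rw [integral_const_mul, h0, mul_zero]
    calc ∫ z in K, G z = (∫ z in K, G z) - ∫ z in K, (t : ℂ) * (G z / (lam + (t : ℂ) - z)) := by
          rw [e1, sub_zero]
      _ = ∫ z in K, (G z - (t : ℂ) * (G z / (lam + (t : ℂ) - z))) := (integral_sub hG hi2).symm
      _ = ∫ z in K, G z * ((lam - z) / (lam + t - z)) := by
          apply setIntegral_congr_fun hKm
          intro z hz
          have hne' : lam + (t : ℂ) - z ≠ 0 := by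
            intro h
            have := hden z hz
            rw [h, norm_zero] at this
            linarith
          simp only
          field_simp
          ring
  have hle : a ≤ I * (r / (t - r)) := by
    rw [ha, hkey, hI, ← integral_mul_const]
    refine (norm_integral_le_integral_norm _).trans ?_
    apply integral_mono_of_nonneg
    · filter_upwards with z
      exact norm_nonneg _
    · exact hG.norm.mul_const _
    · filter_upwards [ae_restrict_mem isClosed_closedBall.measurableSet] with z hz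
      rw [norm_mul, norm_div]
      have h1 : ‖lam - z‖ ≤ r := by
        rw [norm_sub_rev]
        rwa [hK, mem_closedBall, dist_eq_norm] at hz
      have h2 := hden z hz
      have h3 : 0 < t - r := by linarith
      gcongr
  have h3 : t - r = (I * r + 1) / a := by rw [ht]; ring
  rw [h3] at hle
  have h4 : I * (r / ((I * r + 1) / a)) = a * ((I * r) / (I * r + 1)) := by
    field_simp
  rw [h4] at hle
  have h5 : (I * r) / (I * r + 1) < 1 := by
    rw [div_lt_one (by positivity)]
    linarith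
  nlinarith

theorem poly_comp_bound {X : Type*} {φ : X → ℂ} {C : ℝ} (hφ : ∀ x, ‖φ x‖ ≤ C)
    (q : Polynomial ℂ) : ∃ D : ℝ, ∀ x, ‖q.eval (φ x)‖ ≤ D := by
  obtain ⟨D, hD⟩ := (isCompact_closedBall (0:ℂ) C).exists_bound_of_continuousOn
    q.continuous.continuousOn
  exact ⟨D, fun x => hD _ (by rw [mem_closedBall, dist_zero_right]; exact hφ x)⟩

theorem Main (hA2 : A2_Stmt.{u}) (hB2 : B2_Stmt) (hD : D_Stmt.{u, 0, 0})
    (hR1 : R1_Stmt.{u, v}) (hR2 : R2_Stmt.{u, v}) (hTT : TT_Stmt.{u}) : Main_Stmt.{u, v} := by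
  intro X _ m c φ hd E _ _ T V hV hNE lam r₀ hr₀ hacc
  suffices h : ∀ r : ℝ, 0 < r → r ≤ 1 → ∃ f, f ≠ 0 ∧ LocVec T (closedBall lam r) f by
    obtain ⟨f, hf0, hf⟩ := h (min r₀ 1) (lt_min hr₀ one_pos) (min_le_right _ _)
    exact ⟨f, hf0, hf.mono (closedBall_subset_closedBall (min_le_left _ _))⟩
  intro r hr hr1
  by_contra hcon
  have hno : ∀ f, LocVec T (closedBall lam r) f → f = 0 := by
    intro f hf
    by_contra h0
    exact hcon ⟨f, h0, hf⟩
  have hfin := hd.fin
  have hφm : Measurable φ := hd.phi.1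
  obtain ⟨Cφ, hCφ⟩ := hd.phi.2
  set K := closedBall lam r with hK
  have hKm : MeasurableSet K := isClosed_closedBall.measurableSet
  have hKc : IsCompact K := isCompact_closedBall lam r
  have hFint : IntegrableOn (FF m c φ) K := ((hA2 X m c φ hd).2 lam r hr).1
  -- the cut-off
  let f : ContDiffBump lam := ⟨r / 4, r / 2, by positivity, by linarith⟩
  set χ : ℂ → ℂ := fun z => ((f z : ℝ) : ℂ) with hχ
  have hχd : ContDiff ℝ 1 χ := Complex.ofRealCLM.contDiff.comp f.contDiff
  have hχs : HasCompactSupport χ := f.hasCompactSupport.comp_left (g := fun y : ℝ => (y : ℂ)) (by simp)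
  have hχn : ∀ z, ‖χ z‖ ≤ 1 := fun z => by
    simp only [hχ, Complex.norm_real, Real.norm_of_nonneg f.nonneg]
    exact f.le_one
  have hχ1 : ∀ z ∈ ball lam (r / 4), χ z = 1 := fun z hz => by
    simp only [hχ]
    rw [f.one_of_mem_closedBall (ball_subset_closedBall hz)]
    simp
  have hχ0 : ∀ z ∉ closedBall lam (r / 2), χ z = 0 := fun z hz => by
    simp only [hχ]
    rw [f.zero_of_le_dist (by
      have : r / 2 < dist z lam := not_le.1 hz
      exact this.le)]
    simp
  have hdbar0 : ∀ z ∉ closedBall lam (r / 2), dbar χ z = 0 := fun z hz => by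
    have h1 : χ =ᶠ[𝓝 z] fun _ => 0 := by
      filter_upwards [isClosed_closedBall.isOpen_compl.mem_nhds hz] with w hw
      exact hχ0 w hw
    have h2 : fderiv ℝ χ z = 0 := by
      rw [h1.fderiv_eq]
      exact fderiv_const_apply _
    simp [dbar, h2]
  obtain ⟨δ, hδ, hδr, hB⟩ := hB2 χ lam (r / 4) (by positivity) hχd hχs hχ1
  set R : ℝ := min (r / 64) (δ / 4) with hR
  have hR0 : 0 < R := lt_min (by positivity) (by positivity)
  -- the blow-up
  have hblow : ∀ (k₀ : ℕ) (δ : ℝ), 0 < δ → ∃ (z₀ : ℂ) (p : Polynomial ℂ), ‖z₀ - lam‖ < δ ∧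
      tt k₀ < ‖p.eval z₀‖ ∧ (∫ z in closedBall lam r, ‖p.eval z * FF m c φ z‖) ≤ 1 := by
    intro k₀ δ' hδ'
    have hM : 0 < tt k₀ := tt_pos k₀
    have hc0 : 0 < (2 + 6 * Real.pi * r) * tt k₀ := by
      have := Real.pi_pos
      positivity
    obtain ⟨δ'', hδ'', hat⟩ := exists_small_atoms m hφm lam (ε := 1 / ((2 + 6 * Real.pi * r) * tt k₀))
      (by positivity)
    obtain ⟨z₁, hz₁, hz₁d, hz₁s⟩ := hacc (min δ' δ'') (lt_min hδ' hδ'')
    have hsmall := hat z₁ hz₁ (hz₁d.trans_le (min_le_right _ _))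
    have hex : ∃ q : Polynomial ℂ, tt k₀ * ((∫ x in φ ⁻¹' closedBall lam r, ‖q.eval (φ x)‖ ∂m) +
        ∫ z in closedBall lam r, ‖q.eval z * FF m c φ z‖) < ‖q.eval z₁‖ := by
      by_contra hall
      push Not at hall
      have h1 := hR2 X m c φ hd E T V hV lam r hr hno z₁ (tt k₀) hM.le hz₁s hall
      have h2 : (2 + 6 * Real.pi * r) * tt k₀ * m.real (φ ⁻¹' {z₁}) < 1 := by
        calc (2 + 6 * Real.pi * r) * tt k₀ * m.real (φ ⁻¹' {z₁})
            < (2 + 6 * Real.pi * r) * tt k₀ * (1 / ((2 + 6 * Real.pi * r) * tt k₀)) := by gcongr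
          _ = 1 := by field_simp
      linarith
    obtain ⟨q, hq⟩ := hex
    set I := ∫ z in closedBall lam r, ‖q.eval z * FF m c φ z‖ with hI
    have hI0 : 0 ≤ I := integral_nonneg fun z => norm_nonneg _
    have hN0 : 0 ≤ ∫ x in φ ⁻¹' closedBall lam r, ‖q.eval (φ x)‖ ∂m :=
      integral_nonneg fun z => norm_nonneg _
    have hq1 : tt k₀ * I < ‖q.eval z₁‖ := by nlinarith
    obtain ⟨s, hs0, hs1, hs2⟩ : ∃ s : ℝ, 0 < s ∧ s * I ≤ 1 ∧ tt k₀ < s * ‖q.eval z₁‖ := by
      rcases hI0.eq_or_lt with h | h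
      · rw [← h, mul_zero] at hq1
        refine ⟨(tt k₀ + 1) / ‖q.eval z₁‖, by positivity, by rw [← h]; simp, ?_⟩
        rw [div_mul_cancel₀ _ hq1.ne']
        linarith
      · refine ⟨1 / I, by positivity, by rw [one_div, inv_mul_cancel₀ h.ne'], ?_⟩
        rw [one_div, inv_mul_eq_div, lt_div_iff₀ h]
        exact hq1
    refine ⟨z₁, Polynomial.C (s : ℂ) * q, hz₁d.trans_le (min_le_left _ _), ?_, ?_⟩
    · rw [Polynomial.eval_mul, Polynomial.eval_C, norm_mul, Complex.norm_real,
        Real.norm_of_nonneg hs0.le]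
      exact hs2
    · have e : ∀ z, ‖(Polynomial.C (s : ℂ) * q).eval z * FF m c φ z‖
          = s * ‖q.eval z * FF m c φ z‖ := by
        intro z
        rw [Polynomial.eval_mul, Polynomial.eval_C, mul_assoc, norm_mul, Complex.norm_real,
          Real.norm_of_nonneg hs0.le]
      simp_rw [e]
      rw [integral_const_mul]
      exact hs1
  obtain ⟨β, C, hβ1, hβ2, hC0, hβ⟩ := hTT X m c φ hd lam r hr hr1 χ hχd hχn hχ1 hχ0 R hR0
    (min_le_left _ _) hblow
  have hβne : β ≠ lam := by
    rintro rfl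
    rw [sub_self, norm_zero] at hβ1
    linarith
  have hβδ : ‖β - lam‖ < δ := by
    have : R ≤ δ / 4 := min_le_right _ _
    linarith
  obtain ⟨hGBM, hGne⟩ := hB β hβne hβδ
  set G : ℂ → ℂ := fun z => gext lam β z * dbar χ z with hG
  have hG0 : ∀ z ∉ K, G z = 0 := fun z hz => by
    have : z ∉ closedBall lam (r / 2) := fun h =>
      hz (closedBall_subset_closedBall (by linarith) h)
    simp only [hG]
    rw [hdbar0 z this, mul_zero]
  have hGm : Measurable G := hGBM.1
  obtain ⟨CG, hCG⟩ := hGBM.2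
  have hqFG : ∀ q : Polynomial ℂ, IntegrableOn (fun z => q.eval z * FF m c φ z * G z) K := by
    intro q
    obtain ⟨Cq, hCq⟩ := hKc.exists_bound_of_continuousOn q.continuous.continuousOn
    have h1 : IntegrableOn (fun z => q.eval z * FF m c φ z) K := by
      refine hFint.bdd_mul (c := Cq) q.continuous.aestronglyMeasurable ?_
      filter_upwards [ae_restrict_mem hKm] with z hz
      exact hCq z hz
    refine h1.mul_bdd (c := CG) hGm.aestronglyMeasurable ?_
    filter_upwards with z
    exact hCG z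
  let ℓ : Polynomial ℂ →ₗ[ℂ] ℂ :=
    { toFun := fun q => ∫ z in K, q.eval z * FF m c φ z * G z
      map_add' := fun p q => by
        rw [← integral_add (hqFG p) (hqFG q)]
        congr 1
        ext z
        rw [Polynomial.eval_add]
        ring
      map_smul' := fun a q => by
        rw [RingHom.id_apply, smul_eq_mul, ← integral_const_mul]
        congr 1
        ext z
        rw [Polynomial.eval_smul, smul_eq_mul]
        ring }
  have hℓ : ∀ q : Polynomial ℂ, ℓ q = ∫ z in K, q.eval z * FF m c φ z * G z := fun q => rfl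
  have hℓ2 : ∀ q : Polynomial ℂ, ℓ q = ∫ z, FF m c φ z * G z * q.eval z := by
    intro q
    rw [hℓ]
    have e : (∫ z, FF m c φ z * G z * q.eval z) = ∫ z in K, FF m c φ z * G z * q.eval z := by
      rw [setIntegral_eq_integral_of_forall_compl_eq_zero]
      intro z hz
      rw [hG0 z hz, mul_zero, zero_mul]
    rw [e]
    congr 1
    ext z
    ring
  let J₁ : Polynomial ℂ →ₗ[ℂ] (X → ℂ) :=
    { toFun := fun q x => q.eval (φ x) * c x
      map_add' := fun p q => by
        ext x
        simp only [Polynomial.eval_add, Pi.add_apply, add_mul]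
      map_smul' := fun a q => by
        ext x
        simp only [Polynomial.eval_smul, smul_eq_mul, RingHom.id_apply, Pi.smul_apply, mul_assoc] }
  have hJ₁ : ∀ (q : Polynomial ℂ) (x : X), J₁ q x = q.eval (φ x) * c x := fun q x => rfl
  have hJ₁n : ∀ (q : Polynomial ℂ) (x : X), ‖J₁ q x‖ = ‖q.eval (φ x)‖ := fun q x => by
    rw [hJ₁, norm_mul, hd.cnorm, mul_one]
  have hJ₁m : ∀ q : Polynomial ℂ, Measurable (J₁ q) := fun q => by
    exact (q.continuous.measurable.comp hφm).mul hd.cmeas
  have hKφ : MeasurableSet (φ ⁻¹' K) := hφm hKm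
  obtain ⟨η₁, η₂, hη₁m, hη₂m, hη₁b, -, hη⟩ := hD X (m.restrict (φ ⁻¹' K)) ℂ (0 : Measure ℂ)
    inferInstance inferInstance (Polynomial ℂ) J₁ 0
    (fun q => by
      obtain ⟨D, hDb⟩ := poly_comp_bound hCφ q
      refine Integrable.of_bound (hJ₁m q).aestronglyMeasurable D ?_
      filter_upwards with x
      rw [hJ₁n]
      exact hDb x)
    (fun q => by simp) ℓ C hC0
    (fun q => by
      have h1 := hβ q
      have e1 : (∫ z, FF m c φ z * (gext lam β z * dbar χ z) * q.eval z) = ℓ q := (hℓ2 q).symm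
      rw [e1] at h1
      refine h1.trans (le_of_eq ?_)
      congr 1
      simp only [hJ₁n]
      rw [integral_zero_measure, add_zero])
  set η : X → ℂ := fun x => -(φ ⁻¹' K).indicator η₁ x with hηdef
  have hηm : Measurable η := (hη₁m.indicator hKφ).neg
  have hηBM : BM η := by
    refine ⟨hηm, 2 * C, fun x => ?_⟩
    simp only [hηdef, norm_neg]
    by_cases hx : x ∈ φ ⁻¹' K
    · rw [indicator_of_mem hx]; exact hη₁b x
    · rw [indicator_of_notMem hx, norm_zero]; positivity
  have hη0 : ∀ x, φ x ∉ closedBall lam r → η x = 0 := fun x hx => by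
    simp only [hηdef]
    rw [indicator_of_notMem (by exact hx), neg_zero]
  have hmom : ∀ q : Polynomial ℂ, (∫ x, η x * q.eval (φ x) * c x ∂m) +
      (∫ z in closedBall lam r, q.eval z * FF m c φ z * G z) = 0 := by
    intro q
    have e1 : (∫ x, η x * q.eval (φ x) * c x ∂m) = - ∫ x in φ ⁻¹' K, η₁ x * J₁ q x ∂m := by
      rw [← integral_indicator hKφ, ← integral_neg]
      congr 1
      ext x
      simp only [hηdef]
      by_cases hx : x ∈ φ ⁻¹' K
      · rw [indicator_of_mem hx, indicator_of_mem hx, hJ₁]; ring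
      · rw [indicator_of_notMem hx, indicator_of_notMem hx]; ring
    have e2 := hη q
    rw [hℓ] at e2
    rw [e1, e2]
    simp
  obtain ⟨hloc, hne⟩ := hR1 X m c φ hd E T V hV lam r hr η G hηBM hGBM hη0 hmom
  have hGint : IntegrableOn G K := by
    have : IsFiniteMeasure (volume.restrict K : Measure ℂ) :=
      ⟨by rw [Measure.restrict_apply_univ]; exact measure_closedBall_lt_top⟩
    exact Integrable.of_bound hGm.aestronglyMeasurable CG (Eventually.of_forall hCG)
  have hGK : (∫ z in K, G z) ≠ 0 := by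
    rw [setIntegral_eq_integral_of_forall_compl_eq_zero hG0]
    exact hGne
  exact hne hNE (exists_cauchy_ne_zero hr hGint hGK) (hno _ hloc)

end Pool.Agent.RankOne
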