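import Pool.Agent.Lib_helper15.RankOne.Defs
import Pool.Agent.Lib_helper15.RankOne.ModD

/-!
# Module R: representation (R1) and blow-up (R2)
-/

set_option autoImplicit false

open MeasureTheory Metric Set Filter Topology
open scoped ComplexConjugate

namespace Pool.Agent.RankOne

/-- measurable and bounded on `K` -/
def BMK (K : Set ℂ) (k : ℂ → ℂ) : Prop := Measurable k ∧ ∃ C : ℝ, ∀ z ∈ K, ‖k z‖ ≤ C

/-- bounded linear maps on `BMK K` -/
structure BF (K : Set ℂ) {F : Type*} [NormedAddCommGroup F] [NormedSpace ℂ F]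
    (Ξ : (ℂ → ℂ) → F) : Prop where
  add : ∀ k₁ k₂, BMK K k₁ → BMK K k₂ → Ξ (k₁ + k₂) = Ξ k₁ + Ξ k₂
  smul : ∀ (a : ℂ) k, BMK K k → Ξ (a • k) = a • Ξ k
  bdd : ∃ C : ℝ, 0 ≤ C ∧ ∀ k, Measurable k → ∀ M : ℝ, 0 ≤ M → (∀ z ∈ K, ‖k z‖ ≤ M) →
    ‖Ξ k‖ ≤ C * M

/-- the Cauchy kernel `w ↦ 1/(w - ζ)` -/
noncomputable def kz (ζ : ℂ) : ℂ → ℂ := fun w => (w - ζ)⁻¹

theorem BMK.add {K : Set ℂ} {k₁ k₂ : ℂ → ℂ} (h₁ : BMK K k₁) (h₂ : BMK K k₂) : BMK K (k₁ + k₂) := by
  obtain ⟨m1, C1, hC1⟩ := h₁
  obtain ⟨m2, C2, hC2⟩ := h₂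
  exact ⟨m1.add m2, C1 + C2, fun z hz => (norm_add_le _ _).trans (add_le_add (hC1 z hz) (hC2 z hz))⟩

theorem BMK.smul {K : Set ℂ} {k : ℂ → ℂ} (h : BMK K k) (a : ℂ) : BMK K (a • k) := by
  obtain ⟨m1, C1, hC1⟩ := h
  refine ⟨m1.const_smul a, ‖a‖ * C1, fun z hz => ?_⟩
  rw [Pi.smul_apply, norm_smul]
  exact mul_le_mul_of_nonneg_left (hC1 z hz) (norm_nonneg a)

theorem dist_ball {lam ζ w : ℂ} {r : ℝ} (_hζ : ζ ∉ closedBall lam r) (hw : w ∈ closedBall lam r) :
    ‖ζ - lam‖ - r ≤ ‖w - ζ‖ := by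
  rw [mem_closedBall, dist_eq_norm] at hw
  have : ‖ζ - lam‖ ≤ ‖w - ζ‖ + ‖w - lam‖ := by
    calc ‖ζ - lam‖ = ‖(w - lam) - (w - ζ)‖ := by congr 1; ring
      _ ≤ ‖w - lam‖ + ‖w - ζ‖ := norm_sub_le _ _
      _ = _ := add_comm _ _
  linarith

theorem pos_of_notMem {lam ζ : ℂ} {r : ℝ} (hζ : ζ ∉ closedBall lam r) : 0 < ‖ζ - lam‖ - r := by
  rw [mem_closedBall, dist_eq_norm, not_le] at hζ
  linarith

theorem measurable_kz (ζ : ℂ) : Measurable (kz ζ) := by
  unfold kz; fun_prop

theorem kz_bound {lam ζ w : ℂ} {r : ℝ} (hζ : ζ ∉ closedBall lam r) (hw : w ∈ closedBall lam r) :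
    ‖kz ζ w‖ ≤ (‖ζ - lam‖ - r)⁻¹ := by
  unfold kz
  rw [norm_inv]
  exact inv_anti₀ (pos_of_notMem hζ) (dist_ball hζ hw)

theorem BMK_kz {lam ζ : ℂ} {r : ℝ} (hζ : ζ ∉ closedBall lam r) : BMK (closedBall lam r) (kz ζ) :=
  ⟨measurable_kz ζ, _, fun _ hw => kz_bound hζ hw⟩

theorem BMK_kz2 {lam ζ : ℂ} {r : ℝ} (hζ : ζ ∉ closedBall lam r) :
    BMK (closedBall lam r) (fun w => kz ζ w ^ 2) := by
  refine ⟨(measurable_kz ζ).pow_const 2, ((‖ζ - lam‖ - r)⁻¹) ^ 2, fun w hw => ?_⟩
  rw [norm_pow]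
  exact pow_le_pow_left₀ (norm_nonneg _) (kz_bound hζ hw) 2

theorem BF.hasDerivAt {lam : ℂ} {r : ℝ} {F : Type*} [NormedAddCommGroup F] [NormedSpace ℂ F]
    {Ξ : (ℂ → ℂ) → F} (hΞ : BF (closedBall lam r) Ξ) {ζ : ℂ} (hζ : ζ ∉ closedBall lam r) :
    HasDerivAt (fun ζ => Ξ (kz ζ)) (Ξ (fun w => kz ζ w ^ 2)) ζ := by
  obtain ⟨C, hC0, hC⟩ := hΞ.bdd
  set δ := ‖ζ - lam‖ - r with hδ
  have hδ0 : 0 < δ := pos_of_notMem hζ
  rw [hasDerivAt_iff_isLittleO_nhds_zero]
  -- the quadratic bound
  have hq : ∀ h : ℂ, ‖h‖ < δ / 2 →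
      ‖Ξ (kz (ζ + h)) - Ξ (kz ζ) - h • Ξ (fun w => kz ζ w ^ 2)‖ ≤
        (C * (2 / δ ^ 3)) * ‖h‖ * ‖h‖ := by
    intro h hh
    have hζh : ζ + h ∉ closedBall lam r := by
      intro hmem
      rw [mem_closedBall, dist_eq_norm] at hmem
      have : ‖ζ - lam‖ ≤ ‖ζ + h - lam‖ + ‖h‖ := by
        calc ‖ζ - lam‖ = ‖(ζ + h - lam) - h‖ := by congr 1; ring
          _ ≤ _ := norm_sub_le _ _
      linarith
    have hlow : ∀ w ∈ closedBall lam r, δ / 2 ≤ ‖w - (ζ + h)‖ := by
      intro w hw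
      have h1 := dist_ball hζ hw
      have : ‖w - ζ‖ ≤ ‖w - (ζ + h)‖ + ‖h‖ := by
        calc ‖w - ζ‖ = ‖(w - (ζ + h)) + h‖ := by congr 1; ring
          _ ≤ _ := norm_add_le _ _
      linarith
    have e1 : Ξ (kz (ζ + h)) - Ξ (kz ζ) - h • Ξ (fun w => kz ζ w ^ 2) =
        Ξ (kz (ζ + h) + ((-1 : ℂ) • kz ζ + (-h) • fun w => kz ζ w ^ 2)) := by
      rw [hΞ.add _ _ (BMK_kz hζh) (((BMK_kz hζ).smul _).add ((BMK_kz2 hζ).smul _)),
        hΞ.add _ _ ((BMK_kz hζ).smul _) ((BMK_kz2 hζ).smul _), hΞ.smul _ _ (BMK_kz hζ),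
        hΞ.smul _ _ (BMK_kz2 hζ)]
      module
    rw [e1]
    have hm := ((BMK_kz hζh).add (((BMK_kz hζ).smul (-1)).add ((BMK_kz2 hζ).smul (-h)))).1
    refine (hC _ hm ((2 / δ ^ 3) * (‖h‖ * ‖h‖)) (by positivity) ?_).trans (le_of_eq (by ring))
    intro w hw
    have h1 := hlow w hw
    have h2 := dist_ball hζ hw
    have n1 : w - (ζ + h) ≠ 0 := by
      rw [← norm_pos_iff]; linarith
    have n2 : w - ζ ≠ 0 := by
      rw [← norm_pos_iff]; linarith
    have e2 : (kz (ζ + h) + ((-1 : ℂ) • kz ζ + (-h) • fun w => kz ζ w ^ 2)) w =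
        h * h * ((w - (ζ + h))⁻¹ * ((w - ζ)⁻¹ * (w - ζ)⁻¹)) := by
      simp only [kz, Pi.add_apply, Pi.smul_apply, smul_eq_mul]
      field_simp
      ring
    rw [e2, norm_mul, norm_mul, norm_mul, norm_mul, norm_inv, norm_inv]
    have b1 : ‖w - (ζ + h)‖⁻¹ ≤ (δ / 2)⁻¹ := inv_anti₀ (by linarith) h1
    have b2 : ‖w - ζ‖⁻¹ ≤ δ⁻¹ := inv_anti₀ hδ0 h2
    calc ‖h‖ * ‖h‖ * (‖w - (ζ + h)‖⁻¹ * (‖w - ζ‖⁻¹ * ‖w - ζ‖⁻¹))
        ≤ ‖h‖ * ‖h‖ * ((δ / 2)⁻¹ * (δ⁻¹ * δ⁻¹)) := by gcongr
      _ = (2 / δ ^ 3) * (‖h‖ * ‖h‖) := by field_simp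
  rw [Asymptotics.isLittleO_iff]
  intro ε hε
  set C' := C * (2 / δ ^ 3)
  have hC' : 0 ≤ C' := by positivity
  have hev : ∀ᶠ h : ℂ in 𝓝 0, ‖h‖ < min (δ / 2) (ε / (C' + 1)) := by
    have : (0:ℝ) < min (δ / 2) (ε / (C' + 1)) := by positivity
    filter_upwards [Metric.ball_mem_nhds (0:ℂ) this] with h hh
    simpa using hh
  filter_upwards [hev] with h hh
  have h1 : ‖h‖ < δ / 2 := lt_of_lt_of_le hh (min_le_left _ _)
  have h2 : ‖h‖ < ε / (C' + 1) := lt_of_lt_of_le hh (min_le_right _ _)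
  refine (hq h h1).trans ?_
  apply mul_le_mul_of_nonneg_right _ (norm_nonneg h)
  rw [lt_div_iff₀ (by linarith)] at h2
  nlinarith [norm_nonneg h]

theorem BF.eq_zero {lam : ℂ} {r : ℝ} (hr : 0 < r) {F : Type*} [NormedAddCommGroup F]
    [NormedSpace ℂ F]
    {Ξ : (ℂ → ℂ) → F} (hΞ : BF (closedBall lam r) Ξ)
    (h0 : ∀ q : Polynomial ℂ, Ξ (fun w => q.eval w) = 0) {ζ : ℂ} (hζ : ζ ∉ closedBall lam r) :
    Ξ (kz ζ) = 0 := by
  obtain ⟨C, hC0, hC⟩ := hΞ.bdd
  set δ := ‖ζ - lam‖ - r with hδ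
  have hδ0 : 0 < δ := pos_of_notMem hζ
  have hζl : ζ - lam ≠ 0 := by
    rw [← norm_pos_iff]; linarith
  set ρ := r / ‖ζ - lam‖ with hρ
  have hρ0 : 0 ≤ ρ := by positivity
  have hρ1 : ρ < 1 := by
    rw [hρ, div_lt_one (by linarith)]; linarith
  have key : ∀ N : ℕ, ‖Ξ (kz ζ)‖ ≤ (C * δ⁻¹) * ρ ^ N := by
    intro N
    let P : Polynomial ℂ := ∑ n ∈ Finset.range N,
      Polynomial.C (-((ζ - lam)⁻¹) ^ (n + 1)) * (Polynomial.X - Polynomial.C lam) ^ n
    let R : ℂ → ℂ := fun w => ((w - lam) / (ζ - lam)) ^ N * kz ζ w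
    have hP : ∀ w, P.eval w = - (ζ - lam)⁻¹ * ∑ n ∈ Finset.range N, ((w - lam) / (ζ - lam)) ^ n := by
      intro w
      simp only [P, Polynomial.eval_finsetSum, Polynomial.eval_mul, Polynomial.eval_C,
        Polynomial.eval_pow, Polynomial.eval_sub, Polynomial.eval_X, Finset.mul_sum]
      refine Finset.sum_congr rfl fun n _ => ?_
      rw [div_pow, pow_succ, div_eq_mul_inv, inv_pow]
      ring
    have hRm : Measurable R := by
      have := measurable_kz ζ
      fun_prop
    have hRb : ∀ w ∈ closedBall lam r, ‖R w‖ ≤ ρ ^ N * δ⁻¹ := by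
      intro w hw
      have h1 := kz_bound hζ hw
      rw [mem_closedBall, dist_eq_norm] at hw
      simp only [R]
      rw [norm_mul, norm_pow, norm_div]
      have h2 : ‖w - lam‖ / ‖ζ - lam‖ ≤ ρ := by
        rw [hρ]; gcongr
      gcongr
    have hPB : BMK (closedBall lam r) (fun w => P.eval w) := by
      have hc : Continuous (fun w => P.eval w) := P.continuous
      obtain ⟨D, hD⟩ := (isCompact_closedBall lam r).exists_bound_of_continuousOn hc.continuousOn
      exact ⟨hc.measurable, D, hD⟩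
    -- agreement on the ball only: compare with the bound
    have hdiff : ∀ w ∈ closedBall lam r, kz ζ w = P.eval w + R w := by
      intro w hw
      have h2 := dist_ball hζ hw
      have n2 : w - ζ ≠ 0 := by
        rw [← norm_pos_iff]; linarith
      have ha : (w - lam) / (ζ - lam) ≠ 1 := by
        intro h
        rw [div_eq_one_iff_eq hζl] at h
        apply n2
        linear_combination h
      rw [hP, geom_sum_eq ha]
      simp only [R, kz]
      have h3 : (w - lam) / (ζ - lam) - 1 = (w - ζ) / (ζ - lam) := by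
        field_simp
        ring
      rw [h3]
      generalize ((w - lam) / (ζ - lam)) ^ N = A
      field_simp
      ring
    have e1 : Ξ (kz ζ) = Ξ (kz ζ + (-1 : ℂ) • fun w => P.eval w) := by
      rw [hΞ.add _ _ (BMK_kz hζ) (hPB.smul _), hΞ.smul _ _ hPB, h0, smul_zero, add_zero]
    rw [e1]
    refine (hC _ ((BMK_kz hζ).add (hPB.smul _)).1 (ρ ^ N * δ⁻¹) (by positivity) ?_).trans
      (le_of_eq (by ring))
    intro w hw
    have : (kz ζ + (-1 : ℂ) • fun w => P.eval w) w = R w := by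
      rw [Pi.add_apply, Pi.smul_apply, hdiff w hw, smul_eq_mul]
      ring
    rw [this]
    exact hRb w hw
  have hlim : Tendsto (fun N : ℕ => (C * δ⁻¹) * ρ ^ N) atTop (𝓝 0) := by
    have := (tendsto_pow_atTop_nhds_zero_of_lt_one hρ0 hρ1).const_mul (C * δ⁻¹)
    simpa using this
  have : ‖Ξ (kz ζ)‖ ≤ 0 := ge_of_tendsto' hlim key
  exact norm_le_zero_iff.1 this

section rep

variable {X : Type*} [MeasurableSpace X] {m : Measure X} {c φ : X → ℂ} {lam : ℂ} {r : ℝ}

/-- the test function `U(k)(x) = η(x) k(φ x) + ∫_K G k/(φ x - z) dA(z)` -/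
noncomputable def UU (φ : X → ℂ) (lam : ℂ) (r : ℝ) (η : X → ℂ) (G : ℂ → ℂ) (k : ℂ → ℂ) (x : X) : ℂ :=
  η x * k (φ x) +
    ∫ z in closedBall lam r, ((closedBall lam r).indicator (fun z => G z * k z) z) / (φ x - z)

theorem BM_indicator {lam : ℂ} {r : ℝ} {G k : ℂ → ℂ} (hG : BM G) (hk : BMK (closedBall lam r) k) :
    BM ((closedBall lam r).indicator (fun z => G z * k z)) := by
  obtain ⟨mG, CG, hCG⟩ := hG
  obtain ⟨mk, Ck, hCk⟩ := hk
  refine ⟨(mG.mul mk).indicator measurableSet_closedBall, CG * |Ck|, fun z => ?_⟩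
  have hCG0 : 0 ≤ CG := (norm_nonneg _).trans (hCG 0)
  by_cases hz : z ∈ closedBall lam r
  · rw [indicator_of_mem hz, norm_mul]
    exact mul_le_mul (hCG z) ((hCk z hz).trans (le_abs_self _)) (norm_nonneg _) hCG0
  · rw [indicator_of_notMem hz, norm_zero]; positivity

theorem indicator_bound {lam : ℂ} {r : ℝ} {G k : ℂ → ℂ} {CG M : ℝ} (hCG : ∀ z, ‖G z‖ ≤ CG)
    (hM0 : 0 ≤ M) (hM : ∀ z ∈ closedBall lam r, ‖k z‖ ≤ M) (z : ℂ) :
    ‖(closedBall lam r).indicator (fun z => G z * k z) z‖ ≤ CG * M := by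
  have hCG0 : 0 ≤ CG := (norm_nonneg _).trans (hCG 0)
  by_cases hz : z ∈ closedBall lam r
  · rw [indicator_of_mem hz, norm_mul]
    exact mul_le_mul (hCG z) (hM z hz) (norm_nonneg _) hCG0
  · rw [indicator_of_notMem hz, norm_zero]; positivity

/-- integrability of `G/(w - z)` on the ball -/
theorem integrableOn_kernel (hA1 : A1_Stmt) {lam : ℂ} {r : ℝ} (hr : 0 < r) {G : ℂ → ℂ} (hG : BM G)
    (w : ℂ) : IntegrableOn (fun z => G z / (w - z)) (closedBall lam r) := by
  obtain ⟨h1, -, -⟩ := hA1 w lam r hr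
  obtain ⟨mG, CG, hCG⟩ := hG
  have h2 : IntegrableOn (fun z => (w - z)⁻¹) (closedBall lam r) := by
    have hm : Measurable fun z : ℂ => (w - z)⁻¹ := by fun_prop
    refine h1.mono' hm.aestronglyMeasurable ?_
    filter_upwards with z
    rw [norm_inv]
  have h3 : IntegrableOn (fun z => G z * (w - z)⁻¹) (closedBall lam r) :=
    h2.bdd_mul mG.aestronglyMeasurable (c := CG) (Eventually.of_forall hCG)
  exact h3

omit [MeasurableSpace X] in
theorem UU_bound (hA4 : ∀ G : ℂ → ℂ, BM G → ∀ M : ℝ, (∀ z, ‖G z‖ ≤ M) → ∀ w : ℂ,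
      ‖∫ z in closedBall lam r, G z / (w - z)‖ ≤ 3 * Real.pi * r * M) {η : X → ℂ} {G k : ℂ → ℂ}
    {Cη CG M : ℝ} (hη : ∀ x, ‖η x‖ ≤ Cη) (hηK : ∀ x, φ x ∉ closedBall lam r → η x = 0)
    (mG : Measurable G) (hG : ∀ z, ‖G z‖ ≤ CG) (mk : Measurable k)
    (hM0 : 0 ≤ M) (hM : ∀ z ∈ closedBall lam r, ‖k z‖ ≤ M) (x : X) :
    ‖UU φ lam r η G k x‖ ≤ (Cη + 3 * Real.pi * r * CG) * M := by
  have hb := BM_indicator (lam := lam) (r := r) (G := G) (k := k) ⟨mG, CG, hG⟩ ⟨mk, M, hM⟩
  have h1 := hA4 _ hb (CG * M) (indicator_bound hG hM0 hM) (φ x)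
  have h2 : ‖η x * k (φ x)‖ ≤ Cη * M := by
    have hCη0 : 0 ≤ Cη := (norm_nonneg _).trans (hη x)
    by_cases hx : φ x ∈ closedBall lam r
    · rw [norm_mul]
      exact mul_le_mul (hη x) (hM _ hx) (norm_nonneg _) hCη0
    · rw [hηK x hx, zero_mul, norm_zero]; positivity
  unfold UU
  calc _ ≤ _ := norm_add_le _ _
    _ ≤ Cη * M + 3 * Real.pi * r * (CG * M) := add_le_add h2 h1
    _ = _ := by ring

theorem UU_measurable (hA4 : ∀ G : ℂ → ℂ, BM G →
      BM (fun w : ℂ => ∫ z in closedBall lam r, G z / (w - z))) {η : X → ℂ} {G k : ℂ → ℂ}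
    (hφ : Measurable φ) (mη : Measurable η) (hG : BM G) (hk : BMK (closedBall lam r) k) :
    Measurable (UU φ lam r η G k) := by
  have hb := hA4 _ (BM_indicator (lam := lam) (r := r) hG hk)
  unfold UU
  exact (mη.mul (hk.1.comp hφ)).add (hb.1.comp hφ)

omit [MeasurableSpace X] in
theorem UU_add (hA1 : A1_Stmt) (hr : 0 < r) {η : X → ℂ} {G k₁ k₂ : ℂ → ℂ}
    (hG : BM G) (hk₁ : BMK (closedBall lam r) k₁) (hk₂ : BMK (closedBall lam r) k₂) :
    UU φ lam r η G (k₁ + k₂) = UU φ lam r η G k₁ + UU φ lam r η G k₂ := by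
  ext x
  simp only [UU, Pi.add_apply]
  have i1 := integrableOn_kernel (lam := lam) hA1 hr (BM_indicator (lam := lam) (r := r) hG hk₁) (φ x)
  have i2 := integrableOn_kernel (lam := lam) hA1 hr (BM_indicator (lam := lam) (r := r) hG hk₂) (φ x)
  have e : (∫ z in closedBall lam r,
      ((closedBall lam r).indicator (fun z => G z * (k₁ z + k₂ z)) z) / (φ x - z)) =
      (∫ z in closedBall lam r, ((closedBall lam r).indicator (fun z => G z * k₁ z) z) / (φ x - z)) +
      ∫ z in closedBall lam r, ((closedBall lam r).indicator (fun z => G z * k₂ z) z) / (φ x - z) := by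
    rw [← integral_add i1 i2]
    congr 1
    ext z
    by_cases hz : z ∈ closedBall lam r
    · simp only [indicator_of_mem hz]; ring
    · simp only [indicator_of_notMem hz]; ring
  rw [e]
  ring

omit [MeasurableSpace X] in
theorem UU_smul {η : X → ℂ} {G k : ℂ → ℂ} (a : ℂ) :
    UU φ lam r η G (a • k) = a • UU φ lam r η G k := by
  ext x
  simp only [UU, Pi.smul_apply, smul_eq_mul]
  have e : (∫ z in closedBall lam r,
      ((closedBall lam r).indicator (fun z => G z * (a * k z)) z) / (φ x - z)) =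
      a * (∫ z in closedBall lam r,
        ((closedBall lam r).indicator (fun z => G z * k z) z) / (φ x - z)) := by
    rw [← integral_const_mul]
    congr 1
    ext z
    by_cases hz : z ∈ closedBall lam r
    · simp only [indicator_of_mem hz]; ring
    · simp only [indicator_of_notMem hz]; ring
  rw [e]
  ring

end rep

theorem R1.{u, v} (hA1 : A1_Stmt) (hA2 : A2_Stmt.{u}) (hA4 : A4_Stmt.{u}) : R1_Stmt.{u, v} := by
  intro X _ m c φ hD E _ _ T V hV lam r hr η G hη hG hηK hmom
  have hfin := hD.fin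
  obtain ⟨hFm, hFi⟩ := hA2 X m c φ hD
  obtain ⟨hFi, -⟩ := hFi lam r hr
  have hA := hA4 X m c φ hD lam r hr
  have hAm : ∀ G : ℂ → ℂ, BM G → BM (fun w : ℂ => ∫ z in closedBall lam r, G z / (w - z)) :=
    fun G hG => (hA G hG).1
  have hAb : ∀ G : ℂ → ℂ, BM G → ∀ M : ℝ, (∀ z, ‖G z‖ ≤ M) → ∀ w : ℂ,
      ‖∫ z in closedBall lam r, G z / (w - z)‖ ≤ 3 * Real.pi * r * M := fun G hG => (hA G hG).2.1
  obtain ⟨mη, Cη, hCη⟩ := hη
  obtain ⟨mG, CG, hCG⟩ := hG
  have hG : BM G := ⟨mG, CG, hCG⟩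
  have mφ := hD.phi.1
  have hCG0 : 0 ≤ CG := (norm_nonneg _).trans (hCG 0)
  set U := UU φ lam r η G with hU
  have hUb : ∀ k, Measurable k → ∀ M : ℝ, 0 ≤ M → (∀ z ∈ closedBall lam r, ‖k z‖ ≤ M) →
      ∀ x, ‖U k x‖ ≤ (Cη + 3 * Real.pi * r * CG) * M := fun k mk M hM0 hM x =>
    UU_bound hAb hCη hηK mG hCG mk hM0 hM x
  have hUm : ∀ k, BMK (closedBall lam r) k → Measurable (U k) := fun k hk =>
    UU_measurable hAm mφ mη hG hk
  have hUBM : ∀ k, BMK (closedBall lam r) k → BM (U k) := fun k hk => by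
    obtain ⟨mk, C, hC⟩ := hk
    exact ⟨hUm k ⟨mk, C, hC⟩, _, hUb k mk |C| (abs_nonneg C)
      fun z hz => (hC z hz).trans (le_abs_self C)⟩
  -- the vector valued functional
  have hΞ : BF (closedBall lam r) (fun k => V (U k)) := by
    obtain ⟨C, hC⟩ := hV.bdd
    refine ⟨fun k₁ k₂ h₁ h₂ => ?_, fun a k hk => ?_, |C| * |Cη + 3 * Real.pi * r * CG|,
      by positivity, fun k mk M hM0 hM => ?_⟩
    · have e : U (k₁ + k₂) = U k₁ + U k₂ := by rw [hU, UU_add hA1 hr hG h₁ h₂]
      change V (U (k₁ + k₂)) = V (U k₁) + V (U k₂)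
      rw [e]
      exact hV.add _ _ (hUBM _ h₁) (hUBM _ h₂)
    · have e : U (a • k) = a • U k := by rw [hU, UU_smul]
      change V (U (a • k)) = a • V (U k)
      rw [e]
      exact hV.smul _ _ (hUBM _ hk)
    · have hb := hUb k mk M hM0 hM
      have hb' : ∀ x, ‖U k x‖ ≤ |Cη + 3 * Real.pi * r * CG| * M := fun x =>
        (hb x).trans (mul_le_mul_of_nonneg_right (le_abs_self _) hM0)
      have := hC (U k) (hUm k ⟨mk, M, hM⟩) _ hb'
      refine this.trans ?_
      calc C * (|Cη + 3 * Real.pi * r * CG| * M) ≤ |C| * (|Cη + 3 * Real.pi * r * CG| * M) :=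
            mul_le_mul_of_nonneg_right (le_abs_self C) (by positivity)
        _ = _ := by ring
  -- integrability
  have hcInt : ∀ b : X → ℂ, BM b → Integrable (fun x => b x * c x) m := by
    intro b hb
    obtain ⟨mb, Cb, hCb⟩ := hb
    refine Integrable.of_bound (mb.mul hD.cmeas).aestronglyMeasurable Cb
      (Eventually.of_forall fun x => ?_)
    rw [norm_mul, hD.cnorm, mul_one]
    exact hCb x
  have hGk : ∀ k, BMK (closedBall lam r) k →
      IntegrableOn (fun z => G z * k z) (closedBall lam r) := by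
    intro k hk
    have h1 := BM_indicator (lam := lam) (r := r) hG hk
    obtain ⟨m1, C1, hC1⟩ := h1
    have h2 : IntegrableOn ((closedBall lam r).indicator (fun z => G z * k z))
        (closedBall lam r) :=
      Measure.integrableOn_of_bounded (M := C1) measure_closedBall_lt_top.ne
        m1.aestronglyMeasurable (Eventually.of_forall hC1)
    refine h2.congr ?_
    rw [Filter.EventuallyEq, ae_restrict_iff' measurableSet_closedBall]
    exact Eventually.of_forall fun z hz => indicator_of_mem hz _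
  -- the scalar functional
  let Λ : (ℂ → ℂ) → ℂ := fun k => (∫ x, U k x * c x ∂m) + ∫ z in closedBall lam r, G z * k z
  have hΛ : BF (closedBall lam r) Λ := by
    refine ⟨fun k₁ k₂ h₁ h₂ => ?_, fun a k hk => ?_,
      |Cη + 3 * Real.pi * r * CG| * m.real univ + CG * (volume.real (closedBall lam r)),
      by positivity, fun k mk M hM0 hM => ?_⟩
    · have e1 : (∫ x, U (k₁ + k₂) x * c x ∂m) = (∫ x, U k₁ x * c x ∂m) + ∫ x, U k₂ x * c x ∂m := by
        rw [← integral_add (hcInt _ (hUBM _ h₁)) (hcInt _ (hUBM _ h₂)), hU,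
          UU_add hA1 hr hG h₁ h₂]
        congr 1; ext x; simp only [Pi.add_apply]; ring
      have e2 : (∫ z in closedBall lam r, G z * (k₁ + k₂) z) =
          (∫ z in closedBall lam r, G z * k₁ z) + ∫ z in closedBall lam r, G z * k₂ z := by
        rw [← integral_add (hGk _ h₁) (hGk _ h₂)]
        congr 1; ext x; simp only [Pi.add_apply]; ring
      simp only [Λ]
      rw [e1, e2]; ring
    · have e1 : (∫ x, U (a • k) x * c x ∂m) = a * ∫ x, U k x * c x ∂m := by
        rw [← integral_const_mul, hU, UU_smul]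
        congr 1; ext x; simp only [Pi.smul_apply, smul_eq_mul]; ring
      have e2 : (∫ z in closedBall lam r, G z * (a • k) z) =
          a * ∫ z in closedBall lam r, G z * k z := by
        rw [← integral_const_mul]
        congr 1; ext x; simp only [Pi.smul_apply, smul_eq_mul]; ring
      simp only [Λ]
      rw [e1, e2, smul_eq_mul]; ring
    · have hb := hUb k mk M hM0 hM
      have hb' : ∀ x, ‖U k x * c x‖ ≤ |Cη + 3 * Real.pi * r * CG| * M := fun x => by
        rw [norm_mul, hD.cnorm, mul_one]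
        exact (hb x).trans (mul_le_mul_of_nonneg_right (le_abs_self _) hM0)
      have h1 : ‖∫ x, U k x * c x ∂m‖ ≤ |Cη + 3 * Real.pi * r * CG| * M * m.real univ :=
        norm_integral_le_of_norm_le_const (Eventually.of_forall hb')
      have h2 : ‖∫ z in closedBall lam r, G z * k z‖ ≤ CG * M * volume.real (closedBall lam r) := by
        apply norm_setIntegral_le_of_norm_le_const measure_closedBall_lt_top
        intro z hz
        rw [norm_mul]
        exact mul_le_mul (hCG z) (hM z hz) (norm_nonneg _) hCG0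
      calc ‖Λ k‖ ≤ _ := norm_add_le _ _
        _ ≤ _ := add_le_add h1 h2
        _ = _ := by ring
  have hΛ0 : ∀ q : Polynomial ℂ, Λ (fun w => q.eval w) = 0 := by
    intro q
    have hq : BMK (closedBall lam r) (fun w => q.eval w) := by
      have hc : Continuous (fun w => q.eval w) := q.continuous
      obtain ⟨D, hD⟩ := (isCompact_closedBall lam r).exists_bound_of_continuousOn hc.continuousOn
      exact ⟨hc.measurable, D, hD⟩
    have hind := BM_indicator (lam := lam) (r := r) hG hq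
    obtain ⟨hB1, -, hFub⟩ := hA _ hind
    -- pieces
    have i1 : Integrable (fun x => η x * q.eval (φ x) * c x) m := by
      have : BM (fun x => η x * q.eval (φ x)) := by
        obtain ⟨mq, Cq, hCq⟩ := hq
        refine ⟨mη.mul (mq.comp mφ), |Cη| * |Cq|, fun x => ?_⟩
        by_cases hx : φ x ∈ closedBall lam r
        · rw [norm_mul]
          exact mul_le_mul ((hCη x).trans (le_abs_self _)) ((hCq _ hx).trans (le_abs_self _))
            (norm_nonneg _) (abs_nonneg _)
        · have e0 : (fun x => η x * q.eval (φ x)) x = 0 := by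
            simp only [hηK x hx, zero_mul]
          rw [e0, norm_zero]; positivity
      exact hcInt _ this
    have i2 : Integrable (fun x => c x * ∫ z in closedBall lam r,
        ((closedBall lam r).indicator (fun z => G z * q.eval z) z) / (φ x - z)) m := by
      obtain ⟨m1, C1, hC1⟩ := hB1
      have := hcInt (fun x => ∫ z in closedBall lam r,
        ((closedBall lam r).indicator (fun z => G z * q.eval z) z) / (φ x - z))
        ⟨m1.comp mφ, C1, fun x => hC1 (φ x)⟩
      refine this.congr (Eventually.of_forall fun x => mul_comm _ _)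
    have e1 : (∫ x, U (fun w => q.eval w) x * c x ∂m) = (∫ x, η x * q.eval (φ x) * c x ∂m) +
        ∫ z in closedBall lam r, ((closedBall lam r).indicator (fun z => G z * q.eval z) z) *
          (FF m c φ z - 1) := by
      rw [← hFub, ← integral_add i1 i2]
      congr 1; ext x
      simp only [hU, UU]; ring
    have i3 : IntegrableOn (fun z => G z * q.eval z * (FF m c φ z - 1)) (closedBall lam r) := by
      have h1 : IntegrableOn (fun z => FF m c φ z - 1) (closedBall lam r) :=
        hFi.sub (integrableOn_const measure_closedBall_lt_top.ne)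
      obtain ⟨m1, C1, hC1⟩ := hind
      have h2 : IntegrableOn (fun z => ((closedBall lam r).indicator (fun z => G z * q.eval z) z) *
          (FF m c φ z - 1)) (closedBall lam r) :=
        h1.bdd_mul m1.aestronglyMeasurable (c := C1) (Eventually.of_forall hC1)
      refine h2.congr ?_
      rw [Filter.EventuallyEq, ae_restrict_iff' measurableSet_closedBall]
      exact Eventually.of_forall fun z hz => by simp only [indicator_of_mem hz]
    have e2 : (∫ z in closedBall lam r, ((closedBall lam r).indicator (fun z => G z * q.eval z) z) *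
          (FF m c φ z - 1)) + (∫ z in closedBall lam r, G z * q.eval z) =
        ∫ z in closedBall lam r, q.eval z * FF m c φ z * G z := by
      have e3 : (∫ z in closedBall lam r, ((closedBall lam r).indicator
          (fun z => G z * q.eval z) z) * (FF m c φ z - 1)) =
          ∫ z in closedBall lam r, G z * q.eval z * (FF m c φ z - 1) := by
        apply setIntegral_congr_fun measurableSet_closedBall
        intro z hz
        simp only [indicator_of_mem hz]
      rw [e3, ← integral_add i3 (hGk _ hq)]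
      congr 1; ext z; ring
    simp only [Λ]
    rw [e1, add_assoc, e2]
    exact hmom q
  have hΛζ : ∀ ζ ∉ closedBall lam r, (∫ x, U (kz ζ) x * c x ∂m) =
      ∫ z in closedBall lam r, G z / (ζ - z) := by
    intro ζ hζ
    have h1 := hΛ.eq_zero hr hΛ0 hζ
    simp only [Λ] at h1
    have h2 : (∫ z in closedBall lam r, G z * kz ζ z) = - ∫ z in closedBall lam r, G z / (ζ - z) := by
      rw [← integral_neg]
      congr 1; ext z
      rw [kz, ← neg_sub ζ z, inv_neg, div_eq_mul_inv]; ring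
    rw [h2] at h1
    linear_combination h1
  -- the resolvent identity
  have hres : ∀ ζ ∉ closedBall lam r, ∀ x, (φ x - ζ) * U (kz ζ) x =
      (η x + ∫ z in closedBall lam r, G z / (φ x - z)) - ∫ z in closedBall lam r, G z / (ζ - z) := by
    intro ζ hζ x
    have e1 : (φ x - ζ) * (η x * kz ζ (φ x)) = η x := by
      by_cases hx : φ x ∈ closedBall lam r
      · have h2 := dist_ball hζ hx
        have h3 := pos_of_notMem hζ
        have n2 : φ x - ζ ≠ 0 := by
          rw [← norm_pos_iff]; linarith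
        rw [kz]; field_simp
      · rw [hηK x hx]; ring
    have e2 : (φ x - ζ) * (∫ z in closedBall lam r,
        ((closedBall lam r).indicator (fun z => G z * kz ζ z) z) / (φ x - z)) =
        (∫ z in closedBall lam r, G z / (φ x - z)) - ∫ z in closedBall lam r, G z / (ζ - z) := by
      rw [← integral_sub (integrableOn_kernel hA1 hr hG (φ x)) (integrableOn_kernel hA1 hr hG ζ),
        ← integral_const_mul]
      apply integral_congr_ae
      have hne : ∀ᵐ z ∂(volume.restrict (closedBall lam r)), z ≠ φ x := by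
        apply ae_restrict_of_ae
        exact (measure_eq_zero_iff_ae_notMem.1 (measure_singleton (φ x)))
      have hmem : ∀ᵐ z ∂(volume.restrict (closedBall lam r)), z ∈ closedBall lam r :=
        ae_restrict_mem measurableSet_closedBall
      filter_upwards [hne, hmem] with z hz hzK
      have h2 := dist_ball hζ hzK
      have h3 := pos_of_notMem hζ
      have n2 : z - ζ ≠ 0 := by
        rw [← norm_pos_iff]; linarith
      have n3 : ζ - z ≠ 0 := by
        intro h; apply n2; linear_combination -h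
      have n4 : φ x - z ≠ 0 := by
        intro h; apply hz; linear_combination -h
      rw [indicator_of_mem hzK, kz]
      field_simp
      ring
    have : (φ x - ζ) * U (kz ζ) x = (φ x - ζ) * (η x * kz ζ (φ x)) + (φ x - ζ) *
        (∫ z in closedBall lam r,
        ((closedBall lam r).indicator (fun z => G z * kz ζ z) z) / (φ x - z)) := by
      simp only [hU, UU]; ring
    rw [this, e1, e2]; ring
  have hbBM : BM (fun x => η x + ∫ z in closedBall lam r, G z / (φ x - z)) := by
    obtain ⟨m1, C1, hC1⟩ := hAm G hG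
    refine ⟨mη.add (m1.comp mφ), Cη + C1, fun x => ?_⟩
    exact (norm_add_le _ _).trans (add_le_add (hCη x) (hC1 _))
  have h1BM : BM (1 : X → ℂ) := ⟨measurable_one, 1, fun x => by simp⟩
  -- T V r_ζ - ζ V r_ζ = V b
  have hT : ∀ ζ ∉ closedBall lam r, T (V (U (kz ζ))) - ζ • V (U (kz ζ)) =
      V (fun x => η x + ∫ z in closedBall lam r, G z / (φ x - z)) := by
    intro ζ hζ
    have hr1 := hUBM _ (BMK_kz hζ)
    set a := ∫ z in closedBall lam r, G z / (ζ - z) with ha
    have e1 : φ * U (kz ζ) = (ζ • U (kz ζ)) +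
        ((fun x => η x + ∫ z in closedBall lam r, G z / (φ x - z)) + (-a) • (1 : X → ℂ)) := by
      ext x
      have := hres ζ hζ x
      simp only [Pi.mul_apply, Pi.add_apply, Pi.smul_apply, Pi.one_apply, smul_eq_mul]
      linear_combination this
    have hBs : ∀ (a : ℂ) (b : X → ℂ), BM b → BM (a • b) := by
      rintro a b ⟨mb, Cb, hCb⟩
      refine ⟨mb.const_smul a, ‖a‖ * Cb, fun x => ?_⟩
      rw [Pi.smul_apply, norm_smul]
      exact mul_le_mul_of_nonneg_left (hCb x) (norm_nonneg a)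
    have hBa : ∀ (b₁ b₂ : X → ℂ), BM b₁ → BM b₂ → BM (b₁ + b₂) := by
      rintro b₁ b₂ ⟨m1, C1, hC1⟩ ⟨m2, C2, hC2⟩
      exact ⟨m1.add m2, C1 + C2, fun x => (norm_add_le _ _).trans (add_le_add (hC1 x) (hC2 x))⟩
    rw [hV.inter _ hr1, hΛζ ζ hζ, ← ha, e1, hV.add _ _ (hBs _ _ hr1)
      (hBa _ _ hbBM (hBs _ _ h1BM)), hV.add _ _ hbBM (hBs _ _ h1BM), hV.smul _ _ hr1,
      hV.smul _ _ h1BM]
    module
  refine ⟨⟨fun ζ => V (U (kz ζ)), ?_, fun ζ hζ => hT ζ hζ⟩, ?_⟩
  · intro ζ hζ
    exact (hΞ.hasDerivAt hζ).differentiableAt.differentiableWithinAt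
  · rintro hno ⟨ζ, hζ, hζ0⟩ hVb
    have h1 := hT ζ hζ
    rw [hVb, sub_eq_zero] at h1
    have h2 := hno ζ _ h1
    have h3 := hV.inj _ (hUBM _ (BMK_kz hζ)) h2
    apply hζ0
    rw [← hΛζ ζ hζ]
    have : (∫ x, U (kz ζ) x * c x ∂m) = ∫ x, (0:ℂ) ∂m := by
      apply integral_congr_ae
      filter_upwards [h3] with x hx
      rw [hx]; simp
    rw [this, integral_zero]

theorem R2.{u, v} (hA1 : A1_Stmt) (hA2 : A2_Stmt.{u}) (hA4 : A4_Stmt.{u}) : R2_Stmt.{u, v} := by
  intro X _ m c φ hDat E _ _ T V hV lam r hr hX z₁ M hM hsupp hq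
  have hfin := hDat.fin
  have mφ := hDat.phi.1
  obtain ⟨hFm, hFi⟩ := hA2 X m c φ hDat
  obtain ⟨hFi, -⟩ := hFi lam r hr
  have hA := hA4 X m c φ hDat lam r hr
  have hKm : MeasurableSet (φ ⁻¹' closedBall lam r) := mφ measurableSet_closedBall
  have hpoly : ∀ q : Polynomial ℂ, ∃ D : ℝ, ∀ z ∈ closedBall lam r, ‖q.eval z‖ ≤ D := fun q =>
    (isCompact_closedBall lam r).exists_bound_of_continuousOn q.continuous.continuousOn
  let J₁ : Polynomial ℂ →ₗ[ℂ] (X → ℂ) :=
    { toFun := fun q x => q.eval (φ x)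
      map_add' := fun q q' => by ext x; simp
      map_smul' := fun a q => by ext x; simp }
  let J₂ : Polynomial ℂ →ₗ[ℂ] (ℂ → ℂ) :=
    { toFun := fun q z => q.eval z * FF m c φ z
      map_add' := fun q q' => by ext x; simp [add_mul]
      map_smul' := fun a q => by ext x; simp [mul_assoc] }
  have hJ₁ : ∀ q, Integrable (J₁ q) (m.restrict (φ ⁻¹' closedBall lam r)) := by
    intro q
    obtain ⟨D, hD⟩ := hpoly q
    refine Measure.integrableOn_of_bounded (M := D) (measure_ne_top m _)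
      (q.continuous.measurable.comp mφ).aestronglyMeasurable ?_
    rw [ae_restrict_iff' hKm]
    exact Eventually.of_forall fun x hx => hD _ hx
  have hJ₂ : ∀ q, Integrable (J₂ q) ((volume : Measure ℂ).restrict (closedBall lam r)) := by
    intro q
    exact hFi.continuousOn_mul q.continuous.continuousOn (isCompact_closedBall lam r)
  have hfin2 : IsFiniteMeasure ((volume : Measure ℂ).restrict (closedBall lam r)) :=
    ⟨by rw [Measure.restrict_apply_univ]; exact measure_closedBall_lt_top⟩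
  obtain ⟨η₁, G, mη₁, mG, hη₁, hGb, hrep⟩ := D X (m.restrict (φ ⁻¹' closedBall lam r)) ℂ
    ((volume : Measure ℂ).restrict (closedBall lam r)) inferInstance hfin2 (Polynomial ℂ) J₁ J₂
    hJ₁ hJ₂ (Polynomial.leval z₁) M hM (fun q => hq q)
  set η : X → ℂ := (φ ⁻¹' closedBall lam r).indicator (fun x => η₁ x * conj (c x)) with hη
  have hcc : ∀ x, conj (c x) * c x = 1 := by
    intro x
    rw [← Complex.normSq_eq_conj_mul_self, Complex.normSq_eq_norm_sq, hDat.cnorm]
    simp
  have mη : Measurable η :=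
    (mη₁.mul (Complex.continuous_conj.measurable.comp hDat.cmeas)).indicator hKm
  have hηb : ∀ x, ‖η x‖ ≤ 2 * M := by
    intro x
    by_cases hx : x ∈ φ ⁻¹' closedBall lam r
    · rw [hη, indicator_of_mem hx, norm_mul, RCLike.norm_conj, hDat.cnorm, mul_one]
      exact hη₁ x
    · rw [hη, indicator_of_notMem hx, norm_zero]; linarith
  have hηK : ∀ x, φ x ∉ closedBall lam r → η x = 0 := fun x hx =>
    indicator_of_notMem (s := φ ⁻¹' closedBall lam r) hx _
  have hmom : ∀ q : Polynomial ℂ, q.eval z₁ = (∫ x, η x * q.eval (φ x) * c x ∂m) +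
      ∫ z in closedBall lam r, q.eval z * FF m c φ z * G z := by
    intro q
    have h1 := hrep q
    have h2 : (∫ x in φ ⁻¹' closedBall lam r, η₁ x * J₁ q x ∂m) =
        ∫ x, η x * q.eval (φ x) * c x ∂m := by
      rw [← integral_indicator hKm]
      congr 1; ext x
      by_cases hx : x ∈ φ ⁻¹' closedBall lam r
      · rw [hη, indicator_of_mem hx, indicator_of_mem hx]
        change η₁ x * q.eval (φ x) = _
        linear_combination -(η₁ x * q.eval (φ x)) * hcc x
      · rw [hη, indicator_of_notMem hx, indicator_of_notMem hx]; ring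
    have h3 : (∫ z in closedBall lam r, G z * J₂ q z) =
        ∫ z in closedBall lam r, q.eval z * FF m c φ z * G z := by
      congr 1; ext z
      change G z * (q.eval z * FF m c φ z) = _
      ring
    rw [h2, h3] at h1
    exact h1
  have hGBM : BM G := ⟨mG, 2 * M, hGb⟩
  -- the functions for `R1`
  set η' : X → ℂ := fun x => (φ x - z₁) * η x with hη'
  set G' : ℂ → ℂ := (closedBall lam r).indicator (fun z => G z * (z - z₁)) with hG'
  have hlin : BMK (closedBall lam r) (fun z => z - z₁) := by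
    have hc : Continuous (fun z : ℂ => z - z₁) := by fun_prop
    obtain ⟨D, hD⟩ := (isCompact_closedBall lam r).exists_bound_of_continuousOn hc.continuousOn
    exact ⟨hc.measurable, D, hD⟩
  have hG'BM : BM G' := BM_indicator hGBM hlin
  have hη'BM : BM η' := by
    obtain ⟨D, hD⟩ := hlin.2
    refine ⟨(mφ.sub_const z₁).mul mη, |D| * (2 * M), fun x => ?_⟩
    by_cases hx : φ x ∈ closedBall lam r
    · rw [hη', norm_mul]
      exact mul_le_mul ((hD _ hx).trans (le_abs_self D)) (hηb x) (norm_nonneg _) (abs_nonneg _)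
    · have : η' x = 0 := by rw [hη']; simp only [hηK x hx, mul_zero]
      rw [this, norm_zero]; positivity
  have hη'K : ∀ x, φ x ∉ closedBall lam r → η' x = 0 := by
    intro x hx
    rw [hη']; simp only [hηK x hx, mul_zero]
  have hmom' : ∀ q : Polynomial ℂ, (∫ x, η' x * q.eval (φ x) * c x ∂m) +
      (∫ z in closedBall lam r, q.eval z * FF m c φ z * G' z) = 0 := by
    intro q
    have h1 := hmom ((Polynomial.X - Polynomial.C z₁) * q)
    have h2 : (∫ x, η x * ((Polynomial.X - Polynomial.C z₁) * q).eval (φ x) * c x ∂m) =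
        ∫ x, η' x * q.eval (φ x) * c x ∂m := by
      congr 1; ext x
      simp only [Polynomial.eval_mul, Polynomial.eval_sub, Polynomial.eval_X, Polynomial.eval_C, hη']
      ring
    have h3 : (∫ z in closedBall lam r, ((Polynomial.X - Polynomial.C z₁) * q).eval z *
        FF m c φ z * G z) = ∫ z in closedBall lam r, q.eval z * FF m c φ z * G' z := by
      apply setIntegral_congr_fun measurableSet_closedBall
      intro z hz
      simp only [Polynomial.eval_mul, Polynomial.eval_sub, Polynomial.eval_X, Polynomial.eval_C,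
        hG', indicator_of_mem hz]
      ring
    rw [h2, h3] at h1
    rw [← h1]
    simp
  obtain ⟨hloc, -⟩ := R1.{u, v} hA1 hA2 hA4 X m c φ hDat E T V hV lam r hr η' G' hη'BM hG'BM
    hη'K hmom'
  have hV0 := hX _ hloc
  have hb'BM : BM (fun x => η' x + ∫ z in closedBall lam r, G' z / (φ x - z)) := by
    obtain ⟨m1, C1, hC1⟩ := (hA G' hG'BM).1
    obtain ⟨m2, C2, hC2⟩ := hη'BM
    exact ⟨m2.add (m1.comp mφ), C2 + C1, fun x =>
      (norm_add_le _ _).trans (add_le_add (hC2 x) (hC1 _))⟩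
  have hb' := hV.inj _ hb'BM hV0
  -- `b₀`
  set a : ℂ → ℂ := fun w => ∫ z in closedBall lam r, G z / (w - z) with ha
  set e : ℂ := ∫ z in closedBall lam r, G z with he
  set b₀ : X → ℂ := fun x => η x + a (φ x) with hb₀
  set B : ℝ := (2 + 6 * Real.pi * r) * M with hB
  have hB0 : 0 ≤ B := by positivity
  have hab : ∀ w, ‖a w‖ ≤ 3 * Real.pi * r * (2 * M) := (hA G hGBM).2.1 _ hGb
  have hb₀b : ∀ x, ‖b₀ x‖ ≤ B := by
    intro x
    calc ‖b₀ x‖ ≤ ‖η x‖ + ‖a (φ x)‖ := norm_add_le _ _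
      _ ≤ 2 * M + 3 * Real.pi * r * (2 * M) := add_le_add (hηb x) (hab _)
      _ = B := by rw [hB]; ring
  have hGint : IntegrableOn G (closedBall lam r) :=
    Measure.integrableOn_of_bounded (M := 2 * M) measure_closedBall_lt_top.ne
      mG.aestronglyMeasurable (Eventually.of_forall hGb)
  have haG' : ∀ w, (∫ z in closedBall lam r, G' z / (w - z)) = (w - z₁) * a w - e := by
    intro w
    rw [ha, he]
    simp only []
    rw [← integral_const_mul, ← integral_sub ((integrableOn_kernel hA1 hr hGBM w).const_mul _) hGint]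
    apply integral_congr_ae
    have hne : ∀ᵐ z ∂(volume.restrict (closedBall lam r)), z ≠ w := by
      apply ae_restrict_of_ae
      exact (measure_eq_zero_iff_ae_notMem.1 (measure_singleton w))
    have hmem : ∀ᵐ z ∂(volume.restrict (closedBall lam r)), z ∈ closedBall lam r :=
      ae_restrict_mem measurableSet_closedBall
    filter_upwards [hne, hmem] with z hz hzK
    have n4 : w - z ≠ 0 := by
      intro h; apply hz; linear_combination -h
    rw [hG', indicator_of_mem hzK]
    field_simp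
    ring
  have hkey : ∀ᵐ x ∂m, (φ x - z₁) * b₀ x = e := by
    filter_upwards [hb'] with x hx
    rw [haG' (φ x)] at hx
    simp only [Pi.zero_apply] at hx
    rw [hb₀]
    simp only [hη'] at hx ⊢
    linear_combination hx
  have he0 : e = 0 := by
    have hle : ∀ ε > 0, ‖e‖ ≤ ε * B := by
      intro ε hε
      have hpos := hsupp ε hε
      have : ∃ x, x ∈ φ ⁻¹' ball z₁ ε ∧ (φ x - z₁) * b₀ x = e := by
        by_contra hcon
        push Not at hcon
        have : m (φ ⁻¹' ball z₁ ε) = 0 := by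
          refine measure_mono_null (t := {x | ¬ (φ x - z₁) * b₀ x = e}) (fun x hx => hcon x hx) hkey
        rw [Measure.real, this] at hpos
        simp at hpos
      obtain ⟨x, hx, hxe⟩ := this
      rw [← hxe, norm_mul]
      rw [mem_preimage, mem_ball, dist_eq_norm] at hx
      exact mul_le_mul hx.le (hb₀b x) (norm_nonneg _) hε.le
    have h0 : ‖e‖ ≤ 0 := by
      apply le_of_forall_pos_le_add
      intro δ hδ
      have := hle (δ / (B + 1)) (by positivity)
      refine this.trans ?_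
      rw [zero_add, div_mul_eq_mul_div, div_le_iff₀ (by linarith)]
      nlinarith
    exact norm_le_zero_iff.1 h0
  -- integrals
  have haBM : BM a := (hA G hGBM).1
  have i1 : Integrable (fun x => η x * c x) m := by
    refine Integrable.of_bound (mη.mul hDat.cmeas).aestronglyMeasurable (2 * M)
      (Eventually.of_forall fun x => ?_)
    rw [norm_mul, hDat.cnorm, mul_one]
    exact hηb x
  have i2 : Integrable (fun x => c x * a (φ x)) m := by
    refine Integrable.of_bound (hDat.cmeas.mul (haBM.1.comp mφ)).aestronglyMeasurable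
      (3 * Real.pi * r * (2 * M)) (Eventually.of_forall fun x => ?_)
    rw [norm_mul, hDat.cnorm, one_mul]
    exact hab _
  have hone : (∫ x, b₀ x * c x ∂m) = 1 := by
    have h1 := hmom 1
    simp only [Polynomial.eval_one, mul_one, one_mul] at h1
    have h2 := (hA G hGBM).2.2
    have h3 : (∫ x, b₀ x * c x ∂m) = (∫ x, η x * c x ∂m) + ∫ x, c x * a (φ x) ∂m := by
      rw [← integral_add i1 i2]
      congr 1; ext x; rw [hb₀]; ring
    have i3 : IntegrableOn (fun z => FF m c φ z * G z) (closedBall lam r) := by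
      have := hFi.bdd_mul mG.aestronglyMeasurable (c := 2 * M) (Eventually.of_forall hGb)
      refine this.congr (Eventually.of_forall fun z => mul_comm _ _)
    have h4 : (∫ z in closedBall lam r, G z * (FF m c φ z - 1)) =
        (∫ z in closedBall lam r, FF m c φ z * G z) - e := by
      rw [he, ← integral_sub i3 hGint]
      congr 1; ext z; ring
    have h5 : (∫ x, c x * a (φ x) ∂m) = (∫ z in closedBall lam r, FF m c φ z * G z) - e := by
      rw [← h4]; exact h2
    rw [h3, h5, he0, sub_zero]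
    exact h1.symm
  have hset : (∫ x, b₀ x * c x ∂m) = ∫ x in φ ⁻¹' {z₁}, b₀ x * c x ∂m := by
    symm
    apply setIntegral_eq_integral_of_ae_compl_eq_zero
    filter_upwards [hkey] with x hx hx1
    rw [he0] at hx
    have : φ x - z₁ ≠ 0 := sub_ne_zero.2 hx1
    have h0 : b₀ x = 0 := by
      rcases mul_eq_zero.1 hx with h | h
      · exact absurd h this
      · exact h
    rw [h0, zero_mul]
  have hfinal : ‖∫ x in φ ⁻¹' {z₁}, b₀ x * c x ∂m‖ ≤ B * m.real (φ ⁻¹' {z₁}) := by
    apply norm_setIntegral_le_of_norm_le_const (measure_lt_top m _)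
    intro x _
    rw [norm_mul, hDat.cnorm, mul_one]
    exact hb₀b x
  rw [← hset, hone, norm_one] at hfinal
  exact hfinal

end Pool.Agent.RankOne
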