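import Pool.Agent.Lib_helper15.RankOne.DefsT2

/-!
# Module TT: passage to the limit
-/

set_option autoImplicit false

open MeasureTheory Metric Set Filter Topology

namespace Pool.Agent.RankOne

universe u

theorem tendsto_kap : Tendsto kap atTop (𝓝 0) := by
  unfold kap
  exact tendsto_pow_atTop_nhds_zero_of_lt_one (by norm_num) (by norm_num)

theorem hh_le_kap (k : ℕ) : hh k ≤ kap k := by
  rw [hh_eq_kap]
  apply kap_anti
  have h2 : k ≤ k ^ 3 := Nat.le_self_pow (by norm_num) _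
  omega

theorem tendsto_hh : Tendsto hh atTop (𝓝 0) :=
  squeeze_zero (fun k => (hh_pos k).le) hh_le_kap tendsto_kap

theorem exists_QB (q : Polynomial ℂ) (lam : ℂ) (r : ℝ) (hr : 0 < r) :
    ∃ Q Lq : ℝ, QB (fun z => q.eval z) lam r Q Lq := by
  obtain ⟨Q, hQ⟩ := (isCompact_closedBall lam r).exists_bound_of_continuousOn
    (f := fun z => q.eval z) q.continuous.continuousOn
  obtain ⟨D, hD⟩ := (isCompact_closedBall lam r).exists_bound_of_continuousOn
    (f := fun z => q.derivative.eval z) q.derivative.continuous.continuousOn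
  have hmem : lam ∈ closedBall lam r := mem_closedBall_self hr.le
  refine ⟨Q, D, q.continuous, (norm_nonneg _).trans (hQ lam hmem),
    (norm_nonneg _).trans (hD lam hmem), hQ, ?_⟩
  intro z hz w hw
  refine Convex.norm_image_sub_le_of_norm_deriv_le (s := closedBall lam r)
    (f := fun z => q.eval z) (fun x _ => q.differentiableAt) (fun x hx => ?_)
    (convex_closedBall lam r) hw hz
  rw [Polynomial.deriv]
  exact hD x hx

theorem TT_of_Z (hZ : Z_Stmt.{u}) (hF : F_Stmt.{u}) : TT_Stmt.{u} := by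
  obtain ⟨C, hC, hZZ⟩ := hZ
  intro X _ m c φ hD lam r hr hr1 χ hχ hχ1 hχone hχzero R hR hRr hex
  have hfin := hD.fin
  obtain ⟨K0, hK0, hK0R⟩ : ∃ K0 : ℕ, 40 ≤ K0 ∧ kap K0 ≤ R / 4 := by
    have h1 : ∀ᶠ n in atTop, kap n < R / 4 := tendsto_kap.eventually_lt_const (by positivity)
    obtain ⟨n, hn1, hn2⟩ := (h1.and (eventually_ge_atTop 40)).exists
    exact ⟨n, hn2, hn1.le⟩
  have hstep : ∀ n : ℕ, ∃ (z₀ : ℂ) (p : Polynomial ℂ) (s : Stage) (L : List Stage) (b : ℂ),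
      ‖z₀ - lam‖ < R / ((n : ℝ) + 2) ∧
      (∫ z in closedBall lam r, ‖p.eval z * FF m c φ z‖) ≤ 1 ∧
      Branch m φ (fun z => p.eval z) lam R z₀ (K0 + n) (s :: L) ∧ b ∈ s.pts ∧
      R ≤ ‖b - lam‖ := by
    intro n
    obtain ⟨z₀, p, h1, h2, h3⟩ := hex (K0 + n) (R / ((n : ℝ) + 2)) (by positivity)
    have hlt : R / ((n : ℝ) + 2) ≤ R := by
      apply div_le_self hR.le
      have : (0 : ℝ) ≤ n := by positivity
      linarith
    obtain ⟨s, L, hb, b, hbs, hbR⟩ := hF X m φ hfin hD.phi.1 (fun z => p.eval z)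
      p.differentiable lam z₀ R (K0 + n) hR (by omega) ((kap_anti (by omega)).trans hK0R)
      (h1.trans_le hlt) h2
    exact ⟨z₀, p, s, L, b, h1, h3, hb, hbs, hbR⟩
  choose z₀ p s L b hz₀ hp hbr hbs hbR using hstep
  have hOK : ∀ n, StageOK m φ (fun z => (p n).eval z) lam R (s n) := by
    intro n
    have h := hbr n
    cases hL : L n with
    | nil => rw [hL] at h; exact h.1
    | cons s' L' => rw [hL] at h; exact h.1
  have hb2 : ∀ n, b n ∈ closedBall lam (2 * R) := by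
    intro n
    rw [mem_closedBall, dist_eq_norm]
    exact (hOK n).inball _ (hbs n)
  obtain ⟨β, hβ, ψ, hψ, hlim⟩ := (isCompact_closedBall lam (2 * R)).tendsto_subseq hb2
  rw [mem_closedBall, dist_eq_norm] at hβ
  have hβR : R ≤ ‖β - lam‖ :=
    ge_of_tendsto' ((hlim.sub_const lam).norm) (fun n => hbR (ψ n))
  refine ⟨β, C, hβR, hβ, hC.le, fun q => ?_⟩
  obtain ⟨Q, Lq, hQB⟩ := exists_QB q lam r hr
  set ρ₀ : ℕ → ℝ := fun n => R / ((ψ n : ℝ) + 2) + hh (K0 + ψ n) with hρ₀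
  set ρ₁ : ℕ → ℝ := fun n => ‖b (ψ n) - β‖ + 1 / ((n : ℝ) + 1) with hρ₁
  set kk : ℕ → ℝ := fun n => 1 / ((K0 + ψ n : ℕ) : ℝ) with hkk
  have hψt : Tendsto ψ atTop atTop := hψ.tendsto_atTop
  have hKψ : Tendsto (fun n => K0 + ψ n) atTop atTop :=
    tendsto_atTop_mono (fun n => Nat.le_add_left _ _) hψt
  have hρ₀t : Tendsto ρ₀ atTop (𝓝 0) := by
    have h1 : Tendsto (fun n => R / ((ψ n : ℝ) + 2)) atTop (𝓝 0) := by
      apply Tendsto.const_div_atTop
      exact tendsto_atTop_add_const_right _ _ (tendsto_natCast_atTop_atTop.comp hψt)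
    simpa using h1.add (tendsto_hh.comp hKψ)
  have hρ₁t : Tendsto ρ₁ atTop (𝓝 0) := by
    have h1 : Tendsto (fun n => ‖b (ψ n) - β‖) atTop (𝓝 0) := by
      simpa using (hlim.sub_const β).norm
    have h2 := h1.add (tendsto_one_div_add_atTop_nhds_zero_nat (𝕜 := ℝ))
    rw [add_zero] at h2
    exact h2
  have hkkt : Tendsto kk atTop (𝓝 0) :=
    Tendsto.const_div_atTop (tendsto_natCast_atTop_atTop.comp hKψ) 1
  set I := ∫ x in φ ⁻¹' closedBall lam r, ‖q.eval (φ x)‖ ∂m with hI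
  have hlimR : Tendsto (fun n => C * I + C * (Q + Lq) * (1 + m.real univ) * (1 + 1 / r) *
      (ρ₀ n + ρ₁ n + kk n)) atTop (𝓝 (C * I)) := by
    have h1 := ((hρ₀t.add hρ₁t).add hkkt).const_mul
      (C * (Q + Lq) * (1 + m.real univ) * (1 + 1 / r))
    simpa using h1.const_add (C * I)
  refine ge_of_tendsto hlimR ?_
  have e1 : ∀ᶠ n in atTop, ρ₀ n < r / 64 := hρ₀t.eventually_lt_const (by positivity)
  have e2 : ∀ᶠ n in atTop, ρ₁ n < r / 64 := hρ₁t.eventually_lt_const (by positivity)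
  filter_upwards [e1, e2] with n h1 h2
  have hpos0 : 0 < ρ₀ n := by
    have := hh_pos (K0 + ψ n)
    simp only [hρ₀]
    positivity
  have hpos1 : 0 < ρ₁ n := by
    simp only [hρ₁]
    positivity
  exact hZZ X m c φ hD (fun z => (p (ψ n)).eval z) (p (ψ n)).differentiable lam r R hR hRr hr1
    (hp (ψ n)) χ hχ hχ1 hχone hχzero (z₀ (ψ n)) (K0 + ψ n) (by omega)
    ((kap_anti (by omega)).trans hK0R) (s (ψ n)) (L (ψ n)) (hbr (ψ n)) (b (ψ n)) (hbs (ψ n)) β
    (ρ₀ n) (ρ₁ n) hpos0 h1.le hpos1 h2.le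
    (by simp only [hρ₀]; linarith [hz₀ (ψ n)])
    (by
      simp only [hρ₁]
      have : (0 : ℝ) < 1 / ((n : ℝ) + 1) := by positivity
      linarith)
    hβ (fun z => q.eval z) q.differentiable Q Lq hQB

end Pool.Agent.RankOne
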