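import Pool.Agent.Lib_helper15.RankOne.DefsT

/-!
# Module T, parts T4 (branch sums) and T5 (polygon of a branch)
-/

set_option autoImplicit false

open MeasureTheory Metric Set

namespace Pool.Agent.RankOne

universe u

lemma branch_tail {X : Type u} [MeasurableSpace X] {m : Measure X} {φ : X → ℂ} {p : ℂ → ℂ}
    {lam : ℂ} {R : ℝ} {z₀ : ℂ} {k₀ : ℕ} {s s' : Stage} {L : List Stage}
    (h : Branch m φ p lam R z₀ k₀ (s :: s' :: L)) : Branch m φ p lam R z₀ k₀ (s' :: L) :=
  h.2.2.2.2

lemma branch_head {X : Type u} [MeasurableSpace X] {m : Measure X} {φ : X → ℂ} {p : ℂ → ℂ}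
    {lam : ℂ} {R : ℝ} {z₀ : ℂ} {k₀ : ℕ} {s : Stage} {L : List Stage}
    (h : Branch m φ p lam R z₀ k₀ (s :: L)) : StageOK m φ p lam R s := by
  cases L with
  | nil => exact h.1
  | cons s' L => exact h.1

/-- levels decrease along the list; all stages are fine -/
lemma branch_levels {X : Type u} [MeasurableSpace X] {m : Measure X} {φ : X → ℂ} {p : ℂ → ℂ}
    {lam : ℂ} {R : ℝ} {z₀ : ℂ} {k₀ : ℕ} : ∀ (L : List Stage) (s : Stage),
    Branch m φ p lam R z₀ k₀ (s :: L) → ∀ s' ∈ L, StageOK m φ p lam R s' ∧ s'.k < s.k := by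
  intro L
  induction L with
  | nil => intro s _ s' hs'; simp at hs'
  | cons a L ih =>
    intro s h s' hs'
    have hk : a.k < s.k := h.2.1
    rcases List.mem_cons.1 hs' with rfl | hs'
    · exact ⟨branch_head (branch_tail h), hk⟩
    · obtain ⟨h1, h2⟩ := ih a (branch_tail h) s' hs'
      exact ⟨h1, h2.trans hk⟩

/-- sums over levels -/
lemma branch_sum {X : Type u} [MeasurableSpace X] {m : Measure X} {φ : X → ℂ} {p : ℂ → ℂ}
    {lam : ℂ} {R : ℝ} {z₀ : ℂ} {k₀ : ℕ} (f : ℕ → ℝ) (hf : ∀ k, 0 ≤ f k) :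
    ∀ (L : List Stage) (s : Stage), Branch m φ p lam R z₀ k₀ (s :: L) → k₀ ≤ s.k ∧
      ((s :: L).map (fun s => f s.k)).sum ≤ ∑ k ∈ Finset.range (s.k - k₀ + 1), f (k₀ + k) := by
  intro L
  induction L with
  | nil =>
    intro s h
    have hk : s.k = k₀ := h.2.1
    refine ⟨hk.ge, ?_⟩
    simp [hk]
  | cons a L ih =>
    intro s h
    have hk : a.k < s.k := h.2.1
    obtain ⟨h1, h2⟩ := ih a (branch_tail h)
    refine ⟨h1.trans hk.le, ?_⟩
    rw [List.map_cons, List.sum_cons, Finset.sum_range_succ]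
    have e : k₀ + (s.k - k₀) = s.k := by omega
    rw [e, add_comm]
    refine add_le_add (h2.trans ?_) le_rfl
    refine Finset.sum_le_sum_of_subset_of_nonneg ?_ (fun _ _ _ => hf _)
    intro i hi
    rw [Finset.mem_range] at hi ⊢
    omega

lemma kap_anti {a b : ℕ} (h : a ≤ b) : kap b ≤ kap a := by
  unfold kap
  exact pow_le_pow_of_le_one (by norm_num) (by norm_num) h

/-- a point near the head stage is near no other stage -/
lemma branch_near {X : Type u} [MeasurableSpace X] {m : Measure X} {φ : X → ℂ} {p : ℂ → ℂ}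
    {lam : ℂ} {R : ℝ} {z₀ : ℂ} {k₀ : ℕ} (w : ℂ) {L : List Stage} {s : Stage}
    (h : Branch m φ p lam R z₀ k₀ (s :: L)) (hw : infDist w {a | a ∈ s.pts} < s.kp / 4)
    {s' : Stage} (hs' : s' ∈ L) : ¬ infDist w {a | a ∈ s'.pts} < s'.kp / 4 := by
  intro hw'
  obtain ⟨hok, hk⟩ := branch_levels L s h s' hs'
  have hok0 := branch_head h
  have hn : s'.n ≤ s.n := by
    have h1 : s'.n < (s'.k + 1) ^ 3 := hok.rng2
    have h2 : (s'.k + 1) ^ 3 ≤ s.k ^ 3 := Nat.pow_le_pow_left hk 3
    have h3 : s.k ^ 3 ≤ s.n := hok0.rng1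
    omega
  have hkp : s.kp ≤ s'.kp := kap_anti hn
  have hsep : ∀ a ∈ s.pts, ∀ b ∈ s'.pts, 3 / 4 * s'.kp ≤ ‖a - b‖ := by
    cases L with
    | nil => simp at hs'
    | cons a L => exact h.2.2.2.1 s' hs'
  have hne : ∀ t : Stage, {a | a ∈ t.pts}.Nonempty := fun t => ⟨t.first, by simp [Stage.pts]⟩
  obtain ⟨a, ha, hda⟩ := (infDist_lt_iff (hne s)).1 hw
  obtain ⟨b, hb, hdb⟩ := (infDist_lt_iff (hne s')).1 hw'
  have h1 := hsep a ha b hb
  have h2 : ‖a - b‖ ≤ dist w a + dist w b := by
    rw [← dist_eq_norm]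
    exact dist_triangle_left a b w
  have h3 : 0 < s'.kp := by
    unfold Stage.kp kap
    positivity
  linarith

theorem T4 : T4_Stmt.{u} := by
  intro X _ m φ p lam R z₀ k₀ L hL
  refine ⟨?_, ?_⟩
  · intro f hf S hS
    cases L with
    | nil => exact hL.elim
    | cons s L => exact (branch_sum f hf L s hL).2.trans (hS _)
  · intro w
    induction L with
    | nil => exact hL.elim
    | cons s L ih =>
      rw [List.map_cons, List.sum_cons]
      by_cases hw : infDist w {a | a ∈ s.pts} < s.kp / 4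
      · have h0 : (L.map (fun s => if infDist w {a | a ∈ s.pts} < s.kp / 4 then (1 : ℝ) else 0)).sum
            = 0 := by
          apply List.sum_eq_zero
          intro x hx
          obtain ⟨s', hs', rfl⟩ := List.mem_map.1 hx
          rw [if_neg (branch_near w hL hw hs')]
        rw [h0, if_pos hw]
        norm_num
      · rw [if_neg hw, zero_add]
        cases L with
        | nil => simp
        | cons s' L => exact ih (branch_tail hL)

lemma polygon_aux {O : Set ℂ} {lam : ℂ} {h : ℝ} : ∀ (l : List ℂ) (x : ℂ),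
    List.IsChain (fun a b : ℂ => ‖a - b‖ < h) (x :: l) → (∀ a ∈ l, ball a h ⊆ O) →
    Relation.ReflTransGen (fun a b : ℂ => segment ℝ a b ⊆ O) lam x →
    ∀ b ∈ x :: l, Relation.ReflTransGen (fun a b : ℂ => segment ℝ a b ⊆ O) lam b := by
  intro l
  induction l with
  | nil =>
    intro x _ _ hx b hb
    rw [List.mem_singleton.1 hb]
    exact hx
  | cons y l ih =>
    intro x hch hO hx b hb
    rw [List.isChain_cons_cons] at hch
    rcases List.mem_cons.1 hb with rfl | hb
    · exact hx
    · refine ih y hch.2 (fun a ha => hO a (List.mem_cons_of_mem _ ha)) ?_ b hb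
      refine hx.tail ?_
      refine subset_trans ?_ (hO y List.mem_cons_self)
      refine (convex_ball y h).segment_subset ?_ ?_
      · rw [mem_ball, dist_eq_norm]
        exact hch.1
      · exact mem_ball_self (lt_of_le_of_lt (norm_nonneg _) hch.1)

theorem T5 : T5_Stmt.{u} := by
  intro X _ m φ p lam R z₀ k₀ s L hB O hz0 hseg hrest hhop
  induction L generalizing s with
  | nil =>
    have hf : s.first = z₀ := hB.2.2
    refine polygon_aux s.rest s.first (branch_head hB).chain
      (fun a ha => hrest s List.mem_cons_self a ha) ?_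
    rw [hf]
    exact Relation.ReflTransGen.single hseg
  | cons s' L ih =>
    obtain ⟨a, ha, hda⟩ := hB.2.2.1
    have ih' := ih s' (branch_tail hB) (fun t ht => hrest t (List.mem_cons_of_mem _ ht))
      (fun D hD => hhop D (by simp only [hopDiscs]; exact List.mem_cons_of_mem _ hD))
    refine polygon_aux s.rest s.first (branch_head hB).chain
      (fun a ha => hrest s List.mem_cons_self a ha) ?_
    refine (ih' a ha).tail ?_
    have hkp : 0 < s'.kp := by
      unfold Stage.kp kap
      positivity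
    have hD : ball s.first (4 * s'.kp) ⊆ O :=
      hhop (s.first, 4 * s'.kp) (by simp only [hopDiscs]; exact List.mem_cons_self)
    refine subset_trans ?_ hD
    refine (convex_ball s.first _).segment_subset ?_ (mem_ball_self (by positivity))
    rw [mem_ball, dist_comm, dist_eq_norm]
    linarith

end Pool.Agent.RankOne
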