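import Pool.Agent.Lib_helper15.RankOne.ModH
import Pool.Agent.Lib_helper15.RankOne.ModB
import Pool.Agent.Lib_helper15.RankOne.ModT45

/-!
# Module Z: the chain test for one branch
-/

set_option autoImplicit false

open MeasureTheory Metric Set

namespace Pool.Agent.RankOne

universe u

/-- net discs of a list of stages -/
noncomputable def netDiscs (N : Stage → Finset ℂ) (L : List Stage) : List (ℂ × ℝ) :=
  L.flatMap (fun s => (N s).toList.map (fun a => (a, 2 * hh s.k)))

theorem dbar_add {f g : ℂ → ℂ} {z : ℂ} (hf : DifferentiableAt ℝ f z)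
    (hg : DifferentiableAt ℝ g z) : dbar (fun w => f w * g w) z = dbar f z * g z + f z * dbar g z := by
  unfold dbar
  have h := (hf.hasFDerivAt.mul hg.hasFDerivAt).fderiv
  have h' : fderiv ℝ (fun w => f w * g w) z = f z • fderiv ℝ g z + g z • fderiv ℝ f z := h
  rw [h']
  simp only [add_apply, smul_apply, smul_eq_mul]
  ring

theorem dbar_eq_zero_of_analytic {f : ℂ → ℂ} {z : ℂ} (hf : DifferentiableAt ℂ f z) :
    dbar f z = 0 := by
  unfold dbar
  have h : fderiv ℝ f z = (fderiv ℂ f z).restrictScalars ℝ :=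
    (hf.hasFDerivAt.restrictScalars ℝ).fderiv
  rw [h]
  simp only [ContinuousLinearMap.coe_restrictScalars']
  have h1 : fderiv ℂ f z Complex.I = Complex.I * fderiv ℂ f z 1 := by
    have := (fderiv ℂ f z).map_smul Complex.I 1
    rwa [smul_eq_mul, smul_eq_mul, mul_one] at this
  rw [h1]
  linear_combination (1 / 2 : ℂ) * fderiv ℂ f z 1 * Complex.I_mul_I

/-- integral against a sum of indicators over a list -/
theorem integral_list_indicator {f : ℂ → ℝ} (Cb : ℝ) :
    ∀ Ds : List (ℂ × ℝ), (∀ D ∈ Ds, IntegrableOn f (closedBall D.1 (2 * D.2))) →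
    Integrable (fun z => f z *
      (Ds.map (fun D => (closedBall D.1 (2 * D.2)).indicator (fun _ => Cb / D.2) z)).sum) ∧
    (∫ z, f z * (Ds.map (fun D => (closedBall D.1 (2 * D.2)).indicator
      (fun _ => Cb / D.2) z)).sum) =
      Cb * (Ds.map (fun D => (1 / D.2) * ∫ z in closedBall D.1 (2 * D.2), f z)).sum := by
  intro Ds
  induction Ds with
  | nil => intro _; simp
  | cons D Ds ih =>
    intro h
    obtain ⟨ih1, ih2⟩ := ih (fun D' hD' => h D' (List.mem_cons_of_mem _ hD'))
    have hD := h D List.mem_cons_self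
    have e : ∀ z, f z * (closedBall D.1 (2 * D.2)).indicator (fun _ => Cb / D.2) z =
        (closedBall D.1 (2 * D.2)).indicator (fun z => f z * (Cb / D.2)) z := by
      intro z
      by_cases hz : z ∈ closedBall D.1 (2 * D.2)
      · rw [indicator_of_mem hz, indicator_of_mem hz]
      · rw [indicator_of_notMem hz, indicator_of_notMem hz, mul_zero]
    have h1 : Integrable (fun z => f z *
        (closedBall D.1 (2 * D.2)).indicator (fun _ => Cb / D.2) z) := by
      simp_rw [e]
      exact IntegrableOn.integrable_indicator (hD.mul_const _) measurableSet_closedBall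
    have h2 : (∫ z, f z * (closedBall D.1 (2 * D.2)).indicator (fun _ => Cb / D.2) z) =
        Cb * ((1 / D.2) * ∫ z in closedBall D.1 (2 * D.2), f z) := by
      simp_rw [e]
      rw [integral_indicator measurableSet_closedBall, integral_mul_const]
      ring
    simp only [List.map_cons, List.sum_cons, mul_add]
    refine ⟨h1.add ih1, ?_⟩
    rw [integral_add h1 ih1, h2, ih2]

theorem kp_le_of_level {X : Type u} [MeasurableSpace X] {m : Measure X} {φ : X → ℂ} {p : ℂ → ℂ}
    {lam : ℂ} {R : ℝ} {s : Stage} (hs : StageOK m φ p lam R s) {k₀ : ℕ} (hk : k₀ ≤ s.k)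
    (hR : kap k₀ ≤ R / 4) : s.kp ≤ R / 4 := by
  refine le_trans ?_ hR
  apply kap_anti
  refine hk.trans (le_trans ?_ hs.rng1)
  exact Nat.le_self_pow (by norm_num) _

theorem branch_stage {X : Type u} [MeasurableSpace X] {m : Measure X} {φ : X → ℂ} {p : ℂ → ℂ}
    {lam : ℂ} {R : ℝ} {z₀ : ℂ} {k₀ : ℕ} : ∀ (L : List Stage), Branch m φ p lam R z₀ k₀ L →
    ∀ s ∈ L, StageOK m φ p lam R s ∧ k₀ ≤ s.k := by
  intro L
  induction L with
  | nil => intro h; exact absurd h (by simp [Branch])
  | cons s L ih =>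
    intro h s' hs'
    rcases List.mem_cons.1 hs' with rfl | hs'
    · refine ⟨branch_head h, (branch_sum (fun _ => 0) (fun _ => le_rfl) L s' h).1⟩
    · cases L with
      | nil => simp at hs'
      | cons a L => exact ih (branch_tail h) s' hs'

theorem hop_sum {X : Type u} [MeasurableSpace X] {m : Measure X} {c φ : X → ℂ} {p : ℂ → ℂ}
    {lam : ℂ} {R : ℝ} {z₀ : ℂ} {k₀ : ℕ} {q : ℂ → ℂ} {B : Stage → ℝ}
    (hB : ∀ s, StageOK m φ p lam R s → k₀ ≤ s.k → ∀ ω : ℂ,
      (∃ a ∈ s.pts, ‖ω - a‖ ≤ s.kp) → cost m c φ q (ω, 4 * s.kp) ≤ B s)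
    :
    ∀ (L : List Stage) (s : Stage), Branch m φ p lam R z₀ k₀ (s :: L) →
      ((hopDiscs (s :: L)).map (cost m c φ q)).sum ≤ (L.map B).sum := by
  intro L
  induction L with
  | nil =>
    intro s h
    simp [hopDiscs]
  | cons s' L ih =>
    intro s h
    have h5 := branch_tail h
    have ih' := ih s' h5
    obtain ⟨h6, h7⟩ := branch_stage _ h5 s' List.mem_cons_self
    simp only [hopDiscs, List.map_cons, List.sum_cons] at ih' ⊢
    exact add_le_add (hB s' h6 h7 s.first h.2.2.1) ih'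

theorem net_sum {X : Type u} [MeasurableSpace X] {m : Measure X} {c φ : X → ℂ}
    {q : ℂ → ℂ} {B : Stage → ℝ} {N : Stage → Finset ℂ} :
    ∀ (L : List Stage), (∀ s ∈ L, ∑ a ∈ N s, cost m c φ q (a, 2 * hh s.k) ≤ B s) →
      ((netDiscs N L).map (cost m c φ q)).sum ≤ (L.map B).sum := by
  intro L
  induction L with
  | nil => intro _; simp [netDiscs]
  | cons s L ih =>
    intro h
    have ih' := ih (fun s' hs' => h s' (List.mem_cons_of_mem _ hs'))
    have h1 := h s List.mem_cons_self
    have e : netDiscs N (s :: L) = (N s).toList.map (fun a => (a, 2 * hh s.k)) ++ netDiscs N L := by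
      simp [netDiscs]
    rw [e, List.map_append, List.sum_append, List.map_cons, List.sum_cons]
    refine add_le_add ?_ ih'
    rw [List.map_map]
    have e2 : (List.map (cost m c φ q ∘ fun a => (a, 2 * hh s.k)) (N s).toList).sum =
        ∑ a ∈ N s, cost m c φ q (a, 2 * hh s.k) :=
      Finset.sum_map_toList (N s) (fun a => cost m c φ q (a, 2 * hh s.k))
    rw [e2]
    exact h1

/-- near parts add up to at most the integral over the disc -/
theorem near_sum (hT4 : T4_Stmt.{u}) {X : Type u} [MeasurableSpace X] {m : Measure X}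
    [IsFiniteMeasure m] {φ : X → ℂ} (hφ : BM φ) {p : ℂ → ℂ}
    {lam : ℂ} {r R : ℝ} (hR : 0 < R) (hRr : R ≤ r / 64) {z₀ : ℂ} {k₀ : ℕ}
    (hk₀ : kap k₀ ≤ R / 4) {q : ℂ → ℂ} (hq : Continuous q)
    (L : List Stage) (hL : Branch m φ p lam R z₀ k₀ L) :
    (L.map (fun s => ∫ x, nearF s (φ x) * ‖q (φ x)‖ ∂m)).sum ≤
      ∫ x in φ ⁻¹' closedBall lam r, ‖q (φ x)‖ ∂m := by
  have hsum : ∀ L : List Stage, (L.map (fun s => ∫ x, nearF s (φ x) * ‖q (φ x)‖ ∂m)).sum =
      ∫ x, (L.map (fun s => nearF s (φ x))).sum * ‖q (φ x)‖ ∂m ∧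
      Integrable (fun x => (L.map (fun s => nearF s (φ x))).sum * ‖q (φ x)‖) m := by
    intro L
    induction L with
    | nil => simp
    | cons s L ih =>
      simp only [List.map_cons, List.sum_cons, add_mul]
      have h1 := integrable_near (m := m) hφ hq s
      exact ⟨by rw [integral_add h1 ih.2, ih.1], h1.add ih.2⟩
  obtain ⟨e1, e2⟩ := hsum L
  rw [e1]
  have hKm : MeasurableSet (φ ⁻¹' closedBall lam r) := hφ.1 measurableSet_closedBall
  rw [← integral_indicator hKm]
  apply integral_mono e2 ((integrable_q hφ hq).indicator hKm)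
  intro x
  have hone := (hT4 X m φ p lam R z₀ k₀ L hL).2 (φ x)
  by_cases hx : φ x ∈ closedBall lam r
  · simp only
    rw [indicator_of_mem (show x ∈ φ ⁻¹' closedBall lam r from hx)]
    calc (L.map (fun s => nearF s (φ x))).sum * ‖q (φ x)‖ ≤ 1 * ‖q (φ x)‖ := by
          gcongr
          exact hone
      _ = _ := one_mul _
  · simp only
    rw [indicator_of_notMem (show x ∉ φ ⁻¹' closedBall lam r from hx)]
    have hz : (L.map (fun s => nearF s (φ x))).sum = 0 := by
      apply List.sum_eq_zero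
      intro y hy
      rw [List.mem_map] at hy
      obtain ⟨s, hs, rfl⟩ := hy
      unfold nearF
      rw [if_neg]
      intro hnear
      obtain ⟨a, ha, hd⟩ := exists_of_near hnear
      obtain ⟨hok, hlev⟩ := branch_stage L hL s hs
      have h1 := hok.inball a ha
      have h2 := kp_le_of_level hok hlev hk₀
      apply hx
      rw [mem_closedBall, dist_eq_norm]
      calc ‖φ x - lam‖ = ‖(φ x - a) + (a - lam)‖ := by congr 1; ring
        _ ≤ ‖φ x - a‖ + ‖a - lam‖ := norm_add_le _ _
        _ ≤ r := by linarith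
    rw [hz, zero_mul]

theorem Z (hA2 : A2_Stmt.{u}) (hA3 : A3_Stmt.{u}) (hB1 : B1_Stmt) (hT1 : T1_Stmt) (hT3 : T3_Stmt)
    (hT4 : T4_Stmt.{u}) (hT5 : T5_Stmt.{u}) (hP : P_Stmt.{u}) : Z_Stmt.{u} := by
  obtain ⟨Cb, hCb, hψex⟩ := hT1
  obtain ⟨CP, hCP, hPP⟩ := hP
  have hH := H hA2
  have hU := U hA2
  refine ⟨2 * Real.pi + Cb * (600 * Real.pi + CP) + Cb * (1400 * Real.pi + CP), by positivity, ?_⟩
  intro X _ m c φ hD p hp lam r R hR hRr hr1 hpF χ hχ hχ1 hχone hχzero z₀ k₀ hk₀ hkapR s L hbr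
    b hb β ρ₀ ρ₁ hρ₀ hρ₀r hρ₁ hρ₁r hz₀ hbβ hβ q hqd Q Lq hq
  have hfin := hD.fin
  have hr : 0 < r := by linarith
  have hQ0 := hq.Q0
  have hL0 := hq.L0
  -- nets
  have hnet : ∀ s : Stage, ∃ N : Finset ℂ, (∀ a ∈ N, a ∈ s.rest) ∧
      (∀ a ∈ N, ∀ b ∈ N, a ≠ b → hh s.k ≤ ‖a - b‖) ∧ ∀ a ∈ s.rest, ∃ b ∈ N, ‖a - b‖ < hh s.k :=
    fun s => hT3 (hh s.k) (hh_pos _) s.rest
  choose N hN1 hN2 hN3 using hnet
  have hst := branch_stage _ hbr
  have hkp : ∀ s' ∈ s :: L, s'.kp ≤ R / 4 := fun s' hs' =>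
    kp_le_of_level (hst s' hs').1 (hst s' hs').2 hkapR
  have hhR : ∀ s' ∈ s :: L, hh s'.k ≤ R / 16 := by
    intro s' hs'
    have h1 : hh s'.k ≤ kap (k₀ + 2) := by
      rw [hh_eq_kap]
      apply kap_anti
      have := (hst s' hs').2
      have h2 : s'.k ≤ s'.k ^ 3 := Nat.le_self_pow (by norm_num) _
      omega
    have h2 : kap (k₀ + 2) = kap k₀ / 4 := by
      unfold kap
      rw [pow_add]
      ring
    linarith
  -- the discs
  set Ds : List (ℂ × ℝ) := (lam, ρ₀) :: (β, ρ₁) :: (hopDiscs (s :: L) ++ netDiscs N (s :: L))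
    with hDs
  have hhop : ∀ (L : List Stage) (s : Stage), Branch m φ p lam R z₀ k₀ (s :: L) →
      ∀ D ∈ hopDiscs (s :: L), 0 < D.2 ∧ D.2 ≤ R ∧ ‖D.1 - lam‖ ≤ 2 * R := by
    intro L
    induction L with
    | nil => intro s _ D hD; simp [hopDiscs] at hD
    | cons s' L ih =>
      intro s h D hD'
      have h5 := branch_tail h
      obtain ⟨h6, h7⟩ := branch_stage _ h5 s' List.mem_cons_self
      simp only [hopDiscs, List.mem_cons] at hD'
      rcases hD' with rfl | hD'
      · refine ⟨?_, ?_, ?_⟩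
        · have := s'.kp_pos
          simp only
          positivity
        · have := kp_le_of_level h6 h7 hkapR
          simp only
          linarith
        · exact (branch_head h).inball s.first (by simp [Stage.pts])
      · exact ih s' h5 D hD'
  have hnetD : ∀ D ∈ netDiscs N (s :: L), 0 < D.2 ∧ D.2 ≤ R ∧ ‖D.1 - lam‖ ≤ 2 * R := by
    intro D hD'
    rw [netDiscs, List.mem_flatMap] at hD'
    obtain ⟨s', hs', hD'⟩ := hD'
    rw [List.mem_map] at hD'
    obtain ⟨a, ha, rfl⟩ := hD'
    have ha' : a ∈ N s' := by simpa using ha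
    refine ⟨?_, ?_, ?_⟩
    · have := hh_pos s'.k
      simp only
      positivity
    · have := hhR s' hs'
      simp only
      linarith
    · exact (hst s' hs').1.inball a (by
        simp only [Stage.pts, List.mem_cons]; exact Or.inr (hN1 s' a ha'))
  have hDpos : ∀ D ∈ Ds, 0 < D.2 ∧ ‖D.1 - lam‖ + 2 * D.2 < r / 4 := by
    intro D hD'
    rw [hDs, List.mem_cons, List.mem_cons, List.mem_append] at hD'
    rcases hD' with rfl | rfl | hD' | hD'
    · refine ⟨hρ₀, ?_⟩
      simp only [sub_self, norm_zero]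
      linarith
    · exact ⟨hρ₁, by simp only; linarith⟩
    · obtain ⟨h1, h2, h3⟩ := hhop L s hbr D hD'
      exact ⟨h1, by linarith⟩
    · obtain ⟨h1, h2, h3⟩ := hnetD D hD'
      exact ⟨h1, by linarith⟩
  obtain ⟨ψ, hψ, hψ1, hψ0, hψone, hψd⟩ := hψex Ds (fun D hD' => (hDpos D hD').1)
  set O : Set ℂ := ⋃ D ∈ Ds, ball D.1 D.2 with hO
  have hOopen : IsOpen O := isOpen_biUnion fun D _ => isOpen_ball
  have hsubO : ∀ D ∈ Ds, ball D.1 D.2 ⊆ O := fun D hD' => subset_biUnion_of_mem
    (u := fun D : ℂ × ℝ => ball D.1 D.2) hD'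
  have hcl : ∀ D ∈ Ds, closedBall D.1 (2 * D.2) ⊆ ball lam (r / 4) := by
    intro D hD' z hz
    rw [mem_closedBall, dist_eq_norm] at hz
    rw [mem_ball, dist_eq_norm]
    calc ‖z - lam‖ = ‖(z - D.1) + (D.1 - lam)‖ := by congr 1; ring
      _ ≤ ‖z - D.1‖ + ‖D.1 - lam‖ := norm_add_le _ _
      _ < r / 4 := by linarith [(hDpos D hD').2]
  have hOball : O ⊆ ball lam (r / 4) := by
    intro z hz
    rw [hO, mem_iUnion₂] at hz
    obtain ⟨D, hD', hz⟩ := hz
    refine hcl D hD' ?_
    have := (hDpos D hD').1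
    exact ball_subset_closedBall (ball_subset_ball (by linarith) hz)
  have hmem0 : (lam, ρ₀) ∈ Ds := by simp [hDs]
  have hmem1 : (β, ρ₁) ∈ Ds := by simp [hDs]
  have hlamO : lam ∈ O := hsubO _ hmem0 (mem_ball_self hρ₀)
  have hchain : Relation.ReflTransGen (fun a b : ℂ => segment ℝ a b ⊆ O) lam β := by
    have hb' : Relation.ReflTransGen (fun a b : ℂ => segment ℝ a b ⊆ O) lam b := by
      apply hT5 X m φ p lam R z₀ k₀ s L hbr O ?_ ?_ ?_ ?_ b hb
      · intro z hz
        apply hsubO _ hmem0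
        rw [mem_ball, dist_eq_norm] at hz ⊢
        calc ‖z - lam‖ = ‖(z - z₀) + (z₀ - lam)‖ := by congr 1; ring
          _ ≤ ‖z - z₀‖ + ‖z₀ - lam‖ := norm_add_le _ _
          _ < ρ₀ := by linarith
      · refine Subset.trans ?_ (hsubO _ hmem0)
        apply (convex_ball lam ρ₀).segment_subset (mem_ball_self hρ₀)
        rw [mem_ball, dist_eq_norm]
        have := hh_pos k₀
        linarith
      · intro s' hs' a ha
        obtain ⟨b', hb'1, hb'2⟩ := hN3 s' a ha
        have hmem : (b', 2 * hh s'.k) ∈ Ds := by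
          rw [hDs, List.mem_cons, List.mem_cons, List.mem_append]
          right; right; right
          rw [netDiscs, List.mem_flatMap]
          exact ⟨s', hs', by rw [List.mem_map]; exact ⟨b', by simpa using hb'1, rfl⟩⟩
        intro z hz
        apply hsubO _ hmem
        rw [mem_ball, dist_eq_norm] at hz ⊢
        calc ‖z - b'‖ = ‖(z - a) + (a - b')‖ := by congr 1; ring
          _ ≤ ‖z - a‖ + ‖a - b'‖ := norm_add_le _ _
          _ < 2 * hh s'.k := by linarith
      · intro D hD'
        apply hsubO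
        rw [hDs, List.mem_cons, List.mem_cons, List.mem_append]
        exact Or.inr (Or.inr (Or.inl hD'))
    refine hb'.tail ?_
    refine Subset.trans ?_ (hsubO _ hmem1)
    apply (convex_ball β ρ₁).segment_subset _ (mem_ball_self hρ₁)
    rw [mem_ball, dist_eq_norm]
    exact hbβ
  obtain ⟨g, hg, hgext⟩ := hB1 O lam β (r / 4) (by positivity) hOball hlamO hchain
  have hψO : ∀ z ∈ O, ψ z = 0 := by
    intro z hz
    rw [hO, mem_iUnion₂] at hz
    obtain ⟨D, hD', hz⟩ := hz
    exact hψ0 D hD' z hz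
  have hψout : ∀ z, z ∉ ball lam (r / 4) → ψ z = 1 := by
    intro z hz
    exact hψone z (fun D hD' h => hz (hcl D hD' h))
  have hgbd : ∀ z ∈ closedBall lam (r / 2), z ∉ O → ‖g z‖ ≤ r := by
    intro z hz hzO
    have h1 := (hg z hzO).2
    rw [mem_closedBall, dist_eq_norm] at hz
    have h2 : ‖z - β‖ ≤ r := by
      calc ‖z - β‖ = ‖(z - lam) - (β - lam)‖ := by congr 1; ring
        _ ≤ ‖z - lam‖ + ‖β - lam‖ := norm_sub_le _ _
        _ ≤ r := by linarith
    have h3 : ‖g z‖ ^ 2 ≤ r ^ 2 := by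
      rw [← norm_pow, h1, norm_mul, sq]
      apply mul_le_mul (by linarith) h2 (norm_nonneg _) hr.le
    exact (pow_le_pow_iff_left₀ (norm_nonneg _) hr.le two_ne_zero).1 h3
  -- the test function
  set Φ : ℂ → ℂ := fun z => (χ z * ψ z) * (g z * q z) with hΦ
  have hΦO : ∀ z ∈ O, Φ z = 0 := by
    intro z hz
    simp [hΦ, hψO z hz]
  have hχd : ∀ z, DifferentiableAt ℝ χ z := fun z => (hχ.differentiable one_ne_zero) z
  have hψd' : ∀ z, DifferentiableAt ℝ ψ z := fun z => (hψ.differentiable one_ne_zero) z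
  have hΦC : ContDiff ℝ 1 Φ := by
    rw [contDiff_iff_contDiffAt]
    intro z
    by_cases hz : z ∈ O
    · have : Φ =ᶠ[nhds z] fun _ => 0 := by
        filter_upwards [hOopen.mem_nhds hz] with w hw using hΦO w hw
      exact contDiffAt_const.congr_of_eventuallyEq this
    · have h1 : ContDiffAt ℝ 1 g z := (((hg z hz).1).contDiffAt (n := 1)).restrict_scalars ℝ
      have h2 : ContDiffAt ℝ 1 q z :=
        ((hqd.contDiff (n := 1)).contDiffAt).restrict_scalars ℝ
      exact ((hχ.contDiffAt).mul hψ.contDiffAt).mul (h1.mul h2)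
  have hχz : ∀ z, z ∉ closedBall lam (r / 2) → Φ z = 0 := by
    intro z hz
    simp [hΦ, hχzero z hz]
  have hΦc : HasCompactSupport Φ :=
    HasCompactSupport.intro (isCompact_closedBall lam (r / 2)) hχz
  have hχc : HasCompactSupport χ :=
    HasCompactSupport.intro (isCompact_closedBall lam (r / 2)) hχzero
  obtain ⟨-, -, hI1⟩ := hA3 Φ hΦC hΦc
  obtain ⟨hint1, hI⟩ := hI1 X m c φ hD
  have hdχ0 : ∀ z ∈ ball lam (r / 4), dbar χ z = 0 := by
    intro z hz
    refine dbar_eq_zero_of_eventually 1 ?_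
    filter_upwards [isOpen_ball.mem_nhds hz] with w hw using hχone w hw
  have hdχ1 : ∀ z, z ∉ closedBall lam (r / 2) → dbar χ z = 0 := by
    intro z hz
    refine dbar_eq_zero_of_eventually 0 ?_
    filter_upwards [isClosed_closedBall.isOpen_compl.mem_nhds hz] with w hw using hχzero w hw
  have hdψO : ∀ z ∈ O, dbar ψ z = 0 := by
    intro z hz
    refine dbar_eq_zero_of_eventually 0 ?_
    filter_upwards [hOopen.mem_nhds hz] with w hw using hψO w hw
  set Er : ℂ → ℂ := fun z => χ z * dbar ψ z * (g z * q z) with hEr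
  have hdΦ : ∀ z, dbar Φ z = gext lam β z * dbar χ z * q z + Er z := by
    intro z
    by_cases hz : z ∈ O
    · have h1 : dbar Φ z = 0 := by
        refine dbar_eq_zero_of_eventually 0 ?_
        filter_upwards [hOopen.mem_nhds hz] with w hw using hΦO w hw
      rw [h1, hdχ0 z (hOball hz)]
      simp [hEr, hdψO z hz]
    · have h1 : DifferentiableAt ℂ g z := (hg z hz).1.differentiableAt
      have h2 : DifferentiableAt ℂ q z := hqd z
      have h3 : dbar (fun w => g w * q w) z = 0 := dbar_eq_zero_of_analytic (h1.mul h2)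
      have h4 : DifferentiableAt ℝ (fun w => g w * q w) z :=
        (h1.mul h2).restrictScalars ℝ
      have h5 : DifferentiableAt ℝ (fun w => χ w * ψ w) z := (hχd z).mul (hψd' z)
      have e1 : dbar Φ z = dbar (fun w => χ w * ψ w) z * (g z * q z) +
          (χ z * ψ z) * dbar (fun w => g w * q w) z := dbar_add h5 h4
      have e2 : dbar (fun w => χ w * ψ w) z = dbar χ z * ψ z + χ z * dbar ψ z :=
        dbar_add (hχd z) (hψd' z)
      rw [e1, e2, h3, hEr]
      by_cases hzb : z ∈ ball lam (r / 4)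
      · rw [hdχ0 z hzb]
        ring
      · rw [hψout z hzb]
        have hge : g z = gext lam β z := by
          apply hgext
          rw [mem_ball, dist_eq_norm] at hzb
          linarith
        rw [← hge]
        ring
  -- the error term is dominated
  have hErb : ∀ z, ‖Er z‖ ≤ r * ‖q z‖ * (Ds.map (fun D => (closedBall D.1 (2 * D.2)).indicator
      (fun _ => Cb / D.2) z)).sum := by
    intro z
    have hsum0 : 0 ≤ (Ds.map (fun D => (closedBall D.1 (2 * D.2)).indicator
      (fun _ => Cb / D.2) z)).sum := (norm_nonneg _).trans (hψd z)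
    by_cases hz : z ∈ O
    · simp only [hEr, hdψO z hz, mul_zero, zero_mul, norm_zero]
      positivity
    · by_cases hz2 : z ∈ closedBall lam (r / 2)
      · have h1 := hgbd z hz2 hz
        have h2 := hχ1 z
        have h3 := hψd z
        calc ‖Er z‖ = ‖χ z‖ * ‖dbar ψ z‖ * (‖g z‖ * ‖q z‖) := by
              simp only [hEr, norm_mul]
          _ ≤ 1 * (Ds.map (fun D => (closedBall D.1 (2 * D.2)).indicator
                (fun _ => Cb / D.2) z)).sum * (r * ‖q z‖) := by gcongr
          _ = _ := by ring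
      · simp only [hEr, hχzero z hz2, zero_mul, norm_zero]
        positivity
  obtain ⟨hFm, hFl⟩ := hA2 X m c φ hD
  have hFq : ∀ D ∈ Ds, IntegrableOn (fun z => ‖FF m c φ z‖ * ‖q z‖)
      (closedBall D.1 (2 * D.2)) := by
    intro D hD'
    have h1 := (hFl D.1 (2 * D.2) (by have := (hDpos D hD').1; positivity)).1
    refine (Integrable.mul_bdd (c := Q) h1.norm hq.cont.norm.aestronglyMeasurable.restrict ?_)
    filter_upwards [ae_restrict_mem measurableSet_closedBall] with z hz
    rw [norm_norm]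
    apply hq.bd
    have := hcl D hD' hz
    exact (ball_subset_closedBall.trans (closedBall_subset_closedBall (by linarith))) this
  obtain ⟨hli1, hli2⟩ := integral_list_indicator (f := fun z => ‖FF m c φ z‖ * ‖q z‖) Cb Ds hFq
  have hmain : Integrable (fun z => FF m c φ z * (gext lam β z * dbar χ z) * q z) := by
    have hcd := continuous_dbar hχ
    obtain ⟨Cχ, hCχ⟩ := hcd.bounded_above_of_compact_support (hasCompactSupport_dbar hχc)
    have hmeasg : Measurable (gext lam β) := by
      unfold gext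
      fun_prop
    have hW : Measurable (fun z => (gext lam β z * dbar χ z) * q z) :=
      (hmeasg.mul hcd.measurable).mul hq.cont.measurable
    have hWb : ∀ z, ‖(gext lam β z * dbar χ z) * q z‖ ≤ r * Cχ * Q := by
      intro z
      have hCχ0 : 0 ≤ Cχ := (norm_nonneg _).trans (hCχ lam)
      by_cases hz1 : z ∈ ball lam (r / 4)
      · rw [hdχ0 z hz1, mul_zero, zero_mul, norm_zero]
        positivity
      by_cases hz2 : z ∈ closedBall lam (r / 2)
      · have hge : g z = gext lam β z := by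
          apply hgext
          rw [mem_ball, dist_eq_norm] at hz1
          linarith
        rw [← hge, norm_mul, norm_mul]
        have h1 := hgbd z hz2 (fun h => hz1 (hOball h))
        have h2 := hCχ z
        have h3 := hq.bd z (closedBall_subset_closedBall (by linarith) hz2)
        gcongr
      · rw [hdχ1 z hz2, mul_zero, zero_mul, norm_zero]
        positivity
    have hon : IntegrableOn (fun z => FF m c φ z * ((gext lam β z * dbar χ z) * q z))
        (closedBall lam (r / 2)) := by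
      have h1 := (hFl lam (r / 2) (by positivity)).1
      exact h1.mul_bdd hW.aestronglyMeasurable.restrict (Filter.Eventually.of_forall hWb)
    have h2 : Integrable (fun z => FF m c φ z * ((gext lam β z * dbar χ z) * q z)) := by
      rw [← integrableOn_iff_integrable_of_support_subset (s := closedBall lam (r / 2))]
      · exact hon
      · intro z hz
        by_contra hcon
        apply hz
        simp [hdχ1 z hcon]
    refine h2.congr (Filter.Eventually.of_forall fun z => ?_)
    simp only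
    ring
  have hErI : Integrable (fun z => FF m c φ z * Er z) := by
    have : (fun z => FF m c φ z * Er z) = fun z => FF m c φ z * dbar Φ z -
        FF m c φ z * (gext lam β z * dbar χ z) * q z := by
      funext z
      rw [hdΦ z]
      ring
    rw [this]
    exact hint1.sub hmain
  have hsplit : (∫ z, FF m c φ z * (gext lam β z * dbar χ z) * q z) =
      Real.pi * (∫ x, c x * Φ (φ x) ∂m) - ∫ z, FF m c φ z * Er z := by
    rw [← hI, ← integral_sub hint1 hErI]
    congr 1
    funext z
    rw [hdΦ z]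
    ring
  set I := ∫ x in φ ⁻¹' closedBall lam r, ‖q (φ x)‖ ∂m with hIdef
  set V := m.real univ with hV
  have hV0 : 0 ≤ V := measureReal_nonneg
  have hI0 : 0 ≤ I := integral_nonneg fun _ => norm_nonneg _
  have hKm : MeasurableSet (φ ⁻¹' closedBall lam r) := hD.phi.1 measurableSet_closedBall
  -- first part
  have hpart1 : ‖∫ x, c x * Φ (φ x) ∂m‖ ≤ r * I := by
    have h1 : ∀ x, ‖c x * Φ (φ x)‖ ≤
        r * (φ ⁻¹' closedBall lam r).indicator (fun x => ‖q (φ x)‖) x := by
      intro x
      rw [norm_mul, hD.cnorm, one_mul]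
      by_cases hx2 : φ x ∈ closedBall lam (r / 2)
      · have hx : φ x ∈ closedBall lam r := closedBall_subset_closedBall (by linarith) hx2
        rw [indicator_of_mem (show x ∈ φ ⁻¹' closedBall lam r from hx)]
        by_cases hxO : φ x ∈ O
        · rw [hΦO _ hxO, norm_zero]
          positivity
        · have h1 := hgbd _ hx2 hxO
          have h2 := hχ1 (φ x)
          have h3 := hψ1 (φ x)
          calc ‖Φ (φ x)‖ = ‖χ (φ x)‖ * ‖ψ (φ x)‖ * (‖g (φ x)‖ * ‖q (φ x)‖) := by
                simp only [hΦ, norm_mul]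
            _ ≤ 1 * 1 * (r * ‖q (φ x)‖) := by gcongr
            _ = _ := by ring
      · rw [hχz _ hx2, norm_zero]
        apply mul_nonneg hr.le
        exact indicator_nonneg (fun _ _ => norm_nonneg _) _
    have h2 : Integrable (fun x => r * (φ ⁻¹' closedBall lam r).indicator
        (fun x => ‖q (φ x)‖) x) m :=
      ((integrable_q hD.phi hq.cont).indicator hKm).const_mul r
    refine (norm_integral_le_of_norm_le h2 (Filter.Eventually.of_forall h1)).trans (le_of_eq ?_)
    rw [integral_const_mul, integral_indicator hKm]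
  -- second part
  have hcost : (∫ z, (‖FF m c φ z‖ * ‖q z‖) * (Ds.map (fun D =>
      (closedBall D.1 (2 * D.2)).indicator (fun _ => Cb / D.2) z)).sum) =
      Cb * (Ds.map (cost m c φ q)).sum := hli2
  have hpart2 : ‖∫ z, FF m c φ z * Er z‖ ≤ r * (Cb * (Ds.map (cost m c φ q)).sum) := by
    have h1 : ∀ z, ‖FF m c φ z * Er z‖ ≤ r * ((‖FF m c φ z‖ * ‖q z‖) * (Ds.map (fun D =>
      (closedBall D.1 (2 * D.2)).indicator (fun _ => Cb / D.2) z)).sum) := by
      intro z
      rw [norm_mul]
      calc ‖FF m c φ z‖ * ‖Er z‖ ≤ ‖FF m c φ z‖ * (r * ‖q z‖ * (Ds.map (fun D =>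
          (closedBall D.1 (2 * D.2)).indicator (fun _ => Cb / D.2) z)).sum) := by
            gcongr
            exact hErb z
        _ = _ := by ring
    refine (norm_integral_le_of_norm_le (hli1.const_mul r)
      (Filter.Eventually.of_forall h1)).trans (le_of_eq ?_)
    rw [integral_const_mul, hcost]
  -- costs
  have hcost0 : cost m c φ q (lam, ρ₀) ≤ 12 * Real.pi * I +
      200 * Real.pi * (Q + r * Lq + Lq) * (1 + V) * (1 + 1 / r) * ρ₀ :=
    hU X m c φ hD lam r hr lam ρ₀ hρ₀ (by linarith) (by simp; positivity) q Q Lq hq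
  have hcost1 : cost m c φ q (β, ρ₁) ≤ 12 * Real.pi * I +
      200 * Real.pi * (Q + r * Lq + Lq) * (1 + V) * (1 + 1 / r) * ρ₁ :=
    hU X m c φ hD lam r hr β ρ₁ hρ₁ (by linarith) (by linarith) q Q Lq hq
  have hnear := near_sum hT4 hD.phi hR hRr hkapR hq.cont (s :: L) hbr
  have hffsum : ((s :: L).map (fun s => ff s.k)).sum ≤ 1 / k₀ :=
    (hT4 X m φ p lam R z₀ k₀ (s :: L) hbr).1 ff ff_nonneg (1 / k₀)
      (fun n => sum_ff_le (by omega) n)
  have hlin : ∀ (a b : ℝ) (L : List Stage), (L.map (fun s =>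
      a * (∫ x, nearF s (φ x) * ‖q (φ x)‖ ∂m) + b * ff s.k)).sum =
      a * (L.map (fun s => ∫ x, nearF s (φ x) * ‖q (φ x)‖ ∂m)).sum +
        b * (L.map (fun s => ff s.k)).sum := by
    intro a b L
    induction L with
    | nil => simp
    | cons s L ih =>
      simp only [List.map_cons, List.sum_cons, ih]
      ring
  have hnn : ∀ s : Stage, 0 ≤ ∫ x, nearF s (φ x) * ‖q (φ x)‖ ∂m := fun s =>
    integral_nonneg fun x => mul_nonneg (nearF_nonneg _ _) (norm_nonneg _)
  have hhopc : ((hopDiscs (s :: L)).map (cost m c φ q)).sum ≤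
      12 * Real.pi * I + (Q + Lq) * (16 * Real.pi + 960 * Real.pi * V) * (1 / k₀) := by
    set aH : ℝ := 12 * Real.pi with haH
    set bH : ℝ := (Q + Lq) * (16 * Real.pi + 960 * Real.pi * V) with hbH
    have hbH0 : 0 ≤ bH := by positivity
    have h1 := hop_sum (m := m) (c := c) (φ := φ) (p := p) (lam := lam) (R := R) (z₀ := z₀)
      (k₀ := k₀) (q := q) (B := fun s => aH * (∫ x, nearF s (φ x) * ‖q (φ x)‖ ∂m) + bH * ff s.k)
      (fun s' hs' hks ω hω => hH X m c φ hD p lam r R hR hRr s' hs' (by omega)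
        (kp_le_of_level hs' hks hkapR) ω hω q Q Lq hq) L s hbr
    have h2 : (L.map (fun s => aH * (∫ x, nearF s (φ x) * ‖q (φ x)‖ ∂m) + bH * ff s.k)).sum ≤
        ((s :: L).map (fun s => aH * (∫ x, nearF s (φ x) * ‖q (φ x)‖ ∂m) + bH * ff s.k)).sum := by
      rw [List.map_cons, List.sum_cons]
      have := hnn s
      have := ff_nonneg s.k
      have : 0 ≤ aH * (∫ x, nearF s (φ x) * ‖q (φ x)‖ ∂m) + bH * ff s.k := by positivity
      linarith
    rw [hlin aH bH (s :: L)] at h2
    refine h1.trans (h2.trans ?_)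
    gcongr
  have hnetc : ((netDiscs N (s :: L)).map (cost m c φ q)).sum ≤
      CP * I + CP * (Q + Lq) * (1 + V) * (1 / k₀) := by
    have h1 := net_sum (m := m) (c := c) (φ := φ) (q := q) (N := N)
      (B := fun s => CP * (∫ x, nearF s (φ x) * ‖q (φ x)‖ ∂m) +
        CP * (Q + Lq) * (1 + V) * ff s.k) (s :: L)
      (fun s' hs' => hPP X m c φ hD p hp lam r R hR hRr hr1 hpF s' (hst s' hs').1
        (by have := (hst s' hs').2; omega) (hkp s' hs') (N s') (hN1 s') (hN2 s') q Q Lq hq)
    rw [hlin] at h1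
    refine h1.trans ?_
    gcongr
  have htotal : (Ds.map (cost m c φ q)).sum ≤
      (36 * Real.pi + CP) * I + 200 * Real.pi * (Q + r * Lq + Lq) * (1 + V) * (1 + 1 / r) *
        (ρ₀ + ρ₁) + ((Q + Lq) * (16 * Real.pi + 960 * Real.pi * V) +
        CP * (Q + Lq) * (1 + V)) * (1 / k₀) := by
    rw [hDs, List.map_cons, List.map_cons, List.map_append, List.sum_cons, List.sum_cons,
      List.sum_append]
    nlinarith
  have hπ := Real.pi_pos
  have hk₀' : (0 : ℝ) ≤ 1 / k₀ := by positivity
  have hir : 0 ≤ 1 / r := by positivity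
  rw [hsplit]
  have hfin1 : ‖(Real.pi : ℂ) * (∫ x, c x * Φ (φ x) ∂m) - ∫ z, FF m c φ z * Er z‖ ≤
      Real.pi * (r * I) + r * (Cb * (Ds.map (cost m c φ q)).sum) := by
    refine (norm_sub_le _ _).trans ?_
    rw [norm_mul, Complex.norm_real, Real.norm_of_nonneg hπ.le]
    gcongr
  refine hfin1.trans ?_
  set E0 : ℝ := (Q + Lq) * (1 + V) * (1 + 1 / r) * (ρ₀ + ρ₁ + 1 / k₀) with hE0
  have hE0n : 0 ≤ E0 := by positivity
  have e1 : 200 * Real.pi * (Q + r * Lq + Lq) * (1 + V) * (1 + 1 / r) * (ρ₀ + ρ₁) ≤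
      400 * Real.pi * E0 := by
    have h1 : Q + r * Lq + Lq ≤ 2 * (Q + Lq) := by nlinarith
    have h2 : ρ₀ + ρ₁ ≤ ρ₀ + ρ₁ + 1 / k₀ := by linarith
    have h3 : 0 ≤ ρ₀ + ρ₁ + 1 / k₀ := by positivity
    calc 200 * Real.pi * (Q + r * Lq + Lq) * (1 + V) * (1 + 1 / r) * (ρ₀ + ρ₁)
        ≤ 200 * Real.pi * (2 * (Q + Lq)) * (1 + V) * (1 + 1 / r) * (ρ₀ + ρ₁ + 1 / k₀) := by
          apply mul_le_mul _ h2 (by positivity) (by positivity)
          gcongr
      _ = _ := by rw [hE0]; ring
  have e2 : ((Q + Lq) * (16 * Real.pi + 960 * Real.pi * V) +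
        CP * (Q + Lq) * (1 + V)) * (1 / k₀) ≤ (960 * Real.pi + CP) * E0 := by
    have h1 : (Q + Lq) * (16 * Real.pi + 960 * Real.pi * V) + CP * (Q + Lq) * (1 + V) ≤
        (960 * Real.pi + CP) * ((Q + Lq) * (1 + V)) := by
      have : 0 ≤ (Q + Lq) * Real.pi := by positivity
      nlinarith
    calc _ ≤ ((960 * Real.pi + CP) * ((Q + Lq) * (1 + V))) * (1 / k₀) := by gcongr
      _ ≤ ((960 * Real.pi + CP) * ((Q + Lq) * (1 + V) * (1 + 1 / r))) * (ρ₀ + ρ₁ + 1 / k₀) := by
          have h2 : (Q + Lq) * (1 + V) ≤ (Q + Lq) * (1 + V) * (1 + 1 / r) := by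
            apply le_mul_of_one_le_right (by positivity)
            linarith
          have h3 : 1 / (k₀ : ℝ) ≤ ρ₀ + ρ₁ + 1 / k₀ := by linarith
          gcongr
      _ = _ := by rw [hE0]; ring
  have htot2 : (Ds.map (cost m c φ q)).sum ≤ (36 * Real.pi + CP) * I +
      (1400 * Real.pi + CP) * E0 := by
    have : 0 ≤ Real.pi * E0 := by positivity
    linarith
  have hsumnn : 0 ≤ (36 * Real.pi + CP) * I + (1400 * Real.pi + CP) * E0 := by positivity
  calc Real.pi * (r * I) + r * (Cb * (Ds.map (cost m c φ q)).sum)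
      ≤ Real.pi * (1 * I) + 1 * (Cb * ((36 * Real.pi + CP) * I +
        (1400 * Real.pi + CP) * E0)) := by
        have g1 : Real.pi * (r * I) ≤ Real.pi * (1 * I) := by gcongr
        have g2 : r * (Cb * (Ds.map (cost m c φ q)).sum) ≤
            r * (Cb * ((36 * Real.pi + CP) * I + (1400 * Real.pi + CP) * E0)) := by gcongr
        have g3 : r * (Cb * ((36 * Real.pi + CP) * I + (1400 * Real.pi + CP) * E0)) ≤
            1 * (Cb * ((36 * Real.pi + CP) * I + (1400 * Real.pi + CP) * E0)) := by gcongr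
        linarith
    _ ≤ _ := by
        have e3 : (2 * Real.pi + Cb * (600 * Real.pi + CP) + Cb * (1400 * Real.pi + CP)) *
          (Q + Lq) * (1 + V) * (1 + 1 / r) * (ρ₀ + ρ₁ + 1 / k₀) =
          (2 * Real.pi + Cb * (600 * Real.pi + CP) + Cb * (1400 * Real.pi + CP)) * E0 := by
          rw [hE0]; ring
        rw [e3]
        have p1 : 0 ≤ Real.pi * I := by positivity
        have p2 : 0 ≤ Cb * Real.pi * I := by positivity
        have p3 : 0 ≤ Cb * CP * I := by positivity
        have p4 : 0 ≤ Real.pi * E0 := by positivity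
        have p5 : 0 ≤ Cb * Real.pi * E0 := by positivity
        have p6 : 0 ≤ Cb * CP * E0 := by positivity
        nlinarith

end Pool.Agent.RankOne
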