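import Pool.Agent.Lib_helper15.RankOne.ModA
import Pool.Agent.Lib_helper15.RankOne.ModB
import Pool.Agent.Lib_helper15.RankOne.ModC
import Pool.Agent.Lib_helper15.RankOne.ModD
import Pool.Agent.Lib_helper15.RankOne.ModE
import Pool.Agent.Lib_helper15.RankOne.ModR
import Pool.Agent.Lib_helper15.RankOne.ModZ
import Pool.Agent.Lib_helper15.RankOne.ModMain
import Pool.Agent.Lib_helper15.RankOne.ModTT
import Pool.Agent.Lib_helper15.RankOne.ModI
import Pool.Agent.Lib_helper69.RankOne.Explore
import Pool.Agent.Lib_helper69.RankOne.ModP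
import Pool.Agent.Lib_helper84.RankOne.T1
import Pool.Agent.Lib_helper84.RankOne.T2
import Pool.Agent.Lib_helper84.RankOne.T3

/-!
# Assembly
-/

set_option autoImplicit false

namespace Pool.Agent.RankOne

universe u v

theorem Z_holds : Z_Stmt.{u} :=
  Z A2 A3 B1 T1 T3 T4 T5 (P A2 C1 (E A1 A2) T2)

theorem F_holds : F_Stmt.{u} := Fmod.F_of_C2 C2

theorem TT_holds : TT_Stmt.{u} := TT_of_Z Z_holds F_holds

theorem Main_holds : Main_Stmt.{u, v} :=
  Main A2 (B2 A3.{u}) D (R1 A1 A2 A4) (R2 A1 A2 A4) TT_holds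

/-- Every rank one perturbation of `Θ φ`, where `Θ` is a bounded weakly countably additive
functional calculus, has a nontrivial hyperinvariant subspace if it is not a scalar. -/
theorem Final_holds : Final_Stmt.{u, v} := final_of_main (R1 A1 A2 A4) Main_holds

end Pool.Agent.RankOne
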