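import Pool.Agent.Lib_helper15.RankOne.Final
import Pool.Agent.Lib_helper15.RankOne.Defs3
import Pool.Agent.Lib_helper15.RankOne.ModJ

/-!
# Rank one perturbations of scalar type operators
-/

set_option autoImplicit false

namespace Pool.Agent.RankOne

open Pool.Agent.Lib_helper15 (HasNontrivialHyperinvariantSubspace)

universe v

theorem scalar_final : ∀ (E : Type v)
    [NormedAddCommGroup E] [NormedSpace ℂ E] [CompleteSpace E] (N : E →L[ℂ] E), IsScalarType N →
    ∀ (u : E) (v : StrongDual ℂ E),
    (∀ a : ℂ, N + v.smulRight u ≠ a • ContinuousLinearMap.id ℂ E) →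
    HasNontrivialHyperinvariantSubspace (N + v.smulRight u) := by
  intro E _ _ _ N hN u v hT
  obtain ⟨Θ, hΘ, φ, hφ, rfl⟩ := J_holds E N hN
  exact Final_holds ℂ E Θ hΘ φ hφ u v hT

end Pool.Agent.RankOne
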