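import Mathlib

/-! Polar decomposition of a complex combination of finite measures. -/

namespace FC65

open MeasureTheory Set Filter Topology

variable {X : Type*} [MeasurableSpace X]

/-- a complex density can be made unimodular -/
lemma polar_density (μ : Measure X) [IsFiniteMeasure μ] {G : X → ℂ} (hG : Measurable G)
    (hi : Integrable G μ) :
    ∃ (m : Measure X) (c : X → ℂ), IsFiniteMeasure m ∧ Measurable c ∧ (∀ y, ‖c y‖ = 1) ∧
      ∀ b : X → ℂ, ∫ y, b y * c y ∂m = ∫ y, b y * G y ∂μ := by
  classical
  let c : X → ℂ := fun x => if G x = 0 then 1 else G x / (‖G x‖ : ℂ)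
  have hc1 : ∀ x, ‖c x‖ = 1 := by
    intro x
    by_cases h : G x = 0
    · simp [c, h]
    · simp only [c, h, if_false, norm_div, Complex.norm_real, norm_norm]
      exact div_self (norm_ne_zero_iff.2 h)
  have hcG : ∀ x, (‖G x‖ : ℂ) * c x = G x := by
    intro x
    by_cases h : G x = 0
    · simp [h]
    · simp only [c, h, if_false]
      have : (‖G x‖ : ℂ) ≠ 0 := by exact_mod_cast norm_ne_zero_iff.2 h
      field_simp
  have hcm : Measurable c := by
    apply Measurable.ite (hG (measurableSet_singleton 0)) measurable_const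
    exact hG.div (Complex.measurable_ofReal.comp hG.norm)
  refine ⟨μ.withDensity fun x => ((‖G x‖₊ : NNReal) : ENNReal), c, ?_, hcm, hc1, fun b => ?_⟩
  · refine ⟨?_⟩
    rw [withDensity_apply _ MeasurableSet.univ, Measure.restrict_univ]
    exact hi.2
  · rw [integral_withDensity_eq_integral_smul hG.nnnorm]
    apply integral_congr_ae
    filter_upwards with x
    have e : (‖G x‖₊ : NNReal) • (b x * c x) = b x * ((‖G x‖ : ℂ) * c x) := by
      rw [NNReal.smul_def, Complex.real_smul, coe_nnnorm]
      ring
    rw [e, hcG]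

/-- a complex combination of four finite measures -/
lemma polar4 (μ : Fin 4 → Measure X) [∀ i, IsFiniteMeasure (μ i)] (a : Fin 4 → ℂ) :
    ∃ (m : Measure X) (c : X → ℂ), IsFiniteMeasure m ∧ Measurable c ∧ (∀ y, ‖c y‖ = 1) ∧
      ∀ b : X → ℂ, (Measurable b ∧ ∃ C : ℝ, ∀ x, ‖b x‖ ≤ C) →
        ∑ i, a i * ∫ y, b y ∂(μ i) = ∫ y, b y * c y ∂m := by
  let ν : Measure X := μ 0 + μ 1 + μ 2 + μ 3
  have hac : ∀ i, μ i ≪ ν := by
    intro i
    refine Measure.absolutelyContinuous_of_le ?_
    fin_cases i
    · intro s; simp only [ν, Measure.add_apply, Fin.zero_eta]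
      exact le_trans (le_self_add) (le_trans le_self_add le_self_add)
    · intro s; simp only [ν, Measure.add_apply, Fin.mk_one]
      exact le_trans (le_add_self) (le_trans le_self_add le_self_add)
    · intro s; simp only [ν, Measure.add_apply, Fin.reduceFinMk]
      exact le_trans (le_add_self) le_self_add
    · intro s; simp only [ν, Measure.add_apply, Fin.reduceFinMk]
      exact le_add_self
  let h : Fin 4 → X → ℝ := fun i x => ((μ i).rnDeriv ν x).toReal
  have hm : ∀ i, Measurable (h i) := fun i => ((μ i).measurable_rnDeriv ν).ennreal_toReal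
  have hint : ∀ i, Integrable (h i) ν := fun i => Measure.integrable_toReal_rnDeriv
  let G : X → ℂ := fun x => ∑ i, a i * (h i x : ℂ)
  have hG : Measurable G :=
    Finset.measurable_sum _ fun i _ => (Complex.measurable_ofReal.comp (hm i)).const_mul (a i)
  have hGi : Integrable G ν :=
    integrable_finsetSum _ fun i _ => ((hint i).ofReal).const_mul (a i)
  obtain ⟨m, c, h1, h2, h3, h4⟩ := polar_density ν hG hGi
  refine ⟨m, c, h1, h2, h3, fun b hb => ?_⟩
  rw [h4]
  obtain ⟨mb, C, hC⟩ := hb
  have hbi : ∀ i, Integrable (fun x => b x * (a i * (h i x : ℂ))) ν := by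
    intro i
    refine Integrable.bdd_mul (c := C) (((hint i).ofReal).const_mul (a i))
      mb.aestronglyMeasurable (Eventually.of_forall hC)
  have e : (fun y => b y * G y) = fun y => ∑ i, b y * (a i * (h i y : ℂ)) := by
    funext y
    simp only [G, Finset.mul_sum]
  rw [e, integral_finsetSum _ fun i _ => hbi i]
  apply Finset.sum_congr rfl
  intro i _
  have h5 : ∫ x, (h i x) • b x ∂ν = ∫ x, b x ∂(μ i) := integral_rnDeriv_smul (hac i)
  rw [← h5, ← integral_const_mul]
  apply integral_congr_ae
  filter_upwards with x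
  simp only [Complex.real_smul]
  ring

end FC65
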