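import Mathlib

/-! A functional monotone class theorem: a linear functional on bounded Borel functions which is
continuous under bounded pointwise convergence is determined by its values on bounded continuous
functions. -/

namespace FC65

open MeasureTheory Set Filter Topology

set_option linter.unusedSectionVars false

variable {X : Type*} [PseudoEMetricSpace X] [MeasurableSpace X] [BorelSpace X]

/-- bounded measurable functions -/
def BM (b : X → ℂ) : Prop := Measurable b ∧ ∃ C : ℝ, ∀ x, ‖b x‖ ≤ C

lemma BM.add {a b : X → ℂ} (ha : BM a) (hb : BM b) : BM (fun x => a x + b x) := by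
  obtain ⟨ma, C, hC⟩ := ha
  obtain ⟨mb, D, hD⟩ := hb
  exact ⟨ma.add mb, C + D, fun x => (norm_add_le _ _).trans (add_le_add (hC x) (hD x))⟩

lemma BM.mul {a b : X → ℂ} (ha : BM a) (hb : BM b) : BM (fun x => a x * b x) := by
  obtain ⟨ma, C, hC⟩ := ha
  obtain ⟨mb, D, hD⟩ := hb
  refine ⟨ma.mul mb, |C| * |D|, fun x => ?_⟩
  rw [norm_mul]
  exact mul_le_mul ((hC x).trans (le_abs_self _)) ((hD x).trans (le_abs_self _))
    (norm_nonneg _) (abs_nonneg _)

lemma BM.const (c : ℂ) : BM (fun _ : X => c) := ⟨measurable_const, ‖c‖, fun _ => le_rfl⟩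

lemma BM.smul {a : X → ℂ} (c : ℂ) (ha : BM a) : BM (fun x => c * a x) := (BM.const c).mul ha

lemma BM.indicator {S : Set X} (hS : MeasurableSet S) (c : ℂ) :
    BM (S.indicator fun _ => c) := by
  refine ⟨measurable_const.indicator hS, ‖c‖, fun x => ?_⟩
  by_cases h : x ∈ S
  · simp [h]
  · simp [h]

lemma BM.neg {a : X → ℂ} (ha : BM a) : BM (fun x => -a x) := by
  obtain ⟨ma, C, hC⟩ := ha
  exact ⟨ma.neg, C, fun x => by rw [norm_neg]; exact hC x⟩

lemma BM.sub {a b : X → ℂ} (ha : BM a) (hb : BM b) : BM (fun x => a x - b x) := by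
  have := ha.add hb.neg
  simpa [sub_eq_add_neg] using this

lemma BM.star {a : X → ℂ} (ha : BM a) : BM (fun x => (starRingEnd ℂ) (a x)) := by
  obtain ⟨ma, C, hC⟩ := ha
  exact ⟨Complex.continuous_conj.measurable.comp ma, C, fun x => by
    rw [RCLike.norm_conj]; exact hC x⟩

lemma BM.of_cont [CompactSpace X] {f : X → ℂ} (hf : Continuous f) : BM f := by
  refine ⟨hf.measurable, ?_⟩
  obtain ⟨C, hC⟩ := isCompact_univ.exists_bound_of_continuousOn hf.continuousOn
  exact ⟨C, fun x => hC x (mem_univ x)⟩

/-- linear functionals on bounded measurable functions, continuous under bounded convergence -/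
structure LF (L : (X → ℂ) → ℂ) : Prop where
  add : ∀ a b, BM a → BM b → L (fun x => a x + b x) = L a + L b
  smul : ∀ (c : ℂ) a, BM a → L (fun x => c * a x) = c * L a
  lim : ∀ (a : ℕ → X → ℂ) (b : X → ℂ) (C : ℝ), (∀ n, Measurable (a n)) → Measurable b →
    (∀ n x, ‖a n x‖ ≤ C) → (∀ x, Tendsto (fun n => a n x) atTop (𝓝 (b x))) →
    Tendsto (fun n => L (a n)) atTop (𝓝 (L b))

lemma LF.sub {L : (X → ℂ) → ℂ} (h : LF L) {a b : X → ℂ} (ha : BM a) (hb : BM b) :
    L (fun x => a x - b x) = L a - L b := by
  have h1 := h.add a (fun x => (-1) * b x) ha (hb.smul (-1))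
  rw [h.smul (-1) b hb] at h1
  have e : (fun x => a x - b x) = fun x => a x + (-1) * b x := by funext x; ring
  rw [e, h1]; ring

lemma LF.comb {L M : (X → ℂ) → ℂ} (hL : LF L) (hM : LF M) (c d : ℂ) :
    LF (fun a => c * L a + d * M a) := by
  refine ⟨fun a b ha hb => ?_, fun e a ha => ?_, fun a b C ma mb hC hl => ?_⟩
  · rw [hL.add a b ha hb, hM.add a b ha hb]; ring
  · rw [hL.smul e a ha, hM.smul e a ha]; ring
  · exact ((hL.lim a b C ma mb hC hl).const_mul c).add ((hM.lim a b C ma mb hC hl).const_mul d)

/-- multiplication by a fixed bounded function -/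
lemma LF.mulr {L : (X → ℂ) → ℂ} (hL : LF L) {g : X → ℂ} (hg : BM g) :
    LF (fun a => L (fun x => a x * g x)) := by
  refine ⟨fun a b ha hb => ?_, fun e a ha => ?_, fun a b C ma mb hC hl => ?_⟩
  · rw [← hL.add _ _ (ha.mul hg) (hb.mul hg)]
    congr 1; funext x; ring
  · rw [← hL.smul _ _ (ha.mul hg)]
    congr 1; funext x; ring
  · obtain ⟨mg, D, hD⟩ := hg
    refine hL.lim _ _ (|C| * |D|) (fun n => (ma n).mul mg) (mb.mul mg) (fun n x => ?_)
      fun x => (hl x).mul_const _
    rw [norm_mul]
    exact mul_le_mul ((hC n x).trans (le_abs_self _)) ((hD x).trans (le_abs_self _))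
      (norm_nonneg _) (abs_nonneg _)

/-- integration against a finite measure -/
lemma LF.integral (μ : Measure X) [IsFiniteMeasure μ] : LF (fun a : X → ℂ => ∫ x, a x ∂μ) := by
  have hint : ∀ a : X → ℂ, BM a → Integrable a μ := by
    rintro a ⟨ma, C, hC⟩
    exact Integrable.of_bound ma.aestronglyMeasurable C (Eventually.of_forall hC)
  refine ⟨fun a b ha hb => integral_add (hint a ha) (hint b hb), fun c a ha =>
    integral_const_mul c _, fun a b C ma mb hC hl => ?_⟩
  refine tendsto_integral_of_dominated_convergence (fun _ => C)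
    (fun n => (ma n).aestronglyMeasurable) (integrable_const C)
    (fun n => Eventually.of_forall fun x => hC n x) (Eventually.of_forall fun x => hl x)

lemma LF.zero {L : (X → ℂ) → ℂ} (hL : LF L) : L (fun _ => 0) = 0 := by
  have := hL.smul 0 (fun _ => 0) (BM.const 0)
  simpa using this

/-- closed sets -/
lemma LF.closed {L : (X → ℂ) → ℂ} (hL : LF L)
    (h : ∀ f : X → ℂ, Continuous f → BM f → L f = 0) {S : Set X} (hS : IsClosed S) :
    L (S.indicator fun _ => 1) = 0 := by
  have hδ : ∀ n : ℕ, (0 : ℝ) < 1 / ((n : ℝ) + 1) := fun n => by positivity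
  have hδl : Tendsto (fun n : ℕ => 1 / ((n : ℝ) + 1)) atTop (𝓝 0) :=
    tendsto_one_div_add_atTop_nhds_zero_nat
  have ht := thickenedIndicator_tendsto_indicator_closure hδ hδl S
  rw [hS.closure_eq] at ht
  let a : ℕ → X → ℂ := fun n x => (((thickenedIndicator (hδ n) S x : NNReal) : ℝ) : ℂ)
  have hc : ∀ n, Continuous (a n) := fun n =>
    Complex.continuous_ofReal.comp (NNReal.continuous_coe.comp
      (thickenedIndicator (hδ n) S).continuous)
  have hb : ∀ n x, ‖a n x‖ ≤ 1 := by
    intro n x
    simp only [a, Complex.norm_real, Real.norm_eq_abs]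
    rw [abs_of_nonneg (NNReal.coe_nonneg _)]
    exact_mod_cast thickenedIndicator_le_one (hδ n) S x
  have hl : ∀ x, Tendsto (fun n => a n x) atTop (𝓝 (S.indicator (fun _ => (1 : ℂ)) x)) := by
    intro x
    have h1 := (tendsto_pi_nhds.1 ht) x
    have h2 : Tendsto (fun n => a n x) atTop
        (𝓝 (((S.indicator (fun _ => (1 : NNReal)) x : NNReal) : ℝ) : ℂ)) :=
      ((Complex.continuous_ofReal.comp NNReal.continuous_coe).tendsto _).comp h1
    have e : (((S.indicator (fun _ => (1 : NNReal)) x : NNReal) : ℝ) : ℂ)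
        = S.indicator (fun _ => (1 : ℂ)) x := by
      by_cases hx : x ∈ S
      · simp [hx]
      · simp [hx]
    rwa [e] at h2
  have h3 := hL.lim a _ 1 (fun n => (hc n).measurable)
    (measurable_const.indicator hS.measurableSet) hb hl
  have h4 : (fun n => L (a n)) = fun _ => (0 : ℂ) := funext fun n =>
    h _ (hc n) ⟨(hc n).measurable, 1, hb n⟩
  rw [h4] at h3
  exact tendsto_nhds_unique h3 tendsto_const_nhds

/-- measurable sets -/
lemma LF.meas {L : (X → ℂ) → ℂ} (hL : LF L)
    (h : ∀ f : X → ℂ, Continuous f → BM f → L f = 0) {S : Set X} (hS : MeasurableSet S) :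
    L (S.indicator fun _ => 1) = 0 := by
  have hgen : ‹MeasurableSpace X› = MeasurableSpace.generateFrom {s | IsClosed s} := by
    rw [BorelSpace.measurable_eq (α := X), borel_eq_generateFrom_isClosed]
  induction S, hS using MeasurableSpace.induction_on_inter hgen isPiSystem_isClosed with
  | empty => simpa using hL.zero
  | basic t ht => exact hL.closed h ht
  | compl t ht ih =>
    have e : (tᶜ.indicator fun _ => (1 : ℂ)) = fun x => 1 - t.indicator (fun _ => (1 : ℂ)) x := by
      funext x
      by_cases hx : x ∈ t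
      · simp [hx]
      · simp [hx]
    rw [e, hL.sub (BM.const 1) (BM.indicator ht 1), ih, h _ continuous_const (BM.const 1)]
    simp
  | iUnion f hd hm ih =>
    let V : ℕ → Set X := fun n => ⋃ i ∈ Finset.range n, f i
    have hVm : ∀ n, MeasurableSet (V n) := fun n =>
      Finset.measurableSet_biUnion _ fun i _ => hm i
    have hVmono : Monotone V := by
      intro m n hmn
      exact biUnion_subset_biUnion_left (by
        intro i hi
        simp only [Finset.coe_range, mem_Iio] at hi ⊢
        exact lt_of_lt_of_le hi hmn)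
    have hVU : (⋃ n, V n) = ⋃ i, f i := by
      ext x
      simp only [V, mem_iUnion, Finset.mem_range, exists_prop]
      constructor
      · rintro ⟨n, i, -, hi⟩; exact ⟨i, hi⟩
      · rintro ⟨i, hi⟩; exact ⟨i + 1, i, Nat.lt_succ_self i, hi⟩
    have hV0 : ∀ n, L ((V n).indicator fun _ => 1) = 0 := by
      intro n
      induction n with
      | zero => simpa [V] using hL.zero
      | succ n ihn =>
        have e : ((V (n + 1)).indicator fun _ => (1 : ℂ))
            = fun x => (V n).indicator (fun _ => (1 : ℂ)) x + (f n).indicator (fun _ => (1 : ℂ)) x := by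
          have hU : V (n + 1) = V n ∪ f n := by
            simp only [V]
            rw [Finset.range_add_one, Finset.set_biUnion_insert, union_comm]
          have hdis : Disjoint (V n) (f n) := by
            rw [Set.disjoint_iff_inter_eq_empty]
            ext x
            simp only [V, mem_inter_iff, mem_iUnion, Finset.mem_range, exists_prop,
              mem_empty_iff_false, iff_false, not_and]
            rintro ⟨i, hi, hxi⟩ hxn
            exact (Set.disjoint_left.1 (hd hi.ne)) hxi hxn
          rw [hU, Set.indicator_union_of_disjoint hdis]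
        rw [e, hL.add _ _ (BM.indicator (hVm n) 1) (BM.indicator (hm n) 1), ihn, ih n]
        simp
    have hl : ∀ x, Tendsto (fun n => (V n).indicator (fun _ => (1 : ℂ)) x) atTop
        (𝓝 ((⋃ i, f i).indicator (fun _ => (1 : ℂ)) x)) := by
      intro x
      have := hVmono.tendsto_indicator V (fun _ => (1 : ℂ)) x
      rw [hVU] at this
      exact this.mono_right (pure_le_nhds _)
    have h3 := hL.lim (fun n => (V n).indicator fun _ => (1 : ℂ)) _ 1
      (fun n => measurable_const.indicator (hVm n))
      (measurable_const.indicator (MeasurableSet.iUnion hm)) (fun n x => by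
        by_cases hx : x ∈ V n
        · simp [hx]
        · simp [hx]) hl
    simp only [hV0] at h3
    exact tendsto_nhds_unique h3 tendsto_const_nhds

lemma BM.simple (s : SimpleFunc X ℂ) : BM (s : X → ℂ) := by
  refine ⟨s.measurable, ?_⟩
  obtain ⟨C, hC⟩ := (s.finite_range.isCompact.isBounded).exists_norm_le
  exact ⟨C, fun x => hC _ ⟨x, rfl⟩⟩

/-- uniqueness from indicator functions -/
theorem LF.eq_zero_ind {L : (X → ℂ) → ℂ} (hL : LF L)
    (h : ∀ S : Set X, MeasurableSet S → L (S.indicator fun _ => 1) = 0) :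
    ∀ b, BM b → L b = 0 := by
  have hs : ∀ s : SimpleFunc X ℂ, L (s : X → ℂ) = 0 := by
    intro s
    induction s using SimpleFunc.induction with
    | const c hS =>
      rename_i S
      have e : (⇑(SimpleFunc.piecewise S hS (SimpleFunc.const X c) (SimpleFunc.const X 0)) : X → ℂ)
          = fun x => c * S.indicator (fun _ => (1 : ℂ)) x := by
        funext x
        by_cases hx : x ∈ S
        · simp [hx]
        · simp [hx]
      rw [e, hL.smul c _ (BM.indicator hS 1), h S hS, mul_zero]
    | add hd hf hg =>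
      rename_i f g
      have e : (⇑(f + g) : X → ℂ) = fun x => f x + g x := rfl
      rw [e, hL.add _ _ (BM.simple f) (BM.simple g), hf, hg, add_zero]
  rintro b ⟨mb, C, hC⟩
  have hsm : StronglyMeasurable b := mb.stronglyMeasurable
  have hC0 : ∀ x, ‖b x‖ ≤ |C| := fun x => (hC x).trans (le_abs_self C)
  have h3 := hL.lim (fun n => ⇑(hsm.approxBounded |C| n)) b |C|
    (fun n => (hsm.approxBounded |C| n).measurable) mb
    (fun n x => hsm.norm_approxBounded_le (abs_nonneg C) n x)
    (fun x => hsm.tendsto_approxBounded_of_norm_le (hC0 x))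
  simp only [hs] at h3
  exact tendsto_nhds_unique h3 tendsto_const_nhds

/-- uniqueness -/
theorem LF.eq_zero {L : (X → ℂ) → ℂ} (hL : LF L)
    (h : ∀ f : X → ℂ, Continuous f → BM f → L f = 0) : ∀ b, BM b → L b = 0 :=
  hL.eq_zero_ind fun _ hS => hL.meas h hS

/-- two functionals which agree on indicator functions agree -/
theorem LF.ext_ind {L M : (X → ℂ) → ℂ} (hL : LF L) (hM : LF M)
    (h : ∀ S : Set X, MeasurableSet S → L (S.indicator fun _ => 1) = M (S.indicator fun _ => 1))
    {b : X → ℂ} (hb : BM b) : L b = M b := by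
  have h1 := (hL.comb hM 1 (-1)).eq_zero_ind (fun S hS => by rw [h S hS]; ring) b hb
  linear_combination h1

/-- two functionals which agree on continuous functions agree -/
theorem LF.ext {L M : (X → ℂ) → ℂ} (hL : LF L) (hM : LF M)
    (h : ∀ f : X → ℂ, Continuous f → BM f → L f = M f) {b : X → ℂ} (hb : BM b) : L b = M b := by
  have h1 := (hL.comb hM 1 (-1)).eq_zero (fun f hf hbf => by rw [h f hf hbf]; ring) b hb
  linear_combination h1

end FC65
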