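import Pool.Agent.Lib_helper15.RankOne.Defs
import Pool.Agent.Lib_helper41.Pompeiu

/-!
# Rank one perturbations, module A: kernel bounds, Cauchy-Pompeiu, Fubini
-/

set_option autoImplicit false

open MeasureTheory Metric Set

namespace Pool.Agent.RankOne

theorem inv_integrableOn (w a : ℂ) (ρ : ℝ) :
    IntegrableOn (fun z : ℂ => ‖w - z‖⁻¹) (closedBall a ρ) := by
  have h : LocallyIntegrable (fun z : ℂ => ‖z‖⁻¹) := by
    refine locallyIntegrable_of_norm_le_rpow (C := 1) (α := 1) ?_ ?_ ?_ ?_
    · rw [Complex.finrank_real_complex]; norm_num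
    · rw [Complex.finrank_real_complex]; norm_num
    · refine Filter.Eventually.of_forall (fun x => ?_)
      rw [Real.rpow_neg_one, one_mul, norm_inv, norm_norm]
    · exact (measurable_norm.inv).aestronglyMeasurable
  have h1 : IntegrableOn (fun z : ℂ => ‖z‖⁻¹) (closedBall (w - a) ρ) :=
    h.integrableOn_isCompact (isCompact_closedBall _ _)
  have h2 : MeasurePreserving (fun z : ℂ => w - z) volume volume :=
    Measure.measurePreserving_sub_left volume w
  have h3 := (h2.integrableOn_comp_preimage
    (MeasurableEquiv.subLeft w).measurableEmbedding (f := fun z : ℂ => ‖z‖⁻¹)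
    (s := closedBall (w - a) ρ)).mpr h1
  have h4 : (fun z : ℂ => w - z) ⁻¹' closedBall (w - a) ρ = closedBall a ρ := by
    ext z
    simp only [mem_preimage, mem_closedBall, dist_eq_norm]
    have : w - z - (w - a) = -(z - a) := by ring
    rw [this, norm_neg]
  rw [h4] at h3
  exact h3

theorem inv_centered (w : ℂ) (ρ : ℝ) (hρ : 0 < ρ) :
    (∫ z in closedBall w ρ, ‖w - z‖⁻¹) = 2 * Real.pi * ρ := by
  set g : ℝ → ℝ := fun r => if r ≤ ρ then r⁻¹ else 0 with hg
  have e1 : (∫ z in closedBall w ρ, ‖w - z‖⁻¹) = ∫ z : ℂ, g ‖z - w‖ := by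
    rw [← integral_indicator measurableSet_closedBall]
    congr 1
    funext z
    by_cases h : z ∈ closedBall w ρ
    · rw [indicator_of_mem h]
      rw [mem_closedBall, dist_eq_norm] at h
      simp only [hg, if_pos h]
      rw [norm_sub_rev]
    · rw [indicator_of_notMem h]
      rw [mem_closedBall, dist_eq_norm] at h
      simp only [hg, if_neg h]
  rw [e1, integral_sub_right_eq_self (fun z : ℂ => g ‖z‖) w, integral_fun_norm_addHaar]
  rw [Complex.finrank_real_complex]
  have e2 : (volume : Measure ℂ).real (ball 0 1) = Real.pi := by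
    rw [Measure.real, Complex.volume_ball]
    simp
  have e3 : (∫ y in Ioi (0 : ℝ), y ^ (2 - 1) • g y) = ρ := by
    have : ∀ y ∈ Ioi (0 : ℝ), y ^ (2 - 1) • g y = (Iic ρ).indicator (fun _ => (1 : ℝ)) y := by
      intro y hy
      have hy0 : y ≠ 0 := (ne_of_gt hy)
      simp only [hg]
      by_cases h : y ≤ ρ
      · rw [if_pos h, indicator_of_mem (show y ∈ Iic ρ from h)]
        simp [hy0]
      · rw [if_neg h, indicator_of_notMem (show y ∉ Iic ρ from h)]
        simp
    rw [setIntegral_congr_fun measurableSet_Ioi this, setIntegral_indicator measurableSet_Iic,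
      Ioi_inter_Iic]
    simp [hρ.le]
  rw [e2, e3]
  simp only [nsmul_eq_mul, smul_eq_mul]
  push_cast
  ring

theorem volume_real_closedBall (a : ℂ) (ρ : ℝ) (hρ : 0 < ρ) :
    (volume : Measure ℂ).real (closedBall a ρ) = Real.pi * ρ ^ 2 := by
  rw [Measure.real, Complex.volume_closedBall]
  simp [ENNReal.toReal_ofReal hρ.le]
  ring

theorem inv_bound1 (w a : ℂ) (ρ : ℝ) (hρ : 0 < ρ) :
    (∫ z in closedBall a ρ, ‖w - z‖⁻¹) ≤ 3 * Real.pi * ρ := by
  have hi := inv_integrableOn w a ρ
  have hi2 := inv_integrableOn w w ρ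
  have h0 : ∀ z : ℂ, 0 ≤ ‖w - z‖⁻¹ := fun z => by positivity
  have hc : IntegrableOn (fun _ : ℂ => ρ⁻¹) (closedBall a ρ) :=
    integrableOn_const measure_closedBall_lt_top.ne
  have hsum : ∀ z, (closedBall a ρ).indicator (fun z => ‖w - z‖⁻¹) z ≤
      (closedBall w ρ).indicator (fun z => ‖w - z‖⁻¹) z +
      (closedBall a ρ).indicator (fun _ => ρ⁻¹) z := by
    intro z
    by_cases h1 : z ∈ closedBall a ρ
    · rw [indicator_of_mem h1, indicator_of_mem h1]
      by_cases h2 : z ∈ closedBall w ρ
      · rw [indicator_of_mem h2]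
        have : 0 ≤ ρ⁻¹ := by positivity
        linarith
      · rw [indicator_of_notMem h2, zero_add]
        rw [mem_closedBall, dist_eq_norm, not_le, norm_sub_rev] at h2
        exact inv_anti₀ hρ h2.le
    · rw [indicator_of_notMem h1, indicator_of_notMem h1, add_zero]
      exact indicator_nonneg (fun z _ => h0 z) z
  calc (∫ z in closedBall a ρ, ‖w - z‖⁻¹)
      = ∫ z, (closedBall a ρ).indicator (fun z => ‖w - z‖⁻¹) z :=
        (integral_indicator measurableSet_closedBall).symm
    _ ≤ ∫ z, ((closedBall w ρ).indicator (fun z => ‖w - z‖⁻¹) z +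
          (closedBall a ρ).indicator (fun _ => ρ⁻¹) z) := by
        refine integral_mono ?_ ?_ hsum
        · exact hi.integrable_indicator measurableSet_closedBall
        · exact (hi2.integrable_indicator measurableSet_closedBall).add
            (hc.integrable_indicator measurableSet_closedBall)
    _ = 2 * Real.pi * ρ + Real.pi * ρ ^ 2 * ρ⁻¹ := by
        rw [integral_add (hi2.integrable_indicator measurableSet_closedBall)
            (hc.integrable_indicator measurableSet_closedBall),
          integral_indicator measurableSet_closedBall, integral_indicator measurableSet_closedBall,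
          inv_centered w ρ hρ, setIntegral_const, volume_real_closedBall a ρ hρ, smul_eq_mul]
    _ = 3 * Real.pi * ρ := by
        field_simp
        ring

theorem A1 : A1_Stmt := by
  intro w a ρ hρ
  have hi := inv_integrableOn w a ρ
  refine ⟨hi, inv_bound1 w a ρ hρ, ?_⟩
  by_cases h : ‖w - a‖ ≤ 2 * ρ
  · have h1 : (1 / 2 : ℝ) ≤ ρ / max ρ ‖w - a‖ := by
      rw [div_le_div_iff₀ (by norm_num) (lt_max_of_lt_left hρ)]
      have : max ρ ‖w - a‖ ≤ 2 * ρ := max_le (by linarith) h
      linarith
    have h2 := inv_bound1 w a ρ hρ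
    have h3 : 0 ≤ Real.pi * ρ := by positivity
    nlinarith
  · push Not at h
    have h0 : 0 < ‖w - a‖ := by linarith
    have h1 : ∀ z ∈ closedBall a ρ, ‖w - z‖⁻¹ ≤ 2 / ‖w - a‖ := by
      intro z hz
      rw [mem_closedBall, dist_eq_norm] at hz
      have h2 : ‖w - a‖ ≤ ‖w - z‖ + ‖z - a‖ := by
        calc ‖w - a‖ = ‖(w - z) + (z - a)‖ := by ring_nf
          _ ≤ _ := norm_add_le _ _
      have h3 : ‖w - a‖ / 2 ≤ ‖w - z‖ := by linarith
      rw [show 2 / ‖w - a‖ = (‖w - a‖ / 2)⁻¹ by rw [inv_div]]
      exact inv_anti₀ (by positivity) h3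
    have h2 : (∫ z in closedBall a ρ, ‖w - z‖⁻¹) ≤ ∫ z in closedBall a ρ, 2 / ‖w - a‖ :=
      setIntegral_mono_on hi (integrableOn_const measure_closedBall_lt_top.ne)
        measurableSet_closedBall h1
    rw [setIntegral_const, volume_real_closedBall a ρ hρ, smul_eq_mul] at h2
    refine h2.trans ?_
    rw [max_eq_right (by linarith)]
    have h4 : 0 ≤ Real.pi * ρ * (ρ / ‖w - a‖) := by positivity
    have h5 : Real.pi * ρ ^ 2 * (2 / ‖w - a‖) = 2 * (Real.pi * ρ * (ρ / ‖w - a‖)) := by
      field_simp
    rw [h5]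
    nlinarith

section Fub

variable {X : Type*} [MeasurableSpace X] {m : Measure X} {c φ : X → ℂ}

theorem measurable_kernel (hc : Measurable c) (hφ : Measurable φ) :
    Measurable (fun p : X × ℂ => c p.1 / (φ p.1 - p.2)) :=
  (hc.comp measurable_fst).div ((hφ.comp measurable_fst).sub measurable_snd)

theorem measurable_FF (D : Data m c φ) : StronglyMeasurable (FF m c φ) := by
  have := D.fin
  have h := (measurable_kernel D.cmeas D.phi.1).stronglyMeasurable
  have h2 : StronglyMeasurable (fun z : ℂ => ∫ x, c x / (φ x - z) ∂m) := by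
    have h3 : StronglyMeasurable (fun p : ℂ × X => c p.2 / (φ p.2 - p.1)) :=
      (measurable_kernel D.cmeas D.phi.1).stronglyMeasurable.comp_measurable measurable_swap
    exact h3.integral_prod_right
  exact stronglyMeasurable_const.add h2

/-- the basic integrability on the product -/
theorem integrable_prod_kernel (D : Data m c φ) (a : ℂ) (ρ : ℝ) (G : ℂ → ℂ) (hG : BM G) :
    Integrable (fun p : X × ℂ => c p.1 * (G p.2 / (φ p.1 - p.2)))
      (m.prod (volume.restrict (closedBall a ρ))) := by
  have := D.fin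
  obtain ⟨hGm, C, hC⟩ := hG
  have hC0 : 0 ≤ C := (norm_nonneg _).trans (hC 0)
  have hmeas : Measurable (fun p : X × ℂ => c p.1 * (G p.2 / (φ p.1 - p.2))) :=
    (D.cmeas.comp measurable_fst).mul ((hGm.comp measurable_snd).div
      ((D.phi.1.comp measurable_fst).sub measurable_snd))
  have hker : ∀ x, Integrable (fun z : ℂ => c x * (G z / (φ x - z)))
      (volume.restrict (closedBall a ρ)) := by
    intro x
    refine ((inv_integrableOn (φ x) a ρ).const_mul C).mono' ?_ ?_
    · exact (hmeas.comp (measurable_prodMk_left (x := x))).aestronglyMeasurable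
    · refine Filter.Eventually.of_forall (fun z => ?_)
      rw [norm_mul, D.cnorm, one_mul, norm_div, div_eq_mul_inv]
      exact mul_le_mul_of_nonneg_right (hC z) (by positivity)
  rw [integrable_prod_iff hmeas.aestronglyMeasurable]
  refine ⟨Filter.Eventually.of_forall hker, ?_⟩
  refine (integrable_const (C * (3 * Real.pi * max ρ 1))).mono' ?_ ?_
  · exact (hmeas.norm.stronglyMeasurable.integral_prod_right
      (ν := volume.restrict (closedBall a ρ))).aestronglyMeasurable
  · refine Filter.Eventually.of_forall (fun x => ?_)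
    rw [Real.norm_eq_abs, abs_of_nonneg (integral_nonneg (fun _ => norm_nonneg _))]
    calc (∫ z in closedBall a ρ, ‖c x * (G z / (φ x - z))‖)
        ≤ ∫ z in closedBall a ρ, C * ‖φ x - z‖⁻¹ := by
          refine integral_mono (hker x).norm ((inv_integrableOn (φ x) a ρ).const_mul C) ?_
          intro z
          show ‖c x * (G z / (φ x - z))‖ ≤ C * ‖φ x - z‖⁻¹
          rw [norm_mul, D.cnorm, one_mul, norm_div, div_eq_mul_inv]
          exact mul_le_mul_of_nonneg_right (hC z) (by positivity)
      _ = C * ∫ z in closedBall a ρ, ‖φ x - z‖⁻¹ := integral_const_mul _ _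
      _ ≤ C * ∫ z in closedBall a (max ρ 1), ‖φ x - z‖⁻¹ := by
          refine mul_le_mul_of_nonneg_left ?_ hC0
          refine setIntegral_mono_set (inv_integrableOn _ _ _)
            (Filter.Eventually.of_forall (fun z => by positivity)) ?_
          exact (closedBall_subset_closedBall (le_max_left _ _)).eventuallyLE
      _ ≤ C * (3 * Real.pi * max ρ 1) :=
          mul_le_mul_of_nonneg_left
            (inv_bound1 _ _ _ (lt_max_of_lt_right one_pos)) hC0

theorem BM_one : BM (fun _ : ℂ => (1 : ℂ)) := ⟨measurable_const, 1, fun _ => by simp⟩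

theorem FF_sub_one (z : ℂ) : FF m c φ z - 1 = ∫ x, c x * (1 / (φ x - z)) ∂m := by
  unfold FF
  rw [add_sub_cancel_left]
  congr 1
  funext x
  ring

/-- Fubini for a bounded weight `G` -/
theorem fubini_kernel (D : Data m c φ) (a : ℂ) (ρ : ℝ) (G : ℂ → ℂ) (hG : BM G) :
    IntegrableOn (fun z => G z * (FF m c φ z - 1)) (closedBall a ρ) ∧
    (∫ x, c x * (∫ z in closedBall a ρ, G z / (φ x - z)) ∂m) =
      ∫ z in closedBall a ρ, G z * (FF m c φ z - 1) := by
  have := D.fin
  have hI := integrable_prod_kernel D a ρ G hG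
  have e1 : ∀ z, (∫ x, c x * (G z / (φ x - z)) ∂m) = G z * (FF m c φ z - 1) := by
    intro z
    rw [FF_sub_one, ← integral_const_mul]
    congr 1
    funext x
    ring
  constructor
  · have := hI.integral_prod_right
    simp only [e1] at this
    exact this
  · calc (∫ x, c x * (∫ z in closedBall a ρ, G z / (φ x - z)) ∂m)
        = ∫ x, (∫ z in closedBall a ρ, c x * (G z / (φ x - z))) ∂m := by
          congr 1
          funext x
          rw [integral_const_mul]
      _ = ∫ z in closedBall a ρ, (∫ x, c x * (G z / (φ x - z)) ∂m) := integral_integral_swap hI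
      _ = _ := by simp only [e1]

theorem integrableOn_FF (D : Data m c φ) (a : ℂ) (ρ : ℝ) :
    IntegrableOn (FF m c φ) (closedBall a ρ) := by
  have h := (fubini_kernel D a ρ _ BM_one).1
  have h2 : IntegrableOn (fun _ : ℂ => (1 : ℂ)) (closedBall a ρ) :=
    integrableOn_const measure_closedBall_lt_top.ne
  refine (h.add h2).congr_fun (fun z _ => ?_) measurableSet_closedBall
  simp

end Fub

theorem A2 : A2_Stmt := by
  intro X _ m c φ D
  have := D.fin
  refine ⟨(measurable_FF D).aestronglyMeasurable, fun a ρ hρ => ⟨integrableOn_FF D a ρ, ?_⟩⟩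
  have hI := integrable_prod_kernel D a ρ _ BM_one
  have hmeas := (measurable_kernel D.cmeas D.phi.1)
  have h1 : ∀ z, ‖FF m c φ z‖ ≤ 1 + ∫ x, ‖c x * (1 / (φ x - z))‖ ∂m := by
    intro z
    have : FF m c φ z = 1 + (FF m c φ z - 1) := by ring
    rw [this, FF_sub_one]
    refine (norm_add_le _ _).trans ?_
    rw [norm_one]
    gcongr
    exact norm_integral_le_integral_norm _
  have hN := hI.norm.integral_prod_right
  calc (∫ z in closedBall a ρ, ‖FF m c φ z‖)
      ≤ ∫ z in closedBall a ρ, (1 + ∫ x, ‖c x * (1 / (φ x - z))‖ ∂m) := by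
        refine integral_mono (integrableOn_FF D a ρ).norm ?_ h1
        exact (integrableOn_const (C := (1 : ℝ)) measure_closedBall_lt_top.ne).add hN
    _ = (∫ z in closedBall a ρ, (1 : ℝ)) +
        ∫ z in closedBall a ρ, (∫ x, ‖c x * (1 / (φ x - z))‖ ∂m) :=
        integral_add (integrableOn_const (C := (1 : ℝ)) measure_closedBall_lt_top.ne) hN
    _ = Real.pi * ρ ^ 2 + ∫ x, (∫ z in closedBall a ρ, ‖c x * (1 / (φ x - z))‖) ∂m := by
        rw [setIntegral_const, volume_real_closedBall a ρ hρ, smul_eq_mul, mul_one]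
        congr 1
        exact (integral_integral_swap hI.norm).symm
    _ ≤ Real.pi * ρ ^ 2 + ∫ x, 6 * Real.pi * ρ * (ρ / max ρ ‖φ x - a‖) ∂m := by
        refine add_le_add le_rfl ?_
        refine integral_mono_of_nonneg ?_ ?_ ?_
        · exact Filter.Eventually.of_forall (fun x => integral_nonneg (fun _ => norm_nonneg _))
        · refine Integrable.const_mul ?_ _
          refine (integrable_const (1 : ℝ)).mono' ?_ ?_
          · have hm : Measurable (fun x => ‖φ x - a‖) := (D.phi.1.sub_const a).norm
            exact (measurable_const.div (measurable_const.max hm)).aestronglyMeasurable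
          · refine Filter.Eventually.of_forall (fun x => ?_)
            have hp : 0 < max ρ ‖φ x - a‖ := lt_max_of_lt_left hρ
            rw [Real.norm_eq_abs, abs_of_nonneg (by positivity)]
            exact (div_le_one hp).mpr (le_max_left _ _)
        · refine Filter.Eventually.of_forall (fun x => ?_)
          have h2 := (A1 (φ x) a ρ hρ).2.2
          have h3 : (∫ z in closedBall a ρ, ‖c x * (1 / (φ x - z))‖) =
              ∫ z in closedBall a ρ, ‖φ x - z‖⁻¹ := by
            congr 1
            funext z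
            rw [norm_mul, D.cnorm, one_mul, norm_div, norm_one, one_div]
          show (∫ z in closedBall a ρ, ‖c x * (1 / (φ x - z))‖) ≤ _
          rw [h3]
          exact h2
    _ = _ := by rw [integral_const_mul]

theorem dbar_eq (Φ : ℂ → ℂ) (z : ℂ) : dbar Φ z = LibHelper41.dbar Φ z := by
  unfold dbar LibHelper41.dbar
  ring

theorem pompeiu' {Φ : ℂ → ℂ} (hΦ : ContDiff ℝ 1 Φ) (hc : HasCompactSupport Φ) (w : ℂ) :
    (∫ z, dbar Φ z / (w - z)) = Real.pi * Φ w := by
  have h := LibHelper41.pompeiu hΦ hc w
  have h2 : (∫ ζ, LibHelper41.dbar Φ (w + ζ) / ζ) = ∫ z, LibHelper41.dbar Φ z / (z - w) := by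
    rw [← integral_add_left_eq_self (fun z => LibHelper41.dbar Φ z / (z - w)) w]
    congr 1
    funext ζ
    rw [add_sub_cancel_left]
  rw [h2] at h
  have h3 : (∫ z, dbar Φ z / (w - z)) = - ∫ z, LibHelper41.dbar Φ z / (z - w) := by
    rw [← integral_neg]
    congr 1
    funext z
    rw [dbar_eq, ← neg_sub z w, div_neg]
  rw [h3, h, neg_neg]

theorem continuous_dbar {Φ : ℂ → ℂ} (hΦ : ContDiff ℝ 1 Φ) : Continuous (dbar Φ) := by
  have h := hΦ.continuous_fderiv one_ne_zero
  unfold dbar
  exact continuous_const.mul ((h.clm_apply continuous_const).add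
    (continuous_const.mul (h.clm_apply continuous_const)))

theorem hasCompactSupport_dbar {Φ : ℂ → ℂ} (hc : HasCompactSupport Φ) :
    HasCompactSupport (dbar Φ) := by
  refine (hc.fderiv (𝕜 := ℝ)).mono ?_
  intro x hx
  rw [Function.mem_support] at hx ⊢
  intro h
  apply hx
  unfold dbar
  rw [h]
  simp

theorem hasCompactSupport_fderiv_app {g : ℂ → ℂ} (hc : HasCompactSupport g) (v : ℂ) :
    HasCompactSupport (fun w => fderiv ℝ g w v) := by
  refine (hc.fderiv (𝕜 := ℝ)).mono ?_
  intro x hx
  rw [Function.mem_support] at hx ⊢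
  intro h
  apply hx
  rw [h]
  rfl

theorem integral_fderiv_zero {Φ : ℂ → ℂ} (hΦ : ContDiff ℝ 1 Φ) (hc : HasCompactSupport Φ) (v : ℂ) :
    (∫ z, fderiv ℝ Φ z v) = 0 := by
  have h1 : Integrable (fun z => fderiv ℝ Φ z v) :=
    ((hΦ.continuous_fderiv one_ne_zero).clm_apply continuous_const).integrable_of_hasCompactSupport
      (hasCompactSupport_fderiv_app hc v)
  have h2 : Integrable Φ := hΦ.continuous.integrable_of_hasCompactSupport hc
  have h := integral_bilinear_hasLineDerivAt_right_eq_neg_left_of_integrable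
    (μ := (volume : Measure ℂ)) (f := fun _ : ℂ => (1 : ℂ)) (f' := fun _ : ℂ => (0 : ℂ))
    (g := Φ) (g' := fun z => fderiv ℝ Φ z v) (v := v) (B := ContinuousLinearMap.mul ℝ ℂ)
    (by simp) (by simpa using h1) (by simpa using h2)
    (fun x _ => by
      have : HasLineDerivAt ℝ (fun _ : ℂ => (1 : ℂ)) ((0 : ℂ →L[ℝ] ℂ) v) x v :=
        (hasFDerivAt_const (1 : ℂ) x).hasLineDerivAt v
      simpa using this)
    (fun x _ => ((hΦ.differentiable one_ne_zero x).hasFDerivAt).hasLineDerivAt v)
  simpa using h

theorem A3 : A3_Stmt := by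
  intro Φ hΦ hc
  have hcd := continuous_dbar hΦ
  have hsd := hasCompactSupport_dbar hc
  refine ⟨?_, pompeiu' hΦ hc, ?_⟩
  · have h1 := integral_fderiv_zero hΦ hc 1
    have h2 := integral_fderiv_zero hΦ hc Complex.I
    have i1 : ∀ v : ℂ, Integrable (fun z => fderiv ℝ Φ z v) := fun v =>
      ((hΦ.continuous_fderiv one_ne_zero).clm_apply
        continuous_const).integrable_of_hasCompactSupport
        (hasCompactSupport_fderiv_app hc v)
    unfold dbar
    rw [integral_const_mul, integral_add (i1 1) ((i1 Complex.I).const_mul _),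
      integral_const_mul, h1, h2]
    simp
  · intro X _ m c φ D
    obtain ⟨R, hR⟩ := hsd.isCompact.isBounded.subset_closedBall (0 : ℂ)
    have hout : ∀ z ∉ closedBall (0 : ℂ) R, dbar Φ z = 0 := fun z hz =>
      image_eq_zero_of_notMem_tsupport (fun h => hz (hR h))
    have hBM : BM (dbar Φ) := by
      obtain ⟨C, hC⟩ := hsd.exists_bound_of_continuous hcd
      exact ⟨hcd.measurable, C, hC⟩
    obtain ⟨hi, he⟩ := fubini_kernel D 0 R _ hBM
    have hid : Integrable (dbar Φ) := hcd.integrable_of_hasCompactSupport hsd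
    have h3 : IntegrableOn (fun z => FF m c φ z * dbar Φ z) (closedBall 0 R) := by
      refine (hi.add hid.integrableOn).congr_fun (fun z _ => ?_) measurableSet_closedBall
      simp only [Pi.add_apply]
      ring
    have h4 : Integrable (fun z => FF m c φ z * dbar Φ z) := by
      refine (integrableOn_iff_integrable_of_support_subset ?_).mp h3
      intro z hz
      by_contra h
      exact hz (by simp only [hout z h, mul_zero])
    refine ⟨h4, ?_⟩
    have h5 : (∫ z, FF m c φ z * dbar Φ z) = ∫ z in closedBall 0 R, FF m c φ z * dbar Φ z :=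
      (setIntegral_eq_integral_of_forall_compl_eq_zero (fun z hz => by
        rw [hout z hz, mul_zero])).symm
    have h6 : (∫ z in closedBall 0 R, FF m c φ z * dbar Φ z) =
        (∫ z in closedBall 0 R, dbar Φ z * (FF m c φ z - 1)) + ∫ z in closedBall 0 R, dbar Φ z := by
      rw [← integral_add hi hid.integrableOn]
      congr 1
      funext z
      ring
    have h7 : (∫ z in closedBall 0 R, dbar Φ z) = 0 := by
      rw [setIntegral_eq_integral_of_forall_compl_eq_zero (fun z hz => hout z hz)]
      have h1 := integral_fderiv_zero hΦ hc 1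
      have h2 := integral_fderiv_zero hΦ hc Complex.I
      have i1 : ∀ v : ℂ, Integrable (fun z => fderiv ℝ Φ z v) := fun v =>
        ((hΦ.continuous_fderiv one_ne_zero).clm_apply
          continuous_const).integrable_of_hasCompactSupport
          (hasCompactSupport_fderiv_app hc v)
      unfold dbar
      rw [integral_const_mul, integral_add (i1 1) ((i1 Complex.I).const_mul _),
        integral_const_mul, h1, h2]
      simp
    rw [h5, h6, h7, add_zero, ← he, ← integral_const_mul]
    congr 1
    funext x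
    rw [setIntegral_eq_integral_of_forall_compl_eq_zero (fun z hz => by
        rw [hout z hz, zero_div]), pompeiu' hΦ hc]
    ring

theorem A4 : A4_Stmt := by
  intro X _ m c φ D lam r hr G hG
  have hbd : ∀ M : ℝ, (∀ z, ‖G z‖ ≤ M) → ∀ w : ℂ,
      ‖∫ z in closedBall lam r, G z / (w - z)‖ ≤ 3 * Real.pi * r * M := by
    intro M hM w
    have hM0 : 0 ≤ M := (norm_nonneg _).trans (hM 0)
    calc ‖∫ z in closedBall lam r, G z / (w - z)‖
        ≤ ∫ z in closedBall lam r, M * ‖w - z‖⁻¹ := by
          refine norm_integral_le_of_norm_le ((inv_integrableOn w lam r).const_mul M) ?_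
          refine Filter.Eventually.of_forall (fun z => ?_)
          rw [norm_div, div_eq_mul_inv]
          exact mul_le_mul_of_nonneg_right (hM z) (by positivity)
      _ = M * ∫ z in closedBall lam r, ‖w - z‖⁻¹ := integral_const_mul _ _
      _ ≤ M * (3 * Real.pi * r) := mul_le_mul_of_nonneg_left (inv_bound1 w lam r hr) hM0
      _ = _ := by ring
  refine ⟨⟨?_, ?_⟩, hbd, (fubini_kernel D lam r G hG).2⟩
  · have h : Measurable (fun p : ℂ × ℂ => G p.2 / (p.1 - p.2)) :=
      (hG.1.comp measurable_snd).div (measurable_fst.sub measurable_snd)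
    exact (h.stronglyMeasurable.integral_prod_right
      (ν := volume.restrict (closedBall lam r))).measurable
  · obtain ⟨C, hC⟩ := hG.2
    exact ⟨3 * Real.pi * r * C, fun w => hbd C hC w⟩

end Pool.Agent.RankOne
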