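import Pool.Agent.Lib_helper15.RankOne.ModT6

/-!
# Modules H and U: costs of hop discs and of small discs
-/

set_option autoImplicit false

open MeasureTheory Metric Set

namespace Pool.Agent.RankOne

universe u

theorem BM.comp_meas {X : Type*} [MeasurableSpace X] {φ : X → ℂ} (h : BM φ) : Measurable φ := h.1

/-- a continuous function of a bounded measurable function is bounded -/
theorem bdd_comp {X : Type*} [MeasurableSpace X] {φ : X → ℂ} (h : BM φ) {q : ℂ → ℂ}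
    (hq : Continuous q) : ∃ C : ℝ, 0 ≤ C ∧ ∀ x, ‖q (φ x)‖ ≤ C := by
  obtain ⟨C, hC⟩ := h.2
  obtain ⟨D, hD⟩ := (isCompact_closedBall (0 : ℂ) C).exists_bound_of_continuousOn hq.continuousOn
  refine ⟨max D 0, le_max_right _ _, fun x => (hD _ ?_).trans (le_max_left _ _)⟩
  rw [mem_closedBall, dist_zero_right]
  exact hC x

theorem integrable_q {X : Type*} [MeasurableSpace X] {m : Measure X} [IsFiniteMeasure m]
    {φ : X → ℂ} (h : BM φ) {q : ℂ → ℂ} (hq : Continuous q) :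
    Integrable (fun x => ‖q (φ x)‖) m := by
  obtain ⟨C, hC0, hC⟩ := bdd_comp h hq
  refine Integrable.of_bound (C := C) ?_ ?_
  · exact (hq.measurable.comp h.1).norm.aestronglyMeasurable
  · exact Filter.Eventually.of_forall fun x => by rw [norm_norm]; exact hC x

theorem wt_le_one {ρ s : ℝ} (hρ : 0 < ρ) : ρ / max ρ s ≤ 1 := by
  have : ρ ≤ max ρ s := le_max_left _ _
  rw [div_le_one (by linarith)]
  exact this

theorem wt_nonneg {ρ s : ℝ} (hρ : 0 < ρ) : 0 ≤ ρ / max ρ s := by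
  have : ρ ≤ max ρ s := le_max_left _ _
  positivity

theorem wt_mul_le {ρ s : ℝ} (hρ : 0 < ρ) : ρ / max ρ s * s ≤ ρ := by
  have h1 : ρ ≤ max ρ s := le_max_left _ _
  have h2 : s ≤ max ρ s := le_max_right _ _
  have h3 : 0 < max ρ s := by linarith
  rw [div_mul_eq_mul_div, div_le_iff₀ h3]
  exact mul_le_mul_of_nonneg_left h2 hρ.le

theorem integrable_wt {X : Type*} [MeasurableSpace X] {m : Measure X} [IsFiniteMeasure m]
    {φ : X → ℂ} (h : BM φ) (ω : ℂ) {ρ : ℝ} (hρ : 0 < ρ) :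
    Integrable (fun x => ρ / max ρ ‖φ x - ω‖) m := by
  refine Integrable.of_bound (C := 1) ?_ ?_
  · have : Measurable fun x => ρ / max ρ ‖φ x - ω‖ :=
      measurable_const.div (measurable_const.max (h.1.sub_const ω).norm)
    exact this.aestronglyMeasurable
  · refine Filter.Eventually.of_forall fun x => ?_
    rw [Real.norm_of_nonneg (wt_nonneg hρ)]
    exact wt_le_one hρ

theorem nearF_nonneg (s : Stage) (w : ℂ) : 0 ≤ nearF s w := by
  unfold nearF; split <;> norm_num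

theorem nearF_le_one (s : Stage) (w : ℂ) : nearF s w ≤ 1 := by
  unfold nearF; split <;> norm_num

theorem measurable_nearF (s : Stage) : Measurable (nearF s) := by
  unfold nearF
  refine Measurable.ite ?_ measurable_const measurable_const
  exact measurableSet_lt (continuous_infDist_pt _).measurable measurable_const

theorem integrable_near {X : Type*} [MeasurableSpace X] {m : Measure X} [IsFiniteMeasure m]
    {φ : X → ℂ} (h : BM φ) {q : ℂ → ℂ} (hq : Continuous q) (s : Stage) :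
    Integrable (fun x => nearF s (φ x) * ‖q (φ x)‖) m := by
  refine (integrable_q h hq).bdd_mul (c := 1) ?_ ?_
  · exact ((measurable_nearF s).comp h.1).aestronglyMeasurable
  · refine Filter.Eventually.of_forall fun x => ?_
    rw [Real.norm_of_nonneg (nearF_nonneg _ _)]
    exact nearF_le_one _ _

theorem Wt_nonneg {κ s : ℝ} (hκ : 0 < κ) : 0 ≤ Wt κ s := by
  unfold Wt
  split
  · exact wt_nonneg (by positivity)
  · exact le_rfl

theorem Wt_le_one {κ s : ℝ} (hκ : 0 < κ) : Wt κ s ≤ 1 := by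
  unfold Wt
  split
  · exact wt_le_one (by positivity)
  · norm_num

theorem measurable_Wt (κ : ℝ) : Measurable (Wt κ) := by
  unfold Wt
  refine Measurable.ite (measurableSet_le measurable_const measurable_id) ?_ measurable_const
  exact measurable_const.div (measurable_const.max measurable_id)

theorem integrable_Wt {X : Type*} [MeasurableSpace X] {m : Measure X} [IsFiniteMeasure m]
    {φ : X → ℂ} (h : Measurable φ) {κ : ℝ} (hκ : 0 < κ) (A : Set ℂ) :
    Integrable (fun x => Wt κ (infDist (φ x) A)) m := by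
  refine Integrable.of_bound (C := 1) ?_ ?_
  · exact ((measurable_Wt κ).comp ((continuous_infDist_pt _).measurable.comp h)).aestronglyMeasurable
  · refine Filter.Eventually.of_forall fun x => ?_
    rw [Real.norm_of_nonneg (Wt_nonneg hκ)]
    exact Wt_le_one hκ

/-- a near point is close to a point of the stage -/
theorem exists_of_near {s : Stage} {w : ℂ} (h : infDist w {a | a ∈ s.pts} < s.kp / 4) :
    ∃ a ∈ s.pts, ‖w - a‖ < s.kp / 4 := by
  have hne : ({a | a ∈ s.pts} : Set ℂ).Nonempty := ⟨s.first, by simp [Stage.pts]⟩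
  obtain ⟨a, ha, hd⟩ := (infDist_lt_iff hne).mp h
  exact ⟨a, ha, by rwa [dist_eq_norm] at hd⟩

theorem H (hA2 : A2_Stmt.{u}) : H_Stmt.{u} := by
  intro X _ m c φ hD p lam r R hR hRr s hs hk hkp ω hω q Q Lq hq
  have := hD.fin
  have hκ := s.kp_pos
  set κ := s.kp with hκdef
  obtain ⟨a, ha, haω⟩ := hω
  have haR := hs.inball a ha
  have hκ1 : κ ≤ ff s.k := kp_le_ff hs hk
  have hff1 : ff s.k ≤ 1 / 8 := by
    unfold ff
    apply one_div_le_one_div_of_le (by norm_num)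
    have : (4 : ℝ) ≤ s.k := by exact_mod_cast hk
    nlinarith
  have hωK : ‖ω - lam‖ ≤ 2 * R + κ := by
    calc ‖ω - lam‖ = ‖(ω - a) + (a - lam)‖ := by congr 1; ring
      _ ≤ ‖ω - a‖ + ‖a - lam‖ := norm_add_le _ _
      _ ≤ _ := by linarith
  have hωmem : ω ∈ closedBall lam r := by
    rw [mem_closedBall, dist_eq_norm]; linarith
  set S : ℝ := ‖q ω‖ + Lq * (8 * κ) with hS
  have hS0 : 0 ≤ S := by have := hq.L0; positivity
  have hSb : ∀ z ∈ closedBall ω (2 * (4 * κ)), ‖q z‖ ≤ S := by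
    intro z hz
    rw [mem_closedBall, dist_eq_norm] at hz
    have hzK : z ∈ closedBall lam r := by
      rw [mem_closedBall, dist_eq_norm]
      calc ‖z - lam‖ = ‖(z - ω) + (ω - lam)‖ := by congr 1; ring
        _ ≤ ‖z - ω‖ + ‖ω - lam‖ := norm_add_le _ _
        _ ≤ r := by linarith
    calc ‖q z‖ = ‖q ω + (q z - q ω)‖ := by congr 1; ring
      _ ≤ ‖q ω‖ + ‖q z - q ω‖ := norm_add_le _ _
      _ ≤ ‖q ω‖ + Lq * ‖z - ω‖ := by gcongr; exact hq.lip z hzK ω hωmem
      _ ≤ _ := by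
          rw [hS]
          have : Lq * ‖z - ω‖ ≤ Lq * (8 * κ) := mul_le_mul_of_nonneg_left (by linarith) hq.L0
          linarith
  have hSQ : S ≤ Q + Lq := by
    rw [hS]
    have h1 := hq.bd ω hωmem
    have h2 : Lq * (8 * κ) ≤ Lq * 1 := mul_le_mul_of_nonneg_left (by linarith) hq.L0
    linarith
  have h6 := T6 hA2 X m c φ hD ω (4 * κ) (by positivity) q hq.cont S hSb
  -- pointwise estimate
  have hpt : ∀ x, S * (2 * (4 * κ) / max (2 * (4 * κ)) ‖φ x - ω‖) ≤
      nearF s (φ x) * ‖q (φ x)‖ + (16 * κ * Lq +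
        8 * (Q + Lq) * Wt κ (infDist (φ x) {a | a ∈ s.pts})) := by
    intro x
    have hQL : 0 ≤ Q + Lq := add_nonneg hq.Q0 hq.L0
    by_cases hnear : infDist (φ x) {a | a ∈ s.pts} < κ / 4
    · obtain ⟨a', ha', hd'⟩ := exists_of_near hnear
      have hn : nearF s (φ x) = 1 := by unfold nearF; rw [if_pos hnear]
      have hxK : φ x ∈ closedBall lam r := by
        rw [mem_closedBall, dist_eq_norm]
        have := hs.inball a' ha'
        calc ‖φ x - lam‖ = ‖(φ x - a') + (a' - lam)‖ := by congr 1; ring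
          _ ≤ ‖φ x - a'‖ + ‖a' - lam‖ := norm_add_le _ _
          _ ≤ r := by linarith
      have h1 : ‖q ω‖ ≤ ‖q (φ x)‖ + Lq * ‖φ x - ω‖ := by
        calc ‖q ω‖ = ‖q (φ x) + (q ω - q (φ x))‖ := by congr 1; ring
          _ ≤ ‖q (φ x)‖ + ‖q ω - q (φ x)‖ := norm_add_le _ _
          _ ≤ ‖q (φ x)‖ + Lq * ‖ω - φ x‖ := by gcongr; exact hq.lip ω hωmem _ hxK
          _ = _ := by rw [norm_sub_rev]
      set wt := 2 * (4 * κ) / max (2 * (4 * κ)) ‖φ x - ω‖ with hwt
      have hw0 : 0 ≤ wt := wt_nonneg (by positivity)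
      have hw1 : wt ≤ 1 := wt_le_one (by positivity)
      have hw2 : wt * ‖φ x - ω‖ ≤ 2 * (4 * κ) := wt_mul_le (by positivity)
      have hW : 0 ≤ Wt κ (infDist (φ x) {a | a ∈ s.pts}) := Wt_nonneg hκ
      rw [hn, one_mul]
      have e1 : S * wt ≤ (‖q (φ x)‖ + Lq * ‖φ x - ω‖ + Lq * (8 * κ)) * wt := by
        rw [hS]; gcongr
      have e2 : (‖q (φ x)‖ + Lq * ‖φ x - ω‖ + Lq * (8 * κ)) * wt =
          ‖q (φ x)‖ * wt + Lq * (wt * ‖φ x - ω‖) + Lq * (8 * κ) * wt := by ring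
      have e3 : ‖q (φ x)‖ * wt ≤ ‖q (φ x)‖ * 1 := by gcongr
      have e4 : Lq * (wt * ‖φ x - ω‖) ≤ Lq * (2 * (4 * κ)) :=
        mul_le_mul_of_nonneg_left hw2 hq.L0
      have e5 : Lq * (8 * κ) * wt ≤ Lq * (8 * κ) * 1 := by
        have := hq.L0
        gcongr
      have e6 : 0 ≤ 8 * (Q + Lq) * Wt κ (infDist (φ x) {a | a ∈ s.pts}) := by positivity
      linarith
    · have hn : nearF s (φ x) = 0 := by unfold nearF; rw [if_neg hnear]
      rw [hn, zero_mul, zero_add]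
      push Not at hnear
      set d := infDist (φ x) {a | a ∈ s.pts} with hd
      have hWt : Wt κ d = 2 * κ / max (2 * κ) d := by unfold Wt; rw [if_pos hnear]
      have hdle : d ≤ ‖φ x - ω‖ + κ := by
        calc d ≤ dist (φ x) a := infDist_le_dist_of_mem ha
          _ = ‖(φ x - ω) + (ω - a)‖ := by rw [dist_eq_norm]; congr 1; ring
          _ ≤ ‖φ x - ω‖ + ‖ω - a‖ := norm_add_le _ _
          _ ≤ _ := by linarith
      have hmax : max (2 * κ) d ≤ 2 * max (2 * (4 * κ)) ‖φ x - ω‖ := by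
        have h1 : 2 * (4 * κ) ≤ max (2 * (4 * κ)) ‖φ x - ω‖ := le_max_left _ _
        have h2 : ‖φ x - ω‖ ≤ max (2 * (4 * κ)) ‖φ x - ω‖ := le_max_right _ _
        apply max_le <;> linarith
      have hM1 : 0 < max (2 * κ) d := lt_of_lt_of_le (by positivity) (le_max_left _ _)
      have hM2 : 0 < max (2 * (4 * κ)) ‖φ x - ω‖ :=
        lt_of_lt_of_le (by positivity) (le_max_left _ _)
      have hle : 2 * (4 * κ) / max (2 * (4 * κ)) ‖φ x - ω‖ ≤ 8 * (2 * κ / max (2 * κ) d) := by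
        rw [← mul_div_assoc, div_le_div_iff₀ hM2 hM1]
        nlinarith
      rw [hWt]
      have : 0 ≤ 16 * κ * Lq := by have := hq.L0; positivity
      calc S * (2 * (4 * κ) / max (2 * (4 * κ)) ‖φ x - ω‖)
          ≤ (Q + Lq) * (8 * (2 * κ / max (2 * κ) d)) := by
            apply mul_le_mul hSQ hle (wt_nonneg (by positivity)) hQL
        _ ≤ _ := by linarith
  -- integrate
  have hi1 : Integrable (fun x => S * (2 * (4 * κ) / max (2 * (4 * κ)) ‖φ x - ω‖)) m :=
    (integrable_wt hD.phi ω (by positivity)).const_mul S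
  have hi2 := integrable_near (m := m) hD.phi hq.cont s
  have hi3 := integrable_Wt (m := m) hD.phi.1 hκ {a | a ∈ s.pts}
  have hint : (∫ x, S * (2 * (4 * κ) / max (2 * (4 * κ)) ‖φ x - ω‖) ∂m) ≤
      (∫ x, nearF s (φ x) * ‖q (φ x)‖ ∂m) + (16 * κ * Lq * m.real univ +
        8 * (Q + Lq) * ∫ x, Wt κ (infDist (φ x) {a | a ∈ s.pts}) ∂m) := by
    have hi4 : Integrable (fun x => 16 * κ * Lq +
        8 * (Q + Lq) * Wt κ (infDist (φ x) {a | a ∈ s.pts})) m :=
      (integrable_const (16 * κ * Lq)).add (hi3.const_mul (8 * (Q + Lq)))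
    have h1 : (∫ x, S * (2 * (4 * κ) / max (2 * (4 * κ)) ‖φ x - ω‖) ∂m) ≤
        ∫ x, (nearF s (φ x) * ‖q (φ x)‖ + (16 * κ * Lq +
        8 * (Q + Lq) * Wt κ (infDist (φ x) {a | a ∈ s.pts}))) ∂m :=
      integral_mono hi1 (hi2.add hi4) hpt
    have e : (∫ x, 8 * (Q + Lq) * Wt κ (infDist (φ x) {a | a ∈ s.pts}) ∂m) =
      8 * (Q + Lq) * ∫ x, Wt κ (infDist (φ x) {a | a ∈ s.pts}) ∂m := integral_const_mul _ _
    rw [integral_add hi2 hi4, integral_add (integrable_const (16 * κ * Lq))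
      (hi3.const_mul (8 * (Q + Lq))), integral_const, e, smul_eq_mul] at h1
    linarith
  have hpig := hs.pig
  have hdc := diff_cube_ff (k := s.k) (by omega)
  have hV : 0 ≤ m.real univ := measureReal_nonneg
  have hpos : (0 : ℝ) < ((s.k : ℝ) + 1) ^ 3 - (s.k : ℝ) ^ 3 := by
    have : (0 : ℝ) ≤ s.k := by positivity
    nlinarith
  have hpig2 : (∫ x, Wt κ (infDist (φ x) {a | a ∈ s.pts}) ∂m) ≤ 8 * m.real univ * ff s.k := by
    refine hpig.trans ?_
    rw [div_eq_mul_one_div]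
    gcongr
  have hff := ff_nonneg s.k
  have hQL : 0 ≤ Q + Lq := add_nonneg hq.Q0 hq.L0
  have hL0 := hq.L0
  have hQ0 := hq.Q0
  have hπ := Real.pi_pos
  unfold cost
  simp only
  have f1 : 4 * Real.pi * (4 * κ) * S ≤ 16 * Real.pi * (Q + Lq) * ff s.k := by
    have : κ * S ≤ ff s.k * (Q + Lq) := mul_le_mul hκ1 hSQ hS0 hff
    nlinarith
  have f2 : 16 * κ * Lq * m.real univ ≤ 16 * (Q + Lq) * m.real univ * ff s.k := by
    have : κ * Lq ≤ ff s.k * (Q + Lq) := mul_le_mul hκ1 (by linarith) hL0 hff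
    nlinarith
  have f3 : 8 * (Q + Lq) * (∫ x, Wt κ (infDist (φ x) {a | a ∈ s.pts}) ∂m) ≤
      64 * (Q + Lq) * m.real univ * ff s.k := by
    have : (Q + Lq) * (∫ x, Wt κ (infDist (φ x) {a | a ∈ s.pts}) ∂m) ≤
      (Q + Lq) * (8 * m.real univ * ff s.k) := mul_le_mul_of_nonneg_left hpig2 hQL
    linarith
  have f4 : 12 * Real.pi * (∫ x, S * (2 * (4 * κ) / max (2 * (4 * κ)) ‖φ x - ω‖) ∂m) ≤
      12 * Real.pi * ((∫ x, nearF s (φ x) * ‖q (φ x)‖ ∂m) + (16 * (Q + Lq) * m.real univ * ff s.k +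
        64 * (Q + Lq) * m.real univ * ff s.k)) := by
    apply mul_le_mul_of_nonneg_left _ (by positivity)
    linarith
  calc _ ≤ 4 * Real.pi * (4 * κ) * S + 12 * Real.pi *
        ∫ x, S * (2 * (4 * κ) / max (2 * (4 * κ)) ‖φ x - ω‖) ∂m := h6
    _ ≤ 16 * Real.pi * (Q + Lq) * ff s.k + 12 * Real.pi *
        ((∫ x, nearF s (φ x) * ‖q (φ x)‖ ∂m) + (16 * (Q + Lq) * m.real univ * ff s.k +
        64 * (Q + Lq) * m.real univ * ff s.k)) := add_le_add f1 f4
    _ = _ := by ring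

theorem U (hA2 : A2_Stmt.{u}) : U_Stmt.{u} := by
  intro X _ m c φ hD lam r hr ω ρ hρ hρr hω q Q Lq hq
  have := hD.fin
  have hQ0 := hq.Q0
  have hL0 := hq.L0
  have hωmem : ω ∈ closedBall lam r := by
    rw [mem_closedBall, dist_eq_norm]; linarith
  set S : ℝ := ‖q ω‖ + Lq * (2 * ρ) with hS
  have hS0 : 0 ≤ S := by positivity
  have hSb : ∀ z ∈ closedBall ω (2 * ρ), ‖q z‖ ≤ S := by
    intro z hz
    rw [mem_closedBall, dist_eq_norm] at hz
    have hzK : z ∈ closedBall lam r := by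
      rw [mem_closedBall, dist_eq_norm]
      calc ‖z - lam‖ = ‖(z - ω) + (ω - lam)‖ := by congr 1; ring
        _ ≤ ‖z - ω‖ + ‖ω - lam‖ := norm_add_le _ _
        _ ≤ r := by linarith
    calc ‖q z‖ = ‖q ω + (q z - q ω)‖ := by congr 1; ring
      _ ≤ ‖q ω‖ + ‖q z - q ω‖ := norm_add_le _ _
      _ ≤ ‖q ω‖ + Lq * ‖z - ω‖ := by gcongr; exact hq.lip z hzK ω hωmem
      _ ≤ _ := by rw [hS]; gcongr
  have hSQ : S ≤ Q + r * Lq := by
    rw [hS]
    have h1 := hq.bd ω hωmem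
    have h2 : Lq * (2 * ρ) ≤ Lq * r := mul_le_mul_of_nonneg_left (by linarith) hq.L0
    linarith
  have h6 := T6 hA2 X m c φ hD ω ρ hρ q hq.cont S hSb
  have hpt : ∀ x, S * (2 * ρ / max (2 * ρ) ‖φ x - ω‖) ≤
      (φ ⁻¹' closedBall lam r).indicator (fun x => ‖q (φ x)‖) x +
        (4 * ρ * Lq + (Q + r * Lq) * (3 * ρ / r)) := by
    intro x
    have e0 : 0 ≤ (Q + r * Lq) * (3 * ρ / r) := by positivity
    by_cases hx : φ x ∈ closedBall lam r
    · rw [indicator_of_mem (show x ∈ φ ⁻¹' closedBall lam r from hx)]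
      have h1 : ‖q ω‖ ≤ ‖q (φ x)‖ + Lq * ‖φ x - ω‖ := by
        calc ‖q ω‖ = ‖q (φ x) + (q ω - q (φ x))‖ := by congr 1; ring
          _ ≤ ‖q (φ x)‖ + ‖q ω - q (φ x)‖ := norm_add_le _ _
          _ ≤ ‖q (φ x)‖ + Lq * ‖ω - φ x‖ := by gcongr; exact hq.lip ω hωmem _ hx
          _ = _ := by rw [norm_sub_rev]
      set wt := 2 * ρ / max (2 * ρ) ‖φ x - ω‖ with hwt
      have hw0 : 0 ≤ wt := wt_nonneg (by positivity)
      have hw1 : wt ≤ 1 := wt_le_one (by positivity)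
      have hw2 : wt * ‖φ x - ω‖ ≤ 2 * ρ := wt_mul_le (by positivity)
      have e1 : S * wt ≤ (‖q (φ x)‖ + Lq * ‖φ x - ω‖ + Lq * (2 * ρ)) * wt := by
        rw [hS]; gcongr
      have e2 : (‖q (φ x)‖ + Lq * ‖φ x - ω‖ + Lq * (2 * ρ)) * wt =
          ‖q (φ x)‖ * wt + Lq * (wt * ‖φ x - ω‖) + Lq * (2 * ρ) * wt := by ring
      have e3 : ‖q (φ x)‖ * wt ≤ ‖q (φ x)‖ * 1 := by gcongr
      have e4 : Lq * (wt * ‖φ x - ω‖) ≤ Lq * (2 * ρ) :=
        mul_le_mul_of_nonneg_left hw2 hq.L0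
      have e5 : Lq * (2 * ρ) * wt ≤ Lq * (2 * ρ) * 1 := by gcongr
      linarith
    · rw [indicator_of_notMem (show x ∉ φ ⁻¹' closedBall lam r from hx), zero_add]
      have hx' : r < ‖φ x - lam‖ := by
        rw [mem_closedBall, dist_eq_norm] at hx
        linarith
      have hd : 3 * r / 4 ≤ ‖φ x - ω‖ := by
        have : ‖φ x - lam‖ ≤ ‖φ x - ω‖ + ‖ω - lam‖ := by
          calc ‖φ x - lam‖ = ‖(φ x - ω) + (ω - lam)‖ := by congr 1; ring
            _ ≤ _ := norm_add_le _ _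
        linarith
      have hw : 2 * ρ / max (2 * ρ) ‖φ x - ω‖ ≤ 3 * ρ / r := by
        have h1 : ‖φ x - ω‖ ≤ max (2 * ρ) ‖φ x - ω‖ := le_max_right _ _
        rw [div_le_div_iff₀ (by linarith) hr]
        nlinarith
      calc S * (2 * ρ / max (2 * ρ) ‖φ x - ω‖) ≤ (Q + r * Lq) * (3 * ρ / r) :=
            mul_le_mul hSQ hw (wt_nonneg (by positivity)) (by positivity)
        _ ≤ _ := by
            have : 0 ≤ 4 * ρ * Lq := by positivity
            linarith
  have hi1 : Integrable (fun x => S * (2 * ρ / max (2 * ρ) ‖φ x - ω‖)) m :=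
    (integrable_wt hD.phi ω (by positivity)).const_mul S
  have hKm : MeasurableSet (φ ⁻¹' closedBall lam r) := hD.phi.1 measurableSet_closedBall
  have hi2 : Integrable ((φ ⁻¹' closedBall lam r).indicator (fun x => ‖q (φ x)‖)) m :=
    (integrable_q hD.phi hq.cont).indicator hKm
  have hint : (∫ x, S * (2 * ρ / max (2 * ρ) ‖φ x - ω‖) ∂m) ≤
      (∫ x in φ ⁻¹' closedBall lam r, ‖q (φ x)‖ ∂m) +
      m.real univ * (4 * ρ * Lq + (Q + r * Lq) * (3 * ρ / r)) := by
    have h1 := integral_mono hi1 (hi2.add (integrable_const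
      (4 * ρ * Lq + (Q + r * Lq) * (3 * ρ / r)))) hpt
    have h2 : (∫ x, ((φ ⁻¹' closedBall lam r).indicator (fun x => ‖q (φ x)‖) x +
        (4 * ρ * Lq + (Q + r * Lq) * (3 * ρ / r))) ∂m) =
        (∫ x in φ ⁻¹' closedBall lam r, ‖q (φ x)‖ ∂m) +
      m.real univ * (4 * ρ * Lq + (Q + r * Lq) * (3 * ρ / r)) := by
      rw [integral_add hi2 (integrable_const _), integral_const, integral_indicator hKm,
        smul_eq_mul]
    rw [← h2]
    exact h1
  have hV : 0 ≤ m.real univ := measureReal_nonneg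
  have hπ := Real.pi_pos
  unfold cost
  simp only
  have f1 : 4 * Real.pi * ρ * S ≤ 4 * Real.pi * ρ * (Q + r * Lq) := by gcongr
  have f2 : 12 * Real.pi * (∫ x, S * (2 * ρ / max (2 * ρ) ‖φ x - ω‖) ∂m) ≤
      12 * Real.pi * ((∫ x in φ ⁻¹' closedBall lam r, ‖q (φ x)‖ ∂m) +
      m.real univ * (4 * ρ * Lq + (Q + r * Lq) * (3 * ρ / r))) := by gcongr
  have e : (3 * ρ / r) = 3 * (1 / r) * ρ := by ring
  rw [e] at f2
  have hr1 : 0 ≤ 1 / r := by positivity
  set I := ∫ x in φ ⁻¹' closedBall lam r, ‖q (φ x)‖ ∂m with hI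
  set V := m.real univ with hVdef
  set ir := 1 / r with hir
  have g1 : 0 ≤ Real.pi * ρ * (r * Lq) := by positivity
  have g2 : 0 ≤ Real.pi * ρ * Q := by positivity
  have g3 : 0 ≤ Real.pi * ρ * Lq := by positivity
  have main : 4 * Real.pi * ρ * (Q + r * Lq) + 12 * Real.pi * (I +
      V * (4 * ρ * Lq + (Q + r * Lq) * (3 * ir * ρ))) ≤ 12 * Real.pi * I +
      200 * Real.pi * (Q + r * Lq + Lq) * (1 + V) * (1 + ir) * ρ := by
    have k1 : 0 ≤ Real.pi * ρ * (r * Lq) * V := by positivity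
    have k2 : 0 ≤ Real.pi * ρ * (r * Lq) * ir := by positivity
    have k3 : 0 ≤ Real.pi * ρ * (r * Lq) * (V * ir) := by positivity
    have k4 : 0 ≤ Real.pi * ρ * Q * V := by positivity
    have k5 : 0 ≤ Real.pi * ρ * Q * ir := by positivity
    have k6 : 0 ≤ Real.pi * ρ * Q * (V * ir) := by positivity
    have k7 : 0 ≤ Real.pi * ρ * Lq * V := by positivity
    have k8 : 0 ≤ Real.pi * ρ * Lq * ir := by positivity
    have k9 : 0 ≤ Real.pi * ρ * Lq * (V * ir) := by positivity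
    nlinarith
  linarith

end Pool.Agent.RankOne
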