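import Pool.Agent.Lib_helper15.RankOne.Defs2
import Pool.Agent.Lib_helper15.Hilden

/-!
# Module S: criteria for hyperinvariant subspaces
-/

set_option autoImplicit false

open MeasureTheory Metric Set Filter Topology

namespace Pool.Agent.RankOne

open Pool.Agent.Lib_helper15

variable {E : Type*} [NormedAddCommGroup E] [NormedSpace ℂ E]

@[simp] theorem dualOp_apply (T : E →L[ℂ] E) (ℓ : StrongDual ℂ E) (x : E) :
    dualOp T ℓ x = ℓ (T x) := by
  simp [dualOp]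

theorem comm_apply {A T : E →L[ℂ] E} (hA : A * T = T * A) (y : E) : A (T y) = T (A y) := by
  have := congrArg (fun S : E →L[ℂ] E => S y) hA
  simpa using this

/-- hyperinvariant subspaces of `T - ζ` and `T` are the same -/
theorem hns_of_sub {T : E →L[ℂ] E} (ζ : ℂ)
    (h : HasNontrivialHyperinvariantSubspace (T - ζ • ContinuousLinearMap.id ℂ E)) :
    HasNontrivialHyperinvariantSubspace T := by
  obtain ⟨M, h1, h2, h3, h4⟩ := h
  refine ⟨M, h1, h2, h3, fun A hA x hx => h4 A ?_ x hx⟩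
  ext y
  have := comm_apply hA y
  simp [this]

theorem hns_of_eigenvector {T : E →L[ℂ] E} (hT : ∀ a : ℂ, T ≠ a • ContinuousLinearMap.id ℂ E)
    {ζ : ℂ} {f : E} (hf : f ≠ 0) (h : T f = ζ • f) : HasNontrivialHyperinvariantSubspace T := by
  apply hns_of_sub ζ
  by_contra hn
  apply hf
  apply ker_eq_bot_of_not hn
  · intro c hc
    apply hT (c + ζ)
    ext y
    have := congrArg (fun S : E →L[ℂ] E => S y) hc
    have h1 : T y - ζ • y = c • y := by simpa using this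
    have h2 : T y = c • y + ζ • y := by rw [← h1]; abel
    simp [h2, add_smul]
  · simp [h]

/-- a linear manifold invariant for the commutant and killed by a nonzero functional -/
theorem hns_of_annihilated {T : E →L[ℂ] E} (N : Submodule ℂ E) (hne : N ≠ ⊥)
    (hN : ∀ A : E →L[ℂ] E, A * T = T * A → ∀ x ∈ N, A x ∈ N) {g : StrongDual ℂ E} (hg : g ≠ 0)
    (hgN : ∀ x ∈ N, g x = 0) : HasNontrivialHyperinvariantSubspace T := by
  by_contra hn
  have htop := closure_eq_top_of_invariant hn N hN hne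
  apply hg
  ext x
  have hx : x ∈ N.topologicalClosure := by rw [htop]; trivial
  have : (N.topologicalClosure : Set E) ⊆ {x | g x = 0} := by
    rw [Submodule.topologicalClosure_coe]
    exact closure_minimal (fun y hy => hgN y hy) (isClosed_eq g.continuous continuous_const)
  simpa using this hx

theorem hns_of_dual_eigenvector {T : E →L[ℂ] E}
    (hT : ∀ a : ℂ, T ≠ a • ContinuousLinearMap.id ℂ E)
    {ζ : ℂ} {g : StrongDual ℂ E} (hg : g ≠ 0) (h : dualOp T g = ζ • g) :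
    HasNontrivialHyperinvariantSubspace T := by
  let N : Submodule ℂ E :=
    LinearMap.range ((T - ζ • ContinuousLinearMap.id ℂ E : E →L[ℂ] E) : E →ₗ[ℂ] E)
  refine hns_of_annihilated N ?_ ?_ hg ?_
  · intro hbot
    apply hT ζ
    ext y
    have : T y - ζ • y ∈ N := ⟨y, by simp⟩
    rw [hbot] at this
    have h0 : T y - ζ • y = 0 := by simpa using this
    simp [sub_eq_zero.mp h0]
  · rintro A hA x ⟨y, rfl⟩
    refine ⟨A y, ?_⟩
    have := comm_apply hA y
    simp [this]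
  · rintro x ⟨y, rfl⟩
    have := congrArg (fun S : StrongDual ℂ E => S y) h
    simp at this
    simp [this]

/-- Step 0 -/
theorem step_zero {T : E →L[ℂ] E} {K₁ K₂ : Set ℂ} (hK₁ : IsCompact K₁) (hK₂ : IsCompact K₂)
    (hd : Disjoint K₁ K₂) {f : E} (hf : LocVec T K₁ f) {g : StrongDual ℂ E}
    (hg : LocVec (dualOp T) K₂ g) (S : E →L[ℂ] E) (hS : S * T = T * S) : g (S f) = 0 := by
  obtain ⟨R, hRd, hR⟩ := hf
  obtain ⟨ψ, hψd, hψ⟩ := hg
  have comm : ∀ A : E →L[ℂ] E, A * T = T * A → ∀ y, A (T y) = T (A y) := by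
    intro A hA y
    have := congrArg (fun S : E →L[ℂ] E => S y) hA
    simpa using this
  have hgy : ∀ ζ ∈ K₂ᶜ, ∀ y, ψ ζ (T y) - ζ * ψ ζ y = g y := by
    intro ζ hζ y
    have := congrArg (fun S : StrongDual ℂ E => S y) (hψ ζ hζ)
    simpa using this
  have key : ∀ A : E →L[ℂ] E, A * T = T * A → ∀ ζ ∈ K₁ᶜ, ζ ∈ K₂ᶜ → ψ ζ (A f) = 0 := by
    intro A hA
    let h : ℂ → ℂ := fun ζ => by
      classical
      exact if ζ ∈ K₁ then ψ ζ (A f) else g (A (R ζ))
    have heq : ∀ ζ ∈ K₂ᶜ, h ζ = ψ ζ (A f) := by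
      intro ζ hζ
      by_cases h1 : ζ ∈ K₁
      · simp [h, h1]
      · have e1 : h ζ = g (A (R ζ)) := by simp [h, h1]
        rw [e1, ← hR ζ h1, map_sub, map_smul, map_sub, map_smul, comm A hA, ← hgy ζ hζ]
        simp
    have heq1 : ∀ ζ ∈ K₁ᶜ, h ζ = g (A (R ζ)) := by
      intro ζ hζ
      have h1 : ζ ∉ K₁ := hζ
      simp [h, h1]
    have hdiff : Differentiable ℂ h := by
      intro ζ
      by_cases h1 : ζ ∈ K₁
      · have h2 : ζ ∈ K₂ᶜ := fun h2 => hd.le_bot ⟨h1, h2⟩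
        have hopen : K₂ᶜ ∈ 𝓝 ζ := hK₂.isClosed.isOpen_compl.mem_nhds h2
        have e : h =ᶠ[𝓝 ζ] fun ζ => ψ ζ (A f) := by
          filter_upwards [hopen] with w hw using heq w hw
        have d1 : DifferentiableAt ℂ ψ ζ := (hψd ζ h2).differentiableAt hopen
        have d2 : DifferentiableAt ℂ (fun ζ => ψ ζ (A f)) ζ :=
          d1.clm_apply (differentiableAt_const _)
        exact d2.congr_of_eventuallyEq e
      · have hopen : K₁ᶜ ∈ 𝓝 ζ := hK₁.isClosed.isOpen_compl.mem_nhds h1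
        have e : h =ᶠ[𝓝 ζ] fun ζ => g (A (R ζ)) := by
          filter_upwards [hopen] with w hw using heq1 w hw
        have d1 : DifferentiableAt ℂ R ζ := (hRd ζ h1).differentiableAt hopen
        have d2 : DifferentiableAt ℂ (fun ζ => g (A (R ζ))) ζ :=
          (g.comp A).differentiableAt.comp ζ d1
        exact d2.congr_of_eventuallyEq e
    have hlim : Tendsto h (cocompact ℂ) (𝓝 0) := by
      have hev : ∀ᶠ ζ in cocompact ℂ, ζ ∉ K₁ ∧ ‖T‖ < ‖ζ‖ := by
        refine Filter.Eventually.and hK₁.compl_mem_cocompact ?_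
        have := tendsto_norm_cocompact_atTop (E := ℂ)
        exact this.eventually_gt_atTop ‖T‖
      have hb : ∀ᶠ ζ in cocompact ℂ, ‖h ζ‖ ≤ ‖g.comp A‖ * (‖f‖ / (‖ζ‖ - ‖T‖)) := by
        filter_upwards [hev] with ζ hζ
        obtain ⟨h1, h2⟩ := hζ
        rw [heq1 ζ h1]
        have h3 : ‖R ζ‖ ≤ ‖f‖ / (‖ζ‖ - ‖T‖) := by
          rw [le_div_iff₀ (by linarith)]
          have h4 : ζ • R ζ = T (R ζ) - f := by rw [← hR ζ h1]; abel
          have h5 : ‖ζ‖ * ‖R ζ‖ ≤ ‖T‖ * ‖R ζ‖ + ‖f‖ := by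
            rw [← norm_smul, h4]
            exact (norm_sub_le _ _).trans (by gcongr; exact T.le_opNorm _)
          nlinarith
        calc ‖g (A (R ζ))‖ = ‖(g.comp A) (R ζ)‖ := by simp
          _ ≤ ‖g.comp A‖ * ‖R ζ‖ := ContinuousLinearMap.le_opNorm _ _
          _ ≤ _ := by gcongr
      refine squeeze_zero_norm' hb ?_
      have t1 : Tendsto (fun ζ : ℂ => ‖ζ‖ - ‖T‖) (cocompact ℂ) atTop :=
        tendsto_atTop_add_const_right _ _ (tendsto_norm_cocompact_atTop (E := ℂ))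
      have t2 : Tendsto (fun ζ : ℂ => ‖f‖ / (‖ζ‖ - ‖T‖)) (cocompact ℂ) (𝓝 0) :=
        Tendsto.const_div_atTop t1 ‖f‖
      simpa using t2.const_mul ‖g.comp A‖
    have hzero : ∀ ζ, h ζ = 0 := fun ζ => hdiff.apply_eq_of_tendsto_cocompact ζ hlim
    intro ζ _ hζ2
    rw [← heq ζ hζ2]
    exact hzero ζ
  -- pick a point outside of both sets
  obtain ⟨ζ, hζ⟩ : ∃ ζ : ℂ, ζ ∉ K₁ ∪ K₂ := by
    by_contra hcon
    push Not at hcon
    have : (K₁ ∪ K₂) = (Set.univ : Set ℂ) := Set.eq_univ_of_forall hcon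
    have hc : IsCompact (Set.univ : Set ℂ) := this ▸ hK₁.union hK₂
    exact noncompact_univ ℂ hc
  have h1 : ζ ∈ K₁ᶜ := fun h => hζ (Or.inl h)
  have h2 : ζ ∈ K₂ᶜ := fun h => hζ (Or.inr h)
  have hTS : (T * S) * T = T * (T * S) := by rw [mul_assoc, hS]
  have a1 := key S hS ζ h1 h2
  have a2 := key (T * S) hTS ζ h1 h2
  rw [← hgy ζ h2 (S f), a1]
  simpa using a2

theorem hns_of_locVec {T : E →L[ℂ] E} {K₁ K₂ : Set ℂ} (hK₁ : IsCompact K₁) (hK₂ : IsCompact K₂)
    (hd : Disjoint K₁ K₂) {f : E} (hf0 : f ≠ 0) (hf : LocVec T K₁ f) {g : StrongDual ℂ E}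
    (hg0 : g ≠ 0) (hg : LocVec (dualOp T) K₂ g) : HasNontrivialHyperinvariantSubspace T := by
  let N : Submodule ℂ E :=
    { carrier := {x | ∃ A : E →L[ℂ] E, A * T = T * A ∧ A f = x}
      add_mem' := by
        rintro a b ⟨A, hA, rfl⟩ ⟨B, hB, rfl⟩
        exact ⟨A + B, by rw [add_mul, mul_add, hA, hB], by simp⟩
      zero_mem' := ⟨0, by simp, by simp⟩
      smul_mem' := by
        rintro c x ⟨A, hA, rfl⟩
        exact ⟨c • A, by rw [smul_mul_assoc, mul_smul_comm, hA], by simp⟩ }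
  refine hns_of_annihilated N ?_ ?_ hg0 ?_
  · intro hbot
    apply hf0
    have : f ∈ N := ⟨1, by simp, by simp⟩
    rw [hbot] at this
    simpa using this
  · rintro A hA x ⟨B, hB, rfl⟩
    exact ⟨A * B, by rw [mul_assoc, hB, ← mul_assoc, hA, mul_assoc], by simp⟩
  · rintro x ⟨A, hA, rfl⟩
    exact step_zero hK₁ hK₂ hd hf hg A hA

/-- Lomonosov's theorem for compact perturbations of scalars, in the form we need. -/
theorem hns_of_compact [CompleteSpace E] {T : E →L[ℂ] E}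
    (hT : ∀ a : ℂ, T ≠ a • ContinuousLinearMap.id ℂ E) (ζ : ℂ)
    (hc : IsCompactOperator (T - ζ • ContinuousLinearMap.id ℂ E : E →L[ℂ] E)) :
    HasNontrivialHyperinvariantSubspace T := by
  by_contra hn
  set S : E →L[ℂ] E := T - ζ • ContinuousLinearMap.id ℂ E with hSdef
  have hnS : ¬ HasNontrivialHyperinvariantSubspace S := fun h => hn (hns_of_sub ζ h)
  have hSsc : ∀ c : ℂ, S ≠ c • ContinuousLinearMap.id ℂ E := by
    intro c hc
    apply hT (c + ζ)
    rw [add_smul, ← hc, hSdef]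
    abel
  have noeig : ∀ (μ : ℂ) (f : E), S f = μ • f → f = 0 := by
    intro μ f hf
    by_contra hf0
    exact hnS (hns_of_eigenvector hSsc hf0 hf)
  have hspec : ∀ μ : ℂ, μ ≠ 0 → μ ∉ spectrum ℂ S := by
    intro μ hμ hμs
    have := (hc.hasEigenvalue_iff_mem_spectrum hμ).mpr hμs
    obtain ⟨f, hf⟩ := this.exists_hasEigenvector
    exact hf.2 (noeig μ f (by simpa using hf.apply_eq_smul))
  have hrad : spectralRadius ℂ S = 0 := by
    rw [spectralRadius]
    refine le_antisymm ?_ bot_le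
    refine iSup₂_le fun k hk => ?_
    by_cases hk0 : k = 0
    · simp [hk0]
    · exact absurd hk (hspec k hk0)
  have hgrowth : ∀ ε : ℝ, 0 < ε → ∀ᶠ n : ℕ in atTop, ‖S ^ n‖ ≤ ε ^ n := by
    intro ε hε
    have h1 := spectrum.pow_norm_pow_one_div_tendsto_nhds_spectralRadius S
    rw [hrad] at h1
    have h2 : ∀ᶠ n : ℕ in atTop, ENNReal.ofReal (‖S ^ n‖ ^ (1 / n : ℝ)) < ENNReal.ofReal ε :=
      h1.eventually_lt_const (by simpa using hε)
    filter_upwards [h2, eventually_gt_atTop 0] with n hn hn0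
    have h3 : ‖S ^ n‖ ^ (1 / n : ℝ) < ε := (ENNReal.ofReal_lt_ofReal_iff hε).mp hn
    have h4 : (‖S ^ n‖ ^ (1 / n : ℝ)) ^ n = ‖S ^ n‖ := by
      rw [one_div]
      exact Real.rpow_inv_natCast_pow (norm_nonneg _) hn0.ne'
    rw [← h4]
    exact pow_le_pow_left₀ (by positivity) h3.le n
  have hS0 : S ≠ 0 := by
    have := hSsc 0
    simpa using this
  obtain ⟨x₀, hx₀⟩ : ∃ x, S x ≠ 0 := by
    by_contra hcon
    push Not at hcon
    exact hS0 (by ext x; simpa using hcon x)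
  have hSn : 0 < ‖S‖ := norm_pos_iff.mpr hS0
  have hSx : 0 < ‖S x₀‖ := norm_pos_iff.mpr hx₀
  obtain ⟨r, hr, hr1, hr2⟩ : ∃ r : ℝ, 0 < r ∧ r < ‖x₀‖ ∧ ‖S‖ * r < ‖S x₀‖ := by
    refine ⟨‖S x₀‖ / (2 * ‖S‖), by positivity, ?_, ?_⟩
    · rw [div_lt_iff₀ (by positivity)]
      have := S.le_opNorm x₀
      nlinarith
    · rw [mul_div_assoc', div_lt_iff₀ (by positivity)]
      nlinarith
  have hloc : ∀ y : ℕ → E, (∀ j, ‖y j - x₀‖ ≤ r) →
      ∃ φ : ℕ → ℕ, StrictMono φ ∧ ∃ V : ℕ → ℕ → E →L[ℂ] E, (∀ j, V j ∈ ({fun _ => S} : Set _)) ∧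
        ∃ w : E, w ≠ 0 ∧ Tendsto (fun j => V j 0 (y (φ j))) atTop (𝓝 w) := by
    intro y hy
    obtain ⟨K, hK, hK'⟩ := hc.image_closedBall_subset_compact (‖x₀‖ + r)
    have hmem : ∀ n, S (y n) ∈ K := by
      intro n
      refine hK' ⟨y n, ?_, rfl⟩
      rw [mem_closedBall, dist_zero_right]
      calc ‖y n‖ = ‖x₀ + (y n - x₀)‖ := by congr 1; abel
        _ ≤ ‖x₀‖ + ‖y n - x₀‖ := norm_add_le _ _
        _ ≤ _ := by linarith [hy n]
    obtain ⟨w, _, ψ, hψ, hlim⟩ := hK.tendsto_subseq hmem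
    refine ⟨ψ, hψ, fun _ _ => S, fun _ => rfl, w, ?_, hlim⟩
    intro hw
    rw [hw] at hlim
    have h1 : ∀ n, ‖S x₀‖ - ‖S‖ * r ≤ ‖S (y (ψ n))‖ := by
      intro n
      have h2 : ‖S (x₀ - y (ψ n))‖ ≤ ‖S‖ * r := by
        refine (S.le_opNorm _).trans ?_
        gcongr
        rw [norm_sub_rev]
        exact hy _
      have h3 : ‖S x₀‖ ≤ ‖S (x₀ - y (ψ n))‖ + ‖S (y (ψ n))‖ := by
        calc ‖S x₀‖ = ‖S (x₀ - y (ψ n)) + S (y (ψ n))‖ := by rw [← map_add]; congr 2; abel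
          _ ≤ _ := norm_add_le _ _
      linarith
    have h4 : ‖S x₀‖ - ‖S‖ * r ≤ 0 := by
      have := ge_of_tendsto' hlim.norm h1
      simpa using this
    linarith
  obtain ⟨c, hc0, z, hz0, hz, hzn⟩ := finite_backward hnS hSsc (fun _ => ‖S‖)
    ({fun _ => S} : Set _) (by rintro V rfl m; rfl) (by rintro V rfl m; rfl) x₀ r hr hloc
  have hpow : ∀ n m, m ≤ n → (S ^ m) (z n m) = z n 0 := by
    intro n m
    induction m with
    | zero => intro _; simp
    | succ m ih =>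
      intro hm
      have e : (S ^ (m + 1)) (z n (m + 1)) = (S ^ m) (S (z n (m + 1))) := by
        rw [pow_succ]; simp
      rw [e, hz n m (by omega)]
      exact ih (by omega)
  have hε : 0 < 1 / (2 * (c * ‖S‖)) := by positivity
  have hhalf : ∀ᶠ n : ℕ in atTop, c * (1 / 2 : ℝ) ^ n < ‖x₀‖ - r := by
    have t : Tendsto (fun n : ℕ => c * (1 / 2 : ℝ) ^ n) atTop (𝓝 (c * 0)) :=
      (tendsto_pow_atTop_nhds_zero_of_lt_one (by norm_num) (by norm_num)).const_mul c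
    rw [mul_zero] at t
    exact t.eventually_lt_const (by linarith)
  obtain ⟨n, hn1, hn2⟩ := ((hgrowth _ hε).and hhalf).exists
  have h5 : ‖z n 0‖ ≤ c * (1 / 2 : ℝ) ^ n := by
    calc ‖z n 0‖ = ‖(S ^ n) (z n n)‖ := by rw [hpow n n le_rfl]
      _ ≤ ‖S ^ n‖ * ‖z n n‖ := ContinuousLinearMap.le_opNorm _ _
      _ ≤ (1 / (2 * (c * ‖S‖))) ^ n * (c ^ (n + 1) * ∏ j ∈ Finset.range n, ‖S‖) := by
          gcongr
          exact hzn n n
      _ = c * (1 / 2 : ℝ) ^ n := by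
          rw [Finset.prod_const, Finset.card_range, one_div_pow, one_div_pow, mul_pow, mul_pow,
            pow_succ]
          field_simp
  have h6 : ‖x₀‖ - r ≤ ‖z n 0‖ := by
    have h7 : ‖x₀‖ ≤ ‖x₀ - z n 0‖ + ‖z n 0‖ := by
      calc ‖x₀‖ = ‖(x₀ - z n 0) + z n 0‖ := by congr 1; abel
        _ ≤ _ := norm_add_le _ _
    rw [norm_sub_rev] at h7
    linarith [hz0 n]
  linarith

end Pool.Agent.RankOne
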