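import Pool.Agent.Lib_helper15.RankOne.DefsT2

/-!
# Module T6: costs of discs
-/

set_option autoImplicit false

open MeasureTheory Metric Set

namespace Pool.Agent.RankOne

universe u

theorem T6 (hA2 : A2_Stmt.{u}) : T6_Stmt.{u} := by
  intro X _ m c φ hD ω ρ hρ q hq S hS
  obtain ⟨hmeas, hloc⟩ := hA2 X m c φ hD
  obtain ⟨hint, hbd⟩ := hloc ω (2 * ρ) (by positivity)
  have hS0 : 0 ≤ S := (norm_nonneg _).trans (hS ω (mem_closedBall_self (by positivity)))
  have hintn : IntegrableOn (fun z => ‖FF m c φ z‖) (closedBall ω (2 * ρ)) := hint.norm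
  have h1 : (∫ z in closedBall ω (2 * ρ), ‖FF m c φ z‖ * ‖q z‖) ≤
      ∫ z in closedBall ω (2 * ρ), ‖FF m c φ z‖ * S := by
    apply setIntegral_mono_on
    · refine (hintn.mul_bdd (c := S) hq.norm.aestronglyMeasurable.restrict ?_)
      filter_upwards [ae_restrict_mem measurableSet_closedBall] with z hz
      rw [norm_norm]
      exact hS z hz
    · exact hintn.mul_const S
    · exact measurableSet_closedBall
    · intro z hz
      gcongr
      exact hS z hz
  rw [integral_mul_const] at h1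
  have h2 : (∫ x, S * (2 * ρ / max (2 * ρ) ‖φ x - ω‖) ∂m) =
      S * ∫ x, 2 * ρ / max (2 * ρ) ‖φ x - ω‖ ∂m := integral_const_mul _ _
  rw [h2]
  have h3 : (∫ z in closedBall ω (2 * ρ), ‖FF m c φ z‖) * S ≤
      (Real.pi * (2 * ρ) ^ 2 + 6 * Real.pi * (2 * ρ) *
        ∫ x, 2 * ρ / max (2 * ρ) ‖φ x - ω‖ ∂m) * S := by gcongr
  calc (1 / ρ) * (∫ z in closedBall ω (2 * ρ), ‖FF m c φ z‖ * ‖q z‖)
      ≤ (1 / ρ) * ((Real.pi * (2 * ρ) ^ 2 + 6 * Real.pi * (2 * ρ) *
        ∫ x, 2 * ρ / max (2 * ρ) ‖φ x - ω‖ ∂m) * S) := by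
        gcongr
        exact h1.trans h3
    _ = _ := by
        field_simp
        ring

end Pool.Agent.RankOne
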